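import Pool.Agent.DWZ.StC
import Pool.Agent.Helper8.HomFil

/-!
# DWZ [Abar]: the matrix is self adjoint for the Hermitian form of signature `(p, q)`
-/

set_option autoImplicit false

namespace DWZ

open scoped ComplexConjugate
open GAM (H E)
open PST DWC
open DWY (cx cy XX XT NS)
open Pool.Agent.GPC (AbVar hermForm bilForm)
open Pool.Agent.Helper7 (exists_bettiBasis isBetti_iff)

private lemma Abar_zd (d : ℚ) : conj (zd d) = -zd d := by
  simp [zd]

private lemma Abar_rot (n m : ℕ) (i : Fin (n + 1)) :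
    ((((finRotate (n + 1)) ^ m) i : Fin (n + 1)) : ℕ) = ((i : ℕ) + m) % (n + 1) := by
  induction m with
  | zero => simp [Nat.mod_eq_of_lt i.2]
  | succ m ih =>
    rw [pow_succ', Equiv.Perm.mul_apply, finRotate_apply, Fin.val_add, ih]
    rcases n with _ | n
    · simp
    · rw [Fin.val_one, Nat.mod_add_mod, add_assoc]

private lemma Abar_jn {V : Type} [AddCommGroup V] [Module ℂ V] (k : ℕ)
    (α : V [⋀^Fin (2 * (k + 1))]→ₗ[ℂ] ℂ) (a b : Fin (k + 1) → V) :
    α (jn k a b) = (-1) ^ (k + 1) * α (jn k b a) := by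
  obtain ⟨σ, hσ⟩ : ∃ σ : Equiv.Perm (Fin ((2 * k + 1) + 1)),
    σ = (finRotate ((2 * k + 1) + 1)) ^ (k + 1) := ⟨_, rfl⟩
  have h1 : jn k a b = jn k b a ∘ σ := by
    funext i
    have h2 := Abar_rot (2 * k + 1) (k + 1) i
    rw [← hσ] at h2
    have h3 := i.2
    rw [Function.comp_apply]
    unfold jn
    by_cases h : (i : ℕ) < k + 1
    · have h4 : ((σ i : Fin ((2 * k + 1) + 1)) : ℕ) = i + (k + 1) := by
        rw [h2, Nat.mod_eq_of_lt (by omega)]
      have h5 : ¬ ((σ i : Fin ((2 * k + 1) + 1)) : ℕ) < k + 1 := by omega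
      rw [dif_pos h, dif_neg h5]
      congr 1
      apply Fin.ext
      show (i : ℕ) = ((σ i : Fin ((2 * k + 1) + 1)) : ℕ) - (k + 1)
      omega
    · have h4 : ((σ i : Fin ((2 * k + 1) + 1)) : ℕ) = i - (k + 1) := by
        rw [h2]
        have h6 : (i : ℕ) + (k + 1) = (i - (k + 1)) + (2 * k + 1 + 1) := by omega
        rw [h6, Nat.add_mod_right, Nat.mod_eq_of_lt (by omega)]
      have h5 : ((σ i : Fin ((2 * k + 1) + 1)) : ℕ) < k + 1 := by omega
      rw [dif_neg h, dif_pos h5]
      congr 1
      apply Fin.ext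
      show (i : ℕ) - (k + 1) = ((σ i : Fin ((2 * k + 1) + 1)) : ℕ)
      omega
  have h2 : Equiv.Perm.sign σ = (-1) ^ (k + 1) := by
    rw [hσ, map_pow, sign_finRotate]
    congr 1
    rw [Nat.add_sub_cancel, pow_succ, pow_mul]
    simp
  rw [h1]
  have h3 := α.map_perm (jn k b a) σ
  rw [h3, h2]
  rcases Nat.even_or_odd (k + 1) with h | h
  · rw [h.neg_one_pow, h.neg_one_pow, one_smul, one_mul]
  · rw [h.neg_one_pow, h.neg_one_pow, Units.neg_smul, one_smul, neg_one_mul]

private lemma Abar_blv (N k : ℕ) (P : PI N (k + 1) ⊕ PI N k → ℂ) (q : PI N (k + 1) ⊕ PI N k) :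
    blv N k P (Pi.single q 1) = P q * Jm (PI N (k + 1)) (PI N k) q q := by
  unfold blv Jm
  rcases q with q | q
  · have h1 : ∑ S : PI N (k + 1), P (Sum.inl S) *
        (Pi.single (Sum.inl q) (1 : ℂ) : PI N (k + 1) ⊕ PI N k → ℂ) (Sum.inl S) =
        P (Sum.inl q) := by
      rw [Finset.sum_eq_single q]
      · rw [Pi.single_eq_same, mul_one]
      · intro b _ hb
        rw [Pi.single_eq_of_ne (fun h => hb (Sum.inl_injective h)), mul_zero]
      · intro h
        exact absurd (Finset.mem_univ _) h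
    have h2 : ∑ S : PI N k, P (Sum.inr S) *
        (Pi.single (Sum.inl q) (1 : ℂ) : PI N (k + 1) ⊕ PI N k → ℂ) (Sum.inr S) = 0 := by
      refine Finset.sum_eq_zero fun b _ => ?_
      rw [Pi.single_eq_of_ne (by simp), mul_zero]
    rw [h1, h2, Matrix.fromBlocks_apply₁₁, Matrix.one_apply_eq, mul_one, sub_zero]
  · have h1 : ∑ S : PI N (k + 1), P (Sum.inl S) *
        (Pi.single (Sum.inr q) (1 : ℂ) : PI N (k + 1) ⊕ PI N k → ℂ) (Sum.inl S) = 0 := by
      refine Finset.sum_eq_zero fun b _ => ?_
      rw [Pi.single_eq_of_ne (by simp), mul_zero]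
    have h2 : ∑ S : PI N k, P (Sum.inr S) *
        (Pi.single (Sum.inr q) (1 : ℂ) : PI N (k + 1) ⊕ PI N k → ℂ) (Sum.inr S) =
        P (Sum.inr q) := by
      rw [Finset.sum_eq_single q]
      · rw [Pi.single_eq_same, mul_one]
      · intro b _ hb
        rw [Pi.single_eq_of_ne (fun h => hb (Sum.inr_injective h)), mul_zero]
      · intro h
        exact absurd (Finset.mem_univ _) h
    rw [h1, h2, Matrix.fromBlocks_apply₂₂, Matrix.neg_apply, Matrix.one_apply_eq, zero_sub,
      mul_neg, mul_one]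

private lemma Abar_J (N k : ℕ) (A : Matrix (PI N (k + 1) ⊕ PI N k) (PI N (k + 1) ⊕ PI N k) ℂ)
    (q p : PI N (k + 1) ⊕ PI N k) :
    (Jm (PI N (k + 1)) (PI N k) * A.transpose * Jm (PI N (k + 1)) (PI N k)) q p =
      Jm (PI N (k + 1)) (PI N k) q q * A p q * Jm (PI N (k + 1)) (PI N k) p p := by
  have hJ : Jm (PI N (k + 1)) (PI N k) =
      Matrix.diagonal (Sum.elim (fun _ => (1 : ℂ)) (fun _ => -1)) := by
    unfold Jm
    ext a b
    rcases a with a | a <;> rcases b with b | b
    · simp [Matrix.diagonal_apply, Matrix.one_apply]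
    · simp
    · simp
    · simp only [Matrix.fromBlocks_apply₂₂, Matrix.neg_apply, Matrix.one_apply,
        Matrix.diagonal_apply, Sum.inr.injEq, Sum.elim_inr]
      split_ifs <;> simp
  rw [hJ, Matrix.mul_diagonal, Matrix.diagonal_mul, Matrix.diagonal_apply_eq,
    Matrix.diagonal_apply_eq, Matrix.transpose_apply]

private lemma Abar_Jsq (N k : ℕ) (q : PI N (k + 1) ⊕ PI N k) :
    Jm (PI N (k + 1)) (PI N k) q q * Jm (PI N (k + 1)) (PI N k) q q = 1 := by
  unfold Jm
  rcases q with q | q
  · rw [Matrix.fromBlocks_apply₁₁, Matrix.one_apply_eq, mul_one]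
  · rw [Matrix.fromBlocks_apply₂₂, Matrix.neg_apply, Matrix.one_apply_eq, neg_mul_neg, mul_one]

theorem thm_Abar (h1 : St_Wdv) (h2 : DWY.St_CxA) : St_Abar := by
  intro N k d m n M X Y J T S Tp Tm Ta Tb κ L T' S' Ta' Tb' LY hD α A hα hA
  obtain ⟨hlx, hly, hex, hinj, -, hB, -⟩ := h2 X d (Fin N) Unit T S Tp Tm Ta Tb κ L hD.nx
  -- coordinates
  have ext : ∀ v w : X.H1, cx X T v = cx X T w → cy X S v = cy X S w → v = w := by
    intro v w e1 e2
    have e3 : cx X T (v - w) = 0 := by
      have e5 : cx X T (v - w) = cx X T v - cx X T w := (IsLinearMap.mk' _ hlx).map_sub v w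
      rw [e5]
      exact sub_eq_zero.2 e1
    have e4 : cy X S (v - w) = 0 := by
      have e5 : cy X S (v - w) = cy X S v - cy X S w := (IsLinearMap.mk' _ hly).map_sub v w
      rw [e5]
      exact sub_eq_zero.2 e2
    exact sub_eq_zero.1 (hinj _ e3 e4)
  choose cc hcx hcy using fun v : X.H1 =>
    hex (fun p => conj (cy X S v p)) (fun p => conj (cx X T v p))
  have ccadd : ∀ v w, cc (v + w) = cc v + cc w := by
    intro v w
    apply ext
    · rw [hcx, hlx.map_add, hly.map_add, hcx, hcx]
      funext p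
      simp only [Pi.add_apply, map_add]
    · rw [hcy, hlx.map_add, hly.map_add, hcy, hcy]
      funext p
      simp only [Pi.add_apply, map_add]
  have ccsmul : ∀ (c : ℂ) v, cc (c • v) = conj c • cc v := by
    intro c v
    apply ext
    · rw [hcx, hlx.map_smul, hly.map_smul, hcx]
      funext p
      simp only [Pi.smul_apply, smul_eq_mul, map_mul]
    · rw [hcy, hlx.map_smul, hly.map_smul, hcy]
      funext p
      simp only [Pi.smul_apply, smul_eq_mul, map_mul]
  have ccB : ∀ v, X.IsBetti v → cc v = v := by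
    intro v hv
    have e1 := ((hB v).1 hv).1
    apply ext
    · rw [hcx]
      funext p
      rw [e1 p, Complex.conj_conj]
    · rw [hcy]
      funext p
      exact (e1 p).symm
  have key : ∀ (u : Fin (2 * (k + 1)) → X.H1) i x,
      (fun j => cc (Function.update u i x j)) = Function.update (fun j => cc (u j)) i (cc x) := by
    intro u i x
    funext j
    by_cases h : j = i
    · subst h
      rw [Function.update_self, Function.update_self]
    · rw [Function.update_of_ne h, Function.update_of_ne h]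
  -- the conjugate form
  let β : MultilinearMap ℂ (fun _ : Fin (2 * (k + 1)) => X.H1) ℂ :=
    { toFun := fun w => conj (α fun i => cc (w i))
      map_update_add' := by
        intro inst u i x y
        obtain rfl : inst = instDecidableEqFin _ := Subsingleton.elim _ _
        show conj (α _) = conj (α _) + conj (α _)
        rw [key, key, key, ccadd, α.map_update_add, map_add]
      map_update_smul' := by
        intro inst u i c x
        obtain rfl : inst = instDecidableEqFin _ := Subsingleton.elim _ _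
        show conj (α _) = c • conj (α _)
        rw [key, key, ccsmul, α.map_update_smul, smul_eq_mul, map_mul, Complex.conj_conj,
          smul_eq_mul] }
  have hβ : ∀ w, β w = conj (α fun i => cc (w i)) := fun w => rfl
  obtain ⟨ι, fι, b, hb⟩ := exists_bettiBasis X
  have hbB : ∀ i, X.IsBetti (b i) := by
    intro i
    rw [isBetti_iff, ← hb]
    exact Submodule.subset_span ⟨i, rfl⟩
  have hmul : β = ((-1 : ℂ) ^ (k + 1)) • α.toMultilinearMap := by
    refine Module.Basis.ext_multilinear (fun _ => b) fun v => ?_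
    rw [hβ]
    have e1 : (fun i => cc (b (v i))) = fun i => b (v i) := by
      funext i
      exact ccB _ (hbB _)
    rw [e1]
    obtain ⟨c, hc⟩ := hα (fun i => b (v i)) fun r => hbB _
    show conj (α _) = (-1 : ℂ) ^ (k + 1) • α _
    rw [hc, smul_eq_mul, map_mul, map_pow]
    simp only [map_mul, Complex.conj_ofReal, Complex.conj_I, map_ofNat, map_ratCast]
    rw [← mul_assoc, ← mul_pow]
    congr 2
    ring
  have hconj : ∀ w : Fin (2 * (k + 1)) → X.H1,
      conj (α w) = (-1) ^ (k + 1) * α (fun i => cc (w i)) := by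
    intro w
    have e1 := congrArg (fun f => f w) hmul
    have e2 : conj (α fun i => cc (w i)) = (-1) ^ (k + 1) * α w := e1
    have e3 := congrArg conj e2
    rw [Complex.conj_conj, map_mul, map_pow, map_neg, map_one] at e3
    rw [e3, ← mul_assoc, ← mul_pow, neg_one_mul, neg_neg, one_pow, one_mul]
  -- eigenvectors
  have hvec : ∀ f g : IX N → ℂ, ∃ v : X.H1, XX X T S v = f ∧ XT X T S v = g := by
    intro f g
    obtain ⟨v, e1, e2⟩ := hex (fun t => Sum.elim (fun _ => f t) (fun _ => g t) t.1)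
      (fun t => Sum.elim (fun _ => g t) (fun _ => f t) t.1)
    refine ⟨v, ?_, ?_⟩
    · funext t
      unfold XX
      rw [e1, e2]
      rcases t with ⟨t | t, s⟩ <;> rfl
    · funext t
      unfold XT
      rw [e1, e2]
      rcases t with ⟨t | t, s⟩ <;> rfl
  have ext2 : ∀ v w : X.H1, XX X T S v = XX X T S w → XT X T S v = XT X T S w → v = w := by
    intro v w e1 e2
    apply ext
    · funext t
      rcases t with ⟨t | t, s⟩
      · exact congrFun e1 (Sum.inl t, s)
      · exact congrFun e2 (Sum.inr t, s)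
    · funext t
      rcases t with ⟨t | t, s⟩
      · exact congrFun e2 (Sum.inl t, s)
      · exact congrFun e1 (Sum.inr t, s)
  have XXs : ∀ (c : ℂ) v p, XX X T S (c • v) p = c * XX X T S v p := by
    intro c v p
    unfold XX
    rw [hlx.map_smul, hly.map_smul]
    rcases p with ⟨p | p, s⟩ <;> rfl
  have XTs : ∀ (c : ℂ) v p, XT X T S (c • v) p = c * XT X T S v p := by
    intro c v p
    unfold XT
    rw [hlx.map_smul, hly.map_smul]
    rcases p with ⟨p | p, s⟩ <;> rfl
  have ccX : ∀ v p, XX X T S (cc v) p = conj (XT X T S v p) := by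
    intro v p
    unfold XX XT
    rw [hcx, hcy]
    rcases p with ⟨p | p, s⟩ <;> rfl
  have ccT : ∀ v p, XT X T S (cc v) p = conj (XX X T S v p) := by
    intro v p
    unfold XX XT
    rw [hcx, hcy]
    rcases p with ⟨p | p, s⟩ <;> rfl
  have eigX : ∀ v : X.H1, XT X T S v = 0 → J v = zd d • v := by
    intro v h
    apply ext2
    · funext p
      rw [hD.jx, XXs]
    · funext p
      rw [hD.jt, XTs, h, Pi.zero_apply, mul_zero, neg_zero]
  have eigT : ∀ v : X.H1, XX X T S v = 0 → J v = (-zd d) • v := by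
    intro v h
    apply ext2
    · funext p
      rw [hD.jx, XXs, h, Pi.zero_apply, mul_zero, mul_zero]
    · funext p
      rw [hD.jt, XTs, neg_mul]
  obtain ⟨-, hw1, -, -, -⟩ := h1 N k
  ext q p
  rw [Matrix.map_apply, Abar_J]
  choose u hu1 hu2 using fun i : Fin (k + 1) =>
    hvec (fun t => (Pi.single (ix N k p i) (1 : ℂ) : Fin N ⊕ Unit → ℂ) t.1) 0
  choose v hv1 hv2 using fun i : Fin (k + 1) =>
    hvec 0 (fun t => (Pi.single (ix N k q i) (1 : ℂ) : Fin N ⊕ Unit → ℂ) t.1)
  have wu : wX N k X T S u = Pi.single p 1 := by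
    unfold wX
    rw [← hw1 p]
    congr 1
    funext i s
    rw [hu1]
  have wv : wT N k X T S v = Pi.single q 1 := by
    unfold wT
    rw [← hw1 q]
    congr 1
    funext i s
    rw [hv2]
  have cs : ∀ (a s : Fin N ⊕ Unit), conj ((Pi.single a (1 : ℂ) : Fin N ⊕ Unit → ℂ) s) =
      (Pi.single a (1 : ℂ) : Fin N ⊕ Unit → ℂ) s := by
    intro a s
    by_cases h : s = a
    · subst h
      rw [Pi.single_eq_same, map_one]
    · rw [Pi.single_eq_of_ne h, map_zero]
  have wcv : wX N k X T S (fun i => cc (v i)) = Pi.single q 1 := by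
    unfold wX
    rw [← hw1 q]
    congr 1
    funext i s
    rw [ccX, hv2, cs]
  have wcu : wT N k X T S (fun i => cc (u i)) = Pi.single p 1 := by
    unfold wT
    rw [← hw1 p]
    congr 1
    funext i s
    rw [ccT, hu1, cs]
  have a1 := hA u v (fun i => eigX _ (hu2 i)) (fun i => eigT _ (hv1 i))
  have a2 := hA (fun i => cc (v i)) (fun i => cc (u i))
    (fun i => eigX _ (by
      funext t
      rw [ccT, hv1, Pi.zero_apply, map_zero]))
    (fun i => eigT _ (by
      funext t
      rw [ccX, hu2, Pi.zero_apply, map_zero]))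
  rw [wu, wv, Abar_blv, Matrix.mulVec_single_one] at a1
  rw [wcv, wcu, Abar_blv, Matrix.mulVec_single_one] at a2
  have a3 := hconj (jn k u v)
  have a4 : (fun i => cc (jn k u v i)) = jn k (fun i => cc (u i)) fun i => cc (v i) := by
    funext i
    unfold jn
    split_ifs <;> rfl
  rw [a4, Abar_jn k α (fun i => cc (u i)) (fun i => cc (v i)), ← mul_assoc, ← mul_pow, neg_one_mul, neg_neg, one_pow, one_mul, a1, a2,
    map_mul, map_pow, Complex.conj_ofReal, map_mul] at a3
  have hpi : (Real.pi : ℂ) ^ (k + 1) ≠ 0 := pow_ne_zero _ (Complex.ofReal_ne_zero.2 Real.pi_ne_zero)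
  have a5 := mul_left_cancel₀ hpi a3
  have a6 : conj (Jm (PI N (k + 1)) (PI N k) q q) = Jm (PI N (k + 1)) (PI N k) q q := by
    unfold Jm
    rcases q with q | q
    · rw [Matrix.fromBlocks_apply₁₁, Matrix.one_apply_eq, map_one]
    · rw [Matrix.fromBlocks_apply₂₂, Matrix.neg_apply, Matrix.one_apply_eq, map_neg, map_one]
  rw [a6] at a5
  have a7 : conj (A q p) * Jm (PI N (k + 1)) (PI N k) q q =
      A p q * Jm (PI N (k + 1)) (PI N k) p p := a5
  have a8 := Abar_Jsq N k q
  linear_combination (Jm (PI N (k + 1)) (PI N k) q q) * a7 - conj (A q p) * a8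

end DWZ
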