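import Pool.Agent.DWZ.StC

/-!
# DWZ [Abet]: the matrix of a rational class preserves the lattice, up to isogeny
-/

set_option autoImplicit false

namespace DWZ

open scoped ComplexConjugate
open GAM (H E PLat)
open PST DWC DWY
open Pool.Agent.GPC (AbVar hermForm bilForm)

/-! ## The field `ℚ(i √d)` -/

private def Abet_K (d : ℚ) (c : ℂ) : Prop := ∃ a b : ℚ, c = (a : ℂ) + (b : ℂ) * zd d

private lemma Abet_zd2 (d : ℚ) (hd : 0 < d) : zd d * zd d = -(d : ℂ) := by
  unfold zd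
  have h1 : ((Real.sqrt (d : ℝ) : ℝ) : ℂ) * ((Real.sqrt (d : ℝ) : ℝ) : ℂ) = (d : ℂ) := by
    rw [← Complex.ofReal_mul, Real.mul_self_sqrt (by exact_mod_cast hd.le)]
    push_cast
    rfl
  have h2 : Complex.I * Complex.I = -1 := Complex.I_mul_I
  linear_combination Complex.I * Complex.I * h1 + (d : ℂ) * h2

private lemma Abet_zdc (d : ℚ) : conj (zd d) = -zd d := by
  unfold zd
  rw [map_mul, Complex.conj_ofReal, Complex.conj_I]
  ring

private lemma Abet_Kadd {d : ℚ} {x y : ℂ} (hx : Abet_K d x) (hy : Abet_K d y) :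
    Abet_K d (x + y) := by
  obtain ⟨a, b, rfl⟩ := hx
  obtain ⟨a', b', rfl⟩ := hy
  exact ⟨a + a', b + b', by push_cast; ring⟩

private lemma Abet_Kmul {d : ℚ} (hd : 0 < d) {x y : ℂ} (hx : Abet_K d x) (hy : Abet_K d y) :
    Abet_K d (x * y) := by
  obtain ⟨a, b, rfl⟩ := hx
  obtain ⟨a', b', rfl⟩ := hy
  refine ⟨a * a' - d * (b * b'), a * b' + b * a', ?_⟩
  push_cast
  linear_combination ((b : ℂ) * b') * Abet_zd2 d hd

private lemma Abet_Kq (d q : ℚ) : Abet_K d (q : ℂ) := ⟨q, 0, by rw [Rat.cast_zero]; ring⟩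

private lemma Abet_Kz (d q : ℚ) : Abet_K d ((q : ℂ) * zd d) := ⟨0, q, by rw [Rat.cast_zero]; ring⟩

/-! ## Multilinear maps -/

private lemma Abet_ml {V : Type} [AddCommGroup V] [Module ℂ V] {m : ℕ} (d : ℚ) (hd : 0 < d)
    (ϖ : ℂ) (f : MultilinearMap ℂ (fun _ : Fin m => V) ℂ) (B : V → Prop)
    (hf : ∀ v : Fin m → V, (∀ i, B (v i)) → ∃ c, Abet_K d c ∧ f v = ϖ * c)
    (s : Finset (Fin m)) :
    ∀ v : Fin m → V, (∀ i, i ∉ s → B (v i)) →
      (∀ i, i ∈ s → ∃ (c c' : ℂ) (b b' : V), Abet_K d c ∧ Abet_K d c' ∧ B b ∧ B b' ∧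
        v i = c • b + c' • b') → ∃ c, Abet_K d c ∧ f v = ϖ * c := by
  classical
  induction s using Finset.induction_on with
  | empty =>
    intro v hv _
    exact hf v (fun i => hv i (Finset.notMem_empty i))
  | insert i s hi ih =>
    intro v hv hs
    obtain ⟨c, c', b, b', hc, hc', hb, hb', he⟩ := hs i (Finset.mem_insert_self _ _)
    have h1 : f v = c * f (Function.update v i b) + c' * f (Function.update v i b') := by
      have h2 : v = Function.update v i (c • b + c' • b') := by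
        rw [← he, Function.update_eq_self]
      conv_lhs => rw [h2]
      rw [f.map_update_add, f.map_update_smul, f.map_update_smul, smul_eq_mul, smul_eq_mul]
    have key : ∀ b₀, B b₀ → ∃ c, Abet_K d c ∧ f (Function.update v i b₀) = ϖ * c := by
      intro b₀ hb₀
      apply ih
      · intro j hj
        by_cases hji : j = i
        · subst hji
          rw [Function.update_self]
          exact hb₀
        · rw [Function.update_of_ne hji]
          exact hv j (fun h => (Finset.mem_insert.1 h).elim hji hj)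
      · intro j hj
        have hji : j ≠ i := fun h => hi (h ▸ hj)
        rw [Function.update_of_ne hji]
        exact hs j (Finset.mem_insert_of_mem hj)
    obtain ⟨x, hx, hx'⟩ := key b hb
    obtain ⟨y, hy, hy'⟩ := key b' hb'
    exact ⟨c * x + c' * y, Abet_Kadd (Abet_Kmul hd hc hx) (Abet_Kmul hd hc' hy), by
      rw [h1, hx', hy']; ring⟩

/-! ## Coordinates -/

section gen

variable {α β : Type}

private lemma Abet_sw (x : Ix α β Unit → ℂ) : sw (sw x) = x := by
  funext p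
  rcases p with ⟨p | p, u⟩
  · rfl
  · simp [sw]

private lemma Abet_swa (x y : Ix α β Unit → ℂ) : sw (x + y) = sw x + sw y := by
  funext p
  rcases p with ⟨p | p, u⟩
  · rfl
  · simp [sw]

private lemma Abet_sws (r : ℝ) (x : Ix α β Unit → ℂ) : sw ((r : ℂ) • x) = (r : ℂ) • sw x := by
  funext p
  rcases p with ⟨p | p, u⟩
  · rfl
  · simp [sw]

private lemma Abet_acta [Fintype α] [Fintype β] (g : Matrix (α ⊕ β) (α ⊕ β) ℂ)
    (x y : Ix α β Unit → ℂ) : act g (x + y) = act g x + act g y := by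
  have h1 : mu g (sw (x + y)) = mu g (sw x) + mu g (sw y) := by
    rw [Abet_swa]
    funext p
    show ∑ q, g p.1 q * (sw x (q, p.2) + sw y (q, p.2)) =
      ∑ q, g p.1 q * sw x (q, p.2) + ∑ q, g p.1 q * sw y (q, p.2)
    rw [← Finset.sum_add_distrib]
    exact Finset.sum_congr rfl fun q _ => by ring
  unfold act
  rw [h1, Abet_swa]

private lemma Abet_acts [Fintype α] [Fintype β] (g : Matrix (α ⊕ β) (α ⊕ β) ℂ) (r : ℝ)
    (x : Ix α β Unit → ℂ) : act g ((r : ℂ) • x) = (r : ℂ) • act g x := by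
  have h1 : mu g (sw ((r : ℂ) • x)) = (r : ℂ) • mu g (sw x) := by
    rw [Abet_sws]
    funext p
    show ∑ q, g p.1 q * ((r : ℂ) * sw x (q, p.2)) = (r : ℂ) * ∑ q, g p.1 q * sw x (q, p.2)
    rw [Finset.mul_sum]
    exact Finset.sum_congr rfl fun q _ => by ring
  unfold act
  rw [h1, Abet_sws]

private lemma Abet_zs {ι : Type} (m : ℤ) (x : ι → ℂ) : m • x = ((m : ℝ) : ℂ) • x := by
  funext p
  rw [Pi.smul_apply, Pi.smul_apply, zsmul_eq_mul, smul_eq_mul, Complex.ofReal_intCast]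

private lemma Abet_El {ι : Type} [Fintype ι] (r : ℝ) (x y : ι → ℂ) :
    E ((r : ℂ) • x) y = r * E x y := by
  unfold E
  rw [GAM.H_smul_left, Complex.im_ofReal_mul]

private lemma Abet_Er {ι : Type} [Fintype ι] (r : ℝ) (x y : ι → ℂ) :
    E x ((r : ℂ) • y) = r * E x y := by
  unfold E
  rw [GAM.H_smul_right, Complex.conj_ofReal, Complex.im_ofReal_mul]

private lemma Abet_kap [Fintype α] [Fintype β] [DecidableEq α] [DecidableEq β] (d : ℚ) (N : ℕ)
    (x : Ix α β Unit → ℂ) :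
    act (kap α β d N) x = sw (fun p => ((N : ℂ) * zd d) * sw x p) := by
  unfold act
  congr 1
  funext p
  show ∑ q, kap α β d N p.1 q * sw x (q, p.2) = _
  rw [Finset.sum_eq_single p.1]
  · simp [kap]
  · intro q _ hq
    simp [kap, Matrix.one_apply_ne (Ne.symm hq)]
  · intro h
    exact absurd (Finset.mem_univ _) h

end gen

private lemma Abet_E (N k : ℕ) (y x : IY N k → ℂ) :
    (blv N k (fun p => sw y (p, ())) (fun p => conj (sw x (p, ())))).im = E y x := by
  unfold E H blv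
  rw [Fintype.sum_prod_type, Fintype.sum_sum_type]
  simp only [Finset.univ_unique, Finset.sum_singleton, PUnit.default_eq_unit, sw, Sum.elim_inl,
    Sum.elim_inr, Complex.conj_conj, Complex.sub_im, Complex.add_im, Complex.im_sum]
  rw [sub_eq_add_neg, ← Finset.sum_neg_distrib]
  congr 1
  refine Finset.sum_congr rfl (fun i _ => ?_)
  simp only [Complex.mul_im, Complex.conj_re, Complex.conj_im]
  ring

private lemma Abet_bls (N k : ℕ) (r s : ℂ)
    (A : Matrix (PI N (k + 1) ⊕ PI N k) (PI N (k + 1) ⊕ PI N k) ℂ)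
    (P Q : PI N (k + 1) ⊕ PI N k → ℂ) :
    blv N k (A.mulVec (r • P)) (s • Q) = r * s * blv N k (A.mulVec P) Q := by
  rw [Matrix.mulVec_smul]
  simp only [blv, Pi.smul_apply, smul_eq_mul, mul_sub, Finset.mul_sum]
  congr 1
  · exact Finset.sum_congr rfl fun i _ => by ring
  · exact Finset.sum_congr rfl fun i _ => by ring

/-! ## Rationality -/

private lemma Abet_im (x y : ℝ) : ((x : ℂ) + (y : ℂ) * Complex.I).im = y := by
  simp

private lemma Abet_rat (d : ℚ) (hd : 0 < d) (n k : ℕ) (c : ℂ) (hc : Abet_K d c) :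
    ∃ q : ℚ, ((n : ℝ) * d4 d ^ k) * ((n : ℝ) * d4 d ^ k) *
      ((2 * Complex.I) ^ (k + 1) * c).im = q := by
  obtain ⟨a, b, rfl⟩ := hc
  obtain ⟨t, ht⟩ : ∃ t : ℝ, t = Real.sqrt (d : ℝ) := ⟨_, rfl⟩
  have hdR : (0 : ℝ) < d := by exact_mod_cast hd
  have ht0 : 0 < t := by rw [ht]; exact Real.sqrt_pos.2 hdR
  have htt : t * t = d := by rw [ht]; exact Real.mul_self_sqrt hdR.le
  have h4 : d4 d * d4 d = t⁻¹ := by
    unfold d4
    rw [← ht, ← mul_inv, Real.mul_self_sqrt ht0.le]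
  have h5 : ((n : ℝ) * d4 d ^ k) * ((n : ℝ) * d4 d ^ k) = (n : ℝ) * n * (t⁻¹) ^ k := by
    rw [← h4, mul_pow]; ring
  have hz : zd d = (t : ℂ) * Complex.I := by rw [ht]; rfl
  rw [h5, hz]
  have hI4 : ∀ j : ℕ, ((2 * Complex.I) ^ (2 * j) : ℂ) = (((-4 : ℝ) ^ j : ℝ) : ℂ) := by
    intro j
    rw [pow_mul, mul_pow, Complex.I_sq]
    push_cast
    norm_num
  have hd0 : (d : ℝ) ≠ 0 := hdR.ne'
  have htne : t ≠ 0 := ht0.ne'
  have htj : ∀ j : ℕ, (t⁻¹) ^ (2 * j) = ((d : ℝ) ^ j)⁻¹ := by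
    intro j
    rw [inv_pow, pow_mul, pow_two, htt]
  rcases Nat.even_or_odd' k with ⟨j, hj | hj⟩
  · subst hj
    refine ⟨n * n * (d ^ j)⁻¹ * ((-4) ^ j * (2 * a)), ?_⟩
    rw [htj, pow_succ, hI4]
    have h6 : ((((-4 : ℝ) ^ j : ℝ) : ℂ) * (2 * Complex.I) *
        ((a : ℂ) + (b : ℂ) * ((t : ℂ) * Complex.I))).im = (-4) ^ j * (2 * a) := by
      have h7 : (((-4 : ℝ) ^ j : ℝ) : ℂ) * (2 * Complex.I) *
          ((a : ℂ) + (b : ℂ) * ((t : ℂ) * Complex.I)) =
          (((-4 : ℝ) ^ j * (-(2 * b * t)) : ℝ) : ℂ) +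
            (((-4 : ℝ) ^ j * (2 * a) : ℝ) : ℂ) * Complex.I := by
        push_cast
        linear_combination (2 * (-4 : ℂ) ^ j * b * t) * Complex.I_mul_I
      rw [h7]
      exact Abet_im _ _
    rw [h6]
    push_cast
    ring
  · subst hj
    refine ⟨n * n * (d ^ j)⁻¹ * ((-4) ^ (j + 1) * b), ?_⟩
    have h8 : 2 * j + 1 + 1 = 2 * (j + 1) := by ring
    rw [h8, hI4, pow_succ, htj]
    have h6 : ((((-4 : ℝ) ^ (j + 1) : ℝ) : ℂ) *
        ((a : ℂ) + (b : ℂ) * ((t : ℂ) * Complex.I))).im = (-4) ^ (j + 1) * (b * t) := by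
      have h7 : (((-4 : ℝ) ^ (j + 1) : ℝ) : ℂ) *
          ((a : ℂ) + (b : ℂ) * ((t : ℂ) * Complex.I)) =
          (((-4 : ℝ) ^ (j + 1) * a : ℝ) : ℂ) +
            (((-4 : ℝ) ^ (j + 1) * (b * t) : ℝ) : ℂ) * Complex.I := by
        push_cast
        ring
      rw [h7]
      exact Abet_im _ _
    rw [h6]
    push_cast
    field_simp

/-! ## The values on the lattice -/

private lemma Abet_gen (N k : ℕ) (d : ℚ) (hd : 0 < d) (X : AbVar) (J : Module.End ℂ X.H1)
    (T : Matrix (IX N) (Fin X.g) ℂ) (S : Matrix (Fin X.g) (IX N) ℂ)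
    (L : Submodule ℤ (IX N → ℂ)) (N' : ℕ) (hN' : N' ≠ 0) (kl : KL d N' L)
    (lx : IsLinearMap ℂ (cx X T)) (ly : IsLinearMap ℂ (cy X S))
    (sur : ∀ x y : IX N → ℂ, ∃ v, cx X T v = x ∧ cy X S v = y)
    (inj : ∀ v, cx X T v = 0 → cy X S v = 0 → v = 0)
    (bet : ∀ v, X.IsBetti v ↔ (∀ p, cy X S v p = conj (cx X T v p)) ∧
      ∃ n : ℕ, n ≠ 0 ∧ (n : ℤ) • cx X T v ∈ L)
    (jx : ∀ v p, XX X T S (J v) p = zd d * XX X T S v p)
    (jt : ∀ v p, XT X T S (J v) p = -(zd d * XT X T S v p))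
    (h1 : St_Wdv) (α : X.Class (2 * (k + 1))) (hα : X.IsRational (k + 1) α)
    (A : Matrix (PI N (k + 1) ⊕ PI N k) (PI N (k + 1) ⊕ PI N k) ℂ)
    (hA : MatA N k d X J T S α A) (l m : Fin (k + 1) → IX N → ℂ) (hl : ∀ i, l i ∈ L)
    (hm : ∀ i, m i ∈ L) :
    ∃ c, Abet_K d c ∧ blv N k (A.mulVec (wdv N k fun i s => sw (l i) (s, ())))
      (fun p => conj (wdv N k (fun i s => sw (m i) (s, ())) p)) =
        (2 * Complex.I) ^ (k + 1) * c := by
  have hd0 : (d : ℂ) ≠ 0 := by exact_mod_cast hd.ne'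
  have hz2 := Abet_zd2 d hd
  -- coordinates of `J v`
  have jJ : ∀ v, J (J v) = -(d : ℂ) • v := by
    intro v
    have e1 : ∀ p, XX X T S (J (J v)) p = -(d : ℂ) * XX X T S v p := by
      intro p
      rw [jx, jx]
      linear_combination (XX X T S v p) * hz2
    have e2 : ∀ p, XT X T S (J (J v)) p = -(d : ℂ) * XT X T S v p := by
      intro p
      rw [jt, jt]
      linear_combination (XT X T S v p) * hz2
    have e3 : cx X T (J (J v) - -(d : ℂ) • v) = 0 := by
      rw [lx.map_sub, lx.map_smul]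
      funext p
      rcases p with ⟨p | p, u⟩
      · have := e1 (Sum.inl p, u)
        show cx X T (J (J v)) (Sum.inl p, u) - -(d : ℂ) * cx X T v (Sum.inl p, u) = 0
        exact sub_eq_zero.2 this
      · have := e2 (Sum.inr p, u)
        show cx X T (J (J v)) (Sum.inr p, u) - -(d : ℂ) * cx X T v (Sum.inr p, u) = 0
        exact sub_eq_zero.2 this
    have e4 : cy X S (J (J v) - -(d : ℂ) • v) = 0 := by
      rw [ly.map_sub, ly.map_smul]
      funext p
      rcases p with ⟨p | p, u⟩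
      · have := e2 (Sum.inl p, u)
        show cy X S (J (J v)) (Sum.inl p, u) - -(d : ℂ) * cy X S v (Sum.inl p, u) = 0
        exact sub_eq_zero.2 this
      · have := e1 (Sum.inr p, u)
        show cy X S (J (J v)) (Sum.inr p, u) - -(d : ℂ) * cy X S v (Sum.inr p, u) = 0
        exact sub_eq_zero.2 this
    exact sub_eq_zero.1 (inj _ e3 e4)
  -- Betti vectors
  have lift : ∀ x, x ∈ L → ∃ v, X.IsBetti v ∧ X.IsBetti (J v) ∧ cx X T v = x ∧
      cy X S v = fun p => conj (x p) := by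
    intro x hx
    obtain ⟨v, hv1, hv2⟩ := sur x (fun p => conj (x p))
    have b1 : X.IsBetti v := by
      rw [bet]
      refine ⟨fun p => by rw [hv1, hv2], 1, one_ne_zero, ?_⟩
      rw [hv1, Nat.cast_one, one_smul]
      exact hx
    refine ⟨v, b1, ?_, hv1, hv2⟩
    rw [bet]
    constructor
    · intro p
      rcases p with ⟨p | p, u⟩
      · have e1 : cx X T (J v) (Sum.inl p, u) = zd d * cx X T v (Sum.inl p, u) :=
          jx v (Sum.inl p, u)
        have e2 : cy X S (J v) (Sum.inl p, u) = -(zd d * cy X S v (Sum.inl p, u)) :=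
          jt v (Sum.inl p, u)
        rw [e1, e2, hv1, hv2, map_mul, Abet_zdc]
        ring
      · have e1 : cy X S (J v) (Sum.inr p, u) = zd d * cy X S v (Sum.inr p, u) :=
          jx v (Sum.inr p, u)
        have e2 : cx X T (J v) (Sum.inr p, u) = -(zd d * cx X T v (Sum.inr p, u)) :=
          jt v (Sum.inr p, u)
        rw [e1, e2, hv1, hv2, map_neg, map_mul, Abet_zdc]
        ring
    · refine ⟨N', hN', ?_⟩
      have e3 : (N' : ℤ) • cx X T (J v) = act (kap (Fin N) Unit d N') x := by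
        rw [Abet_kap]
        funext p
        rw [Pi.smul_apply, zsmul_eq_mul, Int.cast_natCast]
        rcases p with ⟨p | p, u⟩
        · have e1 : cx X T (J v) (Sum.inl p, u) = zd d * cx X T v (Sum.inl p, u) :=
            jx v (Sum.inl p, u)
          rw [e1, hv1]
          show (N' : ℂ) * (zd d * x (Sum.inl p, u)) = ((N' : ℂ) * zd d) * x (Sum.inl p, u)
          ring
        · have e2 : cx X T (J v) (Sum.inr p, u) = -(zd d * cx X T v (Sum.inr p, u)) :=
            jt v (Sum.inr p, u)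
          rw [e2, hv1]
          show (N' : ℂ) * -(zd d * x (Sum.inr p, u)) =
            conj (((N' : ℂ) * zd d) * conj (x (Sum.inr p, u)))
          rw [map_mul, map_mul, Complex.conj_conj, Abet_zdc, Complex.conj_natCast]
          ring
      rw [e3]
      exact kl _ hx
  choose v hv hJv hv1 hv2 using fun i => lift (l i) (hl i)
  choose v' hv' hJv' hv1' hv2' using fun i => lift (m i) (hm i)
  -- eigenvectors
  obtain ⟨u, hu⟩ : ∃ u : Fin (k + 1) → X.H1, u = fun i =>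
    ((1 / 2 : ℚ) : ℂ) • v i + (((-1 / (2 * d) : ℚ) : ℂ) * zd d) • J (v i) := ⟨_, rfl⟩
  obtain ⟨u', hu'⟩ : ∃ u : Fin (k + 1) → X.H1, u = fun i =>
    ((1 / 2 : ℚ) : ℂ) • v' i + (((1 / (2 * d) : ℚ) : ℂ) * zd d) • J (v' i) := ⟨_, rfl⟩
  have hc1 : (((-1 / (2 * d) : ℚ) : ℂ) * zd d) * -(d : ℂ) = ((1 / 2 : ℚ) : ℂ) * zd d := by
    push_cast
    field_simp
  have hc2 : (((-1 / (2 * d) : ℚ) : ℂ) * zd d) * zd d = ((1 / 2 : ℚ) : ℂ) := by
    push_cast
    field_simp
    linear_combination -hz2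
  have hJu : ∀ i, J (u i) = zd d • u i := by
    intro i
    rw [hu]
    simp only [map_add, map_smul, jJ, smul_add, smul_smul]
    rw [hc1, mul_comm (zd d) (((-1 / (2 * d) : ℚ) : ℂ) * zd d), hc2, add_comm,
      mul_comm (zd d) ((1 / 2 : ℚ) : ℂ)]
  have hc3 : (((1 / (2 * d) : ℚ) : ℂ) * zd d) * -(d : ℂ) = -(((1 / 2 : ℚ) : ℂ) * zd d) := by
    push_cast
    field_simp
  have hc4 : (((1 / (2 * d) : ℚ) : ℂ) * zd d) * zd d = -((1 / 2 : ℚ) : ℂ) := by
    push_cast
    field_simp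
    linear_combination hz2
  have hJu' : ∀ i, J (u' i) = (-zd d) • u' i := by
    intro i
    rw [hu']
    simp only [map_add, map_smul, jJ, smul_add, smul_smul]
    rw [hc3, neg_mul, neg_mul, mul_comm (zd d) (((1 / (2 * d) : ℚ) : ℂ) * zd d), hc4, add_comm,
      mul_comm (zd d) ((1 / 2 : ℚ) : ℂ), neg_neg]
  -- the value of the class
  have hval : ∃ c, Abet_K d c ∧ α (jn k u u') = (2 * Real.pi * Complex.I) ^ (k + 1) * c := by
    refine Abet_ml d hd ((2 * Real.pi * Complex.I) ^ (k + 1))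
      (α : MultilinearMap ℂ (fun _ : Fin (2 * (k + 1)) => X.H1) ℂ) X.IsBetti ?_ Finset.univ
      (jn k u u') (fun i hi => absurd (Finset.mem_univ _) hi) ?_
    · intro w hw
      obtain ⟨q, hq⟩ := hα w hw
      exact ⟨q, ⟨q, 0, by push_cast; ring⟩, hq⟩
    · intro i _
      by_cases hi : (i : ℕ) < k + 1
      · refine ⟨_, _, v ⟨i, hi⟩, J (v ⟨i, hi⟩), Abet_Kq d (1 / 2), Abet_Kz d (-1 / (2 * d)),
          hv _, hJv _, ?_⟩
        unfold jn
        rw [dif_pos hi, hu]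
      · refine ⟨_, _, v' ⟨(i : ℕ) - (k + 1), by omega⟩, J (v' ⟨(i : ℕ) - (k + 1), by omega⟩),
          Abet_Kq d (1 / 2), Abet_Kz d (1 / (2 * d)), hv' _, hJv' _, ?_⟩
        unfold jn
        rw [dif_neg hi, hu']
  obtain ⟨c, hc, hcv⟩ := hval
  have hM := hA u u' hJu hJu'
  rw [hcv] at hM
  -- the coordinates
  have hX : ∀ i p, XX X T S (u i) p = sw (l i) p := by
    intro i p
    have e1 : XX X T S (u i) p = ((1 / 2 : ℚ) : ℂ) * XX X T S (v i) p +
        (((-1 / (2 * d) : ℚ) : ℂ) * zd d) * XX X T S (J (v i)) p := by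
      rw [hu]
      rcases p with ⟨p | p, s⟩
      · show cx X T (((1 / 2 : ℚ) : ℂ) • v i + (((-1 / (2 * d) : ℚ) : ℂ) * zd d) • J (v i))
          (Sum.inl p, s) = _
        rw [lx.map_add, lx.map_smul, lx.map_smul]
        rfl
      · show cy X S (((1 / 2 : ℚ) : ℂ) • v i + (((-1 / (2 * d) : ℚ) : ℂ) * zd d) • J (v i))
          (Sum.inr p, s) = _
        rw [ly.map_add, ly.map_smul, ly.map_smul]
        rfl
    have e2 : XX X T S (v i) p = sw (l i) p := by
      rcases p with ⟨p | p, s⟩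
      · show cx X T (v i) (Sum.inl p, s) = _
        rw [hv1]
        rfl
      · show cy X S (v i) (Sum.inr p, s) = _
        rw [hv2]
        rfl
    rw [e1, jx, e2]
    have h6 : (1 / 2 : ℚ) + (1 / 2 : ℚ) = 1 := by norm_num
    have h7 : ((1 / 2 : ℚ) : ℂ) + ((1 / 2 : ℚ) : ℂ) = 1 := by exact_mod_cast h6
    linear_combination (sw (l i) p) * hc2 + (sw (l i) p) * h7
  have hT : ∀ i p, XT X T S (u' i) p = conj (sw (m i) p) := by
    intro i p
    have e1 : XT X T S (u' i) p = ((1 / 2 : ℚ) : ℂ) * XT X T S (v' i) p +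
        (((1 / (2 * d) : ℚ) : ℂ) * zd d) * XT X T S (J (v' i)) p := by
      rw [hu']
      rcases p with ⟨p | p, s⟩
      · show cy X S (((1 / 2 : ℚ) : ℂ) • v' i + (((1 / (2 * d) : ℚ) : ℂ) * zd d) • J (v' i))
          (Sum.inl p, s) = _
        rw [ly.map_add, ly.map_smul, ly.map_smul]
        rfl
      · show cx X T (((1 / 2 : ℚ) : ℂ) • v' i + (((1 / (2 * d) : ℚ) : ℂ) * zd d) • J (v' i))
          (Sum.inr p, s) = _
        rw [lx.map_add, lx.map_smul, lx.map_smul]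
        rfl
    have e2 : XT X T S (v' i) p = conj (sw (m i) p) := by
      rcases p with ⟨p | p, s⟩
      · show cy X S (v' i) (Sum.inl p, s) = _
        rw [hv2']
        rfl
      · show cx X T (v' i) (Sum.inr p, s) = _
        rw [hv1']
        show _ = conj (conj (m i (Sum.inr p, s)))
        rw [Complex.conj_conj]
    rw [e1, jt, e2]
    have h6 : (1 / 2 : ℚ) + (1 / 2 : ℚ) = 1 := by norm_num
    have h7 : ((1 / 2 : ℚ) : ℂ) + ((1 / 2 : ℚ) : ℂ) = 1 := by exact_mod_cast h6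
    linear_combination (-(conj (sw (m i) p))) * hc4 + (conj (sw (m i) p)) * h7
  have hwX : wX N k X T S u = wdv N k fun i s => sw (l i) (s, ()) := by
    unfold wX
    congr 1
    funext i s
    exact hX i _
  have hwT : wT N k X T S u' = fun p => conj (wdv N k (fun i s => sw (m i) (s, ())) p) := by
    unfold wT
    rw [← (h1 N k).2.2.2.1]
    congr 1
    funext i s
    exact hT i _
  rw [hwX, hwT] at hM
  refine ⟨c, hc, ?_⟩
  have hpi : ((Real.pi : ℂ)) ^ (k + 1) ≠ 0 := pow_ne_zero _ (by exact_mod_cast Real.pi_ne_zero)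
  apply mul_left_cancel₀ hpi
  rw [← hM, mul_pow, mul_pow, mul_pow]
  ring

theorem thm_Abet (h1 : St_Wdv) (h2 : St_Act) (h3 : DWY.St_CxA) : St_Abet := by
  intro N k d m n M X Y J T S Tp Tm Ta Tb κ L T' S' Ta' Tb' LY hD α A hα hA y hy
  have hd : 0 < d := hD.nx.pos
  obtain ⟨lx, ly, sur, inj, -, bet, -⟩ := h3 X d (Fin N) Unit T S Tp Tm Ta Tb κ L hD.nx
  obtain ⟨N', hN', kl⟩ := hD.nx.kl
  obtain ⟨-, -, -, -, hsw⟩ := h2 N k
  obtain ⟨s, hs⟩ : ∃ s : ℝ, s = (n : ℝ) * d4 d ^ k := ⟨_, rfl⟩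
  have hcms := hD.cms
  rw [← hs] at hcms
  -- generators
  have gen : ∀ l l' : Fin (k + 1) → IX N → ℂ, (∀ i, l i ∈ L) → (∀ i, l' i ∈ L) →
      ∃ q : ℚ, E (act A ((s : ℂ) • we N k l)) ((s : ℂ) • we N k l') = q := by
    intro l l' hl hl'
    obtain ⟨c, hc, hcv⟩ := Abet_gen N k d hd X J T S L N' hN' kl lx ly sur inj bet hD.jx hD.jt h1
      α hα A hA l l' hl hl'
    obtain ⟨q, hq⟩ := Abet_rat d hd n k c hc
    refine ⟨q, ?_⟩
    rw [← hq, ← hs, ← hcv, ← Abet_E]
    have e1 : (fun p => sw (act A ((s : ℂ) • we N k l)) (p, ())) =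
        A.mulVec ((s : ℂ) • wdv N k fun i s => sw (l i) (s, ())) := by
      funext p
      unfold act
      rw [Abet_sw, Abet_sws, hsw]
      rfl
    have e2 : (fun p => conj (sw ((s : ℂ) • we N k l') (p, ()))) =
        (s : ℂ) • (fun p => conj (wdv N k (fun i s => sw (l' i) (s, ())) p)) := by
      funext p
      rw [Abet_sws, hsw]
      show conj ((s : ℂ) * wdv N k (fun i s => sw (l' i) (s, ())) p) =
        (s : ℂ) * conj (wdv N k (fun i s => sw (l' i) (s, ())) p)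
      rw [map_mul, Complex.conj_ofReal]
    rw [e1, e2, Abet_bls, ← Complex.ofReal_mul, Complex.im_ofReal_mul]
  -- the span
  obtain ⟨G, hG⟩ : ∃ G : Set (IY N k → ℂ), G = {v : IY N k → ℂ | ∃ l : Fin (k + 1) → IX N → ℂ,
    (∀ i, l i ∈ L) ∧ v = (s : ℂ) • we N k l} := ⟨_, rfl⟩
  have hE0l : ∀ x : IY N k → ℂ, E 0 x = 0 := by
    intro x
    simp [E, H]
  have hE0r : ∀ x : IY N k → ℂ, E x 0 = 0 := by
    intro x
    simp [E, H]
  have hzE : ∀ (a : ℤ) (x x' : IY N k → ℂ), E x (a • x') = a * E x x' := by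
    intro a x x'
    rw [Abet_zs, Abet_Er]
  have hzE' : ∀ (a : ℤ) (x x' : IY N k → ℂ), E (a • x) x' = a * E x x' := by
    intro a x x'
    rw [Abet_zs, Abet_El]
  have hza : ∀ (a : ℤ) (x : IY N k → ℂ), act A (a • x) = a • act A x := by
    intro a x
    rw [Abet_zs, Abet_acts, ← Abet_zs]
  have ha0 : act A (0 : IY N k → ℂ) = 0 := by
    have := hza 0 0
    rwa [zero_smul, zero_smul] at this
  have sp : ∀ x ∈ Submodule.span ℤ G, ∀ x' ∈ Submodule.span ℤ G, ∃ q : ℚ, E (act A x) x' = q := by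
    intro x hx
    induction hx using Submodule.span_induction with
    | mem x hx =>
      rw [hG] at hx
      obtain ⟨l, hl, rfl⟩ := hx
      intro x' hx'
      induction hx' using Submodule.span_induction with
      | mem x' hx' =>
        rw [hG] at hx'
        obtain ⟨l', hl', rfl⟩ := hx'
        exact gen l l' hl hl'
      | zero => exact ⟨0, by rw [hE0r]; simp⟩
      | add a b _ _ ha hb =>
        obtain ⟨q, hq⟩ := ha
        obtain ⟨q', hq'⟩ := hb
        exact ⟨q + q', by rw [GAM.E_add_right, hq, hq']; push_cast; ring⟩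
      | smul c a _ ha =>
        obtain ⟨q, hq⟩ := ha
        exact ⟨c * q, by rw [hzE, hq]; push_cast; ring⟩
    | zero =>
      intro x' _
      exact ⟨0, by rw [ha0, hE0l]; simp⟩
    | add a b _ _ ha hb =>
      intro x' hx'
      obtain ⟨q, hq⟩ := ha x' hx'
      obtain ⟨q', hq'⟩ := hb x' hx'
      exact ⟨q + q', by rw [Abet_acta, GAM.E_add_left, hq, hq']; push_cast; ring⟩
    | smul c a _ ha =>
      intro x' hx'
      obtain ⟨q, hq⟩ := ha x' hx'
      exact ⟨c * q, by rw [hza, hzE', hq]; push_cast; ring⟩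
  have hM0 : (M : ℝ) ≠ 0 := Nat.cast_ne_zero.2 hcms.m0
  have rat : ∀ x ∈ LY, ∃ q : ℚ, E (act A y) x = q := by
    intro x hx
    obtain ⟨q, hq⟩ := sp ((M : ℤ) • y) (hG ▸ hcms.onto y hy) ((M : ℤ) • x) (hG ▸ hcms.onto x hx)
    rw [hza, hzE, hzE'] at hq
    refine ⟨q / (M * M), ?_⟩
    push_cast at hq ⊢
    rw [← hq]
    field_simp
  -- common denominator
  obtain ⟨χ, hχ⟩ := hD.plY
  obtain ⟨b, hb⟩ := hχ.basis
  have hbm : ∀ j, b j ∈ LY := fun j => by
    rw [hb]
    exact Submodule.subset_span ⟨j, rfl⟩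
  choose q hq using fun j => rat (b j) (hbm j)
  refine ⟨∏ j, (q j).den, Finset.prod_ne_zero_iff.2 fun j _ => (q j).den_nz, ?_⟩
  apply hχ.self
  intro l hl
  rw [hb] at hl
  induction hl using Submodule.span_induction with
  | mem x hx =>
    obtain ⟨j, rfl⟩ := hx
    rw [hzE', hq]
    obtain ⟨e, he⟩ : (q j).den ∣ ∏ j, (q j).den := Finset.dvd_prod_of_mem _ (Finset.mem_univ j)
    refine ⟨(q j).num * e, ?_⟩
    rw [he]
    have h6 : ((q j : ℚ) : ℝ) * ((q j).den : ℝ) = ((q j).num : ℝ) := by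
      exact_mod_cast Rat.mul_den_eq_num (q j)
    push_cast
    linear_combination (e : ℝ) * h6
  | zero => exact ⟨0, by rw [hE0r]; simp⟩
  | add a c _ _ ha hc =>
    obtain ⟨r, hr⟩ := ha
    obtain ⟨r', hr'⟩ := hc
    exact ⟨r + r', by rw [GAM.E_add_right, hr, hr']; push_cast; ring⟩
  | smul c a _ ha =>
    obtain ⟨r, hr⟩ := ha
    exact ⟨c * r, by rw [hzE, hr]; push_cast; ring⟩

end DWZ
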