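import Pool.Agent.DWZ.StC
import Pool.Agent.DWY.TLin

/-!
# DWZ, module Acl

The matrix of the part of type `(k + 1, k + 1)` of a class.
-/

set_option autoImplicit false

namespace DWZ

open scoped ComplexConjugate
open GAM (H E F pd pdl PLat IsTh OddTor IsDel Gro IsLat)
open PST DWC DWY
open Pool.Agent.GPC (AbVar hermForm bilForm)

section jn

variable {V : Type} {k : ℕ}

private lemma Acl_jn_lt (u v : Fin (k + 1) → V) (i : Fin (2 * (k + 1))) (h : (i : ℕ) < k + 1) :
    jn k u v i = u ⟨i, h⟩ := by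
  rw [jn, dif_pos h]

private lemma Acl_jn_ge (u v : Fin (k + 1) → V) (i : Fin (2 * (k + 1))) (h : ¬ (i : ℕ) < k + 1) :
    jn k u v i = v ⟨(i : ℕ) - (k + 1), by omega⟩ := by
  rw [jn, dif_neg h]

/-- slots of the first family -/
private def Acl_a (i : Fin (k + 1)) : Fin (2 * (k + 1)) := ⟨i, by omega⟩

/-- slots of the second family -/
private def Acl_b (i : Fin (k + 1)) : Fin (2 * (k + 1)) := ⟨(i : ℕ) + (k + 1), by omega⟩

private lemma Acl_jn_a (u v : Fin (k + 1) → V) (i : Fin (k + 1)) : jn k u v (Acl_a i) = u i := by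
  rw [Acl_jn_lt u v (Acl_a i) i.2]
  rfl

private lemma Acl_jn_b (u v : Fin (k + 1) → V) (i : Fin (k + 1)) : jn k u v (Acl_b i) = v i := by
  have h : ¬ ((Acl_b i : Fin (2 * (k + 1))) : ℕ) < k + 1 := by
    show ¬ ((i : ℕ) + (k + 1) < k + 1)
    omega
  rw [Acl_jn_ge u v (Acl_b i) h]
  congr 1
  apply Fin.ext
  show (i : ℕ) + (k + 1) - (k + 1) = i
  omega

private lemma Acl_upd_a [DecidableEq (Fin (k + 1))] (u v : Fin (k + 1) → V) (i : Fin (k + 1))
    (a : V) : jn k (Function.update u i a) v = Function.update (jn k u v) (Acl_a i) a := by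
  funext r
  by_cases hr : r = Acl_a i
  · subst hr
    rw [Function.update_self, Acl_jn_a, Function.update_self]
  · rw [Function.update_of_ne hr]
    by_cases h : (r : ℕ) < k + 1
    · rw [Acl_jn_lt _ _ r h, Acl_jn_lt _ _ r h, Function.update_of_ne]
      intro hh
      apply hr
      apply Fin.ext
      have h2 := congrArg (fun t : Fin (k + 1) => (t : ℕ)) hh
      exact h2
    · rw [Acl_jn_ge _ _ r h, Acl_jn_ge _ _ r h]

private lemma Acl_upd_b [DecidableEq (Fin (k + 1))] (u v : Fin (k + 1) → V) (i : Fin (k + 1))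
    (a : V) : jn k u (Function.update v i a) = Function.update (jn k u v) (Acl_b i) a := by
  funext r
  by_cases hr : r = Acl_b i
  · subst hr
    rw [Function.update_self, Acl_jn_b, Function.update_self]
  · rw [Function.update_of_ne hr]
    by_cases h : (r : ℕ) < k + 1
    · rw [Acl_jn_lt _ _ r h, Acl_jn_lt _ _ r h]
    · rw [Acl_jn_ge _ _ r h, Acl_jn_ge _ _ r h, Function.update_of_ne]
      intro hh
      apply hr
      apply Fin.ext
      have h2 : (r : ℕ) - (k + 1) = (i : ℕ) := congrArg (fun t : Fin (k + 1) => (t : ℕ)) hh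
      show (r : ℕ) = (i : ℕ) + (k + 1)
      omega

private lemma Acl_comp {W : Type} [DecidableEq (Fin (k + 1))] (g : W → V)
    (m : Fin (k + 1) → W) (i : Fin (k + 1)) (x : W) :
    (fun j => g (Function.update m i x j)) = Function.update (fun j => g (m j)) i (g x) := by
  funext j
  by_cases h : j = i
  · subst h
    rw [Function.update_self, Function.update_self]
  · rw [Function.update_of_ne h, Function.update_of_ne h]

variable [AddCommGroup V] [Module ℂ V] {W : Type} [AddCommGroup W] [Module ℂ W]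

/-- the form as a function of the first family -/
private noncomputable def Acl_L (α : V [⋀^Fin (2 * (k + 1))]→ₗ[ℂ] ℂ) (g : W →ₗ[ℂ] V)
    (v : Fin (k + 1) → V) : W [⋀^Fin (k + 1)]→ₗ[ℂ] ℂ where
  toFun x := α (jn k (fun i => g (x i)) v)
  map_update_add' m i x y := by
    rw [Acl_comp, Acl_comp, Acl_comp, Acl_upd_a, Acl_upd_a, Acl_upd_a, map_add,
      AlternatingMap.map_update_add]
  map_update_smul' m i c x := by
    rw [Acl_comp, Acl_comp, Acl_upd_a, Acl_upd_a, map_smul, AlternatingMap.map_update_smul]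
  map_eq_zero_of_eq' x i j hij hne := by
    refine α.map_eq_zero_of_eq _ (i := Acl_a i) (j := Acl_a j) ?_ ?_
    · rw [Acl_jn_a, Acl_jn_a, hij]
    · intro hh
      apply hne
      apply Fin.ext
      exact congrArg (fun t : Fin (2 * (k + 1)) => (t : ℕ)) hh

/-- the form as a function of the second family -/
private noncomputable def Acl_R (α : V [⋀^Fin (2 * (k + 1))]→ₗ[ℂ] ℂ) (g : W →ₗ[ℂ] V)
    (u : Fin (k + 1) → V) : W [⋀^Fin (k + 1)]→ₗ[ℂ] ℂ where
  toFun x := α (jn k u (fun i => g (x i)))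
  map_update_add' m i x y := by
    rw [Acl_comp, Acl_comp, Acl_comp, Acl_upd_b, Acl_upd_b, Acl_upd_b, map_add,
      AlternatingMap.map_update_add]
  map_update_smul' m i c x := by
    rw [Acl_comp, Acl_comp, Acl_upd_b, Acl_upd_b, map_smul, AlternatingMap.map_update_smul]
  map_eq_zero_of_eq' x i j hij hne := by
    refine α.map_eq_zero_of_eq _ (i := Acl_b i) (j := Acl_b j) ?_ ?_
    · rw [Acl_jn_b, Acl_jn_b, hij]
    · intro hh
      apply hne
      apply Fin.ext
      have h2 : (i : ℕ) + (k + 1) = (j : ℕ) + (k + 1) :=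
        congrArg (fun t : Fin (2 * (k + 1)) => (t : ℕ)) hh
      omega

end jn

/-- signs -/
private def Acl_eps (N k : ℕ) (q : PI N (k + 1) ⊕ PI N k) : ℂ :=
  Sum.elim (fun _ => (1 : ℂ)) (fun _ => (-1 : ℂ)) q

private lemma Acl_eps_sq (N k : ℕ) (q : PI N (k + 1) ⊕ PI N k) :
    Acl_eps N k q * Acl_eps N k q = 1 := by
  rcases q with S | S
  · show (1 : ℂ) * 1 = 1
    ring
  · show (-1 : ℂ) * (-1) = 1
    ring

private lemma Acl_blv (N k : ℕ) (P Q : PI N (k + 1) ⊕ PI N k → ℂ) :
    blv N k P Q = ∑ q, Acl_eps N k q * P q * Q q := by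
  rw [blv, Fintype.sum_sum_type, sub_eq_add_neg, ← Finset.sum_neg_distrib]
  congr 1
  · refine Finset.sum_congr rfl fun S _ => ?_
    show _ = (1 : ℂ) * _ * _
    ring
  · refine Finset.sum_congr rfl fun S _ => ?_
    show _ = (-1 : ℂ) * _ * _
    ring

theorem thm_Acl (h1 : St_Lap) (_h2 : St_Wdv) (h3 : DWY.St_CxA) : St_Acl := by
  intro N k d m n M X Y J T S Tp Tm Ta Tb κ L T' S' Ta' Tb' LY hX α
  obtain ⟨xl, yl, hs, hi, -, -, -⟩ := h3 X d (Fin N) Unit T S Tp Tm Ta Tb κ L hX.nx
  have hXX := DWY.TLin_XX_lin X T S xl yl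
  have hXT := DWY.TLin_XT_lin X T S xl yl
  have hz : zd d ≠ 0 := by
    have hd : (0 : ℝ) < (d : ℝ) := by exact_mod_cast hX.nx.pos
    rw [zd]
    refine mul_ne_zero ?_ Complex.I_ne_zero
    exact_mod_cast (Real.sqrt_pos.2 hd).ne'
  have hsurj : ∀ x y : IX N → ℂ, ∃ v, XX X T S v = x ∧ XT X T S v = y := by
    intro x y
    obtain ⟨v, hv1, hv2⟩ := hs (fun p => Sum.elim (fun _ => x p) (fun _ => y p) p.1)
      (fun p => Sum.elim (fun _ => y p) (fun _ => x p) p.1)
    refine ⟨v, ?_, ?_⟩
    · funext p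
      rcases p with ⟨i | j, t⟩
      · rw [TLin_XX_inl, hv1]; rfl
      · rw [TLin_XX_inr, hv2]; rfl
    · funext p
      rcases p with ⟨i | j, t⟩
      · rw [TLin_XT_inl, hv2]; rfl
      · rw [TLin_XT_inr, hv1]; rfl
  have hinj : ∀ v, XX X T S v = 0 → XT X T S v = 0 → v = 0 := by
    intro v hv1 hv2
    apply hi
    · funext p
      rcases p with ⟨i | j, t⟩
      · rw [← TLin_XX_inl X T S v i t, hv1]
      · rw [← TLin_XT_inr X T S v j t, hv2]
    · funext p
      rcases p with ⟨i | j, t⟩
      · rw [← TLin_XT_inl X T S v i t, hv2]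
      · rw [← TLin_XX_inr X T S v j t, hv1]
  choose e he using fun s : Fin N ⊕ Unit =>
    hsurj (Pi.single (s, ()) 1) 0
  choose f hf using fun s : Fin N ⊕ Unit =>
    hsurj 0 (Pi.single (s, ()) 1)
  have hsum : ∀ (Λ : X.H1 →ₗ[ℂ] (IX N → ℂ)) (b : Fin N ⊕ Unit → X.H1)
      (x : Fin N ⊕ Unit → ℂ) (p : IX N), Λ (Fintype.linearCombination ℂ b x) p =
      ∑ s, x s * Λ (b s) p := by
    intro Λ b x p
    rw [Fintype.linearCombination_apply, map_sum, Finset.sum_apply]
    refine Finset.sum_congr rfl fun s _ => ?_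
    rw [map_smul, Pi.smul_apply, smul_eq_mul]
  have hsingle : ∀ (x : Fin N ⊕ Unit → ℂ) (s : Fin N ⊕ Unit),
      ∑ s', x s' * (Pi.single (s', ()) (1 : ℂ) : IX N → ℂ) (s, ()) = x s := by
    intro x s
    rw [Finset.sum_eq_single s]
    · rw [Pi.single_eq_same, mul_one]
    · intro s' _ hs'
      rw [Pi.single_eq_of_ne (fun hh => hs' (congrArg Prod.fst hh).symm), mul_zero]
    · intro h; exact absurd (Finset.mem_univ _) h
  have hkey : ∀ u, J u = zd d • u →
      u = Fintype.linearCombination ℂ e (fun s => XX X T S u (s, ())) := by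
    intro u hu
    have hT : XT X T S u = 0 := by
      funext p
      have h4 := hX.jt u p
      rw [hu, hXT.map_smul, Pi.smul_apply, smul_eq_mul] at h4
      have h5 : 2 * zd d * XT X T S u p = 0 := by linear_combination h4
      rcases mul_eq_zero.1 h5 with h6 | h6
      · exact absurd h6 (mul_ne_zero two_ne_zero hz)
      · exact h6
    rw [← sub_eq_zero]
    apply hinj
    · rw [hXX.map_sub]
      funext p
      obtain ⟨s, t⟩ := p
      have h4 := hsum (hXX.mk' _) e (fun s => XX X T S u (s, ())) (s, ())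
      have h5 : ∀ v, (hXX.mk' _) v = XX X T S v := fun v => rfl
      rw [h5] at h4
      rw [Pi.sub_apply]
      show XX X T S u (s, ()) - XX X T S (Fintype.linearCombination ℂ e
        (fun s => XX X T S u (s, ()))) (s, ()) = 0
      rw [h4]
      have h6 : ∀ s', XX X T S u (s', ()) * (hXX.mk' _) (e s') (s, ()) =
          XX X T S u (s', ()) * (Pi.single (s', ()) (1 : ℂ) : IX N → ℂ) (s, ()) := by
        intro s'
        rw [h5, (he s').1]
      rw [Finset.sum_congr rfl fun s' _ => h6 s', hsingle (fun s => XX X T S u (s, ())) s,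
        sub_self]
    · rw [hXT.map_sub, hT]
      funext p
      have h4 := hsum (hXT.mk' _) e (fun s => XX X T S u (s, ())) p
      have h5 : ∀ v, (hXT.mk' _) v = XT X T S v := fun v => rfl
      rw [h5] at h4
      rw [Pi.sub_apply, h4]
      have h6 : ∀ s', XX X T S u (s', ()) * (hXT.mk' _) (e s') p = 0 := by
        intro s'
        rw [h5, (he s').2, Pi.zero_apply, mul_zero]
      rw [Finset.sum_congr rfl fun s' _ => h6 s', Finset.sum_const_zero, Pi.zero_apply, sub_zero]
  have hkey' : ∀ u, J u = (-zd d) • u →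
      u = Fintype.linearCombination ℂ f (fun s => XT X T S u (s, ())) := by
    intro u hu
    have hT : XX X T S u = 0 := by
      funext p
      have h4 := hX.jx u p
      rw [hu, hXX.map_smul, Pi.smul_apply, smul_eq_mul] at h4
      have h5 : 2 * zd d * XX X T S u p = 0 := by linear_combination -h4
      rcases mul_eq_zero.1 h5 with h6 | h6
      · exact absurd h6 (mul_ne_zero two_ne_zero hz)
      · exact h6
    rw [← sub_eq_zero]
    apply hinj
    · rw [hXX.map_sub, hT]
      funext p
      have h4 := hsum (hXX.mk' _) f (fun s => XT X T S u (s, ())) p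
      have h5 : ∀ v, (hXX.mk' _) v = XX X T S v := fun v => rfl
      rw [h5] at h4
      rw [Pi.sub_apply, h4]
      have h6 : ∀ s', XT X T S u (s', ()) * (hXX.mk' _) (f s') p = 0 := by
        intro s'
        rw [h5, (hf s').1, Pi.zero_apply, mul_zero]
      rw [Finset.sum_congr rfl fun s' _ => h6 s', Finset.sum_const_zero, Pi.zero_apply, sub_zero]
    · rw [hXT.map_sub]
      funext p
      obtain ⟨s, t⟩ := p
      have h4 := hsum (hXT.mk' _) f (fun s => XT X T S u (s, ())) (s, ())
      have h5 : ∀ v, (hXT.mk' _) v = XT X T S v := fun v => rfl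
      rw [h5] at h4
      rw [Pi.sub_apply]
      show XT X T S u (s, ()) - XT X T S (Fintype.linearCombination ℂ f
        (fun s => XT X T S u (s, ()))) (s, ()) = 0
      rw [h4]
      have h6 : ∀ s', XT X T S u (s', ()) * (hXT.mk' _) (f s') (s, ()) =
          XT X T S u (s', ()) * (Pi.single (s', ()) (1 : ℂ) : IX N → ℂ) (s, ()) := by
        intro s'
        rw [h5, (hf s').2]
      rw [Finset.sum_congr rfl fun s' _ => h6 s', hsingle (fun s => XT X T S u (s, ())) s,
        sub_self]
  have hpi : (Real.pi : ℂ) ^ (k + 1) ≠ 0 :=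
    pow_ne_zero _ (by exact_mod_cast Real.pi_ne_zero)
  let a : PI N (k + 1) ⊕ PI N k → PI N (k + 1) ⊕ PI N k → ℂ := fun p q =>
    α (jn k (fun i => Fintype.linearCombination ℂ e (Pi.single (ix N k p i) 1))
      (fun i => Fintype.linearCombination ℂ f (Pi.single (ix N k q i) 1)))
  refine ⟨Matrix.of fun q p => ((Real.pi : ℂ) ^ (k + 1))⁻¹ * Acl_eps N k q * a p q, ?_⟩
  intro u v hu hv
  have hL := h1 N k ℂ (Acl_L α (Fintype.linearCombination ℂ e) v)
    (fun i s => XX X T S (u i) (s, ()))
  have hL0 : Acl_L α (Fintype.linearCombination ℂ e) v (fun i s => XX X T S (u i) (s, ())) =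
      α (jn k u v) := by
    show α (jn k (fun i => Fintype.linearCombination ℂ e (fun s => XX X T S (u i) (s, ()))) v) = _
    congr 2
    funext i
    exact (hkey (u i) (hu i)).symm
  rw [hL0] at hL
  have hR : ∀ p, Acl_L α (Fintype.linearCombination ℂ e) v
      (fun i => Pi.single (ix N k p i) 1) = ∑ q, wT N k X T S v q * a p q := by
    intro p
    have h4 := h1 N k ℂ (Acl_R α (Fintype.linearCombination ℂ f)
      (fun i => Fintype.linearCombination ℂ e (Pi.single (ix N k p i) 1)))
      (fun i s => XT X T S (v i) (s, ()))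
    have h5 : Acl_R α (Fintype.linearCombination ℂ f)
        (fun i => Fintype.linearCombination ℂ e (Pi.single (ix N k p i) 1))
        (fun i s => XT X T S (v i) (s, ())) =
        Acl_L α (Fintype.linearCombination ℂ e) v (fun i => Pi.single (ix N k p i) 1) := by
      show α (jn k _ (fun i => Fintype.linearCombination ℂ f
        (fun s => XT X T S (v i) (s, ())))) = α (jn k _ v)
      congr 2
      funext i
      exact (hkey' (v i) (hv i)).symm
    rw [← h5, h4]
    rfl
  rw [hL, Acl_blv, Finset.mul_sum]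
  have h7 : ∀ p, wdv N k (fun i s => XX X T S (u i) (s, ())) p •
      Acl_L α (Fintype.linearCombination ℂ e) v (fun i => Pi.single (ix N k p i) 1) =
      ∑ q, wX N k X T S u p * (wT N k X T S v q * a p q) := by
    intro p
    rw [hR, smul_eq_mul, Finset.mul_sum]
    rfl
  rw [Finset.sum_congr rfl fun p _ => h7 p, Finset.sum_comm]
  refine Finset.sum_congr rfl fun q _ => ?_
  rw [Matrix.mulVec, dotProduct, Finset.mul_sum, Finset.sum_mul, Finset.mul_sum]
  refine Finset.sum_congr rfl fun p _ => ?_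
  rw [Matrix.of_apply]
  have h8 := Acl_eps_sq N k q
  have h9 : (Real.pi : ℂ) ^ (k + 1) * ((Real.pi : ℂ) ^ (k + 1))⁻¹ = 1 := mul_inv_cancel₀ hpi
  calc wX N k X T S u p * (wT N k X T S v q * a p q)
      = ((Real.pi : ℂ) ^ (k + 1) * ((Real.pi : ℂ) ^ (k + 1))⁻¹) *
          (Acl_eps N k q * Acl_eps N k q) *
          (wX N k X T S u p * (wT N k X T S v q * a p q)) := by rw [h8, h9]; ring
    _ = (Real.pi : ℂ) ^ (k + 1) * (Acl_eps N k q *
          (((Real.pi : ℂ) ^ (k + 1))⁻¹ * Acl_eps N k q * a p q * wX N k X T S u p) *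
          wT N k X T S v q) := by ring

end DWZ
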