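import Pool.Agent.DWZ.StA

/-!
# DWZ [Act]: the exterior power in the coordinates `x`
-/

set_option autoImplicit false

namespace DWZ

open scoped ComplexConjugate
open PST DWC

private lemma Act_sw {α β : Type} (x : Ix α β Unit → ℂ) : sw (sw x) = x := by
  funext p
  rcases p with ⟨p | p, u⟩
  · rfl
  · simp [sw]

private lemma Act_sw_add {α β : Type} (x y : Ix α β Unit → ℂ) : sw (x + y) = sw x + sw y := by
  funext p
  rcases p with ⟨p | p, u⟩
  · rfl
  · simp [sw]

private lemma Act_sw_smul {α β : Type} (r : ℝ) (x : Ix α β Unit → ℂ) :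
    sw ((r : ℂ) • x) = (r : ℂ) • sw x := by
  funext p
  rcases p with ⟨p | p, u⟩
  · rfl
  · simp [sw]

theorem thm_Act (h1 : St_Wdv) : St_Act := by
  intro N k
  obtain ⟨⟨f, hf⟩, -, hg, -, -⟩ := h1 N k
  have e1 : ∀ (g : Matrix (Fin N ⊕ Unit) (Fin N ⊕ Unit) ℂ) (X : Fin (k + 1) → IX N → ℂ),
      mu (ek N k g) (wd N k X) = wd N k fun i => mu g (X i) := by
    intro g X
    funext p
    have h2 := congrFun (hg g fun i s => X i (s, ())) p.1
    have h3 : (fun i => g.mulVec fun s => X i (s, ())) = fun i s => mu g (X i) (s, ()) := by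
      funext i s
      rfl
    rw [h3] at h2
    exact h2.symm
  have e5 : ∀ x : Fin (k + 1) → IX N → ℂ, sw (we N k x) = wd N k fun i => sw (x i) := by
    intro x
    rw [we, Act_sw]
  have upd : ∀ (x : Fin (k + 1) → IX N → ℂ) (i : Fin (k + 1)) (y : IX N → ℂ),
      (wd N k fun j => sw (Function.update x i y j)) =
        fun p => f (Function.update (fun j s => sw (x j) (s, ())) i fun s => sw y (s, ())) p.1 := by
    intro x i y
    funext p
    rw [wd, hf]
    congr 1
    funext j s
    by_cases h : j = i
    · subst h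
      rw [Function.update_self, Function.update_self]
    · rw [Function.update_of_ne h, Function.update_of_ne h]
  refine ⟨e1, ?_, ?_, ?_, e5⟩
  · intro g x
    rw [act, e5, e1, we]
    congr 1
    congr 1
    funext i
    rw [act, Act_sw]
  · intro x i y y'
    rw [we, we, we, ← Act_sw_add, upd, upd, upd]
    congr 1
    funext p
    rw [Act_sw_add]
    have h4 : (fun s => (sw y + sw y') (s, ())) =
        (fun s => sw y (s, ())) + fun s => sw y' (s, ()) := rfl
    rw [h4, f.map_update_add]
    rfl
  · intro x i r y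
    rw [we, we, ← Act_sw_smul, upd, upd]
    congr 1
    funext p
    rw [Act_sw_smul]
    have h4 : (fun s => ((r : ℂ) • sw y) (s, ())) = (r : ℂ) • fun s => sw y (s, ()) := rfl
    rw [h4, f.map_update_smul]
    rfl

end DWZ
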