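import Pool.Agent.DWZ.StC

/-!
# DWZ [AdR]: the matrix in de Rham coordinates
-/

set_option autoImplicit false

namespace DWZ

open scoped ComplexConjugate
open GAM (H E F pd pdl PLat IsTh OddTor IsDel Gro IsLat)
open PST DWC DWY
open Pool.Agent.GPC (AbVar hermForm bilForm)

private lemma AdR_unit (A : Matrix Unit Unit ℂ) : A⁻¹ () () = (A () ())⁻¹ := by
  rw [Matrix.inv_def, Matrix.adjugate_subsingleton, Matrix.det_unique, Ring.inverse_eq_inv',
    Matrix.smul_apply, Matrix.one_apply_eq, smul_eq_mul, mul_one]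

set_option linter.unusedSectionVars false

section blocks

variable {α β : Type} [Fintype α] [Fintype β] [DecidableEq α] [DecidableEq β]

private lemma AdR_blk_inl (A : Matrix α α ℂ) (B : Matrix β β ℂ) (x : Ix α β Unit → ℂ) (i : α) :
    (blk Unit A B).mulVec x (Sum.inl i, ()) = ∑ j, A i j * x (Sum.inl j, ()) := by
  simp [Matrix.mulVec, dotProduct, blk, Fintype.sum_prod_type, Fintype.sum_sum_type]

private lemma AdR_blk_inr (A : Matrix α α ℂ) (B : Matrix β β ℂ) (x : Ix α β Unit → ℂ) (i : β) :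
    (blk Unit A B).mulVec x (Sum.inr i, ()) = ∑ j, B i j * x (Sum.inr j, ()) := by
  simp [Matrix.mulVec, dotProduct, blk, Fintype.sum_prod_type, Fintype.sum_sum_type]

private lemma AdR_blkT_inl (A : Matrix α α ℂ) (B : Matrix β β ℂ) (x : Ix α β Unit → ℂ) (i : α) :
    (blk Unit A B).transpose.mulVec x (Sum.inl i, ()) =
      ∑ j, A.transpose i j * x (Sum.inl j, ()) := by
  simp [Matrix.mulVec, dotProduct, blk, Fintype.sum_prod_type, Fintype.sum_sum_type]

private lemma AdR_blkT_inr (A : Matrix α α ℂ) (B : Matrix β β ℂ) (x : Ix α β Unit → ℂ) (i : β) :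
    (blk Unit A B).transpose.mulVec x (Sum.inr i, ()) =
      ∑ j, B.transpose i j * x (Sum.inr j, ()) := by
  simp [Matrix.mulVec, dotProduct, blk, Fintype.sum_prod_type, Fintype.sum_sum_type]

private lemma AdR_qb_inl (κ : Matrix α β ℂ) (x : Ix α β Unit → ℂ) (i : α) :
    (qb κ).mulVec x (Sum.inl i, ()) = ∑ j, κ i j * x (Sum.inr j, ()) := by
  simp [Matrix.mulVec, dotProduct, qb, Fintype.sum_prod_type, Fintype.sum_sum_type]

private lemma AdR_qb_inr (κ : Matrix α β ℂ) (x : Ix α β Unit → ℂ) (i : β) :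
    (qb κ).mulVec x (Sum.inr i, ()) = ∑ j, κ j i * x (Sum.inl j, ()) := by
  simp [Matrix.mulVec, dotProduct, qb, Fintype.sum_prod_type, Fintype.sum_sum_type]

end blocks

/-! ## matrices -/

/-- the de Rham coordinates of the vectors of the first kind -/
private noncomputable def AdR_D (N : ℕ) (Tp : Matrix (Fin N) (Fin N) ℂ) (Tm : Matrix Unit Unit ℂ)
    (κ : Matrix (Fin N) Unit ℂ) : Matrix (Fin N ⊕ Unit) (Fin N ⊕ Unit) ℂ :=
  Matrix.fromBlocks Tp 0 0 (((Real.pi : ℂ) * Tm () ())⁻¹ • (1 : Matrix Unit Unit ℂ)) *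
    Matrix.fromBlocks 1 0 (-κ).transpose 1

/-- the inverse transpose -/
private noncomputable def AdR_E (N : ℕ) (Tp : Matrix (Fin N) (Fin N) ℂ) (Tm : Matrix Unit Unit ℂ)
    (κ : Matrix (Fin N) Unit ℂ) : Matrix (Fin N ⊕ Unit) (Fin N ⊕ Unit) ℂ :=
  Matrix.fromBlocks (Tp⁻¹).transpose 0 0 (((Real.pi : ℂ) * Tm () ()) • (1 : Matrix Unit Unit ℂ)) *
    Matrix.fromBlocks 1 κ 0 1

/-- the de Rham coordinates of the vectors of the second kind -/
private noncomputable def AdR_D' (N : ℕ) (Tp : Matrix (Fin N) (Fin N) ℂ)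
    (Tm : Matrix Unit Unit ℂ) (κ : Matrix (Fin N) Unit ℂ) :
    Matrix (Fin N ⊕ Unit) (Fin N ⊕ Unit) ℂ :=
  (Real.pi : ℂ)⁻¹ • (Jm (Fin N) Unit * AdR_E N Tp Tm κ * Jm (Fin N) Unit)

private lemma AdR_DE (N : ℕ) (Tp : Matrix (Fin N) (Fin N) ℂ) (Tm : Matrix Unit Unit ℂ)
    (κ : Matrix (Fin N) Unit ℂ) (hp : Tp.det ≠ 0) (hm : Tm () () ≠ 0) :
    (AdR_D N Tp Tm κ).transpose * AdR_E N Tp Tm κ = 1 := by
  have hπ : (Real.pi : ℂ) * Tm () () ≠ 0 :=
    mul_ne_zero (Complex.ofReal_ne_zero.2 Real.pi_ne_zero) hm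
  have h1 : Tp.transpose * (Tp⁻¹).transpose = 1 := by
    rw [← Matrix.transpose_mul, Matrix.nonsing_inv_mul _ (isUnit_iff_ne_zero.2 hp),
      Matrix.transpose_one]
  have h2 : (Matrix.fromBlocks Tp 0 0
      (((Real.pi : ℂ) * Tm () ())⁻¹ • (1 : Matrix Unit Unit ℂ))).transpose *
      Matrix.fromBlocks (Tp⁻¹).transpose 0 0
        (((Real.pi : ℂ) * Tm () ()) • (1 : Matrix Unit Unit ℂ)) = 1 := by
    rw [Matrix.fromBlocks_transpose, Matrix.fromBlocks_multiply]
    simp only [Matrix.transpose_zero, Matrix.zero_mul, Matrix.mul_zero, add_zero, zero_add, h1,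
      Matrix.transpose_smul, Matrix.transpose_one, Matrix.smul_mul, Matrix.mul_smul,
      Matrix.one_mul, smul_smul, mul_inv_cancel₀ hπ, one_smul, smul_zero, Matrix.fromBlocks_one]
  have h3 : (Matrix.fromBlocks (1 : Matrix (Fin N) (Fin N) ℂ) 0 (-κ).transpose
      (1 : Matrix Unit Unit ℂ)).transpose * Matrix.fromBlocks 1 κ 0 1 = 1 := by
    rw [Matrix.fromBlocks_transpose, Matrix.fromBlocks_multiply]
    simp
  rw [AdR_D, AdR_E, Matrix.transpose_mul, Matrix.mul_assoc, ← Matrix.mul_assoc _ _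
    (Matrix.fromBlocks 1 κ 0 1), h2, Matrix.one_mul, h3]

private lemma AdR_J2 (α β : Type) [Fintype α] [Fintype β] [DecidableEq α] [DecidableEq β] :
    Jm α β * Jm α β = 1 := by
  rw [Jm, Matrix.fromBlocks_multiply]
  simp

private lemma AdR_Jt (α β : Type) [Fintype α] [Fintype β] [DecidableEq α] [DecidableEq β] :
    (Jm α β).transpose = Jm α β := by
  rw [Jm, Matrix.fromBlocks_transpose]
  simp

private lemma AdR_blv (N k : ℕ) (P Q : PI N (k + 1) ⊕ PI N k → ℂ) :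
    blv N k P Q = P ⬝ᵥ (Jm (PI N (k + 1)) (PI N k)).mulVec Q := by
  have h1 : ∀ S, (Jm (PI N (k + 1)) (PI N k)).mulVec Q (Sum.inl S) = Q (Sum.inl S) := by
    intro S
    simp [Jm, Matrix.mulVec, dotProduct, Fintype.sum_sum_type, Matrix.one_apply]
  have h2 : ∀ S, (Jm (PI N (k + 1)) (PI N k)).mulVec Q (Sum.inr S) = - Q (Sum.inr S) := by
    intro S
    simp [Jm, Matrix.mulVec, dotProduct, Fintype.sum_sum_type, Matrix.one_apply, Matrix.neg_apply]
  simp only [blv, dotProduct, Fintype.sum_sum_type, h1, h2, mul_neg, Finset.sum_neg_distrib,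
    sub_eq_add_neg]

/-- the exterior power of `D` -/
private lemma AdR_ekD (h1 : St_Wdv) (h2 : St_Blk) (N k : ℕ) (Tp : Matrix (Fin N) (Fin N) ℂ)
    (Tm : Matrix Unit Unit ℂ) (κ : Matrix (Fin N) Unit ℂ) :
    ek N k (AdR_D N Tp Tm κ) = dRm N k Tp Tm κ := by
  have hB : ek N k (Matrix.fromBlocks 1 0 (-κ).transpose 1) =
      Matrix.fromBlocks 1 0 (-(rm N k fun i => κ i ()).transpose) 1 := by
    have e1 : ek N k (Matrix.fromBlocks 1 0 (-κ).transpose 1) *
        ek N k (Matrix.fromBlocks 1 0 κ.transpose 1) = 1 := by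
      rw [← (h1 N k).2.2.2.2, Matrix.fromBlocks_multiply]
      simp only [Matrix.one_mul, Matrix.zero_mul, Matrix.mul_one, add_zero, zero_add,
        Matrix.transpose_neg, neg_add_cancel, Matrix.fromBlocks_one, Matrix.mul_zero]
      exact (h2 N k).1
    have e2 : ek N k (Matrix.fromBlocks 1 0 κ.transpose 1) *
        Matrix.fromBlocks 1 0 (-(rm N k fun i => κ i ()).transpose) 1 = 1 := by
      rw [(h2 N k).2.2.2.1, Matrix.fromBlocks_multiply]
      simp
    calc ek N k (Matrix.fromBlocks 1 0 (-κ).transpose 1)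
        = ek N k (Matrix.fromBlocks 1 0 (-κ).transpose 1) *
          (ek N k (Matrix.fromBlocks 1 0 κ.transpose 1) *
            Matrix.fromBlocks 1 0 (-(rm N k fun i => κ i ()).transpose) 1) := by
          rw [e2, Matrix.mul_one]
      _ = _ := by rw [← Matrix.mul_assoc, e1, Matrix.one_mul]
  rw [AdR_D, (h1 N k).2.2.2.2, hB, (h2 N k).2.1, dRm]
  simp

private lemma AdR_smul (N k : ℕ) (c : ℂ) (g : Matrix (Fin N ⊕ Unit) (Fin N ⊕ Unit) ℂ) :
    ek N k (c • g) = c ^ (k + 1) • ek N k g := by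
  ext p q
  simp only [ek, Matrix.of_apply, Matrix.smul_apply, smul_eq_mul]
  rw [Matrix.submatrix_smul, Pi.smul_apply, Pi.smul_apply, Matrix.det_smul, Fintype.card_fin]

private lemma AdR_ekD' (h1 : St_Wdv) (h2 : St_Blk) (N k : ℕ) (Tp : Matrix (Fin N) (Fin N) ℂ)
    (Tm : Matrix Unit Unit ℂ) (κ : Matrix (Fin N) Unit ℂ) :
    ek N k (AdR_D' N Tp Tm κ) = ((Real.pi : ℂ)⁻¹) ^ (k + 1) •
      (Jm (PI N (k + 1)) (PI N k) * ek N k (AdR_E N Tp Tm κ) * Jm (PI N (k + 1)) (PI N k)) := by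
  rw [AdR_D', AdR_smul, (h1 N k).2.2.2.2, (h1 N k).2.2.2.2, (h2 N k).2.2.2.2.2]

/-- the coordinates of `D X` -/
private lemma AdR_Dm (N : ℕ) (Tp : Matrix (Fin N) (Fin N) ℂ) (Tm : Matrix Unit Unit ℂ)
    (κ : Matrix (Fin N) Unit ℂ) (x : Fin N ⊕ Unit → ℂ) :
    (∀ i, (AdR_D N Tp Tm κ).mulVec x (Sum.inl i) = ∑ j, Tp i j * x (Sum.inl j)) ∧
    (AdR_D N Tp Tm κ).mulVec x (Sum.inr ()) = ((Real.pi : ℂ) * Tm () ())⁻¹ *
      (x (Sum.inr ()) - ∑ j, κ j () * x (Sum.inl j)) := by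
  rw [AdR_D, Matrix.fromBlocks_multiply]
  refine ⟨fun i => ?_, ?_⟩
  · simp [Matrix.mulVec, dotProduct, Fintype.sum_sum_type]
  · simp only [Matrix.mulVec, dotProduct, Fintype.sum_sum_type, Matrix.fromBlocks_apply₂₁,
      Matrix.fromBlocks_apply₂₂, Finset.univ_unique, Finset.sum_singleton,
      PUnit.default_eq_unit, Matrix.zero_mul, zero_add, Matrix.smul_mul, Matrix.one_mul,
      Matrix.mul_one, Matrix.smul_apply, Matrix.transpose_apply, Matrix.neg_apply, smul_eq_mul,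
      Matrix.one_apply_eq, Matrix.mul_zero, mul_one]
    rw [mul_sub, Finset.mul_sum, sub_eq_neg_add, ← Finset.sum_neg_distrib]
    congr 1
    exact Finset.sum_congr rfl fun j _ => by ring

private lemma AdR_Dm' (N : ℕ) (Tp : Matrix (Fin N) (Fin N) ℂ) (Tm : Matrix Unit Unit ℂ)
    (κ : Matrix (Fin N) Unit ℂ) (x : Fin N ⊕ Unit → ℂ) :
    (∀ i, (AdR_D' N Tp Tm κ).mulVec x (Sum.inl i) = (Real.pi : ℂ)⁻¹ *
      ∑ j, Tp⁻¹ j i * (x (Sum.inl j) - κ j () * x (Sum.inr ()))) ∧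
    (AdR_D' N Tp Tm κ).mulVec x (Sum.inr ()) = Tm () () * x (Sum.inr ()) := by
  have hπ : (Real.pi : ℂ) ≠ 0 := Complex.ofReal_ne_zero.2 Real.pi_ne_zero
  have hJ : Jm (Fin N) Unit * AdR_E N Tp Tm κ * Jm (Fin N) Unit =
      Matrix.fromBlocks (Tp⁻¹).transpose (-((Tp⁻¹).transpose * κ)) 0
        (((Real.pi : ℂ) * Tm () ()) • (1 : Matrix Unit Unit ℂ)) := by
    rw [AdR_E, Jm, Matrix.fromBlocks_multiply, Matrix.fromBlocks_multiply,
      Matrix.fromBlocks_multiply]
    simp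
  rw [AdR_D', hJ]
  refine ⟨fun i => ?_, ?_⟩
  · simp only [Matrix.mulVec, dotProduct, Fintype.sum_sum_type, Matrix.smul_apply,
      Matrix.fromBlocks_apply₁₁, Matrix.fromBlocks_apply₁₂, Finset.univ_unique,
      Finset.sum_singleton, PUnit.default_eq_unit, Matrix.transpose_apply, Matrix.neg_apply,
      smul_eq_mul, Matrix.mul_apply, mul_neg, neg_mul, ← sub_eq_add_neg]
    rw [Finset.mul_sum, Finset.mul_sum, Finset.sum_mul, ← Finset.sum_sub_distrib]
    exact Finset.sum_congr rfl fun j _ => by ring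
  · simp only [Matrix.mulVec, dotProduct, Fintype.sum_sum_type, Matrix.smul_apply,
      Matrix.fromBlocks_apply₂₁, Matrix.fromBlocks_apply₂₂, Finset.univ_unique,
      Finset.sum_singleton, PUnit.default_eq_unit, Matrix.zero_apply, mul_zero, zero_mul,
      Finset.sum_const_zero, zero_add, Matrix.one_apply_eq, smul_eq_mul, mul_one]
    rw [← mul_assoc, inv_mul_cancel₀ hπ, one_mul]

private lemma AdR_dot {ι : Type} [Fintype ι] [DecidableEq ι] (A G Gt JJ : Matrix ι ι ℂ)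
    (hJ : JJ * JJ = 1) (x y : ι → ℂ) :
    A.mulVec (G.mulVec x) ⬝ᵥ JJ.mulVec ((JJ * Gt * JJ).mulVec y) =
      (Gt.transpose * A * G).mulVec x ⬝ᵥ JJ.mulVec y := by
  have e1 : JJ.mulVec ((JJ * Gt * JJ).mulVec y) = Gt.mulVec (JJ.mulVec y) := by
    rw [Matrix.mulVec_mulVec, Matrix.mulVec_mulVec, ← Matrix.mul_assoc, ← Matrix.mul_assoc, hJ,
      Matrix.one_mul]
  rw [e1, Matrix.dotProduct_mulVec, ← Matrix.mulVec_transpose, Matrix.mulVec_mulVec,
    Matrix.mulVec_mulVec]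

theorem thm_AdR (h1 : St_Wdv) (h2 : St_Blk) (_h3 : St_Cmp) (h4 : DWY.St_CxA) : St_AdR := by
  intro N k d m n M X Y J T S Tp Tm Ta Tb κ L T' S' Ta' Tb' LY hY α A hα hA
  obtain ⟨lx, ly, sur, inj, -, -, dR⟩ := h4 X d (Fin N) Unit T S Tp Tm Ta Tb κ L hY.nx
  have hp : Tp.det ≠ 0 := hY.nx.dp
  have hm : Tm () () ≠ 0 := by
    have := hY.nx.dm
    rwa [Matrix.det_unique] at this
  have hπ : (Real.pi : ℂ) ≠ 0 := Complex.ofReal_ne_zero.2 Real.pi_ne_zero
  have h0 : IsAlgebraic ℚ (0 : ℂ) := isAlgebraic_zero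
  have hinj : ∀ v w, cx X T v = cx X T w → cy X S v = cy X S w → v = w := by
    intro v w e1 e2
    have := inj (v - w) (by rw [lx.map_sub, e1, sub_self]) (by rw [ly.map_sub, e2, sub_self])
    exact sub_eq_zero.1 this
  have hU : ∀ p : Ix (Fin N) Unit Unit, (∃ i, p = (Sum.inl i, ())) ∨ p = (Sum.inr (), ()) := by
    rintro ⟨i | i, j⟩
    · exact Or.inl ⟨i, rfl⟩
    · exact Or.inr rfl
  -- vectors of the first kind
  have key1 : ∀ x : Fin N ⊕ Unit → ℂ, (∀ s, IsAlgebraic ℚ (x s)) → ∃ u : X.H1, X.IsDeRham u ∧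
      J u = zd d • u ∧ ∀ s, XX X T S u (s, ()) = (AdR_D N Tp Tm κ).mulVec x s := by
    intro x hx
    let ζ : Ix (Fin N) Unit Unit → ℂ := fun p => Sum.elim (fun i => x (Sum.inl i)) (fun _ => 0) p.1
    let η : Ix (Fin N) Unit Unit → ℂ := fun p => Sum.elim (fun _ => 0) (fun _ => x (Sum.inr ())) p.1
    obtain ⟨u, ux, uy'⟩ := sur ((blk Unit Tp Tm).mulVec ζ) fun p => 1 / Real.pi *
      (blk Unit Tp⁻¹ Tm⁻¹).transpose.mulVec (fun p' => η p' - (qb κ).mulVec ζ p') p
    have uy : ∀ p, cy X S u p = 1 / Real.pi *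
      (blk Unit Tp⁻¹ Tm⁻¹).transpose.mulVec (fun p' => η p' - (qb κ).mulVec ζ p') p :=
      fun p => congrFun uy' p
    have ux1 : cx X T u (Sum.inr (), ()) = 0 := by
      rw [ux, AdR_blk_inr]
      simp [ζ]
    have uy1 : ∀ i, cy X S u (Sum.inl i, ()) = 0 := by
      intro i
      rw [uy, AdR_blkT_inl]
      simp [ζ, η, AdR_qb_inl]
    have ux2 : ∀ i, cx X T u (Sum.inl i, ()) = (AdR_D N Tp Tm κ).mulVec x (Sum.inl i) := by
      intro i
      rw [ux, AdR_blk_inl, (AdR_Dm N Tp Tm κ x).1]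
      simp [ζ]
    have uy2 : cy X S u (Sum.inr (), ()) = (AdR_D N Tp Tm κ).mulVec x (Sum.inr ()) := by
      rw [uy, AdR_blkT_inr, (AdR_Dm N Tp Tm κ x).2]
      simp only [Finset.univ_unique, Finset.sum_singleton, PUnit.default_eq_unit,
        Matrix.transpose_apply, AdR_unit, AdR_qb_inr, ζ, η, Sum.elim_inl, Sum.elim_inr, mul_inv]
      ring
    have hT0 : ∀ p, XT X T S u p = 0 := by
      intro p
      obtain ⟨i, rfl⟩ | rfl := hU p
      · exact uy1 i
      · exact ux1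
    refine ⟨u, (dR u).2 ⟨ζ, η, ?_, ?_, ux, uy⟩, ?_, ?_⟩
    · rintro ⟨i | i, j⟩
      · exact hx _
      · exact h0
    · rintro ⟨i | i, j⟩
      · exact h0
      · exact hx _
    · refine hinj _ _ (funext fun p => ?_) (funext fun p => ?_)
      · rw [lx.map_smul]
        obtain ⟨i, rfl⟩ | rfl := hU p
        · exact hY.jx u (Sum.inl i, ())
        · have := hY.jt u (Sum.inr (), ())
          rw [hT0] at this
          have e1 : cx X T (J u) (Sum.inr (), ()) = -(zd d * 0) := this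
          rw [e1, Pi.smul_apply, ux1]
          simp
      · rw [ly.map_smul]
        obtain ⟨i, rfl⟩ | rfl := hU p
        · have := hY.jt u (Sum.inl i, ())
          rw [hT0] at this
          have e1 : cy X S (J u) (Sum.inl i, ()) = -(zd d * 0) := this
          rw [e1, Pi.smul_apply, uy1]
          simp
        · exact hY.jx u (Sum.inr (), ())
    · rintro (i | i)
      · exact ux2 i
      · exact uy2
  -- vectors of the second kind
  have key2 : ∀ x : Fin N ⊕ Unit → ℂ, (∀ s, IsAlgebraic ℚ (x s)) → ∃ u : X.H1, X.IsDeRham u ∧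
      J u = (-zd d) • u ∧ ∀ s, XT X T S u (s, ()) = (AdR_D' N Tp Tm κ).mulVec x s := by
    intro x hx
    let ζ : Ix (Fin N) Unit Unit → ℂ := fun p => Sum.elim (fun _ => 0) (fun _ => x (Sum.inr ())) p.1
    let η : Ix (Fin N) Unit Unit → ℂ := fun p => Sum.elim (fun i => x (Sum.inl i)) (fun _ => 0) p.1
    obtain ⟨u, ux, uy'⟩ := sur ((blk Unit Tp Tm).mulVec ζ) fun p => 1 / Real.pi *
      (blk Unit Tp⁻¹ Tm⁻¹).transpose.mulVec (fun p' => η p' - (qb κ).mulVec ζ p') p
    have uy : ∀ p, cy X S u p = 1 / Real.pi *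
      (blk Unit Tp⁻¹ Tm⁻¹).transpose.mulVec (fun p' => η p' - (qb κ).mulVec ζ p') p :=
      fun p => congrFun uy' p
    have ux1 : ∀ i, cx X T u (Sum.inl i, ()) = 0 := by
      intro i
      rw [ux, AdR_blk_inl]
      simp [ζ]
    have uy1 : cy X S u (Sum.inr (), ()) = 0 := by
      rw [uy, AdR_blkT_inr]
      simp [ζ, η, AdR_qb_inr]
    have ux2 : cx X T u (Sum.inr (), ()) = (AdR_D' N Tp Tm κ).mulVec x (Sum.inr ()) := by
      rw [ux, AdR_blk_inr, (AdR_Dm' N Tp Tm κ x).2]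
      simp [ζ]
    have uy2 : ∀ i, cy X S u (Sum.inl i, ()) = (AdR_D' N Tp Tm κ).mulVec x (Sum.inl i) := by
      intro i
      rw [uy, AdR_blkT_inl, (AdR_Dm' N Tp Tm κ x).1]
      simp only [Finset.univ_unique, Finset.sum_singleton, PUnit.default_eq_unit,
        Matrix.transpose_apply, AdR_qb_inl, ζ, η, Sum.elim_inl, Sum.elim_inr, one_div]
    have hT0 : ∀ p, XX X T S u p = 0 := by
      intro p
      obtain ⟨i, rfl⟩ | rfl := hU p
      · exact ux1 i
      · exact uy1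
    refine ⟨u, (dR u).2 ⟨ζ, η, ?_, ?_, ux, uy⟩, ?_, ?_⟩
    · rintro ⟨i | i, j⟩
      · exact h0
      · exact hx _
    · rintro ⟨i | i, j⟩
      · exact hx _
      · exact h0
    · refine hinj _ _ (funext fun p => ?_) (funext fun p => ?_)
      · rw [lx.map_smul]
        obtain ⟨i, rfl⟩ | rfl := hU p
        · have := hY.jx u (Sum.inl i, ())
          rw [hT0] at this
          have e1 : cx X T (J u) (Sum.inl i, ()) = zd d * 0 := this
          rw [e1, Pi.smul_apply, ux1]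
          simp
        · have := hY.jt u (Sum.inr (), ())
          have e1 : cx X T (J u) (Sum.inr (), ()) = -(zd d * cx X T u (Sum.inr (), ())) := this
          rw [e1, Pi.smul_apply, smul_eq_mul, neg_mul]
      · rw [ly.map_smul]
        obtain ⟨i, rfl⟩ | rfl := hU p
        · have := hY.jt u (Sum.inl i, ())
          have e1 : cy X S (J u) (Sum.inl i, ()) = -(zd d * cy X S u (Sum.inl i, ())) := this
          rw [e1, Pi.smul_apply, smul_eq_mul, neg_mul]
        · have := hY.jx u (Sum.inr (), ())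
          rw [hT0] at this
          have e1 : cy X S (J u) (Sum.inr (), ()) = zd d * 0 := this
          rw [e1, Pi.smul_apply, uy1]
          simp
    · rintro (i | i)
      · exact uy2 i
      · exact ux2
  have algs : ∀ (t s : Fin N ⊕ Unit), IsAlgebraic ℚ ((Pi.single t (1 : ℂ) : Fin N ⊕ Unit → ℂ) s) := by
    intro t s
    by_cases h : s = t
    · subst h
      rw [Pi.single_eq_same]
      exact isAlgebraic_one
    · rw [Pi.single_eq_of_ne h]
      exact h0
  choose uu u1 u2 u3 using fun t : Fin N ⊕ Unit => key1 (Pi.single t 1) (algs t)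
  choose vv v1 v2 v3 using fun t : Fin N ⊕ Unit => key2 (Pi.single t 1) (algs t)
  have hwX : ∀ p, wX N k X T S (fun i => uu (ix N k p i)) =
      (dRm N k Tp Tm κ).mulVec (Pi.single p 1) := by
    intro p
    rw [← AdR_ekD h1 h2, ← (h1 N k).2.1 p, ← (h1 N k).2.2.1]
    unfold wX
    congr 1
    funext i s
    exact u3 _ s
  have hwT : ∀ p, wT N k X T S (fun i => vv (ix N k p i)) =
      (ek N k (AdR_D' N Tp Tm κ)).mulVec (Pi.single p 1) := by
    intro p
    rw [← (h1 N k).2.1 p, ← (h1 N k).2.2.1]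
    unfold wT
    congr 1
    funext i s
    exact v3 _ s
  -- the inverse
  have hGt : (dRm N k Tp Tm κ).transpose * ek N k (AdR_E N Tp Tm κ) = 1 := by
    rw [← AdR_ekD h1 h2, ← ((h2 N k).2.2.2.2.1 _).1, ← (h1 N k).2.2.2.2, AdR_DE N Tp Tm κ hp hm,
      (h2 N k).1]
  have hG1 : (ek N k (AdR_E N Tp Tm κ)).transpose * dRm N k Tp Tm κ = 1 := by
    have := congrArg Matrix.transpose hGt
    rwa [Matrix.transpose_mul, Matrix.transpose_transpose, Matrix.transpose_one] at this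
  have hG2 : dRm N k Tp Tm κ * (ek N k (AdR_E N Tp Tm κ)).transpose = 1 := mul_eq_one_comm.1 hG1
  set G := dRm N k Tp Tm κ with hG
  set Gt := ek N k (AdR_E N Tp Tm κ) with hGt'
  set JJ := Jm (PI N (k + 1)) (PI N k) with hJJ
  have hJ2 : JJ * JJ = 1 := AdR_J2 _ _
  have hval : ∀ p q, α (jn k (fun i => uu (ix N k p i)) (fun i => vv (ix N k q i))) =
      ((Gt.transpose * A * G).mulVec (Pi.single p 1)) ⬝ᵥ JJ.mulVec (Pi.single q 1) := by
    intro p q
    rw [hA _ _ (fun i => u2 _) (fun i => v2 _), hwX, hwT, AdR_ekD' h1 h2, AdR_blv,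
      Matrix.smul_mulVec, Matrix.mulVec_smul, dotProduct_smul, smul_eq_mul, ← mul_assoc,
      ← mul_pow, mul_inv_cancel₀ hπ, one_pow, one_mul]
    exact AdR_dot A G Gt JJ hJ2 _ _
  have hJs : ∀ q, JJ.mulVec (Pi.single q 1) = Pi.single q 1 ∨
      JJ.mulVec (Pi.single q 1) = -Pi.single q 1 := by
    rintro (q | q)
    · left
      ext (s | s)
      · simp [hJJ, Jm, Matrix.one_apply, Pi.single_apply]
      · simp [hJJ, Jm, Pi.single_apply]
    · right
      ext (s | s)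
      · simp [hJJ, Jm, Pi.single_apply]
      · simp [hJJ, Jm, Matrix.one_apply, Pi.single_apply]
  refine ⟨Gt.transpose * A * G, fun q p => ?_, ?_⟩
  · have hd : ∀ i, X.IsDeRham (jn k (fun i => uu (ix N k p i)) (fun i => vv (ix N k q i)) i) := by
      intro i
      unfold jn
      split_ifs
      · exact u1 _
      · exact v1 _
    have h5 := hα _ hd
    rw [hval] at h5
    obtain h6 | h6 := hJs q
    · rw [h6] at h5
      simpa using h5
    · rw [h6] at h5
      have h7 := h5.neg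
      simpa using h7
  · rw [← Matrix.mul_assoc, ← Matrix.mul_assoc, hG2, Matrix.one_mul]

end DWZ
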