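import Pool.Agent.DWZ.StA

/-!
# DWZ, module Blk: the exterior power of block matrices
-/

set_option autoImplicit false

namespace DWZ

open scoped ComplexConjugate
open PST DWC DWY

section blk

variable {N k j : ℕ}

lemma Blk_col {A : Matrix (Fin (k + 1)) (Fin (k + 1)) ℂ}
    (h : ∀ i : Fin k, A i.castSucc (Fin.last k) = 0) :
    A.det = A (Fin.last k) (Fin.last k) * (A.submatrix Fin.castSucc Fin.castSucc).det := by
  rw [Matrix.det_succ_column A (Fin.last k), Fin.sum_univ_castSucc]
  have h0 : ∀ i : Fin k, (-1 : ℂ) ^ ((i.castSucc : ℕ) + (Fin.last k : ℕ)) *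
      A i.castSucc (Fin.last k) *
      (A.submatrix (i.castSucc).succAbove (Fin.last k).succAbove).det = 0 := by
    intro i
    rw [h i, mul_zero, zero_mul]
  rw [Finset.sum_eq_zero fun i _ => h0 i, zero_add, Fin.succAbove_last]
  have h1 : (-1 : ℂ) ^ ((Fin.last k : ℕ) + (Fin.last k : ℕ)) = 1 := by
    rw [Fin.val_last, ← two_mul, pow_mul]
    norm_num
  rw [h1, one_mul]

lemma Blk_row {A : Matrix (Fin (k + 1)) (Fin (k + 1)) ℂ}
    (h : ∀ i : Fin k, A (Fin.last k) i.castSucc = 0) :
    A.det = A (Fin.last k) (Fin.last k) * (A.submatrix Fin.castSucc Fin.castSucc).det := by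
  have h1 := Blk_col (A := A.transpose) h
  rw [Matrix.det_transpose] at h1
  rw [h1, ← Matrix.det_transpose, Matrix.transpose_apply]
  rfl

@[simp] lemma Blk_ixl (S : PI N (k + 1)) (i : Fin (k + 1)) :
    ix N k (Sum.inl S) i = Sum.inl (S.1 i) := rfl

@[simp] lemma Blk_ixr (S : PI N k) (i : Fin k) :
    ix N k (Sum.inr S) i.castSucc = Sum.inl (S.1 i) := by
  simp [ix]

@[simp] lemma Blk_ixl' (S : PI N k) : ix N k (Sum.inr S) (Fin.last k) = Sum.inr () := by
  simp [ix]

lemma Blk_ek (g : Matrix (Fin N ⊕ Unit) (Fin N ⊕ Unit) ℂ) (p q : PI N (k + 1) ⊕ PI N k) :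
    ek N k g p q = (g.submatrix (ix N k p) (ix N k q)).det := rfl

/-- the compound of the unit matrix -/
lemma Blk_one (S S' : PI N j) :
    ((1 : Matrix (Fin N) (Fin N) ℂ).submatrix S.1 S'.1).det =
      (1 : Matrix (PI N j) (PI N j) ℂ) S S' := by
  rcases eq_or_ne S S' with h | h
  · subst h
    rw [Matrix.one_apply_eq]
    have h1 : (1 : Matrix (Fin N) (Fin N) ℂ).submatrix S.1 S.1 = 1 := by
      ext a b
      have hinj : Function.Injective S.1 := (show StrictMono S.1 from fun a b h => S.2 a b h).injective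
      simp [Matrix.one_apply, hinj.eq_iff]
    rw [h1, Matrix.det_one]
  · rw [Matrix.one_apply_ne h]
    have hS : StrictMono S.1 := fun a b h => S.2 a b h
    have hS' : StrictMono S'.1 := fun a b h => S'.2 a b h
    -- some value of `S` is not a value of `S'`
    obtain ⟨i, hi⟩ : ∃ i, ∀ l, S.1 i ≠ S'.1 l := by
      by_contra hc
      push Not at hc
      apply h
      apply Subtype.ext
      have hsub : Finset.univ.image S.1 ⊆ Finset.univ.image S'.1 := by
        intro y hy
        rw [Finset.mem_image] at hy ⊢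
        obtain ⟨a, -, ha⟩ := hy
        obtain ⟨l, hl⟩ := hc a
        exact ⟨l, Finset.mem_univ _, by rw [← hl, ha]⟩
      have hcard : (Finset.univ.image S'.1).card ≤ (Finset.univ.image S.1).card := by
        rw [Finset.card_image_of_injective _ hS.injective,
          Finset.card_image_of_injective _ hS'.injective]
      have heq := Finset.eq_of_subset_of_card_le hsub hcard
      have hr : Set.range S.1 = Set.range S'.1 := by
        have := congrArg (fun t : Finset (Fin N) => (t : Set (Fin N))) heq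
        simpa using this
      exact (StrictMono.range_inj hS hS').mp hr
    apply Matrix.det_eq_zero_of_row_eq_zero i
    intro l
    rw [Matrix.submatrix_apply, Matrix.one_apply_ne (hi l)]

lemma Blk_diag (g : Matrix (Fin N) (Fin N) ℂ) (c : Matrix Unit Unit ℂ) :
    ek N k (Matrix.fromBlocks g 0 0 c) =
      Matrix.fromBlocks (cmp N (k + 1) g) 0 0 (c () () • cmp N k g) := by
  ext p q
  rcases p with S | S <;> rcases q with S' | S'
  · rfl
  · rw [Blk_ek, Matrix.fromBlocks_apply₁₂]
    exact Matrix.det_eq_zero_of_column_eq_zero (Fin.last k) fun i => by simp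
  · rw [Blk_ek, Matrix.fromBlocks_apply₂₁]
    exact Matrix.det_eq_zero_of_row_eq_zero (Fin.last k) fun i => by simp
  · rw [Blk_ek, Blk_col (fun i => by simp), Matrix.fromBlocks_apply₂₂, Matrix.smul_apply,
      smul_eq_mul]
    congr 1
    · simp
    · unfold cmp
      rw [Matrix.of_apply]
      congr 1
      ext a b
      simp

lemma Blk_cmp_one : cmp N j 1 = 1 := by
  ext S S'
  exact Blk_one S S'

lemma Blk_ek_one : ek N k (1 : Matrix (Fin N ⊕ Unit) (Fin N ⊕ Unit) ℂ) = 1 := by
  rw [← Matrix.fromBlocks_one, Blk_diag, Blk_cmp_one, Blk_cmp_one, Matrix.one_apply_eq, one_smul,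
    Matrix.fromBlocks_one]

lemma Blk_trans (g : Matrix (Fin N ⊕ Unit) (Fin N ⊕ Unit) ℂ) :
    ek N k g.transpose = (ek N k g).transpose := by
  ext p q
  rw [Matrix.transpose_apply, Blk_ek, Blk_ek, ← Matrix.det_transpose]
  rfl

lemma Blk_conj (g : Matrix (Fin N ⊕ Unit) (Fin N ⊕ Unit) ℂ) :
    ek N k (g.map conj) = (ek N k g).map conj := by
  ext p q
  rw [Matrix.map_apply, Blk_ek, Blk_ek, RingHom.map_det]
  rfl

lemma Blk_up (κ : Matrix (Fin N) Unit ℂ) : ek N k (Matrix.fromBlocks 1 κ 0 1) =
    Matrix.fromBlocks 1 (rm N k fun i => κ i ()) 0 1 := by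
  ext p q
  rcases p with S | S <;> rcases q with S' | S'
  · rw [Matrix.fromBlocks_apply₁₁, ← Blk_one]
    rfl
  · rw [Blk_ek, Matrix.fromBlocks_apply₁₂, ← Matrix.det_transpose]
    unfold rm
    rw [Matrix.of_apply]
    congr 1
    ext a b
    rw [Matrix.transpose_apply, Matrix.submatrix_apply, Matrix.of_apply, Blk_ixl]
    refine Fin.lastCases ?_ (fun a' => ?_) a
    · simp
    · simp [Matrix.one_apply, eq_comm]
  · rw [Blk_ek, Matrix.fromBlocks_apply₂₁]
    exact Matrix.det_eq_zero_of_row_eq_zero (Fin.last k) fun i => by simp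
  · rw [Blk_ek, Blk_row (fun i => by simp), Matrix.fromBlocks_apply₂₂, ← Blk_one]
    simp only [Matrix.submatrix_apply, Blk_ixl', Matrix.fromBlocks_apply₂₂, Matrix.one_apply_eq,
      one_mul]
    congr 1
    ext a b
    simp

end blk

theorem thm_Blk : St_Blk := by
  intro N k
  refine ⟨Blk_ek_one, Blk_diag, Blk_up, fun κ => ?_, fun g => ⟨Blk_trans g, Blk_conj g⟩, ?_⟩
  · have h := Blk_trans (k := k) (Matrix.fromBlocks 1 κ 0 1)
    rw [Blk_up, Matrix.fromBlocks_transpose, Matrix.fromBlocks_transpose] at h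
    simpa using h
  · unfold Jm
    rw [Blk_diag, Blk_cmp_one, Blk_cmp_one]
    congr 1
    simp

end DWZ
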