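import Pool.Agent.DWZ.StA

/-!
# DWZ: compound matrices
-/

set_option autoImplicit false

namespace DWZ

lemma Cmp_blk (h2 : St_Blk) (N j : ℕ) (g : Matrix (Fin N) (Fin N) ℂ) :
    ek N j (Matrix.fromBlocks g 0 0 (1 : Matrix Unit Unit ℂ)) =
      Matrix.fromBlocks (cmp N (j + 1) g) 0 0 (cmp N j g) := by
  rw [(h2 N j).2.1 g 1, Matrix.one_apply_eq, one_smul]

theorem thm_Cmp (h1 : St_Wdv) (h2 : St_Blk) : St_Cmp := by
  intro N j
  refine ⟨fun g h => ?_, ?_, fun g => ?_⟩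
  · have e1 := (h1 N j).2.2.2.2 (Matrix.fromBlocks g 0 0 (1 : Matrix Unit Unit ℂ))
      (Matrix.fromBlocks h 0 0 (1 : Matrix Unit Unit ℂ))
    rw [Matrix.fromBlocks_multiply, Cmp_blk h2, Cmp_blk h2, Matrix.fromBlocks_multiply] at e1
    simp only [Matrix.mul_zero, Matrix.zero_mul, add_zero, zero_add, Matrix.mul_one] at e1
    rw [Cmp_blk h2] at e1
    exact (Matrix.fromBlocks_inj.1 e1).2.2.2
  · have e1 := (h2 N j).1
    rw [← Matrix.fromBlocks_one, Cmp_blk h2, ← Matrix.fromBlocks_one] at e1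
    exact (Matrix.fromBlocks_inj.1 e1).2.2.2
  · ext S S'
    show (g.transpose.submatrix S.1 S'.1).det = (g.submatrix S'.1 S.1).det
    rw [← Matrix.det_transpose]
    rfl

end DWZ
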