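import Pool.Agent.DWZ.StA
import Pool.Agent.PST.UGr

/-!
# DWZ [CmsG]: transport of the pair of lattices (after DWY/CmsG of helper99)
-/

set_option autoImplicit false

namespace DWZ

open scoped ComplexConjugate
open GAM (H E F pd pdl PLat IsTh OddTor IsDel Gro IsLat Pre)
open PST DWC DWY
open Pool.Agent.GPC (AbVar hermForm bilForm)

/-- the action of a matrix as an integral linear map -/
theorem CmsG_lin {α β μ : Type} [Fintype α] [Fintype β] [Fintype μ] [DecidableEq α]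
    [DecidableEq β] [DecidableEq μ] (g : Matrix (α ⊕ β) (α ⊕ β) ℂ) :
    ∃ f : (Ix α β μ → ℂ) →ₗ[ℤ] (Ix α β μ → ℂ), ∀ x, f x = act g x := by
  obtain ⟨-, -, -, hlin, -, -, -⟩ := thm_UGr α β μ
  exact ⟨(AddMonoidHom.mk' (act g) fun x y => (hlin g x y 0).1).toIntLinearMap, fun x => rfl⟩

theorem thm_CmsG (h1 : St_Act) (h2 : St_Wdv) (h3 : St_Blk) : St_CmsG := by
  intro N k s M g L₁ L₀ LY₁ LY₀ hg hL hLY hC
  obtain ⟨-, hA, -, -, -⟩ := h1 N k
  obtain ⟨-, -, -, -, hM⟩ := h2 N k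
  obtain ⟨hone, -⟩ := h3 N k
  obtain ⟨-, u2, u3, -, -, u6, -⟩ := thm_UGr (Fin N) Unit Unit
  obtain ⟨-, v2, v3, v4, -, -, -⟩ := thm_UGr (PI N (k + 1)) (PI N k) Unit
  obtain ⟨-, -, hgi, -, -⟩ := u6 g hg
  obtain ⟨gi, hgie⟩ : ∃ gi, gi = Jm (Fin N) Unit * g.conjTranspose * Jm (Fin N) Unit := ⟨_, rfl⟩
  rw [← hgie] at hgi
  have e1 : ∀ x : IX N → ℂ, act g (act gi x) = x := fun x => by rw [← u2, hgi, u3]
  have e2' : ∀ x : IY N k → ℂ, act (ek N k g) (act (ek N k gi) x) = x := fun x => by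
    rw [← v2, ← hM, hgi, hone, v3]
  have hs : ∀ l : Fin (k + 1) → IX N → ℂ, act (ek N k g) ((s : ℂ) • we N k l) =
      (s : ℂ) • we N k (fun i => act g (l i)) := fun l => by
    rw [(v4 (ek N k g) (we N k l) 0 s).2, hA]
  refine ⟨hC.s0, hC.m0, fun l hl => ?_, fun y hy => ?_⟩
  · have h4 := hC.into (fun i => act gi (l i)) (fun i => by rw [hL, e1]; exact hl i)
    rw [hLY, hs] at h4
    simp only [e1] at h4
    exact h4
  · have h5 : act (ek N k gi) y ∈ LY₁ := by rw [hLY, e2']; exact hy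
    have h6 := hC.onto _ h5
    obtain ⟨f, hf⟩ := CmsG_lin (μ := Unit) (ek N k g)
    have h7 := Submodule.mem_map_of_mem (f := f) h6
    rw [Submodule.map_span, map_zsmul, hf, e2'] at h7
    refine Submodule.span_mono ?_ h7
    rintro _ ⟨v, ⟨l, hl, rfl⟩, rfl⟩
    refine ⟨fun i => act g (l i), fun i => (hL (l i)).1 (hl i), ?_⟩
    rw [hf, hs]

end DWZ
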