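import Pool.Agent.DWZ.StA

/-!
# DWZ, module CmsK: the lattices of the CM point
-/

set_option autoImplicit false

namespace DWZ

open scoped ComplexConjugate
open GAM (H E F pd pdl PLat IsTh OddTor IsDel Gro IsLat Pre)
open PST DWC DWY
open Pool.Agent.GPC (AbVar hermForm bilForm)

private theorem CmsK_d4 {d : ℚ} (hd : 0 < d) : 0 < d4 d ∧ d4 d ^ 2 * Real.sqrt (d : ℝ) = 1 := by
  have h1 : (0 : ℝ) < (d : ℝ) := by exact_mod_cast hd
  have h2 : 0 < Real.sqrt (d : ℝ) := Real.sqrt_pos.mpr h1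
  have h3 : 0 < Real.sqrt (Real.sqrt (d : ℝ)) := Real.sqrt_pos.mpr h2
  refine ⟨inv_pos.mpr h3, ?_⟩
  unfold d4
  rw [inv_pow, Real.sq_sqrt h2.le]
  exact inv_mul_cancel₀ h2.ne'

private theorem CmsK_R {N k : ℕ} {d : ℚ} {r : Fin N ⊕ Unit → ℝ} {q : Fin N ⊕ Unit → ℚ}
    (h : IsR d r q) : IsR d (rY N k d r) (qY N k d q) := by
  obtain ⟨hpos, hr, hq⟩ := h
  obtain ⟨h4, h4'⟩ := CmsK_d4 hpos
  have hd : (0 : ℝ) < (d : ℝ) := by exact_mod_cast hpos
  have hs : Real.sqrt (d : ℝ) ^ 2 = (d : ℝ) := Real.sq_sqrt hd.le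
  refine ⟨hpos, fun p => ?_, fun p => ?_⟩
  · exact mul_pos (pow_pos h4 k) (Finset.prod_pos fun i _ => hr _)
  · unfold rY qY
    push_cast
    rw [Finset.prod_congr rfl fun i _ => hq (ix N k p i), Finset.prod_mul_distrib,
      Finset.prod_const, Finset.card_univ, Fintype.card_fin, Finset.prod_pow, div_eq_iff
      (pow_ne_zero _ hd.ne'), mul_pow]
    have e1 : (d4 d ^ k) ^ 2 * Real.sqrt (d : ℝ) ^ k = 1 := by
      rw [← pow_mul, mul_comm k 2, pow_mul, ← mul_pow, h4', one_pow]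
    have e2 : (d : ℝ) ^ k = Real.sqrt (d : ℝ) ^ k * Real.sqrt (d : ℝ) ^ k := by
      rw [← mul_pow, ← sq, hs]
    rw [e2, pow_succ]
    linear_combination (-((∏ i, r (ix N k p i)) ^ 2 * Real.sqrt (d : ℝ) ^ k *
      Real.sqrt (d : ℝ))) * e1

private theorem CmsK_den {κ : Type} [Fintype κ] (f : κ → ℚ) :
    ∃ N : ℕ, N ≠ 0 ∧ ∀ k, ∃ z : ℤ, (N : ℚ) * f k = z := by
  classical
  refine ⟨∏ k, (f k).den, Finset.prod_ne_zero_iff.mpr fun k _ => (f k).den_nz, fun k => ?_⟩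
  obtain ⟨c, hc⟩ := Finset.dvd_prod_of_mem (fun k => (f k).den) (Finset.mem_univ k)
  refine ⟨(c : ℤ) * (f k).num, ?_⟩
  rw [hc]
  push_cast
  have := Rat.mul_den_eq_num (f k)
  linear_combination (c : ℚ) * this

private theorem CmsK_sw {γ δ : Type} (c : ℝ) (X : Ix γ δ Unit → ℂ) :
    (c : ℂ) • sw X = sw fun p => (c : ℂ) * X p := by
  funext p
  obtain ⟨p, _⟩ := p
  rcases p with i | i
  · rfl
  · show (c : ℂ) * conj (X (Sum.inr i, _)) = conj ((c : ℂ) * X (Sum.inr i, _))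
    rw [map_mul, Complex.conj_ofReal]

private theorem CmsK_sw2 {γ δ : Type} (X : Ix γ δ Unit → ℂ) : sw (sw X) = X := by
  funext p
  obtain ⟨p, _⟩ := p
  rcases p with i | i
  · rfl
  · exact Complex.conj_conj _

private theorem CmsK_sq {d : ℚ} (hd : 0 < d) : zd d ^ 2 = -(d : ℂ) := by
  have h0 : (0 : ℝ) ≤ (d : ℝ) := by exact_mod_cast hd.le
  unfold zd
  rw [mul_pow, Complex.I_sq, ← Complex.ofReal_pow, Real.sq_sqrt h0]
  push_cast
  ring

/-- The ring of the numbers `A + B w`. -/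
private def CmsK_ring (w : ℂ) (m : ℤ) (hw : w ^ 2 = (m : ℂ)) : Subring ℂ where
  carrier := {x | ∃ A B : ℤ, x = (A : ℂ) + (B : ℂ) * w}
  mul_mem' := by
    rintro _ _ ⟨A, B, rfl⟩ ⟨A', B', rfl⟩
    refine ⟨A * A' + B * B' * m, A * B' + B * A', ?_⟩
    push_cast
    linear_combination ((B : ℂ) * B') * hw
  one_mem' := ⟨1, 0, by simp⟩
  add_mem' := by
    rintro _ _ ⟨A, B, rfl⟩ ⟨A', B', rfl⟩
    refine ⟨A + A', B + B', ?_⟩
    push_cast
    ring
  zero_mem' := ⟨0, 0, by simp⟩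
  neg_mem' := by
    rintro _ ⟨A, B, rfl⟩
    refine ⟨-A, -B, ?_⟩
    push_cast
    ring

private theorem CmsK_det (S : Subring ℂ) {n : ℕ} (M : Matrix (Fin n) (Fin n) ℂ)
    (h : ∀ i j, M i j ∈ S) : M.det ∈ S := by
  rw [Matrix.det_apply]
  refine S.sum_mem fun σ _ => ?_
  rw [Units.smul_def]
  exact S.zsmul_mem (S.prod_mem fun i _ => h _ _) _

/-- The point with the coordinates `a`, `b`. -/
private noncomputable def CmsK_pt {γ δ : Type} (d : ℚ) (r : γ ⊕ δ → ℝ) (q : γ ⊕ δ → ℚ)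
    (a b : γ ⊕ δ → ℤ) : Ix γ δ Unit → ℂ :=
  sw fun p => (r p.1 : ℂ) * ((a p.1 : ℂ) + (b p.1 : ℂ) / (q p.1 : ℂ) * zd d)

private theorem CmsK_add {γ δ : Type} {d : ℚ} {r : γ ⊕ δ → ℝ} {q : γ ⊕ δ → ℚ}
    (a b a' b' : γ ⊕ δ → ℤ) :
    CmsK_pt d r q a b + CmsK_pt d r q a' b' = CmsK_pt d r q (a + a') (b + b') := by
  funext p
  obtain ⟨p, _⟩ := p
  rcases p with i | i
  · show (r (Sum.inl i) : ℂ) * _ + (r (Sum.inl i) : ℂ) * _ = (r (Sum.inl i) : ℂ) * _
    simp only [Pi.add_apply]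
    push_cast
    ring
  · show conj ((r (Sum.inr i) : ℂ) * _) + conj ((r (Sum.inr i) : ℂ) * _) =
      conj ((r (Sum.inr i) : ℂ) * _)
    rw [← map_add]
    congr 1
    simp only [Pi.add_apply]
    push_cast
    ring

private theorem CmsK_sum {γ δ : Type} {d : ℚ} {r : γ ⊕ δ → ℝ} {q : γ ⊕ δ → ℚ} {κ : Type}
    (s : Finset κ) (f g : κ → γ ⊕ δ → ℤ) :
    ∑ k ∈ s, CmsK_pt d r q (f k) (g k) = CmsK_pt d r q (∑ k ∈ s, f k) (∑ k ∈ s, g k) := by
  classical
  induction s using Finset.induction_on with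
  | empty =>
    funext p
    obtain ⟨p, _⟩ := p
    rcases p with i | i <;> simp [CmsK_pt, sw]
  | insert k s hk ih => rw [Finset.sum_insert hk, Finset.sum_insert hk, Finset.sum_insert hk, ih,
      CmsK_add]

private theorem CmsK_smul {γ δ : Type} {d : ℚ} {r : γ ⊕ δ → ℝ} {q : γ ⊕ δ → ℚ} (M : ℤ)
    (a b : γ ⊕ δ → ℤ) :
    M • CmsK_pt d r q a b = CmsK_pt d r q (M • a) (M • b) := by
  funext p
  obtain ⟨p, _⟩ := p
  rcases p with i | i
  · show M • ((r (Sum.inl i) : ℂ) * _) = (r (Sum.inl i) : ℂ) * _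
    simp only [Pi.smul_apply, smul_eq_mul, zsmul_eq_mul]
    push_cast
    ring
  · show M • conj ((r (Sum.inr i) : ℂ) * _) = conj ((r (Sum.inr i) : ℂ) * _)
    rw [← map_zsmul]
    congr 1
    simp only [Pi.smul_apply, smul_eq_mul, zsmul_eq_mul]
    push_cast
    ring

private theorem CmsK_mem {γ δ : Type} {d : ℚ} {r : γ ⊕ δ → ℝ} {q : γ ⊕ δ → ℚ}
    {L : Submodule ℤ (Ix γ δ Unit → ℂ)} (hL : IsLK d r q L) (a b : γ ⊕ δ → ℤ) :
    CmsK_pt d r q a b ∈ L := (hL _).mpr ⟨a, b, rfl⟩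

/-- The exterior product of points. -/
private theorem CmsK_we {N k : ℕ} {d : ℚ} {r : Fin N ⊕ Unit → ℝ} {q : Fin N ⊕ Unit → ℚ} (n : ℕ)
    (a b : Fin (k + 1) → Fin N ⊕ Unit → ℤ) (A B : PI N (k + 1) ⊕ PI N k → ℤ)
    (h : ∀ p, (n : ℂ) * (Matrix.of fun i j : Fin (k + 1) => (a i (ix N k p j) : ℂ) +
        (b i (ix N k p j) : ℂ) / (q (ix N k p j) : ℂ) * zd d).det =
      (A p : ℂ) + (B p : ℂ) / (qY N k d q p : ℂ) * zd d) :
    ((((n : ℝ) * d4 d ^ k : ℝ)) : ℂ) • we N k (fun i => CmsK_pt d r q (a i) (b i)) =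
      CmsK_pt d (rY N k d r) (qY N k d q) A B := by
  unfold we CmsK_pt
  simp only [CmsK_sw2]
  rw [CmsK_sw]
  congr 1
  funext p
  rw [← h p.1]
  have e1 : wd N k (fun i (p : IX N) => (r p.1 : ℂ) *
      ((a i p.1 : ℂ) + (b i p.1 : ℂ) / (q p.1 : ℂ) * zd d)) p =
      (∏ j, (r (ix N k p.1 j) : ℂ)) *
        (Matrix.of fun i j : Fin (k + 1) => (a i (ix N k p.1 j) : ℂ) +
        (b i (ix N k p.1 j) : ℂ) / (q (ix N k p.1 j) : ℂ) * zd d).det := by
    rw [← Matrix.det_mul_row]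
    rfl
  rw [e1]
  unfold rY
  push_cast
  ring

/-- The lattices of the CM point. -/
theorem thm_CmsK (h1 : St_Wdv) : St_CmsK := by
  intro N k d r q h
  refine ⟨CmsK_R h, fun L LY hL hLY => ?_⟩
  have hY : IsR d (rY N k d r) (qY N k d q) := CmsK_R h
  have hd := h.pos
  have hdR : (0 : ℝ) < (d : ℝ) := by exact_mod_cast hd
  have hq0 : ∀ s, q s ≠ 0 := by
    intro s
    have h2 : (q s : ℝ) ≠ 0 := by
      rw [h.rq s]
      exact (mul_pos (pow_pos (h.rpos s) 2) (Real.sqrt_pos.mpr hdR)).ne'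
    exact_mod_cast h2
  have hqY0 : ∀ p, qY N k d q p ≠ 0 := by
    intro p
    have h2 : (qY N k d q p : ℝ) ≠ 0 := by
      rw [hY.rq p]
      exact (mul_pos (pow_pos (hY.rpos p) 2) (Real.sqrt_pos.mpr hdR)).ne'
    exact_mod_cast h2
  set e : ℕ := d.den with he
  have he0 : (e : ℚ) ≠ 0 := by exact_mod_cast d.den_nz
  have hed : (d : ℚ) * e = (d.num : ℚ) := Rat.mul_den_eq_num d
  obtain ⟨T, hT, hTf⟩ := CmsK_den fun s => 1 / (q s * e)
  obtain ⟨T2, hT2, hT2f⟩ := CmsK_den fun p => qY N k d q p * e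
  obtain ⟨M', hM', hM'f⟩ := CmsK_den
    (fun x : (Fin N ⊕ Unit) × (PI N (k + 1) ⊕ PI N k) => q x.1 / qY N k d q x.2)
  choose u hu using hTf
  choose v hv using hT2f
  choose x hx using hM'f
  have hw : ((e : ℂ) * zd d) ^ 2 = ((-(e * d.num) : ℤ) : ℂ) := by
    have h3 : ((d : ℂ)) * (e : ℂ) = (d.num : ℂ) := by exact_mod_cast hed
    rw [mul_pow, CmsK_sq hd]
    push_cast
    rw [← h3]
    ring
  set n : ℕ := T ^ (k + 1) * T2 with hn
  have hn0 : n ≠ 0 := mul_ne_zero (pow_ne_zero _ hT) hT2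
  obtain ⟨⟨f, hf⟩, hs, -, -, -⟩ := h1 N k
  refine ⟨n, n * M', ?_, ?_, ?_, ?_⟩
  · exact mul_ne_zero (by exact_mod_cast hn0) (pow_ne_zero _ (CmsK_d4 hd).1.ne')
  · exact mul_ne_zero hn0 hM'
  · intro l hl
    have hl' : ∀ i, ∃ a b : Fin N ⊕ Unit → ℤ, l i = CmsK_pt d r q a b := fun i =>
      (hL (l i)).mp (hl i)
    choose a b hab using hl'
    have hD : ∀ p, ∃ A B : ℤ, ((T : ℂ) • (Matrix.of fun i j : Fin (k + 1) =>
        (a i (ix N k p j) : ℂ) + (b i (ix N k p j) : ℂ) / (q (ix N k p j) : ℂ) * zd d)).det =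
        (A : ℂ) + (B : ℂ) * ((e : ℂ) * zd d) := by
      intro p
      refine CmsK_det (CmsK_ring _ _ hw) _ fun i j => ?_
      refine ⟨T * a i (ix N k p j), b i (ix N k p j) * u (ix N k p j), ?_⟩
      have h3 : (u (ix N k p j) : ℂ) = (T : ℂ) * (1 / ((q (ix N k p j) : ℂ) * (e : ℂ))) := by
        exact_mod_cast (hu (ix N k p j)).symm
      have h4 : (q (ix N k p j) : ℂ) ≠ 0 := by exact_mod_cast hq0 _
      have h5 : (e : ℂ) ≠ 0 := by exact_mod_cast he0
      rw [Matrix.smul_apply, Matrix.of_apply, smul_eq_mul]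
      push_cast
      rw [h3]
      field_simp
    choose A B hAB using hD
    have h3 := CmsK_we (r := r) n a b (fun p => T2 * A p) (fun p => B p * v p) (fun p => by
      have h3 := hAB p
      rw [Matrix.det_smul, Fintype.card_fin] at h3
      generalize (Matrix.of fun i j : Fin (k + 1) => (a i (ix N k p j) : ℂ) +
        (b i (ix N k p j) : ℂ) / (q (ix N k p j) : ℂ) * zd d).det = Δ at h3 ⊢
      have h4 : (v p : ℂ) = (T2 : ℂ) * ((qY N k d q p : ℂ) * (e : ℂ)) := by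
        exact_mod_cast (hv p).symm
      have h5 : (qY N k d q p : ℂ) ≠ 0 := by exact_mod_cast hqY0 p
      have h6 : (n : ℂ) = (T : ℂ) ^ (k + 1) * (T2 : ℂ) := by
        rw [hn]
        push_cast
        ring
      rw [h6]
      push_cast
      rw [h4]
      have h7 : (B p : ℂ) * ((T2 : ℂ) * ((qY N k d q p : ℂ) * (e : ℂ))) / (qY N k d q p : ℂ) =
          (B p : ℂ) * (T2 : ℂ) * (e : ℂ) := by
        rw [div_eq_iff h5]
        ring
      rw [h7]
      linear_combination (T2 : ℂ) * h3)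
    have h4 : l = fun i => CmsK_pt d r q (a i) (b i) := funext hab
    rw [h4, h3]
    exact CmsK_mem hLY _ _
  · intro y hy
    obtain ⟨a, b, hyab⟩ := (hLY y).mp hy
    have hyab' : y = CmsK_pt d (rY N k d r) (qY N k d q) a b := hyab
    have key : ∀ p : PI N (k + 1) ⊕ PI N k, CmsK_pt d (rY N k d r) (qY N k d q)
        (Pi.single p ((n * M' : ℕ) * a p)) (Pi.single p ((n * M' : ℕ) * b p)) ∈
        Submodule.span ℤ {v : IY N k → ℂ | ∃ l : Fin (k + 1) → IX N → ℂ, (∀ i, l i ∈ L) ∧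
          v = ((((n : ℝ) * d4 d ^ k : ℝ)) : ℂ) • we N k l} := by
      intro p
      refine Submodule.subset_span ⟨fun i => CmsK_pt d r q
        (Pi.single (ix N k p i) (if i = Fin.last k then M' * a p else 1))
        (Pi.single (ix N k p i) (if i = Fin.last k then x (ix N k p i, p) * b p else 0)),
        fun i => CmsK_mem hL _ _, ?_⟩
      symm
      refine CmsK_we n _ _ _ _ fun p' => ?_
      set g : Fin (k + 1) → ℂ := fun i => if i = Fin.last k then
        ((M' : ℂ) * a p + (x (ix N k p i, p) : ℂ) * b p / (q (ix N k p i) : ℂ) * zd d) else 1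
        with hg
      have h3 : (Matrix.of fun i j : Fin (k + 1) =>
          (((Pi.single (ix N k p i) (if i = Fin.last k then (M' : ℤ) * a p else 1) :
            Fin N ⊕ Unit → ℤ) (ix N k p' j) : ℤ) : ℂ) +
          (((Pi.single (ix N k p i) (if i = Fin.last k then x (ix N k p i, p) * b p else 0) :
            Fin N ⊕ Unit → ℤ) (ix N k p' j) : ℤ) : ℂ) / (q (ix N k p' j) : ℂ) * zd d).det =
          wdv N k (fun i => g i • (Pi.single (ix N k p i) 1 : Fin N ⊕ Unit → ℂ)) p' := by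
        unfold wdv
        congr 1
        ext i j
        simp only [Matrix.of_apply, Pi.smul_apply, smul_eq_mul, hg]
        by_cases hij : ix N k p' j = ix N k p i
        · rw [hij]
          simp only [Pi.single_eq_same, mul_one]
          split_ifs
          · push_cast
            ring
          · simp
        · rw [Pi.single_eq_of_ne hij, Pi.single_eq_of_ne hij, Pi.single_eq_of_ne hij]
          simp
      rw [h3, ← hf, f.map_smul_univ, hf, hs p]
      have h4 : ∏ i, g i = (M' : ℂ) * a p + (x (ix N k p (Fin.last k), p) : ℂ) * b p /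
          (q (ix N k p (Fin.last k)) : ℂ) * zd d := by
        rw [hg, Finset.prod_ite_eq' Finset.univ (Fin.last k)]
        simp
      rw [h4]
      have h5 : (x (ix N k p (Fin.last k), p) : ℂ) =
          (M' : ℂ) * ((q (ix N k p (Fin.last k)) : ℂ) / (qY N k d q p : ℂ)) := by
        exact_mod_cast (hx (ix N k p (Fin.last k), p)).symm
      have h6 : (q (ix N k p (Fin.last k)) : ℂ) ≠ 0 := by exact_mod_cast hq0 _
      have h7 : (qY N k d q p : ℂ) ≠ 0 := by exact_mod_cast hqY0 p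
      rw [h5]
      by_cases hp : p' = p
      · subst hp
        simp only [Pi.smul_apply, Pi.single_eq_same, smul_eq_mul, mul_one]
        push_cast
        field_simp
      · rw [Pi.smul_apply, Pi.single_eq_of_ne hp, Pi.single_eq_of_ne hp, Pi.single_eq_of_ne hp]
        simp
    have hsum : ((n * M' : ℕ) : ℤ) • CmsK_pt d (rY N k d r) (qY N k d q) a b =
        ∑ p, CmsK_pt d (rY N k d r) (qY N k d q)
        (Pi.single p ((n * M' : ℕ) * a p)) (Pi.single p ((n * M' : ℕ) * b p)) := by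
      rw [CmsK_sum, CmsK_smul]
      congr 1
      · exact (Finset.univ_sum_single (((n * M' : ℕ) : ℤ) • a)).symm
      · exact (Finset.univ_sum_single (((n * M' : ℕ) : ℤ) • b)).symm
    rw [hyab']
    exact hsum ▸ Submodule.sum_mem _ fun p _ => key p

end DWZ
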