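import Pool.Agent.DWZ.StA
import Pool.Agent.PST.UGr

/-!
# DWZ [CocZ]: cocompactness up to half planes for the pair of lattices (after DWY/CocP of helper99)
-/

set_option autoImplicit false

namespace DWZ

open scoped ComplexConjugate
open GAM (H E F pd pdl PLat IsTh OddTor IsDel Gro IsLat Pre)
open PST DWC DWY
open Pool.Agent.GPC (AbVar hermForm bilForm)

/-- the action of a matrix as an integral linear map -/
theorem CocZ_lin {α β μ : Type} [Fintype α] [Fintype β] [Fintype μ] [DecidableEq α]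
    [DecidableEq β] [DecidableEq μ] (g : Matrix (α ⊕ β) (α ⊕ β) ℂ) :
    ∃ f : (Ix α β μ → ℂ) →ₗ[ℤ] (Ix α β μ → ℂ), ∀ x, f x = act g x := by
  obtain ⟨-, -, -, hlin, -, -, -⟩ := thm_UGr α β μ
  exact ⟨(AddMonoidHom.mk' (act g) fun x y => (hlin g x y 0).1).toIntLinearMap, fun x => rfl⟩

theorem CocZ_wz (N k : ℕ) (h : St_Act) (x : Fin (k + 1) → IX N → ℂ) (i : Fin (k + 1)) (n : ℤ)
    (y : IX N → ℂ) : we N k (Function.update x i (n • y)) =
      n • we N k (Function.update x i y) := by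
  obtain ⟨-, -, ha, -, -⟩ := h N k
  exact map_zsmul (AddMonoidHom.mk' (fun y => we N k (Function.update x i y))
    fun y y' => ha x i y y') n y

/-- expansion of the exterior product of congruent vectors -/
theorem CocZ_exp (N k : ℕ) (h : St_Act) {s : ℝ} {M : ℕ} {L : Submodule ℤ (IX N → ℂ)}
    {LY : Submodule ℤ (IY N k → ℂ)} (hC : Cms N k s M L LY) (c : ℤ)
    (l m : Fin (k + 1) → IX N → ℂ) (hl : ∀ i, l i ∈ L) (hm : ∀ i, m i ∈ L) :
    ∃ u ∈ LY, (s : ℂ) • we N k (fun i => l i + c • m i) = (s : ℂ) • we N k l + c • u := by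
  classical
  obtain ⟨-, -, ha, -, -⟩ := h N k
  have key : ∀ S : Finset (Fin (k + 1)), ∃ u ∈ LY,
      (s : ℂ) • we N k (fun i => if i ∈ S then l i + c • m i else l i) =
        (s : ℂ) • we N k l + c • u := by
    intro S
    induction S using Finset.induction_on with
    | empty => exact ⟨0, LY.zero_mem, by simp⟩
    | insert j S hj ih =>
      obtain ⟨u, hu, e⟩ := ih
      obtain ⟨x, hx⟩ : ∃ x : Fin (k + 1) → IX N → ℂ,
        x = fun i => if i ∈ S then l i + c • m i else l i := ⟨_, rfl⟩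
      have e1 : (fun i => if i ∈ insert j S then l i + c • m i else l i) =
          Function.update x j (l j + c • m j) := by
        funext i
        by_cases hi : i = j
        · subst hi
          simp
        · rw [Function.update_of_ne hi, hx]
          simp [hi]
      have e2' : Function.update x j (l j) = x := by
        funext i
        by_cases hi : i = j
        · subst hi
          rw [Function.update_self, hx]
          simp [hj]
        · rw [Function.update_of_ne hi]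
      have hmem : ∀ i, Function.update x j (m j) i ∈ L := by
        intro i
        by_cases hi : i = j
        · subst hi
          rw [Function.update_self]
          exact hm _
        · rw [Function.update_of_ne hi, hx]
          show (if i ∈ S then l i + c • m i else l i) ∈ L
          split_ifs
          · exact L.add_mem (hl i) (L.smul_mem c (hm i))
          · exact hl i
      refine ⟨u + (s : ℂ) • we N k (Function.update x j (m j)),
        LY.add_mem hu (hC.into _ hmem), ?_⟩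
      rw [← hx] at e
      rw [e1, ha, CocZ_wz N k h, e2', smul_add, e, smul_add, smul_comm (s : ℂ) c, add_assoc]
  have := key Finset.univ
  simpa using this

/-- the congruence for the exterior power -/
theorem CocZ_cong (N k : ℕ) (h : St_Act) {s : ℝ} {M n : ℕ} {L : Submodule ℤ (IX N → ℂ)}
    {LY : Submodule ℤ (IY N k → ℂ)} (hC : Cms N k s M L LY)
    (g : Matrix (Fin N ⊕ Unit) (Fin N ⊕ Unit) ℂ)
    (hg : ∀ l ∈ L, ∃ m ∈ L, act g l = l + ((n * M : ℕ) : ℤ) • m) :
    ∀ y ∈ LY, ∃ m ∈ LY, act (ek N k g) y = y + (n : ℤ) • m := by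
  obtain ⟨-, -, -, v4, -, -, -⟩ := thm_UGr (PI N (k + 1)) (PI N k) Unit
  obtain ⟨-, hA, -, -, -⟩ := h N k
  obtain ⟨f, hf⟩ := CocZ_lin (μ := Unit) (ek N k g)
  have hspan : ∀ v ∈ Submodule.span ℤ {v : IY N k → ℂ | ∃ l : Fin (k + 1) → IX N → ℂ,
      (∀ i, l i ∈ L) ∧ v = (s : ℂ) • we N k l},
      ∃ m ∈ LY, f v = v + ((n * M : ℕ) : ℤ) • m := by
    intro v hv
    induction hv using Submodule.span_induction with
    | mem v hv =>
      obtain ⟨l, hl, rfl⟩ := hv
      choose m hm e using fun i => hg (l i) (hl i)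
      rw [hf, (v4 (ek N k g) (we N k l) 0 s).2, hA]
      simp only [e]
      exact CocZ_exp N k h hC _ l m hl hm
    | zero => exact ⟨0, LY.zero_mem, by simp⟩
    | add v w _ _ hv hw =>
      obtain ⟨m, hm, e1⟩ := hv
      obtain ⟨m', hm', e2'⟩ := hw
      refine ⟨m + m', LY.add_mem hm hm', ?_⟩
      rw [map_add, e1, e2', smul_add]
      abel
    | smul c v _ hv =>
      obtain ⟨m, hm, e1⟩ := hv
      refine ⟨c • m, LY.smul_mem c hm, ?_⟩
      rw [map_smul, e1, smul_add, smul_comm]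
  intro y hy
  obtain ⟨m, hm, e1⟩ := hspan _ (hC.onto y hy)
  refine ⟨m, hm, ?_⟩
  have hM : (M : ℤ) ≠ 0 := by exact_mod_cast hC.m0
  have e3 : (M : ℤ) • act (ek N k g) y = (M : ℤ) • (y + (n : ℤ) • m) := by
    rw [← hf, ← map_smul, e1, smul_add, smul_smul, Nat.cast_mul, mul_comm]
  exact smul_right_injective _ hM e3

theorem thm_CocZ (h1 : St_Act) (h2 : St_Wdv) (h3 : St_Blk) : St_CocZ := by
  intro N k e s M L LY hC hH n hn
  obtain ⟨-, u2, u3, u4, -, u6, -⟩ := thm_UGr (Fin N) Unit Unit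
  obtain ⟨-, v2, v3, -, -, -, -⟩ := thm_UGr (PI N (k + 1)) (PI N k) Unit
  obtain ⟨-, -, -, -, hM⟩ := h2 N k
  obtain ⟨hone, -⟩ := h3 N k
  obtain ⟨K, C, hK1, hK2, hK3, hK⟩ := hH (n * M) (mul_ne_zero hn hC.m0)
  refine ⟨K, C, hK1, hK2, hK3, fun p hp => ?_⟩
  obtain ⟨U, hU, hU2⟩ := hK p hp
  refine ⟨U, hU, fun w hw => ?_⟩
  obtain ⟨z, hz1, hz2, hz3, hz4, hz5⟩ := hU2 w hw
  refine ⟨z, hz1, hz2, hz3, hz4, fun t => ?_⟩
  obtain ⟨g, hg1, hg2, hg3, hg4, hg5⟩ := hz5 t
  obtain ⟨-, hig, -, -, -⟩ := u6 g hg1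
  obtain ⟨gi, hgie⟩ : ∃ gi, gi = Jm (Fin N) Unit * g.conjTranspose * Jm (Fin N) Unit := ⟨_, rfl⟩
  rw [← hgie] at hig
  have e1 : ∀ x : IX N → ℂ, act gi (act g x) = x := fun x => by rw [← u2, hig, u3]
  have hgi : g * gi = 1 := mul_eq_one_comm.1 hig
  have e1' : ∀ x : IX N → ℂ, act g (act gi x) = x := fun x => by rw [← u2, hgi, u3]
  have e2' : ∀ x : IY N k → ℂ, act (ek N k gi) (act (ek N k g) x) = x := fun x => by
    rw [← v2, ← hM, hig, hone, v3]
  have hc := CocZ_cong N k h1 hC g hg4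
  have hgic : ∀ l ∈ L, ∃ m ∈ L, act gi l = l + ((n * M : ℕ) : ℤ) • m := by
    intro l hl
    have h2 : act gi l ∈ L := by rw [hg3, e1']; exact hl
    obtain ⟨m, hm, e3⟩ := hg4 _ h2
    rw [e1'] at e3
    refine ⟨-m, L.neg_mem hm, ?_⟩
    rw [smul_neg, ← sub_eq_add_neg]
    exact eq_sub_of_add_eq e3.symm
  have hci := CocZ_cong N k h1 hC gi hgic
  refine ⟨g, ⟨hg1, hg2, hg3, fun l hl => ?_⟩, fun x => ⟨fun hx => ?_, fun hx => ?_⟩, hc, hg5⟩
  · obtain ⟨m, hm, e3⟩ := hg4 l hl
    refine ⟨(M : ℤ) • m, L.smul_mem _ hm, ?_⟩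
    rw [e3, smul_smul, Nat.cast_mul]
  · obtain ⟨m, hm, e3⟩ := hc x hx
    rw [e3]
    exact LY.add_mem hx (LY.smul_mem _ hm)
  · obtain ⟨m, hm, e3⟩ := hci _ hx
    rw [e2'] at e3
    rw [e3]
    exact LY.add_mem hx (LY.smul_mem _ hm)

end DWZ
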