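import Pool.Agent.DWZ.StA

/-!
# DWZ, module DCt: the derivation of the exterior power
-/

set_option autoImplicit false

namespace DWZ

open scoped ComplexConjugate
open PST DWC DWY

/-! ## The derivative of a determinant -/

section det

variable {ν : Type*} [Fintype ν] [DecidableEq ν] (δ : Derivation ℚ ℂ ℂ)

omit [Fintype ν] in
lemma DCt_prod (s : Finset ν) (g : ν → ℂ) :
    δ (∏ i ∈ s, g i) = ∑ b ∈ s, ∏ i ∈ s, (if i = b then δ (g i) else g i) := by
  induction s using Finset.induction_on with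
  | empty => simp
  | insert a s ha ih =>
    rw [Finset.prod_insert ha, Derivation.leibniz, ih, Finset.sum_insert ha,
      Finset.prod_insert ha, if_pos rfl, smul_eq_mul, smul_eq_mul, add_comm, Finset.mul_sum,
      mul_comm (δ (g a))]
    congr 1
    · congr 1
      refine Finset.prod_congr rfl fun i hi => ?_
      rw [if_neg]
      rintro rfl
      exact ha hi
    · refine Finset.sum_congr rfl fun b hb => ?_
      rw [Finset.prod_insert ha, if_neg]
      rintro rfl
      exact ha hb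

lemma DCt_det (M : Matrix ν ν ℂ) :
    δ M.det = ∑ b, (M.updateCol b fun a => δ (M a b)).det := by
  have h1 : ∀ b, (M.updateCol b fun a => δ (M a b)).det =
      ∑ σ : Equiv.Perm ν, ((Equiv.Perm.sign σ : ℤ) : ℂ) *
        ∏ i, (if i = b then δ (M (σ i) i) else M (σ i) i) := by
    intro b
    rw [Matrix.det_apply']
    refine Finset.sum_congr rfl fun σ _ => ?_
    congr 1
    refine Finset.prod_congr rfl fun i _ => ?_
    rw [Matrix.updateCol_apply]
    split_ifs with h
    · rw [h]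
    · rfl
  rw [Finset.sum_congr rfl fun b _ => h1 b, Finset.sum_comm, Matrix.det_apply', map_sum]
  refine Finset.sum_congr rfl fun σ _ => ?_
  rw [Derivation.leibniz, DCt_prod, Derivation.map_intCast, smul_zero,
    add_zero, smul_eq_mul, Finset.mul_sum]

end det

/-! ## Sums over increasing maps -/

lemma DCt_inj {N j : ℕ} (S : PI N j) : Function.Injective S.1 := by
  have h : StrictMono S.1 := fun a b hab => S.2 a b hab
  exact h.injective

lemma DCt_bij {N j : ℕ} (F : Finset (Fin N) → ℂ) :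
    ∑ S : PI N j, F (Finset.univ.image S.1) = ∑ T ∈ Finset.powersetCard j Finset.univ, F T := by
  refine Finset.sum_bij' (fun S _ => Finset.univ.image S.1)
    (fun T hT => ⟨T.orderEmbOfFin (Finset.mem_powersetCard.1 hT).2, fun a b hab =>
      (T.orderEmbOfFin (Finset.mem_powersetCard.1 hT).2).strictMono hab⟩) ?_ ?_ ?_ ?_ ?_
  · intro S _
    rw [Finset.mem_powersetCard]
    refine ⟨Finset.subset_univ _, ?_⟩
    rw [Finset.card_image_of_injective _ (DCt_inj S), Finset.card_univ, Fintype.card_fin]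
  · intro T _; exact Finset.mem_univ _
  · intro S hS
    apply Subtype.ext
    refine (Finset.orderEmbOfFin_unique _ (fun x => Finset.mem_image_of_mem _ (Finset.mem_univ x))
      fun a b hab => S.2 a b hab).symm
  · intro T hT
    exact Finset.image_orderEmbOfFin_univ T (Finset.mem_powersetCard.1 hT).2
  · intro S _; rfl

lemma DCt_sum {N j : ℕ} (f : Fin N → ℂ) :
    ∑ S : PI N j, ∑ i, f (S.1 i) = ∑ T ∈ Finset.powersetCard j Finset.univ, ∑ s ∈ T, f s := by
  rw [← DCt_bij fun T => ∑ s ∈ T, f s]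
  refine Finset.sum_congr rfl fun S _ => ?_
  rw [Finset.sum_image fun a _ b _ hab => DCt_inj S hab]

lemma DCt_card {N j : ℕ} :
    ((Fintype.card (PI N j) : ℕ) : ℂ) = ∑ _T ∈ Finset.powersetCard j (Finset.univ : Finset (Fin N)), 1 := by
  rw [← DCt_bij (fun _ => 1), Finset.sum_const, Finset.card_univ, nsmul_eq_mul, mul_one]

lemma DCt_cnt (N k : ℕ) (f : Fin N → ℂ) :
    (∑ S : PI N (k + 1), ∑ i, f (S.1 i)) + ∑ S : PI N k, ∑ i, f (S.1 i) =
      Fintype.card (PI N k) * ∑ s, f s := by
  have h1 : ∑ T ∈ Finset.powersetCard (k + 1) (Finset.univ : Finset (Fin N)), ∑ s ∈ T, f s =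
      ∑ T ∈ Finset.powersetCard k (Finset.univ : Finset (Fin N)), ∑ s ∈ Tᶜ, f s := by
    rw [Finset.sum_sigma', Finset.sum_sigma']
    refine Finset.sum_bij' (fun x _ => ⟨x.1.erase x.2, x.2⟩) (fun x _ => ⟨insert x.2 x.1, x.2⟩)
      ?_ ?_ ?_ ?_ ?_
    · rintro ⟨T, s⟩ hx
      rw [Finset.mem_sigma, Finset.mem_powersetCard] at hx ⊢
      refine ⟨⟨Finset.subset_univ _, ?_⟩, ?_⟩
      · show (T.erase s).card = k
        rw [Finset.card_erase_of_mem hx.2, hx.1.2, Nat.add_sub_cancel]
      · rw [Finset.mem_compl]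
        exact Finset.notMem_erase _ _
    · rintro ⟨T, s⟩ hx
      rw [Finset.mem_sigma, Finset.mem_powersetCard, Finset.mem_compl] at hx
      rw [Finset.mem_sigma, Finset.mem_powersetCard]
      refine ⟨⟨Finset.subset_univ _, ?_⟩, Finset.mem_insert_self _ _⟩
      show (insert s T).card = k + 1
      rw [Finset.card_insert_of_notMem hx.2, hx.1.2]
    · rintro ⟨T, s⟩ hx
      rw [Finset.mem_sigma] at hx
      show (⟨insert s (T.erase s), s⟩ : (_ : Finset (Fin N)) × Fin N) = ⟨T, s⟩
      rw [Finset.insert_erase hx.2]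
    · rintro ⟨T, s⟩ hx
      rw [Finset.mem_sigma, Finset.mem_compl] at hx
      show (⟨(insert s T).erase s, s⟩ : (_ : Finset (Fin N)) × Fin N) = ⟨T, s⟩
      rw [Finset.erase_insert hx.2]
    · rintro ⟨T, s⟩ _
      rfl
  rw [DCt_sum, DCt_sum, h1, ← Finset.sum_add_distrib, DCt_card, Finset.sum_mul]
  refine Finset.sum_congr rfl fun T _ => ?_
  rw [one_mul, add_comm, Finset.sum_add_sum_compl]

/-! ## The derivation -/

lemma DCt_col {j : ℕ} (i : Fin j) (v : Fin j → ℂ) :
    ((1 : Matrix (Fin j) (Fin j) ℂ).updateCol i v).det = v i := by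
  rw [← Matrix.cramer_apply, Matrix.cramer_one]
  rfl

lemma DCt_diag {N j : ℕ} (P : Matrix (Fin N) (Fin N) ℂ) (S : PI N j) :
    dC N j P S S = ∑ i, P (S.1 i) (S.1 i) := by
  rw [dC, Matrix.of_apply, Matrix.submatrix_one _ (DCt_inj S)]
  exact Finset.sum_congr rfl fun i _ => DCt_col i _

lemma DCt_trace {N j : ℕ} (P : Matrix (Fin N) (Fin N) ℂ) :
    (dC N j P).trace = ∑ S : PI N j, ∑ i, P (S.1 i) (S.1 i) :=
  Finset.sum_congr rfl fun S _ => DCt_diag P S

lemma DCt_upd {N j : ℕ} (M : Matrix (Fin N) (Fin N) ℂ) (S T : PI N j) (i : Fin j)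
    (v : Fin N → ℂ) :
    (M.updateCol (T.1 i) v).submatrix S.1 T.1 =
      (M.submatrix S.1 T.1).updateCol i fun a => v (S.1 a) := by
  ext a b
  rw [Matrix.submatrix_apply, Matrix.updateCol_apply, Matrix.updateCol_apply,
    Matrix.submatrix_apply]
  by_cases h : b = i
  · rw [if_pos h, if_pos (by rw [h])]
  · rw [if_neg h, if_neg fun h' => h (DCt_inj T h')]

/-- [DCt] the derivation of the exterior power -/
theorem thm_DCt (h1 : St_Cmp) (_h2 : St_Blk) : St_DCt := by
  intro N k
  refine ⟨fun P => ?_, ?_, fun δ g hg => ?_⟩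
  · rw [DCt_trace, DCt_trace, DCt_cnt N k fun s => P s s]
    rfl
  · have h3 := DCt_cnt N k fun _ => 1
    simp only [Finset.sum_const, Finset.card_univ, Fintype.card_fin, nsmul_eq_mul, mul_one] at h3
    rw [mul_comm (((k + 1 : ℕ) : ℂ)), mul_comm (k : ℂ), mul_comm (N : ℂ)]
    exact h3
  · obtain ⟨hm, ho, -⟩ := h1 N k
    have hu : IsUnit g.det := isUnit_iff_ne_zero.2 hg
    have h3 : cmp N k g * cmp N k g⁻¹ = 1 := by
      rw [← hm, Matrix.mul_nonsing_inv _ hu, ho]
    have h4 : (cmp N k g).det * (cmp N k g⁻¹).det = 1 := by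
      rw [← Matrix.det_mul, h3, Matrix.det_one]
    have h5 : (cmp N k g).det ≠ 0 := by
      intro h
      rw [h, zero_mul] at h4
      exact zero_ne_one h4
    have h6 : (cmp N k g)⁻¹ = cmp N k g⁻¹ := Matrix.inv_eq_right_inv h3
    refine ⟨h5, h6, ?_⟩
    rw [h6]
    ext S T
    have h7 : ∀ U : PI N k, (cmp N k g⁻¹).map δ U T =
        ∑ i, cmp N k ((g⁻¹).updateCol (T.1 i) fun a => δ (g⁻¹ a (T.1 i))) U T := by
      intro U
      rw [Matrix.map_apply, cmp, Matrix.of_apply, DCt_det]
      refine Finset.sum_congr rfl fun i _ => ?_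
      rw [cmp, Matrix.of_apply, DCt_upd]
      rfl
    rw [Matrix.mul_apply, Finset.sum_congr rfl fun U _ => by rw [h7 U, Finset.mul_sum],
      Finset.sum_comm, dC, Matrix.of_apply]
    refine Finset.sum_congr rfl fun i _ => ?_
    rw [← Matrix.mul_apply, ← hm, Matrix.mul_updateCol, Matrix.mul_nonsing_inv _ hu, cmp,
      Matrix.of_apply, DCt_upd]
    rfl

end DWZ
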