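import Pool.Agent.DWZ.StA

/-!
# DWZ: the determinant of the exterior power

A multiplicative function on matrices with values in `ℂ` is a function of the determinant.
-/

set_option autoImplicit false

namespace DWZ

section

variable {n : Type} [Fintype n] [DecidableEq n]

/-- the permutation matrix -/
def DetZ_P (σ : n ≃ n) : Matrix n n ℂ := (1 : Matrix n n ℂ).submatrix σ id

lemma DetZ_P_mul (s s' : n) : DetZ_P (Equiv.swap s s') * DetZ_P (Equiv.swap s s') = 1 := by
  ext a b
  rw [Matrix.mul_apply, Finset.sum_eq_single (Equiv.swap s s' a)]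
  · show (1 : Matrix n n ℂ) (Equiv.swap s s' a) (Equiv.swap s s' a) *
      (1 : Matrix n n ℂ) (Equiv.swap s s' (Equiv.swap s s' a)) b = _
    rw [Matrix.one_apply_eq, one_mul, Equiv.swap_apply_self]
  · intro c _ hc
    show (1 : Matrix n n ℂ) (Equiv.swap s s' a) c * _ = 0
    rw [Matrix.one_apply_ne hc.symm, zero_mul]
  · intro h; exact absurd (Finset.mem_univ _) h

lemma DetZ_P_diag (σ : n ≃ n) (d : n → ℂ) :
    DetZ_P σ * Matrix.diagonal d = Matrix.diagonal (d ∘ σ) * DetZ_P σ := by
  ext a b
  rw [Matrix.mul_diagonal, Matrix.diagonal_mul]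
  show (1 : Matrix n n ℂ) (σ a) b * d b = d (σ a) * (1 : Matrix n n ℂ) (σ a) b
  by_cases h : σ a = b
  · rw [h, mul_comm]
  · rw [Matrix.one_apply_ne h, zero_mul, mul_zero]

/-- multiplicative functions of matrices -/
lemma DetZ_main (f : Matrix n n ℂ → ℂ) (h1 : f 1 = 1) (hm : ∀ A B, f (A * B) = f A * f B)
    (s₀ : n) (g : Matrix n n ℂ) (hg : g.det = 1) : f g = 1 := by
  let φ : (n → ℂ) →* ℂ :=
    { toFun := fun d => f (Matrix.diagonal d)
      map_one' := by rw [Matrix.diagonal_one', h1]
      map_mul' := fun d d' => by
        rw [← hm, Matrix.diagonal_mul_diagonal]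
        rfl }
  have hφ : ∀ d, φ d = f (Matrix.diagonal d) := fun _ => rfl
  have hinv : ∀ A B, A * B = 1 → f A ≠ 0 := by
    intro A B hAB h0
    have := hm A B
    rw [hAB, h1, h0, zero_mul] at this
    exact one_ne_zero this
  have hswap : ∀ (s s' : n) (d : n → ℂ), φ (d ∘ Equiv.swap s s') = φ d := by
    intro s s' d
    have e1 := congrArg f (DetZ_P_diag (Equiv.swap s s') d)
    rw [hm, hm, mul_comm] at e1
    exact (mul_right_cancel₀ (hinv _ _ (DetZ_P_mul s s')) e1).symm
  have hsing : ∀ (s : n) (t : ℂ), φ (Pi.mulSingle s t) = φ (Pi.mulSingle s₀ t) := by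
    intro s t
    rw [← hswap s s₀ (Pi.mulSingle s₀ t)]
    congr 1
    funext a
    rw [Function.comp_apply]
    by_cases ha : a = s
    · rw [ha, Equiv.swap_apply_left, Pi.mulSingle_eq_same, Pi.mulSingle_eq_same]
    · rw [Pi.mulSingle_eq_of_ne ha, Pi.mulSingle_eq_of_ne]
      intro h2
      apply ha
      rw [← Equiv.swap_apply_self s s₀ a, h2, Equiv.swap_apply_right]
  let u : ℂ →* ℂ := φ.comp (MonoidHom.mulSingle (fun _ : n => ℂ) s₀)
  have hu : ∀ t, u t = φ (Pi.mulSingle s₀ t) := fun _ => rfl
  have hdiag : ∀ D : n → ℂ, f (Matrix.diagonal D) = u (Matrix.diagonal D).det := by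
    intro D
    rw [← hφ, Matrix.det_diagonal, map_prod]
    conv_lhs => rw [← Finset.univ_prod_mulSingle D]
    rw [map_prod]
    exact Finset.prod_congr rfl fun s _ => (hsing s (D s)).trans (hu (D s)).symm
  have key : f g = u g.det := by
    refine Matrix.diagonal_transvection_induction_of_det_ne_zero (fun g => f g = u g.det) g
      (by rw [hg]; exact one_ne_zero) (fun D _ => hdiag D) ?_ ?_
    · intro t
      obtain ⟨i, j, hij, c⟩ := t
      show f (Matrix.transvection i j c) = u (Matrix.transvection i j c).det
      rw [Matrix.det_transvection_of_ne i j hij c, map_one]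
      set D : n → ℂ := Function.update (fun _ => 1) i 2 with hD
      have hDi : D i = 2 := by rw [hD, Function.update_self]
      have hDj : D j = 1 := by rw [hD, Function.update_of_ne hij.symm]
      have hcom : Matrix.diagonal D * Matrix.transvection i j c =
          Matrix.transvection i j c * Matrix.transvection i j c * Matrix.diagonal D := by
        rw [Matrix.transvection_mul_transvection_same i j hij]
        unfold Matrix.transvection
        ext p q
        rw [Matrix.mul_add, Matrix.add_mul, Matrix.mul_one, Matrix.one_mul, Matrix.add_apply,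
          Matrix.add_apply, Matrix.diagonal_mul, Matrix.mul_diagonal, Matrix.single_apply,
          Matrix.single_apply]
        by_cases hp : i = p ∧ j = q
        · rw [if_pos hp, if_pos hp, ← hp.1, ← hp.2, hDi, hDj]
          ring
        · rw [if_neg hp, if_neg hp]
          ring
      have hd0 : f (Matrix.diagonal D) ≠ 0 := by
        refine hinv _ (Matrix.diagonal D⁻¹) ?_
        rw [Matrix.diagonal_mul_diagonal, ← Matrix.diagonal_one]
        congr 1
        funext s
        have : D s ≠ 0 := by
          rw [hD]
          by_cases hs : s = i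
          · rw [hs, Function.update_self]; exact two_ne_zero
          · rw [Function.update_of_ne hs]; exact one_ne_zero
        exact mul_inv_cancel₀ this
      have ht0 : f (Matrix.transvection i j c) ≠ 0 := by
        refine hinv _ (Matrix.transvection i j (-c)) ?_
        rw [Matrix.transvection_mul_transvection_same i j hij, add_neg_cancel,
          Matrix.transvection_zero]
      have e1 := congrArg f hcom
      rw [hm, hm, hm, mul_comm] at e1
      have e2 := mul_right_cancel₀ hd0 e1
      have e3 : f (Matrix.transvection i j c) * 1 =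
          f (Matrix.transvection i j c) * f (Matrix.transvection i j c) := by
        rw [mul_one]; exact e2
      exact (mul_left_cancel₀ ht0 e3).symm
    · intro A B _ _ hA hB
      show f (A * B) = u (A * B).det
      rw [hm, Matrix.det_mul, map_mul, hA, hB]
  rw [key, hg, map_one]

end

theorem thm_DetZ (h1 : St_Wdv) (h2 : St_Blk) : St_DetZ := by
  intro N k g hg
  refine DetZ_main (fun g => (ek N k g).det) ?_ ?_ (Sum.inr ()) g hg
  · rw [(h2 N k).1, Matrix.det_one]
  · intro A B
    rw [(h1 N k).2.2.2.2 A B, Matrix.det_mul]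

end DWZ
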