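import Pool.Agent.DWZ.StC
import Pool.Agent.Helper8.HomFil

/-!
# DWZ, FEnd: endomorphisms of the exterior power
-/

set_option autoImplicit false

namespace DWZ

open scoped ComplexConjugate
open PST DWC DWY
open Pool.Agent.GPC (AbVar hermForm bilForm)

section mats

variable {a b : Type} [Fintype a] [Fintype b] [DecidableEq a] [DecidableEq b]

private theorem FEnd_bl (P : Matrix a a ℂ) (Q : Matrix b b ℂ) (ζ : Ix a b Unit → ℂ) :
    (∀ i, (blk Unit P Q).mulVec ζ (Sum.inl i, ()) =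
      P.mulVec (fun i' => ζ (Sum.inl i', ())) i) ∧
    ∀ j, (blk Unit P Q).mulVec ζ (Sum.inr j, ()) =
      Q.mulVec (fun j' => ζ (Sum.inr j', ())) j := by
  constructor
  · intro i
    simp [Matrix.mulVec, dotProduct, blk, Fintype.sum_prod_type, Fintype.sum_sum_type]
  · intro i
    simp [Matrix.mulVec, dotProduct, blk, Fintype.sum_prod_type, Fintype.sum_sum_type]

private theorem FEnd_blt (P : Matrix a a ℂ) (Q : Matrix b b ℂ) (ζ : Ix a b Unit → ℂ) :
    (∀ i, (blk Unit P Q).transpose.mulVec ζ (Sum.inl i, ()) =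
      P.transpose.mulVec (fun i' => ζ (Sum.inl i', ())) i) ∧
    ∀ j, (blk Unit P Q).transpose.mulVec ζ (Sum.inr j, ()) =
      Q.transpose.mulVec (fun j' => ζ (Sum.inr j', ())) j := by
  constructor
  · intro i
    simp [Matrix.mulVec, dotProduct, blk, Fintype.sum_prod_type, Fintype.sum_sum_type]
  · intro i
    simp [Matrix.mulVec, dotProduct, blk, Fintype.sum_prod_type, Fintype.sum_sum_type]

private theorem FEnd_qb (K : Matrix a b ℂ) (ζ : Ix a b Unit → ℂ) :
    (∀ i, (qb K).mulVec ζ (Sum.inl i, ()) =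
      K.mulVec (fun i' => ζ (Sum.inr i', ())) i) ∧
    ∀ j, (qb K).mulVec ζ (Sum.inr j, ()) =
      K.transpose.mulVec (fun j' => ζ (Sum.inl j', ())) j := by
  constructor
  · intro i
    simp [Matrix.mulVec, dotProduct, qb, Fintype.sum_prod_type, Fintype.sum_sum_type]
  · intro i
    simp [Matrix.mulVec, dotProduct, qb, Fintype.sum_prod_type, Fintype.sum_sum_type]

/-- The matrix `D` -/
private noncomputable def FEnd_D (C1 : Matrix a a ℂ) (C0 : Matrix b b ℂ) (K : Matrix a b ℂ)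
    (c : ℂ) : Matrix (a ⊕ b) (a ⊕ b) ℂ :=
  Matrix.fromBlocks C1 0 0 (c • C0) * Matrix.fromBlocks 1 0 (-K.transpose) 1

/-- The matrix `D2` -/
private noncomputable def FEnd_E (C1 : Matrix a a ℂ) (C0 : Matrix b b ℂ) (K : Matrix a b ℂ)
    (c : ℂ) : Matrix (a ⊕ b) (a ⊕ b) ℂ :=
  Matrix.fromBlocks (C1⁻¹).transpose 0 0 (c⁻¹ • (C0⁻¹).transpose) *
    Matrix.fromBlocks 1 (-K) 0 1

private theorem FEnd_JJ : Jm a b * Jm a b = 1 := by
  unfold Jm
  rw [Matrix.fromBlocks_multiply]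
  simp

private theorem FEnd_DE (C1 : Matrix a a ℂ) (C0 : Matrix b b ℂ) (K : Matrix a b ℂ)
    (c : ℂ) (hc : c ≠ 0) (h1 : C1.det ≠ 0) (h0 : C0.det ≠ 0) :
    (FEnd_D C1 C0 K c).transpose * Jm a b * FEnd_E C1 C0 K c = Jm a b := by
  have e1 : C1.transpose * (C1⁻¹).transpose = 1 := by
    rw [← Matrix.transpose_mul, Matrix.nonsing_inv_mul _ (isUnit_iff_ne_zero.mpr h1),
      Matrix.transpose_one]
  have e0 : C0.transpose * (C0⁻¹).transpose = 1 := by
    rw [← Matrix.transpose_mul, Matrix.nonsing_inv_mul _ (isUnit_iff_ne_zero.mpr h0),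
      Matrix.transpose_one]
  unfold FEnd_D FEnd_E Jm
  rw [Matrix.transpose_mul, Matrix.fromBlocks_transpose, Matrix.fromBlocks_transpose]
  simp only [Matrix.fromBlocks_multiply, Matrix.transpose_zero, Matrix.transpose_neg,
    Matrix.transpose_transpose, Matrix.transpose_one, Matrix.transpose_smul, Matrix.mul_zero,
    Matrix.zero_mul, neg_zero, add_zero, zero_add, Matrix.mul_one, Matrix.one_mul, mul_neg,
    neg_mul, Matrix.mul_neg, Matrix.neg_mul, Matrix.smul_mul, Matrix.mul_smul, smul_zero,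
    neg_neg, Matrix.mul_assoc, e1, e0, smul_smul, mul_inv_cancel₀ hc, one_smul]
  have e2 : C1.transpose * ((C1⁻¹).transpose * K) = K := by
    rw [← Matrix.mul_assoc, e1, Matrix.one_mul]
  rw [e2]
  congr 1
  · rw [smul_neg c K, neg_neg, smul_smul, inv_mul_cancel₀ hc, one_smul, neg_add_cancel]
  · rw [inv_mul_cancel₀ hc, one_smul]

private theorem FEnd_com (D D2 A A' : Matrix (a ⊕ b) (a ⊕ b) ℂ)
    (h : D.transpose * Jm a b * D2 = Jm a b) (hA : A * D = D * A') :
    (Jm a b * A.transpose * Jm a b) * D2 = D2 * (Jm a b * A'.transpose * Jm a b) := by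
  have h1 : D.transpose * (Jm a b * D2 * Jm a b) = 1 := by
    rw [← Matrix.mul_assoc, ← Matrix.mul_assoc, h, FEnd_JJ]
  have h2 : (Jm a b * D2 * Jm a b) * D.transpose = 1 := mul_eq_one_comm.mp h1
  have h3 : D.transpose * A.transpose = A'.transpose * D.transpose := by
    rw [← Matrix.transpose_mul, hA, Matrix.transpose_mul]
  have h4 : A.transpose * (Jm a b * D2 * Jm a b) = (Jm a b * D2 * Jm a b) * A'.transpose := by
    calc A.transpose * (Jm a b * D2 * Jm a b)
        = ((Jm a b * D2 * Jm a b) * D.transpose) * (A.transpose * (Jm a b * D2 * Jm a b)) := by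
          rw [h2, Matrix.one_mul]
      _ = (Jm a b * D2 * Jm a b) * ((D.transpose * A.transpose) * (Jm a b * D2 * Jm a b)) := by
          simp only [Matrix.mul_assoc]
      _ = (Jm a b * D2 * Jm a b) * (A'.transpose * (D.transpose * (Jm a b * D2 * Jm a b))) := by
          rw [h3]
          simp only [Matrix.mul_assoc]
      _ = (Jm a b * D2 * Jm a b) * A'.transpose := by
          rw [h1, Matrix.mul_one]
  have h5 : Jm a b * (A.transpose * (Jm a b * D2 * Jm a b)) * Jm a b =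
      Jm a b * ((Jm a b * D2 * Jm a b) * A'.transpose) * Jm a b := by rw [h4]
  have h6 : Jm a b * (A.transpose * (Jm a b * D2 * Jm a b)) * Jm a b =
      (Jm a b * A.transpose * Jm a b) * D2 * (Jm a b * Jm a b) := by
    simp only [Matrix.mul_assoc]
  have h7 : Jm a b * ((Jm a b * D2 * Jm a b) * A'.transpose) * Jm a b =
      (Jm a b * Jm a b) * D2 * (Jm a b * A'.transpose * Jm a b) := by
    simp only [Matrix.mul_assoc]
  rw [h6, h7, FEnd_JJ, Matrix.mul_one, Matrix.one_mul] at h5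
  exact h5

private theorem FEnd_inv (C0 : Matrix b b ℂ) (h0 : C0.det ≠ 0) (c : ℂ) (hc : c ≠ 0) :
    ((c • (C0⁻¹).transpose)⁻¹).transpose = c⁻¹ • C0 := by
  have hu : IsUnit C0.det := isUnit_iff_ne_zero.mpr h0
  have hinv : (c • (C0⁻¹).transpose)⁻¹ = c⁻¹ • C0.transpose := by
    apply Matrix.inv_eq_right_inv
    rw [Matrix.smul_mul, Matrix.mul_smul, smul_smul, mul_inv_cancel₀ hc, one_smul,
      ← Matrix.transpose_mul, Matrix.mul_nonsing_inv C0 hu, Matrix.transpose_one]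
  rw [hinv, Matrix.transpose_smul, Matrix.transpose_transpose]

private theorem FEnd_inv1 (C1 : Matrix a a ℂ) (h1 : C1.det ≠ 0) (c : ℂ) (hc : c ≠ 0) :
    ((c • C1)⁻¹).transpose = c⁻¹ • (C1⁻¹).transpose := by
  have hu : IsUnit C1.det := isUnit_iff_ne_zero.mpr h1
  have hinv : (c • C1)⁻¹ = c⁻¹ • C1⁻¹ := by
    apply Matrix.inv_eq_right_inv
    rw [Matrix.smul_mul, Matrix.mul_smul, smul_smul, mul_inv_cancel₀ hc, one_smul,
      Matrix.mul_nonsing_inv C1 hu]
  rw [hinv, Matrix.transpose_smul]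

private theorem FEnd_Dv (C1 : Matrix a a ℂ) (C0 : Matrix b b ℂ) (K : Matrix a b ℂ)
    (c : ℂ) (u : a ⊕ b → ℂ) :
    (∀ i, (FEnd_D C1 C0 K c).mulVec u (Sum.inl i) = C1.mulVec (fun i' => u (Sum.inl i')) i) ∧
    ∀ j, (FEnd_D C1 C0 K c).mulVec u (Sum.inr j) = c * C0.mulVec (fun j' => u (Sum.inr j') -
      K.transpose.mulVec (fun i' => u (Sum.inl i')) j') j := by
  unfold FEnd_D
  rw [← Matrix.mulVec_mulVec, Matrix.fromBlocks_mulVec, Matrix.fromBlocks_mulVec]
  constructor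
  · intro i
    simp only [Sum.elim_inl, Pi.add_apply, Matrix.zero_mulVec, Pi.zero_apply, add_zero]
    congr 1
    funext i'
    simp only [Function.comp_apply, Sum.elim_inl, Matrix.one_mulVec, Pi.add_apply,
      Matrix.zero_mulVec, Pi.zero_apply, add_zero]
  · intro j
    simp only [Sum.elim_inr, Pi.add_apply, Matrix.zero_mulVec, Pi.zero_apply, zero_add,
      Matrix.smul_mulVec, Pi.smul_apply, smul_eq_mul]
    congr 2
    funext j'
    simp only [Function.comp_apply, Sum.elim_inr, Matrix.one_mulVec, Pi.add_apply,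
      Matrix.neg_mulVec, Pi.neg_apply]
    rw [add_comm, ← sub_eq_add_neg]
    rfl

private theorem FEnd_Ev (C1 : Matrix a a ℂ) (C0 : Matrix b b ℂ) (K : Matrix a b ℂ)
    (c : ℂ) (u : a ⊕ b → ℂ) :
    (∀ i, (FEnd_E C1 C0 K c).mulVec u (Sum.inl i) = (C1⁻¹).transpose.mulVec
      (fun i' => u (Sum.inl i') - K.mulVec (fun j' => u (Sum.inr j')) i') i) ∧
    ∀ j, (FEnd_E C1 C0 K c).mulVec u (Sum.inr j) =
      c⁻¹ * (C0⁻¹).transpose.mulVec (fun j' => u (Sum.inr j')) j := by
  unfold FEnd_E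
  rw [← Matrix.mulVec_mulVec, Matrix.fromBlocks_mulVec, Matrix.fromBlocks_mulVec]
  constructor
  · intro i
    simp only [Sum.elim_inl, Pi.add_apply, Matrix.zero_mulVec, Pi.zero_apply, add_zero]
    congr 1
    funext i'
    simp only [Function.comp_apply, Sum.elim_inl, Matrix.one_mulVec, Pi.add_apply,
      Matrix.neg_mulVec, Pi.neg_apply]
    rw [← sub_eq_add_neg]
    rfl
  · intro j
    simp only [Sum.elim_inr, Pi.add_apply, Matrix.zero_mulVec, Pi.zero_apply, zero_add,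
      Matrix.smul_mulVec, Pi.smul_apply, smul_eq_mul]
    congr 2
    funext j'
    simp only [Function.comp_apply, Sum.elim_inr, Matrix.one_mulVec, Pi.add_apply,
      Matrix.zero_mulVec, Pi.zero_apply, zero_add]

end mats

section main

variable {a b : Type} [Fintype a] [Fintype b] [DecidableEq a] [DecidableEq b]

/-- de Rham vectors in the coordinates `XX`, `XT` -/
private theorem FEnd_dr (X : AbVar) (T : Matrix (Ix a b Unit) (Fin X.g) ℂ)
    (S : Matrix (Fin X.g) (Ix a b Unit) ℂ) (C1 : Matrix a a ℂ) (C0 : Matrix b b ℂ)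
    (K : Matrix a b ℂ) (mk t : ℂ) (hmk : mk ≠ 0) (ht : t ≠ 0) (h1 : C1.det ≠ 0)
    (h0 : C0.det ≠ 0)
    (hdr : ∀ v, X.IsDeRham v ↔ ∃ ζ η : Ix a b Unit → ℂ, (∀ p, IsAlgebraic ℚ (ζ p)) ∧
      (∀ p, IsAlgebraic ℚ (η p)) ∧
      cx X T v = (blk Unit (mk • C1) ((mk⁻¹ * t) • (C0⁻¹).transpose)).mulVec ζ ∧
      ∀ p, cy X S v p = 1 / Real.pi *
        (blk Unit (mk • C1)⁻¹ ((mk⁻¹ * t) • (C0⁻¹).transpose)⁻¹).transpose.mulVec
          (fun p' => η p' - (qb K).mulVec ζ p') p) (v : X.H1) :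
    X.IsDeRham v ↔ ∃ u w : a ⊕ b → ℂ, (∀ s, IsAlgebraic ℚ (u s)) ∧
      (∀ s, IsAlgebraic ℚ (w s)) ∧
      (∀ s, XX X T S v (s, ()) =
        mk * (FEnd_D C1 C0 K ((Real.pi : ℂ) * t)⁻¹).mulVec u s) ∧
      ∀ s, XT X T S v (s, ()) =
        ((Real.pi : ℂ)⁻¹ * mk⁻¹) * (FEnd_E C1 C0 K ((Real.pi : ℂ) * t)⁻¹).mulVec w s := by
  have hpi : (Real.pi : ℂ) ≠ 0 := by exact_mod_cast Real.pi_ne_zero
  have key : ∀ u w : a ⊕ b → ℂ, ∀ ζ η : Ix a b Unit → ℂ,
      (∀ i, ζ (Sum.inl i, ()) = u (Sum.inl i)) → (∀ j, ζ (Sum.inr j, ()) = w (Sum.inr j)) →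
      (∀ i, η (Sum.inl i, ()) = w (Sum.inl i)) → (∀ j, η (Sum.inr j, ()) = u (Sum.inr j)) →
      ((cx X T v = (blk Unit (mk • C1) ((mk⁻¹ * t) • (C0⁻¹).transpose)).mulVec ζ ∧
      ∀ p, cy X S v p = 1 / Real.pi *
        (blk Unit (mk • C1)⁻¹ ((mk⁻¹ * t) • (C0⁻¹).transpose)⁻¹).transpose.mulVec
          (fun p' => η p' - (qb K).mulVec ζ p') p) ↔
      ((∀ s, XX X T S v (s, ()) =
        mk * (FEnd_D C1 C0 K ((Real.pi : ℂ) * t)⁻¹).mulVec u s) ∧
      ∀ s, XT X T S v (s, ()) =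
        ((Real.pi : ℂ)⁻¹ * mk⁻¹) *
          (FEnd_E C1 C0 K ((Real.pi : ℂ) * t)⁻¹).mulVec w s)) := by
    intro u w ζ η hz1 hz2 he1 he2
    obtain ⟨A1, A2⟩ := FEnd_bl (mk • C1) ((mk⁻¹ * t) • (C0⁻¹).transpose) ζ
    obtain ⟨B1, B2⟩ := FEnd_blt (mk • C1)⁻¹ ((mk⁻¹ * t) • (C0⁻¹).transpose)⁻¹
      (fun p' => η p' - (qb K).mulVec ζ p')
    obtain ⟨Q1, Q2⟩ := FEnd_qb K ζ
    obtain ⟨D1, D2⟩ := FEnd_Dv C1 C0 K ((Real.pi : ℂ) * t)⁻¹ u
    obtain ⟨E1, E2⟩ := FEnd_Ev C1 C0 K ((Real.pi : ℂ) * t)⁻¹ w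
    have hz1' : (fun i => ζ (Sum.inl i, ())) = fun i => u (Sum.inl i) := funext hz1
    have hz2' : (fun j => ζ (Sum.inr j, ())) = fun j => w (Sum.inr j) := funext hz2
    have hx1 : ∀ i, (blk Unit (mk • C1) ((mk⁻¹ * t) • (C0⁻¹).transpose)).mulVec ζ
        (Sum.inl i, ()) =
        mk * (FEnd_D C1 C0 K ((Real.pi : ℂ) * t)⁻¹).mulVec u (Sum.inl i) := by
      intro i
      rw [A1, D1, hz1', Matrix.smul_mulVec, Pi.smul_apply, smul_eq_mul]
    have hx2 : ∀ j, (blk Unit (mk • C1) ((mk⁻¹ * t) • (C0⁻¹).transpose)).mulVec ζ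
        (Sum.inr j, ()) = ((Real.pi : ℂ)⁻¹ * mk⁻¹) *
          (FEnd_E C1 C0 K ((Real.pi : ℂ) * t)⁻¹).mulVec w (Sum.inr j) := by
      intro j
      rw [A2, E2, hz2', Matrix.smul_mulVec, Pi.smul_apply, smul_eq_mul, inv_inv]
      field_simp
    have hy1 : ∀ i, 1 / (Real.pi : ℂ) *
        (blk Unit (mk • C1)⁻¹ ((mk⁻¹ * t) • (C0⁻¹).transpose)⁻¹).transpose.mulVec
          (fun p' => η p' - (qb K).mulVec ζ p') (Sum.inl i, ()) =
        ((Real.pi : ℂ)⁻¹ * mk⁻¹) *
          (FEnd_E C1 C0 K ((Real.pi : ℂ) * t)⁻¹).mulVec w (Sum.inl i) := by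
      intro i
      have h3 : (fun i' => η (Sum.inl i', ()) - (qb K).mulVec ζ (Sum.inl i', ())) =
          fun i' => w (Sum.inl i') - K.mulVec (fun j' => w (Sum.inr j')) i' := by
        funext i'
        rw [Q1, hz2', he1]
      rw [B1, E1, h3, FEnd_inv1 C1 h1 mk hmk, Matrix.smul_mulVec, Pi.smul_apply, smul_eq_mul,
        one_div, mul_assoc]
    have hy2 : ∀ j, 1 / (Real.pi : ℂ) *
        (blk Unit (mk • C1)⁻¹ ((mk⁻¹ * t) • (C0⁻¹).transpose)⁻¹).transpose.mulVec
          (fun p' => η p' - (qb K).mulVec ζ p') (Sum.inr j, ()) =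
        mk * (FEnd_D C1 C0 K ((Real.pi : ℂ) * t)⁻¹).mulVec u (Sum.inr j) := by
      intro j
      have h3 : (fun j' => η (Sum.inr j', ()) - (qb K).mulVec ζ (Sum.inr j', ())) =
          fun j' => u (Sum.inr j') - K.transpose.mulVec (fun i' => u (Sum.inl i')) j' := by
        funext j'
        rw [Q2, hz1', he2]
      rw [B2, D2, h3, FEnd_inv C0 h0 (mk⁻¹ * t) (mul_ne_zero (inv_ne_zero hmk) ht),
        Matrix.smul_mulVec, Pi.smul_apply, smul_eq_mul]
      field_simp
    constructor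
    · rintro ⟨hX, hY⟩
      constructor
      · rintro (i | j)
        · rw [← hx1 i, ← hX]
          rfl
        · rw [← hy2 j, ← hY]
          rfl
      · rintro (i | j)
        · rw [← hy1 i, ← hY]
          rfl
        · rw [← hx2 j, ← hX]
          rfl
    · rintro ⟨hX, hY⟩
      constructor
      · funext p
        rcases p with ⟨i | j, ⟨⟩⟩
        · exact (hX (Sum.inl i)).trans (hx1 i).symm
        · exact (hY (Sum.inr j)).trans (hx2 j).symm
      · intro p
        rcases p with ⟨i | j, ⟨⟩⟩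
        · exact (hY (Sum.inl i)).trans (hy1 i).symm
        · exact (hX (Sum.inr j)).trans (hy2 j).symm
  rw [hdr]
  constructor
  · rintro ⟨ζ, η, hζ, hη, hxy⟩
    refine ⟨Sum.elim (fun i => ζ (Sum.inl i, ())) (fun j => η (Sum.inr j, ())),
      Sum.elim (fun i => η (Sum.inl i, ())) (fun j => ζ (Sum.inr j, ())), ?_, ?_,
      (key _ _ ζ η (fun i => rfl) (fun j => rfl) (fun i => rfl) (fun j => rfl)).mp hxy⟩
    · rintro (i | j)
      · exact hζ _
      · exact hη _
    · rintro (i | j)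
      · exact hη _
      · exact hζ _
  · rintro ⟨u, w, hu, hw, hxy⟩
    refine ⟨fun p => Sum.elim (fun i => u (Sum.inl i)) (fun j => w (Sum.inr j)) p.1,
      fun p => Sum.elim (fun i => w (Sum.inl i)) (fun j => u (Sum.inr j)) p.1, ?_, ?_,
      (key u w _ _ (fun i => rfl) (fun j => rfl) (fun i => rfl) (fun j => rfl)).mpr hxy⟩
    · rintro ⟨i | j, ⟨⟩⟩
      · exact hu _
      · exact hw _
    · rintro ⟨i | j, ⟨⟩⟩
      · exact hw _
      · exact hu _

end main

private theorem FEnd_algsum {ι : Type} [Fintype ι] (M : Matrix ι ι ℂ) (u : ι → ℂ)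
    (hM : ∀ p q, IsAlgebraic ℚ (M p q)) (hu : ∀ p, IsAlgebraic ℚ (u p)) (p : ι) :
    IsAlgebraic ℚ (M.mulVec u p) := by
  have h : ∀ q, M p q * u q ∈ algebraicClosure ℚ ℂ := fun q =>
    mem_algebraicClosure_iff.mpr ((hM p q).mul (hu q))
  exact mem_algebraicClosure_iff.mp (sum_mem fun q _ => h q)

private theorem FEnd_algmul {ι : Type} [Fintype ι] (M N : Matrix ι ι ℂ)
    (hM : ∀ p q, IsAlgebraic ℚ (M p q)) (hN : ∀ p q, IsAlgebraic ℚ (N p q)) (p q : ι) :
    IsAlgebraic ℚ ((M * N) p q) :=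
  FEnd_algsum M (fun r => N r q) hM (fun r => hN r q) p

private theorem FEnd_algJ {a b : Type} [DecidableEq a] [DecidableEq b] (p q : a ⊕ b) :
    IsAlgebraic ℚ (Jm a b p q) := by
  unfold Jm
  rcases p with p | p <;> rcases q with q | q
  · rw [Matrix.fromBlocks_apply₁₁, Matrix.one_apply]
    split_ifs
    · exact isAlgebraic_one
    · exact isAlgebraic_zero
  · rw [Matrix.fromBlocks_apply₁₂]
    exact isAlgebraic_zero
  · rw [Matrix.fromBlocks_apply₂₁]
    exact isAlgebraic_zero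
  · rw [Matrix.fromBlocks_apply₂₂, Matrix.neg_apply, Matrix.one_apply]
    split_ifs
    · exact isAlgebraic_one.neg
    · exact isAlgebraic_zero.neg

private theorem FEnd_act {a b : Type} [Fintype a] [Fintype b] [DecidableEq a] [DecidableEq b]
    (A : Matrix (a ⊕ b) (a ⊕ b) ℂ) (n : ℤ) (x : Ix a b Unit → ℂ) :
    act A (n • x) = n • act A x := by
  have h1 : ∀ y : Ix a b Unit → ℂ, sw (n • y) = n • sw y := by
    intro y
    funext p
    rcases p with ⟨i | j, k⟩
    · rfl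
    · show conj ((n • y) (Sum.inr j, k)) = n • conj (y (Sum.inr j, k))
      rw [Pi.smul_apply, map_zsmul]
  have h2 : ∀ y : Ix a b Unit → ℂ, mu A (n • y) = n • mu A y := by
    intro y
    funext p
    show ∑ q, A p.1 q * (n • y) (q, p.2) = n • ∑ q, A p.1 q * y (q, p.2)
    rw [Finset.smul_sum]
    refine Finset.sum_congr rfl fun q _ => ?_
    rw [Pi.smul_apply, mul_smul_comm]
  unfold act
  rw [h1, h2, h1]

theorem thm_FEnd (h1 : St_Cmp) (h2 : DWY.St_CxA) (h3 : St_DCt) : St_FEnd := by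
  intro N k d m n M X Y J T S Tp Tm Ta Tb κ L T' S' Ta' Tb' LY hXD A A' hbar hlat hA' hcomm
  obtain ⟨hlx, hly, hsur, hinj, hfil, hbet, hdr⟩ := h2 Y d _ _ T' S' _ _ Ta' Tb' _ LY hXD.ny
  have hmk : m ^ k ≠ 0 := pow_ne_zero _ hXD.m0
  have ht : Tm () () ≠ 0 := by
    have := hXD.nx.dm
    rwa [Matrix.det_unique] at this
  have hC1 : (cmp N (k + 1) Tp).det ≠ 0 := ((h3 N (k + 1)).2.2 0 Tp hXD.nx.dp).1
  have hC0 : (cmp N k Tp).det ≠ 0 := ((h3 N k).2.2 0 Tp hXD.nx.dp).1
  have eTm : TmY N k m Tp Tm = ((m ^ k)⁻¹ * Tm () ()) • ((cmp N k Tp)⁻¹).transpose := by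
    unfold TmY
    rw [inv_pow]
  rw [eTm] at hdr
  have hdr' := FEnd_dr Y T' S' (cmp N (k + 1) Tp) (cmp N k Tp) (rm N k fun i => κ i ())
    (m ^ k) (Tm () ()) hmk ht hC1 hC0 hdr
  set D := FEnd_D (cmp N (k + 1) Tp) (cmp N k Tp) (rm N k fun i => κ i ())
    ((Real.pi : ℂ) * Tm () ())⁻¹ with hD
  set D2 := FEnd_E (cmp N (k + 1) Tp) (cmp N k Tp) (rm N k fun i => κ i ())
    ((Real.pi : ℂ) * Tm () ())⁻¹ with hD2
  have hpi : (Real.pi : ℂ) ≠ 0 := by exact_mod_cast Real.pi_ne_zero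
  have hc1 : A * D = D * A' := hcomm
  have hc2 : (A.map conj) * D2 = D2 * (Jm (PI N (k + 1)) (PI N k) * A'.transpose *
      Jm (PI N (k + 1)) (PI N k)) := by
    rw [hbar]
    exact FEnd_com D D2 A A' (FEnd_DE _ _ _ _ (inv_ne_zero (mul_ne_zero hpi ht)) hC1 hC0) hc1
  -- the endomorphism
  have hex : ∀ w : Y.H1, ∃ v : Y.H1,
      cx Y T' v = (fun p => Sum.elim
        (fun i => A.mulVec (fun s => XX Y T' S' w (s, ())) (Sum.inl i))
        (fun j => (A.map conj).mulVec (fun s => XT Y T' S' w (s, ())) (Sum.inr j)) p.1) ∧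
      cy Y S' v = (fun p => Sum.elim
        (fun i => (A.map conj).mulVec (fun s => XT Y T' S' w (s, ())) (Sum.inl i))
        (fun j => A.mulVec (fun s => XX Y T' S' w (s, ())) (Sum.inr j)) p.1) :=
    fun w => hsur _ _
  choose f hfx hfy using hex
  have fXX : ∀ w s, XX Y T' S' (f w) (s, ()) =
      A.mulVec (fun s => XX Y T' S' w (s, ())) s := by
    rintro w (i | j)
    · show cx Y T' (f w) (Sum.inl i, ()) = _
      rw [hfx]
      rfl
    · show cy Y S' (f w) (Sum.inr j, ()) = _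
      rw [hfy]
      rfl
  have fXT : ∀ w s, XT Y T' S' (f w) (s, ()) =
      (A.map conj).mulVec (fun s => XT Y T' S' w (s, ())) s := by
    rintro w (i | j)
    · show cy Y S' (f w) (Sum.inl i, ()) = _
      rw [hfy]
      rfl
    · show cx Y T' (f w) (Sum.inr j, ()) = _
      rw [hfx]
      rfl
  have aXX : ∀ u v s, XX Y T' S' (u + v) (s, ()) =
      XX Y T' S' u (s, ()) + XX Y T' S' v (s, ()) := by
    rintro u v (i | j)
    · exact congrFun (hlx.map_add u v) (Sum.inl i, ())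
    · exact congrFun (hly.map_add u v) (Sum.inr j, ())
  have aXT : ∀ u v s, XT Y T' S' (u + v) (s, ()) =
      XT Y T' S' u (s, ()) + XT Y T' S' v (s, ()) := by
    rintro u v (i | j)
    · exact congrFun (hly.map_add u v) (Sum.inl i, ())
    · exact congrFun (hlx.map_add u v) (Sum.inr j, ())
  have sXX : ∀ (c : ℂ) u s, XX Y T' S' (c • u) (s, ()) = c * XX Y T' S' u (s, ()) := by
    rintro c u (i | j)
    · exact congrFun (hlx.map_smul c u) (Sum.inl i, ())
    · exact congrFun (hly.map_smul c u) (Sum.inr j, ())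
  have sXT : ∀ (c : ℂ) u s, XT Y T' S' (c • u) (s, ()) = c * XT Y T' S' u (s, ()) := by
    rintro c u (i | j)
    · exact congrFun (hly.map_smul c u) (Sum.inl i, ())
    · exact congrFun (hlx.map_smul c u) (Sum.inr j, ())
  have huniq : ∀ u v : Y.H1, (∀ s, XX Y T' S' u (s, ()) = XX Y T' S' v (s, ())) →
      (∀ s, XT Y T' S' u (s, ()) = XT Y T' S' v (s, ())) → u = v := by
    intro u v hx hy
    have e1 : cx Y T' (u - v) = 0 := by
      rw [show u - v = u + (-1 : ℂ) • v by rw [neg_one_smul, sub_eq_add_neg], hlx.map_add,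
        hlx.map_smul, neg_one_smul]
      funext p
      rcases p with ⟨i | j, ⟨⟩⟩
      · exact add_neg_eq_zero.mpr (hx (Sum.inl i))
      · exact add_neg_eq_zero.mpr (hy (Sum.inr j))
    have e2 : cy Y S' (u - v) = 0 := by
      rw [show u - v = u + (-1 : ℂ) • v by rw [neg_one_smul, sub_eq_add_neg], hly.map_add,
        hly.map_smul, neg_one_smul]
      funext p
      rcases p with ⟨i | j, ⟨⟩⟩
      · exact add_neg_eq_zero.mpr (hy (Sum.inl i))
      · exact add_neg_eq_zero.mpr (hx (Sum.inr j))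
    exact sub_eq_zero.mp (hinj _ e1 e2)
  have hflin : IsLinearMap ℂ f := by
    constructor
    · intro u v
      apply huniq
      · intro s
        have e : (fun s => XX Y T' S' (u + v) (s, ())) =
            (fun s => XX Y T' S' u (s, ())) + fun s => XX Y T' S' v (s, ()) :=
          funext fun s => aXX u v s
        rw [fXX, aXX, fXX, fXX, e, Matrix.mulVec_add, Pi.add_apply]
      · intro s
        have e : (fun s => XT Y T' S' (u + v) (s, ())) =
            (fun s => XT Y T' S' u (s, ())) + fun s => XT Y T' S' v (s, ()) :=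
          funext fun s => aXT u v s
        rw [fXT, aXT, fXT, fXT, e, Matrix.mulVec_add, Pi.add_apply]
    · intro c u
      apply huniq
      · intro s
        have e : (fun s => XX Y T' S' (c • u) (s, ())) =
            c • (fun s => XX Y T' S' u (s, ())) := funext fun s => sXX c u s
        rw [fXX, sXX, fXX, e, Matrix.mulVec_smul, Pi.smul_apply, smul_eq_mul]
      · intro s
        have e : (fun s => XT Y T' S' (c • u) (s, ())) =
            c • (fun s => XT Y T' S' u (s, ())) := funext fun s => sXT c u s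
        rw [fXT, sXT, fXT, e, Matrix.mulVec_smul, Pi.smul_apply, smul_eq_mul]
  -- Betti
  have hfb : ∀ v, Y.IsBetti v → Y.IsBetti (f v) := by
    intro v hv
    obtain ⟨b1, n', hn', b2⟩ := (hbet v).1 hv
    have hconj : ∀ s, XT Y T' S' v (s, ()) = conj (XX Y T' S' v (s, ())) := by
      rintro (i | j)
      · exact b1 (Sum.inl i, ())
      · show cx Y T' v (Sum.inr j, ()) = conj (cy Y S' v (Sum.inr j, ()))
        rw [b1, Complex.conj_conj]
    have hconj2 : ∀ s, (A.map conj).mulVec (fun s => XT Y T' S' v (s, ())) s =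
        conj (A.mulVec (fun s => XX Y T' S' v (s, ())) s) := by
      intro s
      simp only [Matrix.mulVec, dotProduct, Matrix.map_apply]
      rw [map_sum]
      refine Finset.sum_congr rfl fun q _ => ?_
      rw [hconj, map_mul]
    have hsw : sw (cx Y T' v) = XX Y T' S' v := by
      funext p
      rcases p with ⟨i | j, ⟨⟩⟩
      · rfl
      · show conj (cx Y T' v (Sum.inr j, ())) = cy Y S' v (Sum.inr j, ())
        rw [b1]
    have hact : cx Y T' (f v) = act A (cx Y T' v) := by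
      rw [hfx]
      funext p
      unfold act
      rw [hsw]
      rcases p with ⟨i | j, ⟨⟩⟩
      · rfl
      · exact hconj2 (Sum.inr j)
    refine (hbet (f v)).2 ⟨?_, ?_⟩
    · rintro ⟨i | j, ⟨⟩⟩
      · rw [hfx, hfy]
        exact hconj2 (Sum.inl i)
      · rw [hfx, hfy]
        show A.mulVec (fun s => XX Y T' S' v (s, ())) (Sum.inr j) =
          conj ((A.map conj).mulVec (fun s => XT Y T' S' v (s, ())) (Sum.inr j))
        rw [hconj2, Complex.conj_conj]
    · obtain ⟨c, hc, b3⟩ := hlat _ b2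
      refine ⟨c * n', Nat.mul_ne_zero hc hn', ?_⟩
      rw [FEnd_act, smul_smul] at b3
      rw [hact]
      push_cast
      exact b3
  -- de Rham
  have hfd : ∀ v, Y.IsDeRham v → Y.IsDeRham (f v) := by
    intro v hv
    obtain ⟨u, w, hu, hw, e1, e2⟩ := (hdr' v).1 hv
    refine (hdr' (f v)).2 ⟨A'.mulVec u, (Jm (PI N (k + 1)) (PI N k) * A'.transpose *
      Jm (PI N (k + 1)) (PI N k)).mulVec w, FEnd_algsum A' u hA' hu, FEnd_algsum _ w ?_ hw,
      ?_, ?_⟩
    · exact FEnd_algmul _ _ (FEnd_algmul _ _ FEnd_algJ fun p q => hA' q p) FEnd_algJ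
    · intro s
      have e : (fun s => XX Y T' S' v (s, ())) = m ^ k • D.mulVec u := funext fun s => e1 s
      rw [fXX, e, Matrix.mulVec_smul, Pi.smul_apply, smul_eq_mul, Matrix.mulVec_mulVec,
        Matrix.mulVec_mulVec, hc1]
    · intro s
      have e : (fun s => XT Y T' S' v (s, ())) = ((Real.pi : ℂ)⁻¹ * (m ^ k)⁻¹) • D2.mulVec w :=
        funext fun s => e2 s
      rw [fXT, e, Matrix.mulVec_smul, Pi.smul_apply, smul_eq_mul, Matrix.mulVec_mulVec,
        Matrix.mulVec_mulVec, hc2]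
  have hff := Pool.Agent.GPC.hom_fil Y Y f hflin hfb hfd
  intro P Q
  constructor
  · obtain ⟨w, w1, w2⟩ := hsur 0 (Pi.single (Sum.inr Q, ()) 1)
    have e1 := (hfil (f w)).1 (hff w ((hfil w).2 w1))
    have e2 := congrFun e1 (Sum.inl P, ())
    rw [hfx] at e2
    have e3 : (fun s => XX Y T' S' w (s, ())) = Pi.single (Sum.inr Q) 1 := by
      funext s
      rcases s with i | j
      · show cx Y T' w (Sum.inl i, ()) = _
        rw [w1, Pi.zero_apply, Pi.single_eq_of_ne (by simp)]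
      · show cy Y S' w (Sum.inr j, ()) = _
        rw [w2]
        by_cases hj : j = Q
        · rw [hj, Pi.single_eq_same, Pi.single_eq_same]
        · rw [Pi.single_eq_of_ne (by simpa using hj), Pi.single_eq_of_ne (by simpa using hj)]
    have e4 : A.mulVec (fun s => XX Y T' S' w (s, ())) (Sum.inl P) = 0 := e2
    rw [e3, Matrix.mulVec_single_one] at e4
    exact e4
  · obtain ⟨w, w1, w2⟩ := hsur 0 (Pi.single (Sum.inl P, ()) 1)
    have e1 := (hfil (f w)).1 (hff w ((hfil w).2 w1))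
    have e2 := congrFun e1 (Sum.inr Q, ())
    rw [hfx] at e2
    have e3 : (fun s => XT Y T' S' w (s, ())) = Pi.single (Sum.inl P) 1 := by
      funext s
      rcases s with i | j
      · show cy Y S' w (Sum.inl i, ()) = _
        rw [w2]
        by_cases hj : i = P
        · rw [hj, Pi.single_eq_same, Pi.single_eq_same]
        · rw [Pi.single_eq_of_ne (by simpa using hj), Pi.single_eq_of_ne (by simpa using hj)]
      · show cx Y T' w (Sum.inr j, ()) = _
        rw [w1, Pi.zero_apply, Pi.single_eq_of_ne (by simp)]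
    have e4 : (A.map conj).mulVec (fun s => XT Y T' S' w (s, ())) (Sum.inr Q) = 0 := e2
    rw [e3, Matrix.mulVec_single_one] at e4
    have e5 : conj (A (Sum.inr Q) (Sum.inl P)) = 0 := e4
    exact (map_eq_zero _).mp e5

end DWZ
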