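import Pool.Agent.DWZ.StB

/-!
# DWZ, HatZ: algebra of the operator of the exterior power
-/

set_option autoImplicit false

namespace DWZ

open PST DWC DWY

private theorem HatZ_mapmul {l m n : Type} [Fintype m] (δ : Derivation ℚ ℂ ℂ) (M : Matrix l m ℂ)
    (N : Matrix m n ℂ) : (M * N).map δ = M.map δ * N + M * N.map δ := by
  ext i j
  rw [Matrix.map_apply, Matrix.add_apply, Matrix.mul_apply, Matrix.mul_apply, Matrix.mul_apply,
    map_sum, ← Finset.sum_add_distrib]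
  refine Finset.sum_congr rfl fun k _ => ?_
  rw [Derivation.leibniz, Matrix.map_apply, Matrix.map_apply, smul_eq_mul, smul_eq_mul]
  ring

private theorem HatZ_mapone {n : Type} [DecidableEq n] (δ : Derivation ℚ ℂ ℂ) :
    (1 : Matrix n n ℂ).map δ = 0 := by
  ext i j
  rw [Matrix.map_apply, Matrix.zero_apply]
  by_cases h : i = j
  · rw [h, Matrix.one_apply_eq, Derivation.map_one_eq_zero]
  · rw [Matrix.one_apply_ne h, map_zero]

private theorem HatZ_mapsmul {l m : Type} (δ : Derivation ℚ ℂ ℂ) (c : ℂ) (M : Matrix l m ℂ) :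
    (c • M).map δ = δ c • M + c • M.map δ := by
  ext i j
  rw [Matrix.map_apply, Matrix.add_apply, Matrix.smul_apply, Matrix.smul_apply, Matrix.smul_apply,
    Matrix.map_apply, smul_eq_mul, smul_eq_mul, smul_eq_mul, Derivation.leibniz, smul_eq_mul,
    smul_eq_mul]
  ring

private theorem HatZ_dinv (δ : Derivation ℚ ℂ ℂ) (c : ℂ) (hc : c ≠ 0) :
    c * δ c⁻¹ = -(δ c / c) := by
  have h1 : δ (c * c⁻¹) = 0 := by
    rw [mul_inv_cancel₀ hc, Derivation.map_one_eq_zero]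
  rw [Derivation.leibniz, smul_eq_mul, smul_eq_mul] at h1
  have h2 : c * δ c⁻¹ = -(c⁻¹ * δ c) := by
    linear_combination h1
  rw [h2]
  ring

private theorem HatZ_smul {n : Type} [Fintype n] [DecidableEq n] (δ : Derivation ℚ ℂ ℂ)
    (P : Matrix n n ℂ) (hP : P.det ≠ 0) (c : ℂ) (hc : c ≠ 0) :
    (c • P).det ≠ 0 ∧ (c • P)⁻¹ = c⁻¹ • P⁻¹ ∧
    (c • P) * (c • P)⁻¹.map δ =
      P * P⁻¹.map δ - (δ c / c) • (1 : Matrix n n ℂ) := by
  have hu : IsUnit P.det := isUnit_iff_ne_zero.mpr hP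
  have hinv : (c • P)⁻¹ = c⁻¹ • P⁻¹ := by
    apply Matrix.inv_eq_right_inv
    rw [Matrix.smul_mul, Matrix.mul_smul, smul_smul, mul_inv_cancel₀ hc, one_smul,
      Matrix.mul_nonsing_inv P hu]
  refine ⟨?_, hinv, ?_⟩
  · rw [Matrix.det_smul]
    exact mul_ne_zero (pow_ne_zero _ hc) hP
  · rw [hinv, HatZ_mapsmul, Matrix.mul_add, Matrix.smul_mul, Matrix.mul_smul, Matrix.smul_mul,
      Matrix.mul_smul, smul_smul, smul_smul, mul_inv_cancel₀ hc, one_smul, HatZ_dinv δ c hc,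
      Matrix.mul_nonsing_inv P hu, neg_smul]
    abel

private theorem HatZ_gen {n : Type} [Fintype n] [DecidableEq n] (δ : Derivation ℚ ℂ ℂ)
    (P : Matrix n n ℂ) (hP : P.det ≠ 0) (c : ℂ) (hc : c ≠ 0) :
    (c • (P⁻¹).transpose).det ≠ 0 ∧ (c • (P⁻¹).transpose)⁻¹ = c⁻¹ • P.transpose ∧
    (c • (P⁻¹).transpose) * (c • (P⁻¹).transpose)⁻¹.map δ =
      (-(δ c / c)) • (1 : Matrix n n ℂ) - (P * P⁻¹.map δ).transpose := by
  have hu : IsUnit P.det := isUnit_iff_ne_zero.mpr hP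
  have hinv : (c • (P⁻¹).transpose)⁻¹ = c⁻¹ • P.transpose := by
    apply Matrix.inv_eq_right_inv
    rw [Matrix.smul_mul, Matrix.mul_smul, smul_smul, mul_inv_cancel₀ hc, one_smul,
      ← Matrix.transpose_mul, Matrix.mul_nonsing_inv P hu, Matrix.transpose_one]
  refine ⟨?_, hinv, ?_⟩
  · rw [Matrix.det_smul, Matrix.det_transpose]
    refine mul_ne_zero (pow_ne_zero _ hc) ?_
    rw [Matrix.det_nonsing_inv, Ring.inverse_eq_inv']
    exact inv_ne_zero hP
  · rw [hinv, HatZ_mapsmul]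
    have h1 : P.map δ * P⁻¹ + P * P⁻¹.map δ = 0 := by
      rw [← HatZ_mapmul, Matrix.mul_nonsing_inv P hu, HatZ_mapone]
    have h2 : P.map δ * P⁻¹ = -(P * P⁻¹.map δ) := eq_neg_of_add_eq_zero_left h1
    have h3 : P.transpose.map δ = (P.map δ).transpose := rfl
    have h4 : (P⁻¹).transpose * P.transpose = 1 := by
      rw [← Matrix.transpose_mul, Matrix.mul_nonsing_inv P hu, Matrix.transpose_one]
    have h5 : (P⁻¹).transpose * P.transpose.map δ = -(P * P⁻¹.map δ).transpose := by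
      rw [h3, ← Matrix.transpose_mul, h2, Matrix.transpose_neg]
    rw [Matrix.mul_add, Matrix.smul_mul, Matrix.mul_smul, Matrix.smul_mul, Matrix.mul_smul, h4, h5,
      smul_smul, smul_smul, mul_inv_cancel₀ hc, one_smul, HatZ_dinv δ c hc, ← sub_eq_add_neg]

theorem thm_HatZ (h1 : St_Cmp) (h2 : St_Rmv) (h3 : St_DCt) : St_HatZ := by
  intro N k δ P Q κ m A hP hQ hm hδ
  have hu : IsUnit P.det := isUnit_iff_ne_zero.mpr hP
  have hQ0 : Q () () ≠ 0 := by
    rw [Matrix.det_unique] at hQ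
    exact hQ
  have hmk : m ^ k ≠ 0 := pow_ne_zero _ hm
  have hc2 : (m⁻¹) ^ k * Q () () ≠ 0 := mul_ne_zero (pow_ne_zero _ (inv_ne_zero hm)) hQ0
  obtain ⟨d1, e1, f1⟩ := (h3 N (k + 1)).2.2 δ P hP
  obtain ⟨d0, e0, f0⟩ := (h3 N k).2.2 δ P hP
  obtain ⟨a1, a2, a3⟩ := HatZ_smul δ (cmp N (k + 1) P) d1 _ hmk
  obtain ⟨b1, b2, b3⟩ := HatZ_gen δ (cmp N k P) d0 _ hc2
  have hdm : δ (m ^ k) / m ^ k = (k : ℂ) * A := by
    rw [Derivation.leibniz_pow, hδ, nsmul_eq_mul, smul_eq_mul]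
    rcases k with _ | k
    · simp
    · rw [Nat.add_sub_cancel]
      field_simp
      ring
  have hdi : δ ((m⁻¹) ^ k) / (m⁻¹) ^ k = -((k : ℂ) * A) := by
    have h := HatZ_dinv δ (m ^ k) hmk
    rw [← inv_pow, hdm] at h
    rw [← h, inv_pow]
    field_simp
  have hQi : Q⁻¹ = (Q () ())⁻¹ • (1 : Matrix Unit Unit ℂ) := by
    apply Matrix.inv_eq_right_inv
    ext i j
    rw [Matrix.mul_smul, Matrix.mul_one, Matrix.smul_apply, smul_eq_mul]
    cases i
    cases j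
    rw [inv_mul_cancel₀ hQ0]
    rfl
  refine ⟨a1, b1, ?_, ?_, ?_⟩
  · unfold TpY
    rw [a3, f1, hdm]
  · unfold TmY
    rw [b3, f0]
    congr 2
    have h4 : (Q * Q⁻¹.map δ) () () = -(δ (Q () ()) / Q () ()) := by
      rw [hQi, Matrix.mul_apply, Fintype.sum_unique]
      have h5 : ((Q () ())⁻¹ • (1 : Matrix Unit Unit ℂ)).map δ default () = δ (Q () ())⁻¹ := by
        rw [Matrix.map_apply, Matrix.smul_apply]
        congr 1
        rw [smul_eq_mul]
        exact mul_one _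
      rw [h5]
      exact HatZ_dinv δ _ hQ0
    rw [h4, Derivation.leibniz, smul_eq_mul, smul_eq_mul]
    have h6 : ((m⁻¹) ^ k * δ (Q () ()) + Q () () * δ ((m⁻¹) ^ k)) / ((m⁻¹) ^ k * Q () ()) =
        δ (Q () ()) / Q () () + δ ((m⁻¹) ^ k) / (m⁻¹) ^ k := by
      have hmi : (m⁻¹) ^ k ≠ 0 := pow_ne_zero _ (inv_ne_zero hm)
      field_simp
    rw [h6, hdi]
    ring
  · have hcT : ∀ j, (cmp N j P)⁻¹.transpose = cmp N j (P⁻¹).transpose := by
      intro j
      obtain ⟨-, e, -⟩ := (h3 N j).2.2 δ P hP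
      rw [e, (h1 N j).2.2]
    unfold TpY TmY
    rw [a2, b2, (h2 N k).2.2.2.2.2.2.2.2 δ, Matrix.transpose_smul, hcT, Matrix.smul_mul,
      (h2 N k).2.2.1, ← (h1 N k).2.2, Matrix.smul_mul, Matrix.mul_smul, Matrix.mul_assoc,
      ← (h1 N k).1, ← Matrix.transpose_mul, Matrix.mul_nonsing_inv P hu, Matrix.transpose_one,
      (h1 N k).2.1, Matrix.mul_one, smul_smul, ← neg_smul, ← (h2 N k).2.1]
    congr 1
    funext i
    rw [Pi.smul_apply, smul_eq_mul, Matrix.neg_apply, hQi, Matrix.mul_smul, Matrix.mul_one,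
      Matrix.smul_apply, smul_eq_mul, mul_inv, inv_pow, inv_inv]
    have h7 : (P⁻¹.transpose * κ.map δ) i () =
        P⁻¹.transpose.mulVec (fun i => δ (κ i ())) i := rfl
    rw [h7]
    field_simp
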