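import Pool.Agent.DWZ.StC
import Pool.Agent.Helper39.AF.Proj

/-!
# DWZ, HodZ: the part of type `(k + 1, k + 1)` of a Grothendieck class is a Hodge class
-/

set_option autoImplicit false

namespace DWZ

open scoped ComplexConjugate
open PST DWC DWY
open Pool.Agent.GPC (AbVar hermForm bilForm)

private theorem HodZ_neg {X : AbVar} {f : X.H1 → X.H1} (hf : X.IsEnd f) :
    X.IsEnd (fun v => - f v) := by
  have h := Pool.Agent.Helper39.AF.isEnd_ratSmul hf (-1)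
  have h2 : (fun v => (((-1 : ℚ)) : ℂ) • f v) = fun v => - f v := by
    funext v
    rw [Rat.cast_neg, Rat.cast_one, neg_smul, one_smul]
  rw [h2] at h
  exact h

private theorem HodZ_zd {d : ℚ} (hd : 0 < d) : zd d ^ 2 = -(d : ℂ) := by
  unfold zd
  have h1 : (0 : ℝ) ≤ (d : ℝ) := by exact_mod_cast hd.le
  have h2 : ((Real.sqrt (d : ℝ) : ℝ) : ℂ) ^ 2 = (d : ℂ) := by
    rw [← Complex.ofReal_pow, Real.sq_sqrt h1]
    norm_cast
  rw [mul_pow, h2, Complex.I_sq]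
  ring

private theorem HodZ_pol {X : AbVar} (u v : X.H1) : X.pol (-u) v = - X.pol u v ∧
    X.pol u (-v) = - X.pol u v := by
  constructor
  · unfold AbVar.pol
    rw [← Finset.sum_neg_distrib]
    apply Finset.sum_congr rfl
    intro a _
    show (-u (.inl a)) * v (.inr a) - v (.inl a) * (-u (.inr a)) = _
    ring
  · unfold AbVar.pol
    rw [← Finset.sum_neg_distrib]
    apply Finset.sum_congr rfl
    intro a _
    show u (.inl a) * (-v (.inr a)) - (-v (.inl a)) * u (.inr a) = _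
    ring

private theorem HodZ_jn {V : Type} (k : ℕ) (v : Fin (2 * (k + 1)) → V) :
    v = jn k (fun i => v ⟨(i : ℕ), by omega⟩) (fun i => v ⟨k + 1 + (i : ℕ), by omega⟩) := by
  funext i
  unfold jn
  split_ifs with h
  · rfl
  · congr 1
    apply Fin.ext
    show (i : ℕ) = k + 1 + ((i : ℕ) - (k + 1))
    omega

private theorem HodZ_core (h1 : St_ExiZ) (h2 : St_Acl) (h3 : St_Abar) (h4 : St_Abet)
    (h5 : St_AdR) (h6 : St_FEnd) (h7 : DWY.St_CxA) (X : AbVar) (d : ℚ)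
    (J : Module.End ℂ X.H1) (N k : ℕ) (hk : k < N) (hg : X.g = N + 1) (hJ : IsKs X d J)
    (hf : Module.finrank ℂ (X.filEigen J (zd d)) = 1) (α : X.Class (2 * (k + 1)))
    (hα : X.IsGrothendieckClass (k + 1) α) (v : Fin (2 * (k + 1)) → X.H1)
    (hv1 : ∀ i : Fin (2 * (k + 1)), (i : ℕ) < k + 1 → J (v i) = zd d • v i)
    (hv2 : ∀ i : Fin (2 * (k + 1)), k + 1 ≤ (i : ℕ) → J (v i) = (-zd d) • v i ∧ X.IsFil (v i))
    (hv3 : ∃ i : Fin (2 * (k + 1)), (i : ℕ) < k + 1 ∧ X.IsFil (v i)) : α v = 0 := by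
  obtain ⟨m, n, M, Y, T, S, Tp, Tm, Ta, Tb, κ, L, T', S', Ta', Tb', LY, hXD⟩ :=
    h1 X d J N k hk hg hJ hf
  obtain ⟨A, hA⟩ := h2 N k d m n M X Y J T S Tp Tm Ta Tb κ L T' S' Ta' Tb' LY hXD α
  have hbar := h3 N k d m n M X Y J T S Tp Tm Ta Tb κ L T' S' Ta' Tb' LY hXD α A hα.2 hA
  have hbet := h4 N k d m n M X Y J T S Tp Tm Ta Tb κ L T' S' Ta' Tb' LY hXD α A hα.2 hA
  obtain ⟨A', hA', hcomm⟩ :=
    h5 N k d m n M X Y J T S Tp Tm Ta Tb κ L T' S' Ta' Tb' LY hXD α A hα.1 hA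
  have hoff := h6 N k d m n M X Y J T S Tp Tm Ta Tb κ L T' S' Ta' Tb' LY hXD A A' hbar hbet hA'
    hcomm
  obtain ⟨-, -, -, -, hfil, -, -⟩ := h7 X d _ _ T S _ _ Ta Tb κ L hXD.nx
  set u : Fin (k + 1) → X.H1 := fun i => v ⟨(i : ℕ), by omega⟩ with hu
  set w : Fin (k + 1) → X.H1 := fun i => v ⟨k + 1 + (i : ℕ), by omega⟩ with hw
  have e1 := hA u w (fun i => hv1 _ i.2) (fun i => (hv2 _ (by simp)).1)
  rw [← HodZ_jn k v] at e1
  have hwf : ∀ i, X.IsFil (w i) := fun i => (hv2 _ (by simp)).2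
  obtain ⟨i₀, hi₀, hf₀⟩ := hv3
  -- the first coordinates of `u` vanish
  have hX : ∀ P, wX N k X T S u (Sum.inl P) = 0 := by
    intro P
    unfold wX wdv
    apply Matrix.det_eq_zero_of_row_eq_zero ⟨(i₀ : ℕ), hi₀⟩
    intro j
    show cx X T (u ⟨(i₀ : ℕ), hi₀⟩) (Sum.inl (P.1 j), ()) = 0
    have h := (hfil (u ⟨(i₀ : ℕ), hi₀⟩)).1 hf₀
    rw [h]
    rfl
  have hT : ∀ Q, wT N k X T S w (Sum.inr Q) = 0 := by
    intro Q
    unfold wT wdv
    apply Matrix.det_eq_zero_of_column_eq_zero (Fin.last k)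
    intro i
    have h : ix N k (Sum.inr Q) (Fin.last k) = Sum.inr () := by
      show Fin.snoc (α := fun _ => Fin N ⊕ Unit) (fun i => Sum.inl (Q.1 i)) (Sum.inr ())
        (Fin.last k) = Sum.inr ()
      exact Fin.snoc_last _ _
    rw [Matrix.of_apply, h]
    show cx X T (w i) (Sum.inr (), ()) = 0
    rw [(hfil (w i)).1 (hwf i)]
    rfl
  have hAX : ∀ P, A.mulVec (wX N k X T S u) (Sum.inl P) = 0 := by
    intro P
    simp only [Matrix.mulVec, dotProduct, Fintype.sum_sum_type]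
    rw [Finset.sum_eq_zero, Finset.sum_eq_zero, add_zero]
    · intro Q _
      rw [(hoff P Q).1, zero_mul]
    · intro P' _
      rw [hX, mul_zero]
  rw [e1]
  unfold blv
  rw [Finset.sum_eq_zero, Finset.sum_eq_zero, sub_zero, mul_zero]
  · intro Q _
    rw [hT, mul_zero]
  · intro P _
    rw [hAX, zero_mul]

theorem thm_HodZ (h1 : St_ExiZ) (h2 : St_Acl) (h3 : St_Abar) (h4 : St_Abet) (h5 : St_AdR)
    (h6 : St_FEnd) (h7 : DWY.St_CxA) (_h8 : St_Wdv) : St_HodZ := by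
  intro X d J N k z hk hg hJ hz hfin α hα v hv1 hv2 hv3
  have hzz : z ^ 2 = zd d ^ 2 := by rw [hz, HodZ_zd hJ.pos]
  rcases sq_eq_sq_iff_eq_or_eq_neg.mp hzz with h | h
  · subst h
    exact HodZ_core h1 h2 h3 h4 h5 h6 h7 X d J N k hk hg hJ hfin α hα v hv1 hv2 hv3
  · have hJn : ∀ v, (-J : Module.End ℂ X.H1) v = - J v := fun v => rfl
    have hKs : IsKs X d (-J) := by
      refine ⟨hJ.pos, ?_, fun v => ?_, fun u v => ?_⟩
      · exact HodZ_neg hJ.endo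
      · rw [hJn, hJn, map_neg, neg_neg, hJ.sq]
      · rw [hJn, hJn, (HodZ_pol _ _).1, (HodZ_pol _ _).2, hJ.adj]
    have hfil : X.filEigen (-J : Module.End ℂ X.H1) (zd d) = X.filEigen J z := by
      unfold AbVar.filEigen
      congr 1
      ext v
      show ((-J : Module.End ℂ X.H1) v = zd d • v ∧ X.IsFil v) ↔ (J v = z • v ∧ X.IsFil v)
      rw [hJn, h, neg_smul, neg_eq_iff_eq_neg]
    refine HodZ_core h1 h2 h3 h4 h5 h6 h7 X d (-J) N k hk hg hKs (by rw [hfil]; exact hfin) α hα v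
      (fun i hi => ?_) (fun i hi => ⟨?_, (hv2 i hi).2⟩) hv3
    · rw [hJn, hv1 i hi, h, neg_smul, neg_neg]
    · rw [hJn, (hv2 i hi).1, h, neg_neg, neg_smul]

end DWZ
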