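import Pool.Agent.DWZ.StA

/-!
# DWZ [Lap]: the basis of the exterior power
-/

set_option autoImplicit false

namespace DWZ

theorem Lap_ix_inl (N k : ℕ) (S : PI N (k + 1)) (i : Fin (k + 1)) :
    ix N k (Sum.inl S) i = Sum.inl (S.1 i) := rfl

theorem Lap_ix_last (N k : ℕ) (S : PI N k) : ix N k (Sum.inr S) (Fin.last k) = Sum.inr () := by
  simp [ix]

theorem Lap_ix_cast (N k : ℕ) (S : PI N k) (i : Fin k) :
    ix N k (Sum.inr S) i.castSucc = Sum.inl (S.1 i) := by
  simp [ix]

theorem Lap_inj (N k : ℕ) (p : PI N (k + 1) ⊕ PI N k) : Function.Injective (ix N k p) := by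
  rcases p with S | S
  · intro i j h
    have hS : StrictMono S.1 := fun a b h => S.2 a b h
    exact hS.injective (Sum.inl_injective h)
  · have hS : StrictMono S.1 := fun a b h => S.2 a b h
    intro i j
    induction i using Fin.lastCases with
    | last =>
      induction j using Fin.lastCases with
      | last => intro _; rfl
      | cast j =>
        rw [Lap_ix_last, Lap_ix_cast]
        intro h
        exact absurd h Sum.inr_ne_inl
    | cast i =>
      induction j using Fin.lastCases with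
      | last =>
        rw [Lap_ix_last, Lap_ix_cast]
        intro h
        exact absurd h Sum.inl_ne_inr
      | cast j =>
        rw [Lap_ix_cast, Lap_ix_cast]
        intro h
        rw [hS.injective (Sum.inl_injective h)]

theorem Lap_mem (N k : ℕ) (S : PI N k) (a : Fin N) :
    Sum.inl a ∈ Set.range (ix N k (Sum.inr S)) ↔ a ∈ Set.range S.1 := by
  constructor
  · rintro ⟨i, hi⟩
    induction i using Fin.lastCases with
    | last =>
      rw [Lap_ix_last] at hi
      exact absurd hi Sum.inr_ne_inl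
    | cast i =>
      rw [Lap_ix_cast] at hi
      exact ⟨i, Sum.inl_injective hi⟩
  · rintro ⟨i, rfl⟩
    exact ⟨i.castSucc, Lap_ix_cast N k S i⟩

theorem Lap_unique (N k : ℕ) (p q : PI N (k + 1) ⊕ PI N k)
    (h : Set.range (ix N k p) = Set.range (ix N k q)) : p = q := by
  have key : ∀ (S : PI N (k + 1)) (S' : PI N k),
      Set.range (ix N k (Sum.inl S)) ≠ Set.range (ix N k (Sum.inr S')) := by
    intro S S' h'
    have h1 : (Sum.inr () : Fin N ⊕ Unit) ∈ Set.range (ix N k (Sum.inr S')) :=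
      ⟨Fin.last k, Lap_ix_last N k S'⟩
    rw [← h'] at h1
    obtain ⟨i, hi⟩ := h1
    rw [Lap_ix_inl] at hi
    exact Sum.inl_ne_inr hi
  rcases p with S | S <;> rcases q with S' | S'
  · have h2 : Set.range S.1 = Set.range S'.1 := by
      ext a
      have h3 := Set.ext_iff.1 h (Sum.inl a)
      constructor
      · rintro ⟨i, rfl⟩
        obtain ⟨j, hj⟩ := h3.1 ⟨i, rfl⟩
        exact ⟨j, Sum.inl_injective hj⟩
      · rintro ⟨i, rfl⟩
        obtain ⟨j, hj⟩ := h3.2 ⟨i, rfl⟩
        exact ⟨j, Sum.inl_injective hj⟩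
    have h4 : S.1 = S'.1 := (StrictMono.range_inj (fun a b h => S.2 a b h)
      (fun a b h => S'.2 a b h)).1 h2
    rw [Subtype.ext h4]
  · exact absurd h (key S S')
  · exact absurd h.symm (key S' S)
  · have h2 : Set.range S.1 = Set.range S'.1 := by
      ext a
      rw [← Lap_mem, ← Lap_mem, h]
    have h4 : S.1 = S'.1 := (StrictMono.range_inj (fun a b h => S.2 a b h)
      (fun a b h => S'.2 a b h)).1 h2
    rw [Subtype.ext h4]

theorem Lap_exists (N k : ℕ) (v : Fin (k + 1) → Fin N ⊕ Unit) (hv : Function.Injective v) :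
    ∃ p, Set.range v ⊆ Set.range (ix N k p) := by
  classical
  obtain ⟨U, hU⟩ : ∃ U : Finset (Fin N ⊕ Unit), U = Finset.univ.image v := ⟨_, rfl⟩
  have hcard : U.card = k + 1 := by
    rw [hU, Finset.card_image_of_injective _ hv, Finset.card_univ, Fintype.card_fin]
  have hmem : ∀ i, v i ∈ U := fun i => by
    rw [hU]
    exact Finset.mem_image_of_mem _ (Finset.mem_univ _)
  have hsum := Finset.card_toLeft_add_card_toRight (u := U)
  by_cases h : (Sum.inr () : Fin N ⊕ Unit) ∈ U
  · have h1 : U.toRight.card = 1 := by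
      rw [Finset.card_eq_one]
      refine ⟨(), ?_⟩
      ext x
      rw [Finset.mem_toRight, Finset.mem_singleton]
      exact ⟨fun _ => rfl, fun _ => h⟩
    have h2 : U.toLeft.card = k := by omega
    refine ⟨Sum.inr ⟨U.toLeft.orderEmbOfFin h2, fun a b hab =>
      (U.toLeft.orderEmbOfFin h2).strictMono hab⟩, ?_⟩
    rintro _ ⟨i, rfl⟩
    have h3 := hmem i
    rcases hvi : v i with a | a
    · rw [Lap_mem]
      show a ∈ Set.range (U.toLeft.orderEmbOfFin h2)
      rw [Finset.range_orderEmbOfFin, Finset.mem_coe, Finset.mem_toLeft, ← hvi]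
      exact h3
    · exact ⟨Fin.last k, Lap_ix_last N k _⟩
  · have h1 : U.toRight.card = 0 := by
      rw [Finset.card_eq_zero, Finset.eq_empty_iff_forall_notMem]
      intro x hx
      rw [Finset.mem_toRight] at hx
      exact h hx
    have h2 : U.toLeft.card = k + 1 := by omega
    refine ⟨Sum.inl ⟨U.toLeft.orderEmbOfFin h2, fun a b hab =>
      (U.toLeft.orderEmbOfFin h2).strictMono hab⟩, ?_⟩
    rintro _ ⟨i, rfl⟩
    have h3 := hmem i
    rcases hvi : v i with a | a
    · rw [hvi] at h3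
      have h4 : a ∈ Set.range (U.toLeft.orderEmbOfFin h2) := by
        rw [Finset.range_orderEmbOfFin, Finset.mem_coe, Finset.mem_toLeft]
        exact h3
      obtain ⟨j, hj⟩ := h4
      exact ⟨j, by rw [Lap_ix_inl]; exact congrArg Sum.inl hj⟩
    · rw [hvi] at h3
      exact absurd h3 h

theorem Lap_perm {n : ℕ} {α : Type} (u v : Fin n → α)
    (hv : Function.Injective v) (h : Set.range v ⊆ Set.range u) :
    ∃ σ : Equiv.Perm (Fin n), v = u ∘ σ := by
  have h1 : ∀ i, ∃ j, u j = v i := fun i => h ⟨i, rfl⟩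
  choose s hs using h1
  have h2 : Function.Injective s := fun i j hij => hv (by rw [← hs, ← hs, hij])
  refine ⟨Equiv.ofBijective s (Finite.injective_iff_bijective.1 h2), ?_⟩
  funext i
  exact (hs i).symm

/-- One coordinate of the exterior product, as an alternating map. -/
noncomputable def Lap_w (N k : ℕ) (p : PI N (k + 1) ⊕ PI N k) :
    (Fin N ⊕ Unit → ℂ) [⋀^Fin (k + 1)]→ₗ[ℂ] ℂ :=
  Matrix.detRowAlternating.compLinearMap (LinearMap.funLeft ℂ ℂ (ix N k p))

theorem Lap_w_apply (N k : ℕ) (p : PI N (k + 1) ⊕ PI N k)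
    (X : Fin (k + 1) → Fin N ⊕ Unit → ℂ) : Lap_w N k p X = wdv N k X p := rfl

theorem Lap_wdv_perm (N k : ℕ) (p : PI N (k + 1) ⊕ PI N k) (σ : Equiv.Perm (Fin (k + 1))) :
    wdv N k (fun i => Pi.single (ix N k p (σ i)) 1) p = ((Equiv.Perm.sign σ : ℤ) : ℂ) := by
  unfold wdv
  have h : (Matrix.of fun i j => (Pi.single (ix N k p (σ i)) (1 : ℂ) : Fin N ⊕ Unit → ℂ)
      (ix N k p j)) = (1 : Matrix (Fin (k + 1)) (Fin (k + 1)) ℂ).submatrix σ id := by
    ext i j
    rw [Matrix.of_apply, Matrix.submatrix_apply, Matrix.one_apply, Pi.single_apply]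
    refine if_congr ?_ rfl rfl
    rw [(Lap_inj N k p).eq_iff]
    exact eq_comm
  rw [h, Matrix.det_permute, Matrix.det_one, mul_one]

theorem Lap_wdv_zero (N k : ℕ) (p : PI N (k + 1) ⊕ PI N k) (v : Fin (k + 1) → Fin N ⊕ Unit)
    (i : Fin (k + 1)) (h : v i ∉ Set.range (ix N k p)) :
    wdv N k (fun i => Pi.single (v i) 1) p = 0 := by
  unfold wdv
  refine Matrix.det_eq_zero_of_row_eq_zero i fun j => ?_
  rw [Matrix.of_apply]
  exact Pi.single_eq_of_ne (fun h' => h ⟨j, h'⟩) _

theorem thm_Lap : St_Lap := by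
  intro N k W _ _ f X
  obtain ⟨w, hw⟩ : ∃ w : PI N (k + 1) ⊕ PI N k → W,
    w = fun p => f (fun i => Pi.single (ix N k p i) 1) := ⟨_, rfl⟩
  obtain ⟨g, hg⟩ : ∃ g : (Fin N ⊕ Unit → ℂ) [⋀^Fin (k + 1)]→ₗ[ℂ] W,
    ∀ X, g X = ∑ p, wdv N k X p • w p :=
    ⟨(Fintype.linearCombination ℂ w).compAlternatingMap (AlternatingMap.pi fun p => Lap_w N k p),
      fun X => by
        rw [LinearMap.compAlternatingMap_apply, Fintype.linearCombination_apply]
        rfl⟩
  have key : f = g := by
    refine Module.Basis.ext_alternating (Pi.basisFun ℂ (Fin N ⊕ Unit)) fun v hv => ?_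
    simp only [Pi.basisFun_apply]
    rw [hg]
    obtain ⟨p₀, hp₀⟩ := Lap_exists N k v hv
    obtain ⟨σ, hσ⟩ := Lap_perm _ v hv hp₀
    rw [Finset.sum_eq_single p₀]
    · rw [hσ]
      have h1 : wdv N k (fun i => Pi.single ((ix N k p₀ ∘ σ) i) 1) p₀ =
          ((Equiv.Perm.sign σ : ℤ) : ℂ) := Lap_wdv_perm N k p₀ σ
      rw [h1, hw]
      have h2 := f.map_perm (fun j => Pi.single (ix N k p₀ j) (1 : ℂ)) σ
      have h3 : ((fun j => (Pi.single (ix N k p₀ j) (1 : ℂ) : Fin N ⊕ Unit → ℂ)) ∘ σ) =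
          fun i => Pi.single ((ix N k p₀ ∘ σ) i) 1 := rfl
      rw [h3] at h2
      rw [h2, Units.smul_def, Int.cast_smul_eq_zsmul]
    · intro p _ hp
      have h1 : ∃ i, v i ∉ Set.range (ix N k p) := by
        by_contra hc
        push Not at hc
        refine hp (Lap_unique N k p p₀ ?_)
        obtain ⟨τ, hτ⟩ := Lap_perm _ v hv (by rintro _ ⟨i, rfl⟩; exact hc i)
        have e1 : Set.range v = Set.range (ix N k p) := by
          rw [hτ, Set.range_comp, τ.surjective.range_eq, Set.image_univ]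
        have e2 : Set.range v = Set.range (ix N k p₀) := by
          rw [hσ, Set.range_comp, σ.surjective.range_eq, Set.image_univ]
        rw [← e1, e2]
      obtain ⟨i, hi⟩ := h1
      rw [Lap_wdv_zero N k p v i hi, zero_smul]
    · intro h
      exact absurd (Finset.mem_univ _) h
  calc f X = g X := by rw [← key]
    _ = ∑ p, wdv N k X p • w p := hg X
    _ = _ := by rw [hw]

end DWZ
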