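import Pool.Agent.DWZ.StB

/-!
# DWZ: the equality of the vector fields determines the operator

Theorem `thm_LinZ : St_LinZ`.
-/

set_option autoImplicit false

namespace DWZ

open PST DWC DWY

variable {N k : ℕ}

/-- The vector field on the domain of the exterior power, in matrix form. -/
private theorem LinZ_xiY (BpY : Matrix (PI N (k + 1)) (PI N (k + 1)) ℂ)
    (BmY : Matrix (PI N k) (PI N k) ℂ) (cY : Matrix (PI N (k + 1)) (PI N k) ℂ)
    (R : Matrix (PI N (k + 1)) (PI N k) ℂ) (p : WY N k) :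
    xi BpY BmY cY (fun q => R q.1 q.2) p =
      (BpY * R + R * BmY.transpose + (1 / (Real.pi : ℂ)) • (R * cY.transpose * R)) p.1 p.2 := by
  simp only [xi, Matrix.add_apply, Matrix.smul_apply, Matrix.mul_apply, Matrix.transpose_apply,
    smul_eq_mul]
  congr 1
  · congr 1
    exact Finset.sum_congr rfl fun j _ => mul_comm _ _
  · congr 1
    refine Finset.sum_congr rfl fun i _ => ?_
    rw [Finset.sum_mul]
    exact Finset.sum_congr rfl fun j _ => by ring

/-- The vector field on the ball. -/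
private theorem LinZ_xiX (Bp : Matrix (Fin N) (Fin N) ℂ) (Bm : Matrix Unit Unit ℂ)
    (c : Matrix (Fin N) Unit ℂ) (u : Fin N → ℂ) (i : Fin N) :
    xi Bp Bm c (fun q : WX N => u q.1) (i, ()) =
      (Bp.mulVec u + Bm () () • u + ((1 / (Real.pi : ℂ)) * ∑ j, c j () * u j) • u) i := by
  simp only [xi, Pi.add_apply, Pi.smul_apply, Matrix.mulVec, dotProduct, smul_eq_mul,
    Finset.univ_unique, Finset.sum_singleton]
  rw [mul_assoc (1 / (Real.pi : ℂ)), Finset.sum_mul]

/-- The difference of the vector fields in matrix form, on multiples of a vector. -/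
private theorem LinZ_exp (h1 : St_Rmv) (Bp : Matrix (Fin N) (Fin N) ℂ) (Bm : Matrix Unit Unit ℂ)
    (c : Matrix (Fin N) Unit ℂ) (BpY : Matrix (PI N (k + 1)) (PI N (k + 1)) ℂ)
    (BmY : Matrix (PI N k) (PI N k) ℂ) (cY bY : Matrix (PI N (k + 1)) (PI N k) ℂ)
    (u : Fin N → ℂ) (t : ℂ) (p : WY N k) :
    vY N k Bp Bm c 0 BpY BmY cY bY (fun q => t * u q.1) p =
      bY p.1 p.2 + t * (BpY * rm N k u + rm N k u * BmY.transpose -
        (rm N k (Bp.mulVec u) + Bm () () • rm N k u)) p.1 p.2 +
      t ^ 2 * ((1 / (Real.pi : ℂ)) • (rm N k u * cY.transpose * rm N k u -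
        (∑ j, c j () * u j) • rm N k u)) p.1 p.2 := by
  obtain ⟨hadd, hsmul, -⟩ := h1 N k
  have hR : rho N k (fun q => t * u q.1) = fun q : WY N k => (t • rm N k u) q.1 q.2 := by
    funext q
    show rm N k (t • u) q.1 q.2 = _
    rw [hsmul]
  have hX : rho N k (fun q => xi Bp Bm c (fun q => t * u q.1) q + (0 : Matrix (Fin N) Unit ℂ) q.1 q.2)
      p = (t • rm N k (Bp.mulVec u) + (Bm () () * t) • rm N k u +
        ((1 / (Real.pi : ℂ)) * (t ^ 2 * ∑ j, c j () * u j)) • rm N k u) p.1 p.2 := by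
    have e : (fun i => xi Bp Bm c (fun q : WX N => t * u q.1) (i, ()) +
        (0 : Matrix (Fin N) Unit ℂ) i ()) = t • Bp.mulVec u + (Bm () () * t) • u +
        ((1 / (Real.pi : ℂ)) * (t ^ 2 * ∑ j, c j () * u j)) • u := by
      funext i
      have e1 := LinZ_xiX Bp Bm c (t • u) i
      have e2 : xi Bp Bm c (fun q : WX N => t * u q.1) (i, ()) = (Bp.mulVec (t • u) +
        Bm () () • (t • u) + ((1 / (Real.pi : ℂ)) * ∑ j, c j () * (t • u) j) • (t • u)) i := e1
      rw [e2, Matrix.mulVec_smul]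
      have e3 : ∑ j, c j () * (t • u) j = t * ∑ j, c j () * u j := by
        rw [Finset.mul_sum]
        refine Finset.sum_congr rfl fun j _ => ?_
        rw [Pi.smul_apply, smul_eq_mul]
        ring
      rw [e3]
      simp only [Pi.add_apply, Pi.smul_apply, smul_eq_mul, Matrix.zero_apply]
      ring
    show rm N k (fun i => xi Bp Bm c (fun q : WX N => t * u q.1) (i, ()) +
      (0 : Matrix (Fin N) Unit ℂ) i ()) p.1 p.2 = _
    rw [e, hadd, hadd, hsmul, hsmul, hsmul]
  unfold vY
  rw [hX, hR, LinZ_xiY]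
  simp only [Matrix.add_apply, Matrix.sub_apply, Matrix.smul_apply, smul_eq_mul, Matrix.mul_smul,
    Matrix.smul_mul]
  ring

/-- The three parts of the difference are zero. -/
private theorem LinZ_zero (h1 : St_Rmv) (Bp : Matrix (Fin N) (Fin N) ℂ) (Bm : Matrix Unit Unit ℂ)
    (c : Matrix (Fin N) Unit ℂ) (BpY : Matrix (PI N (k + 1)) (PI N (k + 1)) ℂ)
    (BmY : Matrix (PI N k) (PI N k) ℂ) (cY bY : Matrix (PI N (k + 1)) (PI N k) ℂ)
    (h : ∀ᶠ w in nhds (0 : WX N → ℂ), ∀ p, vY N k Bp Bm c 0 BpY BmY cY bY w p = 0)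
    (u : Fin N → ℂ) (p : WY N k) :
    bY p.1 p.2 = 0 ∧ (BpY * rm N k u + rm N k u * BmY.transpose -
        (rm N k (Bp.mulVec u) + Bm () () • rm N k u)) p.1 p.2 = 0 ∧
      ((1 / (Real.pi : ℂ)) • (rm N k u * cY.transpose * rm N k u -
        (∑ j, c j () * u j) • rm N k u)) p.1 p.2 = 0 := by
  have hc : Filter.Tendsto (fun t : ℂ => (fun q => t * u q.1 : WX N → ℂ)) (nhds 0)
      (nhds (0 : WX N → ℂ)) := by
    have : Continuous (fun t : ℂ => (fun q => t * u q.1 : WX N → ℂ)) := by fun_prop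
    have h0 := this.tendsto 0
    have : (fun q => (0 : ℂ) * u q.1 : WX N → ℂ) = 0 := by
      funext q
      simp
    rwa [this] at h0
  have he := hc.eventually h
  obtain ⟨ε, hε, hb⟩ := Metric.eventually_nhds_iff.1 he
  set Lin := (BpY * rm N k u + rm N k u * BmY.transpose -
        (rm N k (Bp.mulVec u) + Bm () () • rm N k u)) p.1 p.2 with hLin
  set Qu := ((1 / (Real.pi : ℂ)) • (rm N k u * cY.transpose * rm N k u -
        (∑ j, c j () * u j) • rm N k u)) p.1 p.2 with hQu
  have key : ∀ t : ℂ, ‖t‖ < ε → bY p.1 p.2 + t * Lin + t ^ 2 * Qu = 0 := by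
    intro t ht
    rw [hLin, hQu, ← LinZ_exp h1]
    exact hb (by simpa using ht) p
  set s : ℂ := ((ε / 2 : ℝ) : ℂ) with hs
  have hsn : ‖s‖ < ε := by
    rw [hs, Complex.norm_real, Real.norm_eq_abs, abs_of_pos (by positivity)]
    linarith
  have hs0 : s ≠ 0 := by
    rw [hs]
    exact_mod_cast (by positivity : (ε / 2 : ℝ) ≠ 0)
  have k0 := key 0 (by simpa using hε)
  have k1 := key s hsn
  have k2 := key (-s) (by rwa [norm_neg])
  have a0 : bY p.1 p.2 = 0 := by simpa using k0
  rw [a0] at k1 k2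
  refine ⟨a0, ?_, ?_⟩
  · have : s * Lin = 0 := by linear_combination (k1 - k2) / 2
    exact (mul_eq_zero.1 this).resolve_left hs0
  · have : s ^ 2 * Qu = 0 := by linear_combination (k1 + k2) / 2
    exact (mul_eq_zero.1 this).resolve_left (pow_ne_zero _ hs0)

/-- [LinZ] the equality of the vector fields determines the operator, up to a scalar -/
theorem thm_LinZ (h1 : St_Rmv) (h2 : St_UnR) : St_LinZ := by
  intro N k hk Bp Bm c BpY BmY cY bY h
  have H := LinZ_zero h1 Bp Bm c BpY BmY cY bY h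
  obtain ⟨hadd, hsmul, -, hder, hquad, -⟩ := h1 N k
  obtain ⟨hu1, hu2⟩ := h2 N k hk
  refine ⟨?_, ?_, ?_⟩
  · ext S S'
    exact (H 0 (S, S')).1
  · have hM : cY.transpose - (rm N k fun i => c i ()).transpose = 0 := by
      apply hu2
      intro v
      rw [Matrix.mul_sub, Matrix.sub_mul, hquad v fun i => c i ()]
      ext S S'
      have e := (H v (S, S')).2.2
      have hpi : (1 / (Real.pi : ℂ)) ≠ 0 :=
        one_div_ne_zero (by exact_mod_cast Real.pi_ne_zero)
      rw [Matrix.smul_apply, smul_eq_mul] at e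
      exact (mul_eq_zero.1 e).resolve_left hpi
    have hM' := sub_eq_zero.1 hM
    exact Matrix.transpose_injective hM'
  · obtain ⟨a, ha, hb⟩ := hu1 (BpY - dC N (k + 1) Bp)
      (BmY.transpose + dC N k Bp - Bm () () • (1 : Matrix (PI N k) (PI N k) ℂ)) (by
        intro v
        have e : BpY * rm N k v + rm N k v * BmY.transpose -
            (rm N k (Bp.mulVec v) + Bm () () • rm N k v) = 0 := by
          ext S S'
          exact (H v (S, S')).2.1
        have e2 := hder Bp v
        rw [Matrix.sub_mul, Matrix.mul_sub, Matrix.mul_add, Matrix.mul_smul, Matrix.mul_one, e2]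
        have e3 : BpY * rm N k v = rm N k (Bp.mulVec v) + Bm () () • rm N k v -
            rm N k v * BmY.transpose := by
          rw [sub_eq_zero] at e
          rw [← e]
          abel
        rw [e3]
        abel)
    refine ⟨-a, ?_, ?_⟩
    · rw [neg_smul, sub_neg_eq_add, ← ha]
      abel
    · apply Matrix.transpose_injective
      have hb' : BmY.transpose = Bm () () • (1 : Matrix (PI N k) (PI N k) ℂ) - dC N k Bp +
          (-a) • (1 : Matrix (PI N k) (PI N k) ℂ) := by
        rw [← hb]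
        abel
      rw [hb', Matrix.transpose_sub, Matrix.transpose_smul, Matrix.transpose_one,
        Matrix.transpose_transpose, add_smul]
      abel

end DWZ
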