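import Pool.Agent.DWZ.StB
import Pool.Agent.GAM.ThEx
import Pool.Agent.PST.UGr

/-!
# DWZ [OpZ]: the operator of the exterior power
-/

set_option autoImplicit false

namespace DWZ

open scoped ComplexConjugate
open GAM (H E F pd pdl PLat IsTh OddTor IsDel Gro IsLat Pre)
open PST DWC DWY
open Pool.Agent.GPC (AbVar hermForm bilForm)

/-- Stability under `N i √d` is transported. -/
private theorem OpZ_KL {α β : Type} [Fintype α] [Fintype β] [DecidableEq α] [DecidableEq β]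
    {d : ℚ} {N : ℕ} {g : Matrix (α ⊕ β) (α ⊕ β) ℂ} {L₁ L₀ : Submodule ℤ (Ix α β Unit → ℂ)}
    {χ₁ χ₀ : (Ix α β Unit → ℂ) → ℂ} (hM : Maps g L₁ L₀ χ₁ χ₀) (hK : KL d N L₁) :
    KL d N L₀ := by
  obtain ⟨-, u2, u3, -, -, u6, -⟩ := thm_UGr α β Unit
  obtain ⟨hiU, hig, hgi, -, -⟩ := u6 g hM.uni
  obtain ⟨gi, hgie⟩ : ∃ gi, gi = Jm α β * g.conjTranspose * Jm α β := ⟨_, rfl⟩
  rw [← hgie] at hiU hig hgi
  have e2 : ∀ x : Ix α β Unit → ℂ, act g (act gi x) = x := fun x => by rw [← u2, hgi, u3]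
  intro l hl
  have h1 : act gi l ∈ L₁ := by rw [hM.lat, e2]; exact hl
  have h2 := (hM.lat _).1 (hK _ h1)
  have h3 : act g (act (kap α β d N) (act gi l)) = act (kap α β d N) (act g (act gi l)) := by
    rw [← u2 g, ← u2 (kap α β d N) g, kap, Matrix.mul_smul, Matrix.smul_mul, Matrix.mul_one,
      Matrix.one_mul]
  rw [h3, e2] at h2
  exact h2

/-- The lattice of a CM point is stable under `N i √d`. -/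
private theorem OpZ_KL1 (hL : DWC.St_LatK) {α β : Type} [Fintype α] [Fintype β] [DecidableEq α]
    [DecidableEq β] {d : ℚ} {r : α ⊕ β → ℝ} {q : α ⊕ β → ℚ}
    {L : Submodule ℤ (Ix α β Unit → ℂ)} (hR : IsR d r q) (h : IsLK d r q L) :
    ∃ N : ℕ, N ≠ 0 ∧ KL d N L := by
  obtain ⟨L', χ', N, -, h1, hN, hK⟩ := hL α β d r q hR
  have hE : L' = L := by
    ext x
    rw [h1 x, h x]
  exact ⟨N, hN, hE ▸ hK⟩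

/-- The operator `hop2` with `b = 0` is `hop`. -/
private theorem OpZ_hat (hG : DWY.St_HopG) {α β : Type} [Fintype α] [Fintype β] [DecidableEq α]
    [DecidableEq β] {δ : Derivation ℚ ℂ ℂ} {L : Submodule ℤ (Ix α β Unit → ℂ)}
    {θ : (Ix α β Unit → ℂ) → ℂ} {k : ℂ} {Bp : Matrix α α ℂ} {Bm : Matrix β β ℂ}
    {c : Matrix α β ℂ} : HasHat2 δ L θ k Bp Bm c 0 ↔ HasHat δ L θ k Bp Bm c := by
  unfold HasHat2 HasHat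
  constructor
  · intro h x hx
    have := h x hx
    rwa [(hG α β k Bp Bm c 0 (F θ x)).2.1] at this
  · intro h x hx
    have := h x hx
    rwa [← (hG α β k Bp Bm c 0 (F θ x)).2.1] at this

theorem OpZ_ne {N k : ℕ} (hk : k < N) : Nonempty (PI N k) :=
  ⟨⟨fun i => Fin.castLE hk.le i, fun a b h => by
    rw [Fin.lt_def] at h ⊢
    simpa using h⟩⟩

theorem thm_OpZ (h1 : DWY.St_HatX) (h2 : DWY.St_HatU) (h3 : St_CocZ) (h4 : St_CmsG)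
    (h5 : St_CmsK) (h6 : St_IndZ) (h7 : St_LinZ) (h8 : St_HatZ) (h9 : DWC.St_CoreH)
    (h10 : DWC.St_CocK) (h11 : DWC.St_LatK) (_h12 : St_UEz) (h13 : St_DetZ)
    (h14 : DWY.St_HopG) (h15 : St_DCt) : St_OpZ := by
  intro N k hkN X d T S Tp Tm Ta Tb κ g r q L₀ L₁ χ₀ χ₁ LY₀ LY₁ χY₀ χY₁ θY₀ A m hNS hR hP₀ hP₁
    hPY₀ hPY₁ hL₁ hLY₁ hM hMY hg hTY₀ hzY₀ hm hAm hA δ
  haveI hne : Nonempty (PI N k) := OpZ_ne hkN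
  haveI hne' : Nonempty (PI N (k + 1) ⊕ PI N k) := ⟨Sum.inr (Classical.choice hne)⟩
  haveI hne'' : Nonempty (Fin N ⊕ Unit) := ⟨Sum.inr ()⟩
  obtain ⟨hRY, hcms⟩ := h5 N k d r q hR
  obtain ⟨N₁, M, hcm₁⟩ := hcms L₁ LY₁ hL₁ hLY₁
  have hcm₀ := h4 N k _ M g L₁ L₀ LY₁ LY₀ hM.uni hM.lat hMY.lat hcm₁
  obtain ⟨N₀, hN, hK₀⟩ := hNS.kl
  obtain ⟨NY, hNY, hKY₁⟩ := OpZ_KL1 h11 hRY hLY₁
  have hKY₀ := OpZ_KL hMY hKY₁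
  have hC₀ : CocH 12 L₀ := h10 (Fin N) Unit d N₀ L₀ χ₀ hNS.pos hN hP₀ hK₀
  have hCY₀ : CocH 12 LY₀ := h10 (PI N (k + 1)) (PI N k) d NY LY₀ χY₀ hNS.pos hNY hPY₀ hKY₀
  have hCP := h3 N k 12 _ M L₀ LY₀ hcm₀ hC₀
  obtain ⟨θ₀, hT₀, hz₀⟩ := GAM.thm_ThEx (IX N) L₀ χ₀ hP₀
  obtain ⟨θ₁, hT₁, hz₁⟩ := GAM.thm_ThEx (IX N) L₁ χ₁ hP₁
  obtain ⟨θY₁, hTY₁, hzY₁⟩ := GAM.thm_ThEx (IY N k) LY₁ χY₁ hPY₁
  obtain ⟨k₀, hk₀⟩ := h1 X d (Fin N) Unit T S Tp Tm Ta Tb κ L₀ χ₀ θ₀ δ hNS hP₀ hT₀ hz₀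
  obtain ⟨kY₀, BpY, BmY, cY, bY, hkY₀⟩ := h2 (PI N (k + 1)) (PI N k) d NY δ LY₀ χY₀ θY₀ hNS.pos
    hNY hPY₀ hTY₀ hzY₀ hKY₀
  obtain ⟨k₁, hk₁⟩ := hA (Fin N) Unit r q L₁ χ₁ θ₁ hR inferInstance hP₁ hL₁ hT₁ hz₁ δ
  obtain ⟨kY₁, hkY₁⟩ := hA (PI N (k + 1)) (PI N k) (rY N k d r) (qY N k d q) LY₁ χY₁ θY₁ hRY
    hne' hPY₁ hLY₁ hTY₁ hzY₁ δ
  have hD : CoD N k δ g L₀ L₁ χ₀ θ₀ χ₁ θ₁ LY₀ LY₁ χY₀ θY₀ χY₁ θY₁ 12 (A δ) k₀ kY₀ k₁ kY₁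
      (Tp * Tp⁻¹.map δ) (Tm * Tm⁻¹.map δ) (-((Tp⁻¹).transpose * κ.map δ * Tm⁻¹)) 0
      BpY BmY cY bY :=
    ⟨hP₀, hP₁, hPY₀, hPY₁, hT₀, hT₁, hTY₀, hTY₁, hz₀, hz₁, hzY₀, hzY₁, hM, hMY, hCP,
      (OpZ_hat h14).2 hk₀, hkY₀, hk₁, hkY₁⟩
  have hv := h6 N k δ g L₀ L₁ χ₀ θ₀ χ₁ θ₁ LY₀ LY₁ χY₀ θY₀ χY₁ θY₁ 12 (A δ) k₀ kY₀ k₁ kY₁ _ _ _ _
    BpY BmY cY bY hD
  obtain ⟨hb, hc, r₀, hBp, hBm⟩ := h7 N k hkN _ _ _ BpY BmY cY bY hv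
  subst hb
  have hkY := (OpZ_hat h14).1 hkY₀
  have hdet : δ g.det = 0 := by
    rw [hg]
    exact Derivation.map_one_eq_zero δ
  have hdetY : δ (ek N k g).det = 0 := by
    rw [h13 N k g hg]
    exact Derivation.map_one_eq_zero δ
  have t1 := h9 (Fin N) Unit Unit δ g L₀ L₁ χ₀ θ₀ χ₁ θ₁ 12 k₀ k₁ _ _ _ _ _ _ ⟨()⟩ (by norm_num)
    hP₀ hP₁ hT₀ hT₁ hz₀ hz₁ hM hdet hC₀ hk₀ hk₁
  have t2 := h9 (PI N (k + 1)) (PI N k) Unit δ (ek N k g) LY₀ LY₁ χY₀ θY₀ χY₁ θY₁ 12 kY₀ kY₁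
    _ _ _ _ _ _ ⟨()⟩ (by norm_num) hPY₀ hPY₁ hTY₀ hTY₁ hzY₀ hzY₁ hMY hdetY hCY₀ hkY hkY₁
  have hmt : (Tm * Tm⁻¹.map δ).trace = (Tm * Tm⁻¹.map δ) () () := by
    simp [Matrix.trace]
  rw [Matrix.trace_smul, Matrix.trace_smul, Matrix.trace_one, Matrix.trace_one, smul_eq_mul,
    smul_eq_mul, hmt] at t1
  rw [hBp, hBm, Matrix.trace_sub, Matrix.trace_sub, Matrix.trace_smul, Matrix.trace_smul,
    Matrix.trace_one, Matrix.trace_one, Matrix.trace_transpose, smul_eq_mul, smul_eq_mul,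
    Matrix.trace_smul, Matrix.trace_smul, Matrix.trace_one, Matrix.trace_one, smul_eq_mul,
    smul_eq_mul] at t2
  obtain ⟨d1, d2, -⟩ := h15 N k
  have d3 := d1 (Tp * Tp⁻¹.map δ)
  simp only [Fintype.card_fin, Fintype.card_unit, Nat.cast_ofNat, Nat.cast_one] at t1
  obtain ⟨a, ha⟩ : ∃ a : ℂ, a = (Fintype.card (PI N k) : ℂ) := ⟨_, rfl⟩
  obtain ⟨a', ha'⟩ : ∃ a' : ℂ, a' = (Fintype.card (PI N (k + 1)) : ℂ) := ⟨_, rfl⟩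
  rw [← ha, ← ha'] at t2 d2
  rw [← ha] at d3
  have hpos : a' + a ≠ 0 := by
    rw [ha, ha']
    have h0 : 0 < Fintype.card (PI N k) := Fintype.card_pos
    have h00 : Fintype.card (PI N (k + 1)) + Fintype.card (PI N k) ≠ 0 := by omega
    exact_mod_cast h00
  have hr : r₀ = (k : ℂ) * A δ := by
    apply mul_left_cancel₀ hpos
    push_cast at d2
    linear_combination a * t1 - t2 + d3 - A δ * d2
  obtain ⟨-, -, y1, y2, y3⟩ := h8 N k δ Tp Tm κ m (A δ) hNS.dp hNS.dm hm (hAm δ)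
  refine ⟨kY₀, ?_⟩
  rw [y1, y2, y3, ← hr, ← hBp, ← hBm, ← hc]
  exact hkY

end DWZ
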