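import Pool.Agent.DWZ.StB
import Pool.Agent.PST.Rel
import Pool.Agent.PST.MinP
import Pool.Agent.PST.HomI
import Pool.Agent.PST.OmT
import Pool.Agent.PST.HolP
import Pool.Agent.PST.Gau
import Pool.Agent.PST.EllI
import Pool.Agent.PST.EllB
import Pool.Agent.PST.EllH
import Pool.Agent.PST.EllZ
import Pool.Agent.PST.Ell

/-!
# DWZ [RelZ]: the algebraic relation
-/

set_option autoImplicit false

namespace DWZ

open scoped ComplexConjugate
open GAM (H E F pd pdl PLat IsTh OddTor IsDel Gro IsLat)
open PST DWC DWY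

private theorem RelZ_ell : St_Ell :=
  thm_Ell (thm_EllH thm_OmT thm_HolP thm_Gau thm_EllI) (thm_EllB thm_Gau thm_EllI)
    (thm_EllZ thm_Gau thm_EllI (thm_EllB thm_Gau thm_EllI)) thm_EllI thm_Gau

theorem thm_RelZ (h1 : St_SieZ) (h2 : St_RhoZ) : St_RelZ := by
  classical
  intro N k L χ θ LY χY θY e y y' hP hT hne hPY hTY hneY hC hy hy' hy0 hdet
  obtain ⟨ho, -, h0, -⟩ := thm_OmT (Fin N) Unit
  obtain ⟨hoY, -, h0Y, -⟩ := thm_OmT (PI N (k + 1)) (PI N k)
  obtain ⟨g1, -, -⟩ := GAM.thm_GroF GAM.thm_GroU GAM.thm_GroC (Ix (Fin N) Unit Unit)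
  obtain ⟨g1', -, -⟩ := GAM.thm_GroF GAM.thm_GroU GAM.thm_GroC (Ix (PI N (k + 1)) (PI N k) Unit)
  have hG : ∀ x, Gro (F θ x) := g1 L χ θ hP hT
  have hGY : ∀ x, Gro (F θY x) := g1' LY χY θY hPY hTY
  have hE := fun i => RelZ_ell (Fin N) Unit Unit (F θ (y i)) (hG (y i))
  have hEY := RelZ_ell (PI N (k + 1)) (PI N k) Unit (F θY (y' false)) (hGY (y' false))
  have hz : ∀ G : (Ix (Fin N) Unit Unit → ℂ) → ℂ, Gro G → ell 0 G = G 0 :=
    fun G hG => (RelZ_ell (Fin N) Unit Unit G hG).2.1
  have han : ∀ i, AnalyticAt ℂ (fun w => psi θ w (y i)) 0 := fun i =>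
    GAM.analyticOnNhd_of_differentiableOn ho (hE i).1 0 h0
  have hM := h1 N k L χ θ LY χY θY e y y' hP hT hne hPY hTY hneY hC hy hy'
  refine thm_MinP (WX N → ℂ) (Option (WX N)) (fun i w => YF N k θ θY y y' w i) (Om (Fin N) Unit) ?_ hM
  intro m P hPm hPz
  refine thm_HomI (WX N) (fun i w => psi θ w (y i)) han ?_ m P hPm ?_
  · -- the determinant
    have e1 : (Matrix.of fun i j : Option (WX N) =>
        Option.elim j (psi θ 0 (y i)) fun p => pd p (fun w => psi θ w (y i)) 0) =
        Matrix.of fun i j : Option (WX N) =>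
          (Option.elim j 1 fun _ => (1 / Real.pi : ℂ)) * (Matrix.of fun i j : Option (WX N) =>
            Option.elim j (F θ (y i) 0) fun p => Dij p (F θ (y i)) 0) i j := by
      ext i j
      cases j with
      | none =>
        show psi θ 0 (y i) = 1 * F θ (y i) 0
        rw [one_mul]
        exact hz _ (hG (y i))
      | some p =>
        show pd p (fun w => psi θ w (y i)) 0 = (1 / Real.pi : ℂ) * Dij p (F θ (y i)) 0
        rw [← hz _ (Rel_gro_Dij (hG (y i)) p)]
        exact ((hE i).2.2 0 h0).1 p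
    rw [e1, Matrix.det_mul_row]
    refine mul_ne_zero ?_ hdet
    refine Finset.prod_ne_zero_iff.mpr fun j _ => ?_
    cases j with
    | none => exact one_ne_zero
    | some p =>
      show (1 / Real.pi : ℂ) ≠ 0
      exact one_div_ne_zero (by exact_mod_cast Real.pi_ne_zero)
  · -- the relation near zero
    obtain ⟨-, -, -, hr0, M, -, hrM⟩ := h2 N k
    have hrc : Continuous (rho N k) := by
      have h3 : (rho N k : (WX N → ℂ) → WY N k → ℂ) = fun w => M.mulVec w := funext hrM
      rw [h3]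
      exact Continuous.matrix_mulVec continuous_const continuous_id
    have hnz : ∀ᶠ w in nhds (0 : WX N → ℂ), psi θY (rho N k w) (y' false) ≠ 0 := by
      have h4 : ContinuousAt (fun u => psi θY u (y' false)) (rho N k 0) := by
        rw [hr0]
        exact (hEY.1 0 h0Y).differentiableAt (hoY.mem_nhds h0Y) |>.continuousAt
      have h5 : ContinuousAt (fun w => psi θY (rho N k w) (y' false)) 0 :=
        ContinuousAt.comp (g := fun u => psi θY u (y' false)) h4 hrc.continuousAt
      refine h5.eventually_ne ?_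
      show psi θY (rho N k 0) (y' false) ≠ 0
      rw [hr0]
      exact hy0
    filter_upwards [hnz, ho.mem_nhds h0] with w hw1 hw3
    have h := hPz w hw3
    have h' : (fun i : Option (WX N) => YF N k θ θY y y' w (some i)) = fun i =>
        psi θY (rho N k w) (y' false) * psi θ w (y i) := by
      funext i
      show psi θ w (y i) * psi θY (rho N k w) (y' false) = _
      ring
    rw [h', GAM.Rel_scale hPm] at h
    exact (mul_eq_zero.mp h).resolve_left (pow_ne_zero _ hw1)

end DWZ
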