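import Pool.Agent.DWZ.StA
import Pool.Agent.PST.UAl
import Pool.Agent.PST.UGr

/-!
# DWZ [RhoZ]: the embedding of the ball
-/

set_option autoImplicit false

namespace DWZ

open scoped ComplexConjugate
open PST DWC DWY

private theorem RhoZ_nrm {m n : Type} [Fintype m] [Fintype n] (A : Matrix m n ℂ) (y : n → ℂ) :
    dotProduct (fun j => conj (y j)) (((A.map conj).transpose * A).mulVec y) =
      ((∑ i, ‖A.mulVec y i‖ ^ 2 : ℝ) : ℂ) := by
  rw [← Matrix.mulVec_mulVec, Matrix.dotProduct_mulVec, Matrix.vecMul_transpose]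
  unfold dotProduct
  rw [Complex.ofReal_sum]
  refine Finset.sum_congr rfl fun i _ => ?_
  have h1 : (A.map conj).mulVec (fun j => conj (y j)) i = conj (A.mulVec y i) := by
    unfold Matrix.mulVec dotProduct
    rw [map_sum]
    exact Finset.sum_congr rfl fun j _ => by rw [map_mul]; rfl
  rw [h1, Complex.conj_mul', Complex.ofReal_pow]

private theorem RhoZ_conj (h2 : St_Blk) (N k : ℕ) (v : Fin N → ℂ) :
    (rm N k v).map conj = rm N k fun i => conj (v i) := by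
  obtain ⟨-, -, b3, -, b5, -⟩ := h2 N k
  have h := (b5 (Matrix.fromBlocks 1 (Matrix.of fun i _ => v i) 0 1)).2
  rw [b3] at h
  have h3 : (Matrix.fromBlocks 1 (Matrix.of fun i _ => v i) 0 1 :
      Matrix (Fin N ⊕ Unit) (Fin N ⊕ Unit) ℂ).map conj =
      Matrix.fromBlocks 1 (Matrix.of fun i _ => conj (v i)) 0 1 := by
    rw [Matrix.fromBlocks_map]
    congr 1
    · exact Matrix.map_one _ (map_zero _) (map_one _)
    · exact Matrix.map_zero _ (map_zero _)
    · exact Matrix.map_one _ (map_zero _) (map_one _)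
  rw [h3, b3] at h
  have h4 := congrArg Matrix.toBlocks₁₂ h
  rw [Matrix.fromBlocks_map, Matrix.toBlocks_fromBlocks₁₂, Matrix.toBlocks_fromBlocks₁₂] at h4
  exact h4.symm

private theorem RhoZ_le (h2 : St_Blk) (h3 : St_Rmv) (N k : ℕ) (v : Fin N → ℂ) (y : PI N k → ℂ) :
    ∑ i, ‖(rm N k v).mulVec y i‖ ^ 2 ≤ (∑ i, ‖v i‖ ^ 2) * ∑ j, ‖y j‖ ^ 2 := by
  obtain ⟨-, -, -, -, -, r6, -⟩ := h3 N k
  have h4 := RhoZ_nrm (rm N k v) y
  rw [RhoZ_conj h2, r6, Matrix.sub_mulVec, Matrix.smul_mulVec, Matrix.one_mulVec,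
    dotProduct_sub, dotProduct_smul] at h4
  have h5 : dotProduct (fun j => conj (y j)) y = ((∑ j, ‖y j‖ ^ 2 : ℝ) : ℂ) := by
    unfold dotProduct
    rw [Complex.ofReal_sum]
    exact Finset.sum_congr rfl fun j _ => by rw [Complex.conj_mul', Complex.ofReal_pow]
  have h6 : ∑ i, conj (v i) * v i = ((∑ i, ‖v i‖ ^ 2 : ℝ) : ℂ) := by
    rw [Complex.ofReal_sum]
    exact Finset.sum_congr rfl fun j _ => by rw [Complex.conj_mul', Complex.ofReal_pow]
  rw [h5, h6, smul_eq_mul] at h4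
  have h7 : ∃ t : ℝ, 0 ≤ t ∧ dotProduct (fun j => conj (y j))
      ((dC N k (Matrix.vecMulVec v fun i => conj (v i))).mulVec y) = (t : ℂ) := by
    rcases k with _ | k
    · refine ⟨0, le_rfl, ?_⟩
      have h8 : dC N 0 (Matrix.vecMulVec v fun i => conj (v i)) = 0 := by
        ext S S'
        unfold dC
        simp
      rw [h8, Matrix.zero_mulVec, dotProduct_zero, Complex.ofReal_zero]
    · obtain ⟨-, -, -, -, -, -, r7, -⟩ := h3 N k
      have h9 := RhoZ_nrm (rm N k fun i => conj (v i)).transpose y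
      have h10 : ((rm N k fun i => conj (v i)).transpose.map conj).transpose = rm N k v := by
        rw [Matrix.transpose_map, Matrix.transpose_transpose, RhoZ_conj h2]
        congr 1
        funext i
        exact Complex.conj_conj _
      rw [h10, ← r7] at h9
      exact ⟨_, Finset.sum_nonneg fun _ _ => sq_nonneg _, h9⟩
  obtain ⟨t, ht, h8⟩ := h7
  rw [h8, ← Complex.ofReal_mul, ← Complex.ofReal_sub, Complex.ofReal_inj] at h4
  linarith

private theorem RhoZ_OmC (h2 : St_Blk) (h3 : St_Rmv) (N k : ℕ) (ρ : ℝ) (w : WX N → ℂ)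
    (hw : w ∈ OmC (Fin N) Unit ρ) : rho N k w ∈ OmC (PI N (k + 1)) (PI N k) ρ := by
  intro y
  have h1 : ∑ i, ‖w (i, ())‖ ^ 2 ≤ ρ ^ 2 := by
    have h := hw fun _ => 1
    simpa using h
  exact (RhoZ_le h2 h3 N k (fun i => w (i, ())) y).trans
    (mul_le_mul_of_nonneg_right h1 (Finset.sum_nonneg fun _ _ => sq_nonneg _))

private theorem RhoZ_mob (h1 : St_Wdv) (h2 : St_Blk) (h4 : St_UEz) (N k : ℕ)
    (g : Matrix (Fin N ⊕ Unit) (Fin N ⊕ Unit) ℂ) (hg : IsU g) (w : WX N → ℂ)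
    (hw : w ∈ Om (Fin N) Unit) (hrw : rho N k w ∈ Om (PI N (k + 1)) (PI N k)) :
    mob (ek N k g) (rho N k w) = rho N k (mob g w) := by
  obtain ⟨-, b2, b3, b4, -, -⟩ := h2 N k
  obtain ⟨-, -, -, -, hmul⟩ := h1 N k
  obtain ⟨-, hu, -⟩ := thm_UAl thm_UGr (Fin N) Unit Unit g hg w hw
  obtain ⟨-, huE, -⟩ := thm_UAl thm_UGr (PI N (k + 1)) (PI N k) Unit (ek N k g) (h4 N k g hg)
    (rho N k w) hrw
  have hmt : PST.mt (mob g w) = (g.toBlocks₁₁ * PST.mt w + g.toBlocks₁₂) * (cd g w)⁻¹ := rfl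
  have hW : PST.mt (mob g w) * cd g w = g.toBlocks₁₁ * PST.mt w + g.toBlocks₁₂ := by
    rw [hmt, Matrix.mul_assoc, Matrix.nonsing_inv_mul _ hu, Matrix.mul_one]
  -- the factors
  obtain ⟨κ, hκ⟩ : ∃ κ : Matrix (Fin N) Unit ℂ, κ.transpose = (cd g w)⁻¹ * g.toBlocks₂₁ :=
    ⟨((cd g w)⁻¹ * g.toBlocks₂₁).transpose, Matrix.transpose_transpose _⟩
  have hfac : g * Matrix.fromBlocks 1 (PST.mt w) 0 1 = Matrix.fromBlocks 1 (PST.mt (mob g w)) 0 1 *
      (Matrix.fromBlocks (g.toBlocks₁₁ - PST.mt (mob g w) * g.toBlocks₂₁) 0 0 (cd g w) *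
        Matrix.fromBlocks 1 0 κ.transpose 1) := by
    conv_lhs => rw [← Matrix.fromBlocks_toBlocks g]
    rw [Matrix.fromBlocks_multiply, Matrix.fromBlocks_multiply, Matrix.fromBlocks_multiply]
    simp only [Matrix.mul_one, Matrix.mul_zero, Matrix.one_mul, Matrix.zero_mul, add_zero, zero_add]
    rw [hκ, ← Matrix.mul_assoc (cd g w), Matrix.mul_nonsing_inv _ hu, Matrix.one_mul, hW,
      sub_add_cancel]
    rfl
  have hE := congrArg (ek N k) hfac
  rw [hmul, hmul, hmul, b3, b3, b2, b4] at hE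
  have hR : (rm N k fun i => PST.mt w i ()) = PST.mt (rho N k w) := rfl
  have hR' : (rm N k fun i => PST.mt (mob g w) i ()) = PST.mt (rho N k (mob g w)) := rfl
  rw [hR, hR'] at hE
  conv_lhs at hE => rw [← Matrix.fromBlocks_toBlocks (ek N k g)]
  rw [Matrix.fromBlocks_multiply, Matrix.fromBlocks_multiply, Matrix.fromBlocks_multiply] at hE
  simp only [Matrix.mul_one, Matrix.mul_zero, Matrix.one_mul, Matrix.zero_mul, add_zero,
    zero_add] at hE
  have e12 := congrArg Matrix.toBlocks₁₂ hE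
  have e22 := congrArg Matrix.toBlocks₂₂ hE
  rw [Matrix.toBlocks_fromBlocks₁₂, Matrix.toBlocks_fromBlocks₁₂] at e12
  rw [Matrix.toBlocks_fromBlocks₂₂, Matrix.toBlocks_fromBlocks₂₂] at e22
  have hmat : (ek N k g).toBlocks₁₁ * PST.mt (rho N k w) + (ek N k g).toBlocks₁₂ =
      PST.mt (rho N k (mob g w)) * cd (ek N k g) (rho N k w) := by
    rw [e12, ← e22]
    rfl
  have hfin : PST.mt (mob (ek N k g) (rho N k w)) = PST.mt (rho N k (mob g w)) := by
    have e1 : PST.mt (mob (ek N k g) (rho N k w)) =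
        ((ek N k g).toBlocks₁₁ * PST.mt (rho N k w) + (ek N k g).toBlocks₁₂) *
        (cd (ek N k g) (rho N k w))⁻¹ := rfl
    rw [e1, hmat, Matrix.mul_assoc, Matrix.mul_nonsing_inv _ huE, Matrix.mul_one]
  funext p
  obtain ⟨i, j⟩ := p
  exact congrFun (congrFun hfin i) j

private theorem RhoZ_zero (h3 : St_Rmv) (N k : ℕ) : rho N k 0 = 0 := by
  obtain ⟨-, r2, -⟩ := h3 N k
  funext p
  have h : rm N k (fun i => (0 : WX N → ℂ) (i, ())) = 0 := by
    have h4 := r2 0 0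
    rw [zero_smul, zero_smul] at h4
    exact h4
  unfold rho
  rw [h]
  rfl

private theorem RhoZ_alg (N k : ℕ) (s : Fin N) (i : PI N (k + 1)) (j : PI N k) :
    IsAlgebraic ℚ (rm N k (Pi.single s 1) i j) := by
  unfold rm
  rw [Matrix.of_apply]
  refine (IsIntegral.det fun a b => ?_).isAlgebraic
  rw [Matrix.of_apply]
  refine Fin.lastCases ?_ (fun a' => ?_) a
  · rw [Fin.snoc_last]
    by_cases h : i.1 b = s
    · rw [h, Pi.single_eq_same]
      exact isIntegral_one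
    · rw [Pi.single_eq_of_ne h]
      exact isIntegral_zero
  · rw [Fin.snoc_castSucc]
    split_ifs
    · exact isIntegral_one
    · exact isIntegral_zero

private theorem RhoZ_lin (h3 : St_Rmv) (N k : ℕ) : ∃ M : Matrix (WY N k) (WX N) ℂ,
    (∀ i j, IsAlgebraic ℚ (M i j)) ∧ ∀ w, rho N k w = M.mulVec w := by
  obtain ⟨r1, r2, -⟩ := h3 N k
  refine ⟨Matrix.of fun p q => rm N k (Pi.single q.1 1) p.1 p.2,
    fun p q => RhoZ_alg N k q.1 p.1 p.2, fun w => ?_⟩
  let f : (Fin N → ℂ) →ₗ[ℂ] Matrix (PI N (k + 1)) (PI N k) ℂ :=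
    { toFun := rm N k, map_add' := r1, map_smul' := r2 }
  have h5 : rm N k (fun i => w (i, ())) = ∑ s, w (s, ()) • rm N k (Pi.single s 1) := by
    have h6 : (fun i => w (i, ())) = ∑ s, w (s, ()) • (Pi.single s 1 : Fin N → ℂ) := by
      funext i
      rw [Finset.sum_apply]
      simp [Pi.single_apply]
    have h7 : f (fun i => w (i, ())) = ∑ s, w (s, ()) • f (Pi.single s 1) := by
      conv_lhs => rw [h6]
      rw [map_sum]
      exact Finset.sum_congr rfl fun s _ => map_smul f _ _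
    exact h7
  funext p
  unfold rho Matrix.mulVec dotProduct
  rw [h5, Fintype.sum_prod_type, Matrix.sum_apply]
  simp only [Finset.univ_unique, Finset.sum_singleton, Matrix.of_apply, Matrix.smul_apply,
    smul_eq_mul]
  exact Finset.sum_congr rfl fun s _ => mul_comm _ _

/-- [RhoZ] -/
theorem thm_RhoZ (h1 : St_Wdv) (h2 : St_Blk) (h3 : St_Rmv) (h4 : St_UEz) : St_RhoZ := by
  intro N k
  have hOm : ∀ w ∈ Om (Fin N) Unit, rho N k w ∈ Om (PI N (k + 1)) (PI N k) := by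
    rintro w ⟨ρ, h0, h1, hw⟩
    exact ⟨ρ, h0, h1, RhoZ_OmC h2 h3 N k ρ w hw⟩
  exact ⟨fun ρ _ w hw => RhoZ_OmC h2 h3 N k ρ w hw, hOm,
    fun g hg w hw => RhoZ_mob h1 h2 h4 N k g hg w hw (hOm w hw), RhoZ_zero h3 N k,
    RhoZ_lin h3 N k⟩

end DWZ
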