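import Pool.Agent.DWZ.StA

/-!
# DWZ: the maps `y ↦ y ∧ v`
-/

set_option autoImplicit false

namespace DWZ

open PST DWC DWY

/-- Removing the `j`-th element. -/
def Rmv_dl {N k : ℕ} (S : PI N (k + 1)) (j : Fin (k + 1)) : PI N k :=
  ⟨fun a => S.1 (j.succAbove a), fun _ _ h => S.2 _ _ ((Fin.strictMono_succAbove j) h)⟩

/-- The determinant of a bordered matrix. -/
theorem Rmv_bord {k : ℕ} (M : Matrix (Fin (k + 1)) (Fin (k + 1)) ℂ) :
    M.det = M (Fin.last k) (Fin.last k) * (M.submatrix Fin.castSucc Fin.castSucc).det -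
      ∑ i : Fin k, M (Fin.last k) i.castSucc *
        ((M.submatrix Fin.castSucc Fin.castSucc).updateCol i
          fun a => M a.castSucc (Fin.last k)).det := by
  rw [Matrix.det_succ_row M (Fin.last k), Fin.sum_univ_castSucc]
  simp only [Fin.succAbove_last]
  have h1 : ((-1 : ℂ)) ^ (((Fin.last k : Fin (k + 1)) : ℕ) + ((Fin.last k : Fin (k + 1)) : ℕ))
      = 1 := by
    rw [← two_mul, pow_mul]
    simp
  rw [h1, one_mul, add_comm, sub_eq_add_neg, ← Finset.sum_neg_distrib]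
  refine congrArg₂ (· + ·) rfl ?_
  refine Finset.sum_congr rfl fun i _ => ?_
  cases k with
  | zero => exact i.elim0
  | succ k =>
    rw [Matrix.det_succ_column (M.submatrix Fin.castSucc i.castSucc.succAbove) (Fin.last k),
      Matrix.det_succ_column ((M.submatrix Fin.castSucc Fin.castSucc).updateCol i
          fun a => M a.castSucc (Fin.last (k + 1))) i]
    rw [Finset.mul_sum, Finset.mul_sum, ← Finset.sum_neg_distrib]
    refine Finset.sum_congr rfl fun a _ => ?_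
    have h2 : i.castSucc.succAbove (Fin.last k) = Fin.last (k + 1) := by
      rw [Fin.succAbove_castSucc_of_le _ _ (Fin.le_last i), Fin.succ_last]
    have h3 : ((M.submatrix Fin.castSucc i.castSucc.succAbove).submatrix a.succAbove
        (Fin.last k).succAbove) = (((M.submatrix Fin.castSucc Fin.castSucc).updateCol i
          fun a => M a.castSucc (Fin.last (k + 1))).submatrix a.succAbove i.succAbove) := by
      ext x y
      rw [Matrix.submatrix_apply, Matrix.submatrix_apply, Matrix.submatrix_apply,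
        Matrix.updateCol_ne (Fin.succAbove_ne i y), Matrix.submatrix_apply, Fin.succAbove_last,
        Fin.castSucc_succAbove_castSucc]
    rw [h3, Matrix.submatrix_apply, Matrix.updateCol_self, h2]
    have h4 : ((Fin.last k : Fin (k + 1)) : ℕ) = k := rfl
    have h5 : ((Fin.last (k + 1) : Fin (k + 2)) : ℕ) = k + 1 := rfl
    have h6 : ((i.castSucc : Fin (k + 2)) : ℕ) = (i : ℕ) := rfl
    rw [h4, h5, h6]
    have h7 : ((-1 : ℂ)) ^ (k + 1 + (i : ℕ)) * (-1) ^ ((a : ℕ) + k) =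
        - (-1) ^ ((a : ℕ) + (i : ℕ)) := by
      rw [← pow_add]
      have h8 : k + 1 + (i : ℕ) + ((a : ℕ) + k) = ((a : ℕ) + (i : ℕ)) + (2 * k + 1) := by ring
      rw [h8, pow_add, pow_succ, pow_mul]
      simp
    linear_combination (M (Fin.last (k + 1)) i.castSucc * M a.castSucc (Fin.last (k + 1)) *
      (((M.submatrix Fin.castSucc Fin.castSucc).updateCol i
          fun a => M a.castSucc (Fin.last (k + 1))).submatrix a.succAbove i.succAbove).det) * h7

/-- The expansion of `rm` along the last row. -/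
theorem Rmv_rm (h3 : St_Cmp) (N k : ℕ) (v : Fin N → ℂ) (S : PI N (k + 1)) (T : PI N k) :
    rm N k v S T = ∑ j : Fin (k + 1), (-1) ^ (k + j : ℕ) * v (S.1 j) *
      (1 : Matrix (PI N k) (PI N k) ℂ) T (Rmv_dl S j) := by
  have h1 : rm N k v S T = (Matrix.of fun i j : Fin (k + 1) =>
    Fin.snoc (α := fun _ => ℂ) (fun i' : Fin k => if T.1 i' = S.1 j then (1 : ℂ) else 0)
      (v (S.1 j)) i).det := rfl
  rw [h1, Matrix.det_succ_row _ (Fin.last k)]
  refine Finset.sum_congr rfl fun j _ => ?_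
  rw [Matrix.of_apply, Fin.snoc_last]
  refine congrArg₂ (· * ·) rfl ?_
  rw [← (h3 N k).2.1]
  have h2 : cmp N k 1 T (Rmv_dl S j) =
    ((1 : Matrix (Fin N) (Fin N) ℂ).submatrix T.1 (Rmv_dl S j).1).det := rfl
  rw [h2]
  refine congrArg Matrix.det ?_
  ext x y
  rw [Matrix.submatrix_apply, Matrix.of_apply, Fin.succAbove_last, Fin.snoc_castSucc,
    Matrix.submatrix_apply, Matrix.one_apply]
  rfl

/-- The expansion of `dC`. -/
theorem Rmv_dC (h3 : St_Cmp) (N k : ℕ) (P : Matrix (Fin N) (Fin N) ℂ) (S S' : PI N (k + 1)) :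
    dC N (k + 1) P S S' = ∑ i : Fin (k + 1), ∑ j : Fin (k + 1), (-1) ^ (j + i : ℕ) *
      P (S.1 j) (S'.1 i) * (1 : Matrix (PI N k) (PI N k) ℂ) (Rmv_dl S j) (Rmv_dl S' i) := by
  have h1 : dC N (k + 1) P S S' = ∑ i, (((1 : Matrix (Fin N) (Fin N) ℂ).submatrix S.1
    S'.1).updateCol i fun a => P (S.1 a) (S'.1 i)).det := rfl
  rw [h1]
  refine Finset.sum_congr rfl fun i _ => ?_
  rw [Matrix.det_succ_column _ i]
  refine Finset.sum_congr rfl fun j _ => ?_
  rw [Matrix.updateCol_self]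
  refine congrArg₂ (· * ·) rfl ?_
  rw [← (h3 N k).2.1]
  have h2 : cmp N k 1 (Rmv_dl S j) (Rmv_dl S' i) =
    ((1 : Matrix (Fin N) (Fin N) ℂ).submatrix (Rmv_dl S j).1 (Rmv_dl S' i).1).det := rfl
  rw [h2]
  refine congrArg Matrix.det ?_
  ext x y
  rw [Matrix.submatrix_apply, Matrix.updateCol_ne (Fin.succAbove_ne i y), Matrix.submatrix_apply,
    Matrix.submatrix_apply]
  rfl

theorem Rmv_dC0 (N : ℕ) (P : Matrix (Fin N) (Fin N) ℂ) : dC N 0 P = 0 := by
  ext S S'
  have h1 : dC N 0 P S S' = ∑ i, (((1 : Matrix (Fin N) (Fin N) ℂ).submatrix S.1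
    S'.1).updateCol i fun a => P (S.1 a) (S'.1 i)).det := rfl
  rw [h1, Finset.univ_eq_empty, Finset.sum_empty]
  rfl

theorem Rmv_dC_add (h3 : St_Cmp) (N k : ℕ) (P Q : Matrix (Fin N) (Fin N) ℂ) :
    dC N k (P + Q) = dC N k P + dC N k Q := by
  cases k with
  | zero => rw [Rmv_dC0, Rmv_dC0, Rmv_dC0, add_zero]
  | succ k =>
    ext S S'
    rw [Matrix.add_apply, Rmv_dC h3, Rmv_dC h3, Rmv_dC h3, ← Finset.sum_add_distrib]
    refine Finset.sum_congr rfl fun i _ => ?_
    rw [← Finset.sum_add_distrib]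
    refine Finset.sum_congr rfl fun j _ => ?_
    rw [Matrix.add_apply]
    ring

theorem Rmv_add (h3 : St_Cmp) (N k : ℕ) (v w : Fin N → ℂ) :
    rm N k (v + w) = rm N k v + rm N k w := by
  ext S T
  rw [Matrix.add_apply, Rmv_rm h3, Rmv_rm h3, Rmv_rm h3, ← Finset.sum_add_distrib]
  refine Finset.sum_congr rfl fun j _ => ?_
  rw [Pi.add_apply]
  ring

theorem Rmv_smul (h3 : St_Cmp) (N k : ℕ) (c : ℂ) (v : Fin N → ℂ) :
    rm N k (c • v) = c • rm N k v := by
  ext S T
  rw [Matrix.smul_apply, Rmv_rm h3, Rmv_rm h3, smul_eq_mul, Finset.mul_sum]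
  refine Finset.sum_congr rfl fun j _ => ?_
  rw [Pi.smul_apply, smul_eq_mul]
  ring

/-- `dC (v cᵀ) = rm v (rm c)ᵀ` -/
theorem Rmv_rank1 (h3 : St_Cmp) (N k : ℕ) (v c : Fin N → ℂ) :
    dC N (k + 1) (Matrix.vecMulVec v c) = rm N k v * (rm N k c).transpose := by
  ext S S'
  rw [Rmv_dC h3, Matrix.mul_apply]
  have h1 : ∀ T : PI N k, rm N k v S T * (rm N k c).transpose T S' =
      ∑ i : Fin (k + 1), (-1) ^ (k + i : ℕ) * c (S'.1 i) * (rm N k v S T *
        (1 : Matrix (PI N k) (PI N k) ℂ) T (Rmv_dl S' i)) := by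
    intro T
    rw [Matrix.transpose_apply, Rmv_rm h3 N k c, Finset.mul_sum]
    refine Finset.sum_congr rfl fun i _ => ?_
    ring
  rw [Finset.sum_congr rfl fun T _ => h1 T]
  refine Eq.trans ?_ Finset.sum_comm
  refine Finset.sum_congr rfl fun i _ => ?_
  rw [← Finset.mul_sum, ← Matrix.mul_apply, Matrix.mul_one, Rmv_rm h3, Finset.mul_sum]
  refine Finset.sum_congr rfl fun j _ => ?_
  rw [Matrix.vecMulVec_apply, Matrix.one_apply, Matrix.one_apply]
  have h2 : ((-1 : ℂ)) ^ (k + i : ℕ) * (-1) ^ (k + j : ℕ) = (-1) ^ (j + i : ℕ) := by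
    rw [← pow_add]
    have h8 : k + (i : ℕ) + (k + (j : ℕ)) = ((j : ℕ) + (i : ℕ)) + 2 * k := by ring
    rw [h8, pow_add, pow_mul]
    simp
  by_cases h4 : Rmv_dl S j = Rmv_dl S' i
  · rw [if_pos h4, if_pos h4.symm]
    linear_combination (- c (S'.1 i) * v (S.1 j)) * h2
  · rw [if_neg h4, if_neg (fun h => h4 h.symm)]
    ring

/-- `y ∧ v ∧ v = 0` -/
theorem Rmv_sq (h3 : St_Cmp) (N k : ℕ) (v : Fin N → ℂ) : rm N (k + 1) v * rm N k v = 0 := by
  ext S T
  rw [Matrix.mul_apply, Matrix.zero_apply]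
  have h1 : ∀ U : PI N (k + 1), rm N (k + 1) v S U * rm N k v U T =
      ∑ j : Fin (k + 2), (-1) ^ (k + 1 + j : ℕ) * v (S.1 j) *
        ((1 : Matrix (PI N (k + 1)) (PI N (k + 1)) ℂ) U (Rmv_dl S j) * rm N k v U T) := by
    intro U
    rw [Rmv_rm h3 N (k + 1) v, Finset.sum_mul]
    refine Finset.sum_congr rfl fun i _ => ?_
    ring
  rw [Finset.sum_congr rfl fun U _ => h1 U, Finset.sum_comm]
  have h2 : ∀ j : Fin (k + 2), (∑ U : PI N (k + 1), ((-1 : ℂ) ^ (k + 1 + j : ℕ) * v (S.1 j) *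
        ((1 : Matrix (PI N (k + 1)) (PI N (k + 1)) ℂ) U (Rmv_dl S j) * rm N k v U T))) =
      (-1 : ℂ) ^ (k + 1 + j : ℕ) * v (S.1 j) * rm N k v (Rmv_dl S j) T := by
    intro j
    rw [← Finset.mul_sum]
    refine congrArg₂ (· * ·) rfl ?_
    rw [Finset.sum_eq_single (Rmv_dl S j)]
    · rw [Matrix.one_apply_eq, one_mul]
    · intro U _ hU
      rw [Matrix.one_apply_ne hU, zero_mul]
    · intro h
      exact absurd (Finset.mem_univ _) h
  rw [Finset.sum_congr rfl fun j _ => h2 j]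
  have h4 : (Matrix.of fun i j : Fin (k + 2) => Fin.snoc (α := fun _ => ℂ)
      (Fin.snoc (α := fun _ => ℂ) (fun i' : Fin k => if T.1 i' = S.1 j then (1 : ℂ) else 0)
        (v (S.1 j))) (v (S.1 j)) i).det = 0 := by
    refine Matrix.det_zero_of_row_eq (i := (Fin.last k).castSucc) (j := Fin.last (k + 1)) ?_ ?_
    · exact (Fin.castSucc_lt_last _).ne
    · funext j
      rw [Matrix.of_apply, Matrix.of_apply, Fin.snoc_last, Fin.snoc_castSucc, Fin.snoc_last]
  rw [← h4, Matrix.det_succ_row _ (Fin.last (k + 1))]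
  refine Finset.sum_congr rfl fun j _ => ?_
  rw [Matrix.of_apply, Fin.snoc_last]
  refine congrArg₂ (· * ·) rfl ?_
  refine congrArg Matrix.det ?_
  ext x y
  rw [Matrix.submatrix_apply, Matrix.of_apply, Matrix.of_apply, Fin.succAbove_last,
    Fin.snoc_castSucc]
  rfl

/-- The exterior power of `1 + v`. -/
def Rmv_V {N : ℕ} (v : Fin N → ℂ) : Matrix (Fin N ⊕ Unit) (Fin N ⊕ Unit) ℂ :=
  Matrix.fromBlocks 1 (Matrix.of fun i _ => v i) 0 1

/-- The exterior power of the transpose of `1 + v`. -/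
def Rmv_W {N : ℕ} (c : Fin N → ℂ) : Matrix (Fin N ⊕ Unit) (Fin N ⊕ Unit) ℂ :=
  Matrix.fromBlocks 1 0 (Matrix.of fun i (_ : Unit) => c i).transpose 1

theorem Rmv_ekV (h2 : St_Blk) (N k : ℕ) (v : Fin N → ℂ) :
    ek N k (Rmv_V v) = Matrix.fromBlocks 1 (rm N k v) 0 1 :=
  (h2 N k).2.2.1 (Matrix.of fun i _ => v i)

theorem Rmv_ekW (h2 : St_Blk) (N k : ℕ) (v : Fin N → ℂ) :
    ek N k (Rmv_W v) = Matrix.fromBlocks 1 0 (rm N k v).transpose 1 :=
  (h2 N k).2.2.2.1 (Matrix.of fun i _ => v i)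

/-- `cmp g (y ∧ v) = (cmp g y) ∧ g v` -/
theorem Rmv_cmp (h1 : St_Wdv) (h2 : St_Blk) (N k : ℕ) (g : Matrix (Fin N) (Fin N) ℂ)
    (v : Fin N → ℂ) : cmp N (k + 1) g * rm N k v = rm N k (g.mulVec v) * cmp N k g := by
  have e1 : (Matrix.fromBlocks g 0 0 1 : Matrix (Fin N ⊕ Unit) (Fin N ⊕ Unit) ℂ) * Rmv_V v =
      Rmv_V (g.mulVec v) * Matrix.fromBlocks g 0 0 1 := by
    rw [Rmv_V, Rmv_V, Matrix.fromBlocks_multiply, Matrix.fromBlocks_multiply]
    simp only [Matrix.mul_one, Matrix.one_mul, Matrix.mul_zero, Matrix.zero_mul, add_zero,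
      zero_add]
    refine congrArg (fun X => Matrix.fromBlocks g X 0 1) ?_
    ext i u
    rfl
  have e2 := congrArg (ek N k) e1
  rw [(h1 N k).2.2.2.2, (h1 N k).2.2.2.2, Rmv_ekV h2, Rmv_ekV h2, (h2 N k).2.1,
    Matrix.fromBlocks_multiply, Matrix.fromBlocks_multiply] at e2
  have e3 := congrArg Matrix.toBlocks₁₂ e2
  rw [Matrix.toBlocks_fromBlocks₁₂, Matrix.toBlocks_fromBlocks₁₂] at e3
  simpa using e3

/-- Contraction. -/
theorem Rmv_ctr (h1 : St_Wdv) (h2 : St_Blk) (h3 : St_Cmp) (N k : ℕ) (v c : Fin N → ℂ) :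
    (rm N k c).transpose * rm N k v =
      (∑ i, c i * v i) • (1 : Matrix (PI N k) (PI N k) ℂ) - dC N k (Matrix.vecMulVec v c) := by
  have e2 := (h1 N k).2.2.2.2 (Rmv_W c) (Rmv_V v)
  rw [Rmv_ekV h2, Rmv_ekW h2, Matrix.fromBlocks_multiply] at e2
  have e3 := congrArg Matrix.toBlocks₂₂ e2
  rw [Matrix.toBlocks_fromBlocks₂₂, Matrix.mul_one] at e3
  ext T T'
  have e4 := congrFun (congrFun e3 T) T'
  rw [Matrix.add_apply] at e4
  rw [Matrix.sub_apply, Matrix.smul_apply, smul_eq_mul]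
  have e5 : (ek N k (Rmv_W c * Rmv_V v)).toBlocks₂₂ T T' =
      ((Rmv_W c * Rmv_V v).submatrix (ix N k (Sum.inr T)) (ix N k (Sum.inr T'))).det := rfl
  have e6 : Rmv_W c * Rmv_V v = Matrix.fromBlocks 1 (Matrix.of fun i _ => v i)
      (Matrix.of fun (_ : Unit) i => c i) (Matrix.of fun _ _ => (∑ i, c i * v i) + 1) := by
    rw [Rmv_V, Rmv_W, Matrix.fromBlocks_multiply]
    simp only [Matrix.mul_one, Matrix.one_mul, Matrix.mul_zero, add_zero]
    refine congrArg₂ (fun X Y => Matrix.fromBlocks 1 (Matrix.of fun i _ => v i) X Y) ?_ ?_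
    · rfl
    · ext a b
      rw [Matrix.add_apply, Matrix.mul_apply, Matrix.of_apply, Matrix.one_apply,
        if_pos (Subsingleton.elim a b)]
      rfl
  have d1 : ∀ T : PI N k, ix N k (Sum.inr T) = Fin.snoc (α := fun _ => Fin N ⊕ Unit)
    (fun i => Sum.inl (T.1 i)) (Sum.inr ()) := fun _ => rfl
  have c1 : ∀ x : Fin k, ix N k (Sum.inr T) x.castSucc = Sum.inl (T.1 x) := fun x => by
    rw [d1, Fin.snoc_castSucc]
  have c2 : ix N k (Sum.inr T) (Fin.last k) = Sum.inr () := by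
    rw [d1, Fin.snoc_last]
  have c3 : ∀ x : Fin k, ix N k (Sum.inr T') x.castSucc = Sum.inl (T'.1 x) := fun x => by
    rw [d1, Fin.snoc_castSucc]
  have c4 : ix N k (Sum.inr T') (Fin.last k) = Sum.inr () := by
    rw [d1, Fin.snoc_last]
  rw [e5, e6, Rmv_bord] at e4
  have e7 : ((Matrix.fromBlocks 1 (Matrix.of fun i _ => v i)
      (Matrix.of fun (_ : Unit) i => c i) (Matrix.of fun _ _ => (∑ i, c i * v i) + 1)).submatrix
      (ix N k (Sum.inr T)) (ix N k (Sum.inr T'))).submatrix Fin.castSucc Fin.castSucc =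
      (1 : Matrix (Fin N) (Fin N) ℂ).submatrix T.1 T'.1 := by
    ext x y
    rw [Matrix.submatrix_apply, Matrix.submatrix_apply, Matrix.submatrix_apply, c1, c3]
    rfl
  have e8 : ((1 : Matrix (Fin N) (Fin N) ℂ).submatrix T.1 T'.1).det =
      (1 : Matrix (PI N k) (PI N k) ℂ) T T' := by
    rw [← (h3 N k).2.1]
    rfl
  have e9 : dC N k (Matrix.vecMulVec v c) T T' =
      ∑ i, c (T'.1 i) * (((1 : Matrix (Fin N) (Fin N) ℂ).submatrix T.1 T'.1).updateCol i
        fun a => v (T.1 a)).det := by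
    have f1 : dC N k (Matrix.vecMulVec v c) T T' =
      ∑ i, (((1 : Matrix (Fin N) (Fin N) ℂ).submatrix T.1 T'.1).updateCol i
        fun a => Matrix.vecMulVec v c (T.1 a) (T'.1 i)).det := rfl
    rw [f1]
    refine Finset.sum_congr rfl fun i _ => ?_
    rw [← Matrix.det_updateCol_smul]
    refine congrArg Matrix.det (congrArg (Matrix.updateCol _ i) ?_)
    funext a
    rw [Matrix.vecMulVec_apply, Pi.smul_apply, smul_eq_mul, mul_comm]
  rw [e7, e8] at e4
  simp only [Matrix.submatrix_apply, c1, c2, c3, c4, Matrix.fromBlocks_apply₂₂,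
    Matrix.fromBlocks_apply₂₁, Matrix.fromBlocks_apply₁₂, Matrix.of_apply] at e4
  rw [← e9] at e4
  linear_combination - e4

theorem thm_Rmv (h1 : St_Wdv) (h2 : St_Blk) (h3 : St_Cmp) : St_Rmv := by
  intro N k
  have ez : ∀ v c : Fin N → ℂ, rm N k v * dC N k (Matrix.vecMulVec v c) = 0 := by
    intro v c
    cases k with
    | zero => rw [Rmv_dC0, Matrix.mul_zero]
    | succ k => rw [Rmv_rank1 h3, ← Matrix.mul_assoc, Rmv_sq h3, Matrix.zero_mul]
  have ep : ∀ u v c : Fin N → ℂ, rm N k u * dC N k (Matrix.vecMulVec v c) =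
      - (rm N k v * dC N k (Matrix.vecMulVec u c)) := by
    intro u v c
    have f1 := ez (u + v) c
    rw [Matrix.add_vecMulVec, Rmv_dC_add h3, Rmv_add h3, Matrix.add_mul, Matrix.mul_add,
      Matrix.mul_add, ez u c, ez v c, zero_add, add_zero] at f1
    exact eq_neg_of_add_eq_zero_left f1
  refine ⟨Rmv_add h3 N k, Rmv_smul h3 N k, Rmv_cmp h1 h2 N k, ?_, ?_, Rmv_ctr h1 h2 h3 N k,
    Rmv_rank1 h3 N k, Rmv_sq h3 N k, ?_⟩
  · intro P v
    induction P using Matrix.induction_on' with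
    | h_zero =>
      have f1 : dC N (k + 1) 0 = 0 := by
        have f2 := Rmv_dC_add h3 N (k + 1) 0 0
        rw [add_zero] at f2
        exact left_eq_add.1 f2
      have f3 : dC N k 0 = 0 := by
        have f2 := Rmv_dC_add h3 N k 0 0
        rw [add_zero] at f2
        exact left_eq_add.1 f2
      have f4 : rm N k 0 = 0 := by
        have f2 := Rmv_smul h3 N k 0 0
        rw [zero_smul, zero_smul] at f2
        exact f2
      rw [f1, f3, Matrix.zero_mulVec, f4, Matrix.zero_mul, Matrix.mul_zero, add_zero]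
    | h_add P Q hP hQ =>
      rw [Rmv_dC_add h3, Rmv_dC_add h3, Matrix.add_mul, hP, hQ, Matrix.add_mulVec, Rmv_add h3,
        Matrix.mul_add]
      abel
    | h_std_basis i j x =>
      have f1 : Matrix.single i j x = Matrix.vecMulVec (Pi.single i x) (Pi.single j (1 : ℂ)) := by
        ext a b
        rw [Matrix.vecMulVec_apply, Matrix.single_apply, Pi.single_apply, Pi.single_apply]
        by_cases ha : a = i
        · by_cases hb : b = j
          · rw [if_pos ⟨ha.symm, hb.symm⟩, if_pos ha, if_pos hb, mul_one]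
          · rw [if_neg (fun h => hb h.2.symm), if_neg hb, mul_zero]
        · rw [if_neg (fun h => ha h.1.symm), if_neg ha, zero_mul]
      rw [f1]
      generalize (Pi.single i x : Fin N → ℂ) = u
      generalize (Pi.single j (1 : ℂ) : Fin N → ℂ) = c
      have f2 : (Matrix.vecMulVec u c).mulVec v = (∑ i, c i * v i) • u := by
        funext a
        rw [Matrix.mulVec, dotProduct, Pi.smul_apply, smul_eq_mul, Finset.sum_mul]
        refine Finset.sum_congr rfl fun b _ => ?_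
        rw [Matrix.vecMulVec_apply]
        ring
      rw [f2, Rmv_smul h3, Rmv_rank1 h3, Matrix.mul_assoc, Rmv_ctr h1 h2 h3, Matrix.mul_sub,
        Matrix.mul_smul, Matrix.mul_one, ep u v c]
      abel
  · intro v c
    rw [Matrix.mul_assoc, Rmv_ctr h1 h2 h3, Matrix.mul_sub, Matrix.mul_smul, Matrix.mul_one,
      ez v c, sub_zero]
  · intro δ v
    ext S T
    rw [Matrix.map_apply, Rmv_rm h3, Rmv_rm h3, map_sum]
    refine Finset.sum_congr rfl fun j _ => ?_
    have f1 : ∀ n : ℤ, ∀ z : ℂ, δ ((n : ℂ) * z) = (n : ℂ) * δ z := by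
      intro n z
      rw [← zsmul_eq_mul, map_zsmul, zsmul_eq_mul]
    have f2 : ∃ n : ℤ, (n : ℂ) = (-1) ^ (k + j : ℕ) *
        (1 : Matrix (PI N k) (PI N k) ℂ) T (Rmv_dl S j) := by
      rw [Matrix.one_apply]
      split_ifs
      · exact ⟨(-1) ^ (k + j : ℕ), by push_cast; ring⟩
      · exact ⟨0, by push_cast; ring⟩
    obtain ⟨n, hn⟩ := f2
    have f3 : (-1) ^ (k + j : ℕ) * v (S.1 j) * (1 : Matrix (PI N k) (PI N k) ℂ) T (Rmv_dl S j) =
        (n : ℂ) * v (S.1 j) := by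
      rw [hn]
      ring
    rw [f3, f1, hn]
    ring

end DWZ
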