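import Pool.Agent.DWZ.StB
import Pool.Agent.DWC.SieA
import Pool.Agent.DWC.Bnd
import Pool.Agent.DWC.PLh
import Pool.Agent.DWC.Grw
import Pool.Agent.DWC.GrF
import Pool.Agent.PST.Sup
import Pool.Agent.PST.PsiJ
import Pool.Agent.PST.PsiL
import Pool.Agent.PST.PsiN
import Pool.Agent.PST.PsiT
import Pool.Agent.PST.PsiC
import Pool.Agent.PST.PsiE
import Pool.Agent.PST.PsiD
import Pool.Agent.PST.NonM
import Pool.Agent.PST.OmT
import Pool.Agent.PST.Equi
import Pool.Agent.PST.EquP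
import Pool.Agent.PST.EquD
import Pool.Agent.PST.UAl
import Pool.Agent.PST.UGr
import Pool.Agent.PST.UTr
import Pool.Agent.PST.MapE
import Pool.Agent.PST.HolP
import Pool.Agent.PST.Gau
import Pool.Agent.PST.Ell
import Pool.Agent.PST.EllI
import Pool.Agent.PST.EllB
import Pool.Agent.PST.EllZ
import Pool.Agent.PST.EllH
import Pool.Agent.PST.DetPt
import Pool.Agent.GAM.GroF
import Pool.Agent.GAM.GroC
import Pool.Agent.GAM.GroU
import Pool.Agent.GAM.Bas

/-!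
# DWZ [SieZ]: existence of an algebraic relation for the functions `YF N k`

The argument of `DWC/SieH.lean`, for the products of a Fock vector on the ball and of a Fock vector
on the domain of an exterior power, restricted to the ball.
-/

set_option autoImplicit false

namespace DWZ

open scoped ComplexConjugate
open GAM (H E F pd pdl PLat IsTh OddTor IsDel Gro IsLat Pre)
open PST DWC DWY

/-! ## The proved statements -/

private theorem SieZ_EllB : St_EllB := thm_EllB thm_Gau thm_EllI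

private theorem SieZ_EllZ : St_EllZ := thm_EllZ thm_Gau thm_EllI SieZ_EllB

private theorem SieZ_Ell : St_Ell :=
  thm_Ell (thm_EllH thm_OmT thm_HolP thm_Gau thm_EllI) SieZ_EllB SieZ_EllZ thm_EllI thm_Gau

private theorem SieZ_UAl : St_UAl := thm_UAl thm_UGr

private theorem SieZ_MapE : St_MapE := thm_MapE thm_UGr

private theorem SieZ_PsiE : St_PsiE := thm_PsiE thm_HolP thm_Gau

private theorem SieZ_PsiN : St_PsiN := thm_PsiN thm_Gau

private theorem SieZ_Equi : St_Equi :=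
  thm_Equi SieZ_UAl
    (thm_EquP thm_UGr SieZ_UAl thm_UTr SieZ_MapE
      (thm_PsiT thm_UGr SieZ_UAl thm_OmT thm_PsiC SieZ_PsiE thm_PsiL) SieZ_PsiN)
    (thm_EquD SieZ_UAl thm_OmT thm_PsiC SieZ_PsiE (thm_PsiD thm_HolP thm_Gau thm_EllI thm_PsiC))

private theorem SieZ_Sup : St_Sup :=
  thm_Sup (thm_PsiJ thm_OmT thm_Gau) thm_PsiL SieZ_PsiN
    (thm_NonM SieZ_Equi thm_UTr SieZ_UAl SieZ_MapE SieZ_EllZ thm_DetPt) thm_OmT

/-! ## Lemmas -/

section

variable {α β μ : Type} [Fintype α] [Fintype β] [Fintype μ]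
  [DecidableEq α] [DecidableEq β] [DecidableEq μ]

private theorem SieZ_psi {L : Submodule ℤ (Ix α β μ → ℂ)}
    {χ θ : (Ix α β μ → ℂ) → ℂ} (hL : PLat L χ) (hθ : IsTh L χ θ) (x : Ix α β μ → ℂ) :
    DifferentiableOn ℂ (fun w => psi θ w x) (Om α β) :=
  (SieZ_Ell α β μ (F θ x)
    ((GAM.thm_GroF GAM.thm_GroU GAM.thm_GroC (Ix α β μ)).1 L χ θ hL hθ x)).1

/-- the action is surjective -/
private theorem SieZ_surj {g : Matrix (α ⊕ β) (α ⊕ β) ℂ} (hg : IsU g) :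
    Function.Surjective (fun t : Ix α β μ → ℂ => act g t) := by
  intro x
  obtain ⟨-, hmul, hone, -, -, hinv, -⟩ := thm_UGr α β μ
  obtain ⟨-, -, hr, -, -⟩ := hinv g hg
  exact ⟨act (Jm α β * g.conjTranspose * Jm α β) x, by
    show act g (act (Jm α β * g.conjTranspose * Jm α β) x) = x
    rw [← hmul, hr, hone]⟩

end

/-- comparison of suprema -/
private theorem SieZ_lub {X : Type} (f f' : X → ℂ) (s : X → X) (hs : Function.Surjective s)
    (b : ℂ) (h : ∀ x, f' (s x) = b * f x) {M M' : ℝ}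
    (hM : IsLUB (Set.range fun x => ‖f x‖) M) (hM' : IsLUB (Set.range fun x => ‖f' x‖) M')
    (hb : b ≠ 0) : M' = ‖b‖ * M := by
  have hb' : 0 < ‖b‖ := norm_pos_iff.2 hb
  apply le_antisymm
  · apply hM'.2
    rintro _ ⟨t, rfl⟩
    obtain ⟨t, rfl⟩ := hs t
    show ‖f' (s t)‖ ≤ _
    rw [h, norm_mul]
    exact mul_le_mul_of_nonneg_left (hM.1 ⟨t, rfl⟩) hb'.le
  · rw [← le_div_iff₀' hb']
    apply hM.2
    rintro _ ⟨t, rfl⟩
    show ‖f t‖ ≤ _
    rw [le_div_iff₀' hb', ← norm_mul, ← h]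
    exact hM'.1 ⟨s t, rfl⟩

/-- a multiple of the order -/
private theorem SieZ_ord {ι : Type} {L : Submodule ℤ (ι → ℂ)} {x : ι → ℂ} {a : ℕ}
    (h : (a : ℤ) • x ∈ L) (b : ℕ) : ((a * b : ℕ) : ℤ) • x ∈ L := by
  have e : ((a * b : ℕ) : ℤ) • x = (b : ℤ) • ((a : ℤ) • x) := by
    rw [smul_smul]
    push_cast
    rw [mul_comm]
  rw [e]
  exact L.smul_mem _ h

/-- The functions `YF N k` as products. -/
private theorem SieZ_YF (N k : ℕ) (θ : (IX N → ℂ) → ℂ) (θY : (IY N k → ℂ) → ℂ) (y : Option (WX N) → IX N → ℂ)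
    (y' : Bool → IY N k → ℂ) (w : WX N → ℂ) (o : Option (Option (WX N))) :
    YF N k θ θY y y' w o = psi θ w (y (o.getD none)) * psi θY (rho N k w) (y' o.isNone) := by
  rcases o with _ | i <;> rfl

/-- The module SieZ. -/
theorem thm_SieZ (h1 : St_TorQ) (h2 : St_RhoZ) (h3 : St_UEz) : St_SieZ := by
  intro N k L χ θ LY χY θY e y y' hL hθ hne hLY hθY hneY hcoc hy hy'
  classical
  obtain ⟨hr1, hr2, hr3, -, M, -, hM⟩ := h2 N k
  -- the common order
  obtain ⟨n₁, hn₁, hc₁⟩ := GAM.exists_common_order (L := L) y hy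
  obtain ⟨n₂, hn₂, hc₂⟩ := GAM.exists_common_order (L := LY) y' hy'
  have hn0 : n₁ * n₂ ≠ 0 := mul_ne_zero hn₁.pos.ne' hn₂.pos.ne'
  have hcX : ∀ i, ((n₁ * n₂ : ℕ) : ℤ) • y i ∈ L := fun i => SieZ_ord (hc₁ i) n₂
  have hcY : ∀ i, ((n₁ * n₂ : ℕ) : ℤ) • y' i ∈ LY := fun i => by
    rw [mul_comm n₁ n₂]
    exact SieZ_ord (hc₂ i) n₁
  obtain ⟨n, hn⟩ : ∃ n : ℕ, n = n₁ * n₂ := ⟨_, rfl⟩
  rw [← hn] at hn0 hcX hcY
  obtain ⟨K, C, hK, hKne, hKΩ, hcoc⟩ := hcoc (2 * n ^ 2) (by positivity)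
  obtain ⟨⟨NP, hNP, hlubP⟩, -⟩ := SieZ_Sup (Fin N) Unit Unit L χ θ hL hθ hne
  obtain ⟨⟨NQ, hNQ, hlubQ⟩, -⟩ := SieZ_Sup (PI N (k + 1)) (PI N k) Unit LY χY θY hLY hθY hneY
  obtain ⟨hopen, hconv, -, hcomp, -, -⟩ := thm_OmT (Fin N) Unit
  obtain ⟨C₁, k₁, hC₁, hgr₁⟩ := thm_Grw thm_GrF thm_Gau (Fin N) Unit Unit L χ θ hL hθ
  obtain ⟨C₂, k₂, hC₂, hgr₂⟩ := thm_Grw thm_GrF thm_Gau (PI N (k + 1)) (PI N k) Unit LY χY θY hLY hθY
  -- the embedding of the ball
  have hrd : Differentiable ℂ (rho N k : (WX N → ℂ) → WY N k → ℂ) := by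
    have e : (rho N k : (WX N → ℂ) → WY N k → ℂ) = fun w => M.mulVec w := funext hM
    rw [e]
    exact (LinearMap.toContinuousLinearMap (Matrix.mulVecLin M)).differentiable
  have hmaps : Set.MapsTo (rho N k) (Om (Fin N) Unit) (Om (PI N (k + 1)) (PI N k)) := hr2
  have hF : ∀ i, DifferentiableOn ℂ (fun w => YF N k θ θY y y' w i) (Om (Fin N) Unit) := by
    intro i
    have e : (fun w => YF N k θ θY y y' w i) =
        fun w => psi θ w (y (i.getD none)) * psi θY (rho N k w) (y' i.isNone) :=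
      funext fun w => SieZ_YF N k θ θY y y' w i
    rw [e]
    exact (SieZ_psi hL hθ _).fun_mul
      (DifferentiableOn.comp (g := fun u => psi θY u (y' i.isNone)) (f := rho N k)
        (SieZ_psi hLY hθY _) hrd.differentiableOn hmaps)
  obtain ⟨Nf, hN⟩ : ∃ Nf : (WX N → ℂ) → ℝ, Nf = fun w => NP w + NQ (rho N k w) := ⟨_, rfl⟩
  have hNc : ContinuousOn Nf (Om (Fin N) Unit) := by
    rw [hN]
    exact hNP.add (hNQ.comp hrd.continuous.continuousOn hmaps)
  have hNe : ∀ w, Real.exp (Nf w) = Real.exp (NP w) * Real.exp (NQ (rho N k w)) := by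
    intro w
    rw [hN]
    exact Real.exp_add _ _
  obtain ⟨C₃, hC₃⟩ := thm_Bnd thm_PLh thm_OmT (Fin N) Unit (Option (Option (WX N))) K C (C₁ * C₂)
    (k₁ + k₂) Nf (fun i w => YF N k θ θY y y' w i) hK hKΩ hNc hF (by
      intro ρ hρ hρ1 w hw
      have hwΩ : w ∈ Om (Fin N) Unit := (hcomp ρ hρ hρ1).2 hw
      have hw' := hr1 ρ hρ w hw
      have hq₁ : 0 < (1 - ρ) ^ k₁ := pow_pos (by linarith) _
      have hq₂ : 0 < (1 - ρ) ^ k₂ := pow_pos (by linarith) _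
      refine ⟨?_, fun i => ?_⟩
      · have e1 : Real.exp (NP w) ≤ C₁ / (1 - ρ) ^ k₁ := by
          apply (hlubP w hwΩ).2
          rintro _ ⟨t, rfl⟩
          show ‖psi θ w t‖ ≤ _
          rw [le_div_iff₀ hq₁]
          exact (hgr₁ ρ hρ hρ1 w hw t).1
        have e2 : Real.exp (NQ (rho N k w)) ≤ C₂ / (1 - ρ) ^ k₂ := by
          apply (hlubQ (rho N k w) (hr2 w hwΩ)).2
          rintro _ ⟨t, rfl⟩
          show ‖psi θY (rho N k w) t‖ ≤ _
          rw [le_div_iff₀ hq₂]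
          exact (hgr₂ ρ hρ hρ1 (rho N k w) hw' t).1
        rw [le_div_iff₀ hq₁] at e1
        rw [le_div_iff₀ hq₂] at e2
        rw [hNe, pow_add, mul_mul_mul_comm]
        exact mul_le_mul e1 e2 (mul_nonneg (Real.exp_pos _).le hq₂.le) hC₁.le
      · show ‖YF N k θ θY y y' w i‖ * _ ≤ _
        rw [SieZ_YF, norm_mul, pow_add, mul_mul_mul_comm]
        exact mul_le_mul (hgr₁ ρ hρ hρ1 w hw _).1 (hgr₂ ρ hρ hρ1 (rho N k w) hw' _).1
          (mul_nonneg (norm_nonneg _) hq₂.le) hC₁.le) (by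
      intro p hp
      obtain ⟨U, hU, hz⟩ := hcoc p hp
      refine ⟨U, hU, fun w hw => ?_⟩
      obtain ⟨z, hz1, hz2, hz3, hz4, hz5⟩ := hz w hw
      refine ⟨z, hz1, hz2, hz3, hz4, fun t => ?_⟩
      obtain ⟨g, hg, hgY, hgYn, hgK⟩ := hz5 t
      have hzt : z t ∈ Om (Fin N) Unit := by
        obtain ⟨ρ, hρ, hρ1, hzρ, -⟩ := hz4 t (by simp)
        exact (hcomp ρ hρ hρ1).2 hzρ
      have hzt' : rho N k (z t) ∈ Om (PI N (k + 1)) (PI N k) := hr2 _ hzt
      obtain ⟨j, hj0, hj1, hj2⟩ := h1 (Fin N) Unit Unit g L χ θ n hL hθ hne hn0 hg.uni hg.lat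
        hg.cong (z t) hzt
      obtain ⟨j', hj0', hj1', hj2'⟩ := h1 (PI N (k + 1)) (PI N k) Unit (ek N k g) LY χY θY n hLY hθY hneY
        hn0 (h3 N k g hg.uni) hgY hgYn (rho N k (z t)) hzt'
      rw [hr3 g hg.uni (z t) hzt] at hj1' hj2'
      refine ⟨mob g (z t), hgK, (j * j')⁻¹, ?_, ?_⟩
      · have e1 := SieZ_lub (fun s => psi θ (z t) s) (fun s => psi θ (mob g (z t)) s) _
          (SieZ_surj hg.uni) j hj1 (hlubP (z t) hzt) (hlubP _ (hKΩ hgK)) hj0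
        have e2 := SieZ_lub (fun s => psi θY (rho N k (z t)) s)
          (fun s => psi θY (rho N k (mob g (z t))) s) _
          (SieZ_surj (h3 N k g hg.uni)) j' hj1' (hlubQ _ hzt') (hlubQ _ (hr2 _ (hKΩ hgK))) hj0'
        have hjn : ‖j‖ ≠ 0 := norm_ne_zero_iff.2 hj0
        have hjn' : ‖j'‖ ≠ 0 := norm_ne_zero_iff.2 hj0'
        rw [hNe, hNe, e1, e2, norm_inv, norm_mul]
        field_simp
      · intro i
        show YF N k θ θY y y' (z t) i = _ * YF N k θ θY y y' (mob g (z t)) i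
        rw [SieZ_YF, SieZ_YF, hj2 _ (hcX _), hj2' _ (hcY _)]
        field_simp)
  exact thm_SieA (WX N) (Option (Option (WX N))) (by simp) (Om (Fin N) Unit) K C₃
    (fun i w => YF N k θ θY y y' w i) hopen hconv hK hKne hKΩ hF hC₃

end DWZ
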