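import Pool.Agent.DWZ.StA

/-!
# DWZ [UEz]: the exterior power of the unitary group
-/

set_option autoImplicit false

namespace DWZ

open scoped ComplexConjugate
open PST DWC DWY

/-- The exterior power of a matrix preserving the hermitian form preserves the hermitian form. -/
theorem thm_UEz (h1 : St_Wdv) (h2 : St_Blk) : St_UEz := by
  intro N k g hg
  obtain ⟨-, -, -, -, hmul⟩ := h1 N k
  obtain ⟨-, -, -, -, hT, hJ⟩ := h2 N k
  have hg' : g.conjTranspose * Jm (Fin N) Unit * g = Jm (Fin N) Unit := hg
  have hc : ek N k g.conjTranspose = (ek N k g).conjTranspose := by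
    have e1 : g.conjTranspose = g.transpose.map conj := rfl
    have e2 : (ek N k g).conjTranspose = (ek N k g).transpose.map conj := rfl
    rw [e1, e2, (hT g.transpose).2, (hT g).1]
  show (ek N k g).conjTranspose * Jm (PI N (k + 1)) (PI N k) * ek N k g =
    Jm (PI N (k + 1)) (PI N k)
  rw [← hc, ← hJ, ← hmul, ← hmul, hg']

end DWZ
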