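import Pool.Agent.DWZ.StA

/-!
# DWZ, module UnR: uniqueness in the linear equations of the exterior power
-/

set_option autoImplicit false

namespace DWZ

open Matrix

private theorem UnR_mono {N k : ℕ} (T : PI N k) : StrictMono T.1 := fun a b h => T.2 a b h

private theorem UnR_eq {N k : ℕ} (T T' : PI N k) (h : Set.range T.1 = Set.range T'.1) : T = T' :=
  Subtype.ext ((StrictMono.range_inj (UnR_mono T) (UnR_mono T')).1 h)

/-- two increasing maps with comparable ranges are equal -/
private theorem UnR_sub {N k : ℕ} (T T' : PI N k) (h : ∀ i, T.1 i ∈ Set.range T'.1) : T = T' := by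
  classical
  apply UnR_eq
  have h1 : Finset.univ.image T.1 ⊆ Finset.univ.image T'.1 := by
    intro x hx
    obtain ⟨i, -, rfl⟩ := Finset.mem_image.1 hx
    obtain ⟨j, hj⟩ := h i
    exact Finset.mem_image.2 ⟨j, Finset.mem_univ _, hj⟩
  have h2 : (Finset.univ.image T'.1).card ≤ (Finset.univ.image T.1).card := by
    rw [Finset.card_image_of_injective _ (UnR_mono T).injective]
    exact Finset.card_image_le
  have h3 := congrArg (fun s : Finset (Fin N) => (s : Set (Fin N)))
    (Finset.eq_of_subset_of_card_le h1 h2)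
  simpa using h3

private theorem UnR_det {N k : ℕ} (T T' : PI N k) :
    (Matrix.of fun i j => if T.1 i = T'.1 j then (1 : ℂ) else 0).det =
      if T = T' then 1 else 0 := by
  split_ifs with h
  · subst h
    have h1 : (Matrix.of fun i j => if T.1 i = T.1 j then (1 : ℂ) else 0) =
        (1 : Matrix (Fin k) (Fin k) ℂ) := by
      ext i j
      rw [Matrix.of_apply, Matrix.one_apply]
      exact if_congr ⟨fun h => (UnR_mono T).injective h, fun h => by rw [h]⟩ rfl rfl
    rw [h1, Matrix.det_one]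
  · obtain ⟨i, hi⟩ : ∃ i, T.1 i ∉ Set.range T'.1 := by
      by_contra hc
      exact h (UnR_sub T T' fun i => by_contra fun hi => hc ⟨i, hi⟩)
    refine Matrix.det_eq_zero_of_row_eq_zero i fun j => ?_
    rw [Matrix.of_apply, if_neg]
    intro he
    exact hi ⟨j, he.symm⟩

/-- removing an element -/
private def UnR_rem {N k : ℕ} (S : PI N (k + 1)) (j : Fin (k + 1)) : PI N k :=
  ⟨fun i => S.1 (j.succAbove i), fun _ _ h => S.2 _ _ (Fin.strictMono_succAbove j h)⟩

/-- entries of `rm` for basis vectors -/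
private theorem UnR_rm {N k : ℕ} (S : PI N (k + 1)) (T : PI N k) (j : Fin (k + 1)) :
    rm N k (Pi.single (S.1 j) 1) S T =
      if T = UnR_rem S j then (-1 : ℂ) ^ (k + (j : ℕ)) else 0 := by
  unfold rm
  rw [Matrix.of_apply, Matrix.det_succ_row _ (Fin.last k), Finset.sum_eq_single j]
  · have h1 : ((Matrix.of fun i j_1 : Fin (k + 1) =>
        Fin.snoc (α := fun _ => ℂ) (fun i' : Fin k => if T.1 i' = S.1 j_1 then (1 : ℂ) else 0)
        ((Pi.single (S.1 j) 1 : Fin N → ℂ) (S.1 j_1)) i).submatrix (Fin.last k).succAbove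
          j.succAbove) = Matrix.of fun i j' => if T.1 i = (UnR_rem S j).1 j' then (1 : ℂ) else 0 := by
      ext i j'
      rw [Matrix.submatrix_apply, Matrix.of_apply, Matrix.of_apply, Fin.succAbove_last,
        Fin.snoc_castSucc]
      rfl
    rw [h1, UnR_det, Matrix.of_apply, Fin.snoc_last, Pi.single_eq_same, Fin.val_last]
    split_ifs <;> ring
  · intro j' _ hj'
    rw [Matrix.of_apply, Fin.snoc_last, Pi.single_eq_of_ne, mul_zero, zero_mul]
    intro he
    exact hj' ((UnR_mono S).injective he)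
  · intro h
    exact absurd (Finset.mem_univ _) h

private theorem UnR_rm0 {N k : ℕ} (S : PI N (k + 1)) (T : PI N k) (s : Fin N)
    (hs : s ∉ Set.range S.1) : rm N k (Pi.single s 1) S T = 0 := by
  unfold rm
  rw [Matrix.of_apply]
  refine Matrix.det_eq_zero_of_row_eq_zero (Fin.last k) fun j => ?_
  rw [Matrix.of_apply, Fin.snoc_last, Pi.single_eq_of_ne]
  intro he
  exact hs ⟨j, he⟩

private theorem UnR_range {N k : ℕ} (S : PI N (k + 1)) (j : Fin (k + 1)) :
    Set.range (UnR_rem S j).1 = Set.range S.1 \ {S.1 j} := by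
  ext x
  constructor
  · rintro ⟨i, rfl⟩
    refine ⟨⟨_, rfl⟩, fun h => ?_⟩
    have h1 : j.succAbove i = j := (UnR_mono S).injective h
    exact Fin.succAbove_ne j i h1
  · rintro ⟨⟨i, rfl⟩, h⟩
    have h1 : i ≠ j := fun h2 => h (by rw [h2]; exact rfl)
    obtain ⟨i', rfl⟩ := Fin.exists_succAbove_eq h1
    exact ⟨i', rfl⟩

/-- the entry vanishes if `s` is in `T` -/
private theorem UnR_rm1 {N k : ℕ} (S : PI N (k + 1)) (T : PI N k) (s : Fin N)
    (hs : s ∈ Set.range T.1) : rm N k (Pi.single s 1) S T = 0 := by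
  by_cases h : s ∈ Set.range S.1
  · obtain ⟨j, rfl⟩ := h
    rw [UnR_rm, if_neg]
    rintro rfl
    rw [UnR_range] at hs
    exact hs.2 rfl
  · exact UnR_rm0 S T s h

/-- adding an element -/
private theorem UnR_add {N k : ℕ} (T : PI N k) (s : Fin N) (hs : s ∉ Set.range T.1) :
    ∃ (S : PI N (k + 1)) (j : Fin (k + 1)), S.1 j = s ∧ UnR_rem S j = T := by
  classical
  let F : Finset (Fin N) := insert s (Finset.univ.image T.1)
  have hF : F.card = k + 1 := by
    show (insert s (Finset.univ.image T.1)).card = k + 1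
    rw [Finset.card_insert_of_notMem, Finset.card_image_of_injective _ (UnR_mono T).injective,
      Finset.card_univ, Fintype.card_fin]
    intro h
    obtain ⟨i, -, hi⟩ := Finset.mem_image.1 h
    exact hs ⟨i, hi⟩
  let S : PI N (k + 1) := ⟨F.orderEmbOfFin hF, fun a b h => (F.orderEmbOfFin hF).strictMono h⟩
  have hr : Set.range S.1 = (F : Set (Fin N)) := F.range_orderEmbOfFin hF
  have hsF : s ∈ Set.range S.1 := by
    rw [hr]
    exact Finset.mem_coe.2 (Finset.mem_insert_self _ _)
  obtain ⟨j, hj⟩ := hsF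
  refine ⟨S, j, hj, UnR_eq _ _ ?_⟩
  rw [UnR_range, hr, hj]
  ext x
  constructor
  · rintro ⟨hx, hx'⟩
    rcases Finset.mem_insert.1 (Finset.mem_coe.1 hx) with h | h
    · exact absurd h hx'
    · obtain ⟨i, -, hi⟩ := Finset.mem_image.1 h
      exact ⟨i, hi⟩
  · rintro ⟨i, rfl⟩
    refine ⟨Finset.mem_coe.2 (Finset.mem_insert_of_mem (Finset.mem_image.2
      ⟨i, Finset.mem_univ _, rfl⟩)), fun h => hs ⟨i, h⟩⟩

/-- the column `T` of `rm` for a basis vector -/
private theorem UnR_col {N k : ℕ} (S Y : PI N (k + 1)) (j : Fin (k + 1)) :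
    rm N k (Pi.single (S.1 j) 1) Y (UnR_rem S j) =
      if Y = S then (-1 : ℂ) ^ (k + (j : ℕ)) else 0 := by
  split_ifs with h
  · subst h
    rw [UnR_rm, if_pos rfl]
  · by_cases h1 : S.1 j ∈ Set.range Y.1
    · obtain ⟨i, hi⟩ := h1
      rw [← hi, UnR_rm, if_neg]
      intro h2
      apply h
      apply UnR_eq
      have h3 := congrArg (fun T : PI N k => Set.range T.1) h2
      simp only [UnR_range] at h3
      rw [hi] at h3
      ext x
      by_cases hx : x = S.1 j
      · rw [hx]
        exact ⟨fun _ => ⟨j, rfl⟩, fun _ => ⟨i, hi⟩⟩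
      · constructor
        · intro hy
          have h4 : x ∈ Set.range Y.1 \ {S.1 j} := ⟨hy, hx⟩
          rw [← h3] at h4
          exact h4.1
        · intro hy
          have h4 : x ∈ Set.range S.1 \ {S.1 j} := ⟨hy, hx⟩
          rw [h3] at h4
          exact h4.1
    · exact UnR_rm0 _ _ _ h1

private theorem UnR_sgn (n : ℕ) : ((-1 : ℂ) ^ n) ≠ 0 := pow_ne_zero _ (by norm_num)

/-- `B` is diagonal -/
private theorem UnR_diag {N k : ℕ} (A : Matrix (PI N (k + 1)) (PI N (k + 1)) ℂ)
    (B : Matrix (PI N k) (PI N k) ℂ) (h : ∀ v : Fin N → ℂ, A * rm N k v + rm N k v * B = 0)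
    (T S : PI N k) (hTS : T ≠ S) : B T S = 0 := by
  obtain ⟨i, hi⟩ : ∃ i, S.1 i ∉ Set.range T.1 := by
    by_contra hc
    exact hTS (UnR_sub S T fun i => by_contra fun hi => hc ⟨i, hi⟩).symm
  obtain ⟨X, j, hj, hX⟩ := UnR_add T (S.1 i) hi
  have h1 := congrFun (congrFun (h (Pi.single (S.1 i) 1)) X) S
  rw [Matrix.add_apply, Matrix.mul_apply, Matrix.mul_apply] at h1
  have h2 : ∑ Y, A X Y * rm N k (Pi.single (S.1 i) 1) Y S = 0 :=
    Finset.sum_eq_zero fun Y _ => by rw [UnR_rm1 Y S (S.1 i) ⟨i, rfl⟩, mul_zero]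
  rw [h2, zero_add, Finset.sum_eq_single T] at h1
  · rw [← hj, UnR_rm, if_pos hX.symm] at h1
    rcases mul_eq_zero.1 h1 with h3 | h3
    · exact absurd h3 (UnR_sgn _)
    · exact h3
  · intro Y _ hY
    rw [← hj, UnR_rm, if_neg, zero_mul]
    intro h3
    exact hY (h3.trans hX)
  · intro h3
    exact absurd (Finset.mem_univ _) h3

/-- the columns of `A` -/
private theorem UnR_A {N k : ℕ} (A : Matrix (PI N (k + 1)) (PI N (k + 1)) ℂ)
    (B : Matrix (PI N k) (PI N k) ℂ) (h : ∀ v : Fin N → ℂ, A * rm N k v + rm N k v * B = 0)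
    (S : PI N (k + 1)) (j : Fin (k + 1)) (X : PI N (k + 1)) :
    A X S = if X = S then -B (UnR_rem S j) (UnR_rem S j) else 0 := by
  have h1 := congrFun (congrFun (h (Pi.single (S.1 j) 1)) X) (UnR_rem S j)
  rw [Matrix.add_apply, Matrix.mul_apply, Matrix.mul_apply, Finset.sum_eq_single S,
    Finset.sum_eq_single (UnR_rem S j), UnR_col, if_pos rfl, UnR_col] at h1
  · have h2 : A X S * (-1 : ℂ) ^ (k + (j : ℕ)) + (if X = S then (-1 : ℂ) ^ (k + (j : ℕ)) else 0) *
        B (UnR_rem S j) (UnR_rem S j) = 0 := h1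
    split_ifs with hX
    · rw [if_pos hX] at h2
      have h3 : (-1 : ℂ) ^ (k + (j : ℕ)) * (A X S + B (UnR_rem S j) (UnR_rem S j)) = 0 := by
        rw [← h2]
        ring
      rcases mul_eq_zero.1 h3 with h4 | h4
      · exact absurd h4 (UnR_sgn _)
      · exact eq_neg_of_add_eq_zero_left h4
    · rw [if_neg hX, zero_mul, add_zero] at h2
      rcases mul_eq_zero.1 h2 with h4 | h4
      · exact h4
      · exact absurd h4 (UnR_sgn _)
  · intro Y _ hY
    rw [UnR_diag A B h Y _ hY, mul_zero]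
  · intro h3
    exact absurd (Finset.mem_univ _) h3
  · intro Y _ hY
    rw [UnR_col, if_neg hY, mul_zero]
  · intro h3
    exact absurd (Finset.mem_univ _) h3

/-- the diagonal of `B` is constant -/
private theorem UnR_const {N k : ℕ} (A : Matrix (PI N (k + 1)) (PI N (k + 1)) ℂ)
    (B : Matrix (PI N k) (PI N k) ℂ) (h : ∀ v : Fin N → ℂ, A * rm N k v + rm N k v * B = 0) :
    ∀ (n : ℕ) (T S : PI N k), (Set.range T.1 \ Set.range S.1).ncard = n → B T T = B S S := by
  classical
  intro n
  induction n with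
  | zero =>
    intro T S hn
    rw [Set.ncard_eq_zero (Set.toFinite _), Set.sdiff_eq_empty] at hn
    rw [UnR_sub T S fun i => hn ⟨i, rfl⟩]
  | succ n ih =>
    intro T S hn
    have hne : (Set.range T.1 \ Set.range S.1).Nonempty := by
      rw [← Set.ncard_pos (Set.toFinite _)]
      omega
    obtain ⟨_, ⟨i, rfl⟩, hi⟩ := hne
    obtain ⟨l, hl⟩ : ∃ l, S.1 l ∉ Set.range T.1 := by
      by_contra hc
      have h1 := UnR_sub S T fun i => by_contra fun hi => hc ⟨i, hi⟩
      rw [h1] at hi
      exact hi ⟨i, rfl⟩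
    obtain ⟨X, j, hj, hX⟩ := UnR_add T (S.1 l) hl
    have hXr : Set.range X.1 = insert (S.1 l) (Set.range T.1) := by
      have h1 := UnR_range X j
      rw [hX, hj] at h1
      rw [h1, Set.insert_sdiff_singleton, Set.insert_eq_of_mem]
      exact ⟨j, hj⟩
    obtain ⟨j', hj'⟩ : T.1 i ∈ Set.range X.1 := by
      rw [hXr]
      exact Set.mem_insert_of_mem _ ⟨i, rfl⟩
    have h1 : B (UnR_rem X j') (UnR_rem X j') = B S S := by
      refine ih _ _ ?_
      have h2 : Set.range T.1 \ Set.range S.1 =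
          insert (T.1 i) (Set.range (UnR_rem X j').1 \ Set.range S.1) := by
        rw [UnR_range, hXr, hj']
        ext x
        constructor
        · rintro ⟨hx, hx'⟩
          by_cases hxi : x = T.1 i
          · exact Or.inl hxi
          · exact Or.inr ⟨⟨Or.inr hx, hxi⟩, hx'⟩
        · rintro (rfl | ⟨⟨rfl | hx, hxi⟩, hx'⟩)
          · exact ⟨⟨i, rfl⟩, hi⟩
          · exact absurd ⟨l, rfl⟩ hx'
          · exact ⟨hx, hx'⟩
      have h3 : T.1 i ∉ Set.range (UnR_rem X j').1 \ Set.range S.1 := by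
        rw [UnR_range, hj']
        rintro ⟨⟨-, h4⟩, -⟩
        exact h4 rfl
      rw [h2, Set.ncard_insert_of_notMem h3 (Set.toFinite _)] at hn
      omega
    rw [← h1]
    have h4 := UnR_A A B h X j X
    have h5 := UnR_A A B h X j' X
    rw [if_pos rfl] at h4 h5
    rw [h4, hX] at h5
    exact neg_injective h5

theorem thm_UnR (_h1 : St_Rmv) : St_UnR := by
  intro N k hk
  constructor
  · intro A B h
    let T0 : PI N k := ⟨fun i => ⟨i, by omega⟩, fun a b hab => hab⟩
    refine ⟨-B T0 T0, ?_, ?_⟩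
    · ext X S
      rw [UnR_A A B h S 0 X, Matrix.smul_apply, Matrix.one_apply, smul_eq_mul]
      split_ifs with hX
      · rw [UnR_const A B h _ (UnR_rem S 0) T0 rfl, mul_one]
      · rw [mul_zero]
    · ext T S
      rw [Matrix.smul_apply, Matrix.one_apply, smul_eq_mul, neg_neg]
      split_ifs with hT
      · rw [hT, UnR_const A B h _ S T0 rfl, mul_one]
      · rw [UnR_diag A B h T S hT, mul_zero]
  · intro M h
    ext T S
    obtain ⟨j, hj⟩ : ∃ j, S.1 j ∉ Set.range T.1 := by
      by_contra hc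
      have h1 : Set.range S.1 ⊆ Set.range T.1 := by
        rintro _ ⟨i, rfl⟩
        exact by_contra fun hi => hc ⟨i, hi⟩
      have h2 := Set.ncard_le_ncard h1 (Set.toFinite _)
      rw [Set.ncard_range_of_injective (UnR_mono S).injective,
        Set.ncard_range_of_injective (UnR_mono T).injective, Nat.card_eq_fintype_card,
        Nat.card_eq_fintype_card, Fintype.card_fin, Fintype.card_fin] at h2
      omega
    obtain ⟨X, i, hi, hX⟩ := UnR_add T (S.1 j) hj
    have h1 := congrFun (congrFun (h (Pi.single (S.1 j) 1)) X) (UnR_rem S j)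
    rw [Matrix.mul_apply, Finset.sum_eq_single S, UnR_col, if_pos rfl, Matrix.mul_apply,
      Finset.sum_eq_single T, ← hi, UnR_rm, if_pos hX.symm] at h1
    · rcases mul_eq_zero.1 h1 with h3 | h3
      · rcases mul_eq_zero.1 h3 with h4 | h4
        · exact absurd h4 (UnR_sgn _)
        · exact h4
      · exact absurd h3 (UnR_sgn _)
    · intro Y _ hY
      rw [← hi, UnR_rm, if_neg, zero_mul]
      intro h3
      exact hY (h3.trans hX)
    · intro h3
      exact absurd (Finset.mem_univ _) h3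
    · intro Y _ hY
      rw [UnR_col, if_neg hY, mul_zero]
    · intro h3
      exact absurd (Finset.mem_univ _) h3

end DWZ
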