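import Pool.Agent.DWZ.StA

/-!
# DWZ, module Wdv

The exterior product of `k + 1` vectors: alternating, values on basis vectors, action of matrices.
-/

set_option autoImplicit false

namespace DWZ

open scoped ComplexConjugate

/-- the component with index `p` -/
private noncomputable def Wdv_comp (N k : ℕ) (p : PI N (k + 1) ⊕ PI N k) :
    (Fin N ⊕ Unit → ℂ) [⋀^Fin (k + 1)]→ₗ[ℂ] ℂ :=
  (Matrix.detRowAlternating (n := Fin (k + 1)) (R := ℂ)).compLinearMap
    (LinearMap.funLeft ℂ ℂ (ix N k p))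

/-- the alternating map -/
private noncomputable def Wdv_alt (N k : ℕ) :
    (Fin N ⊕ Unit → ℂ) [⋀^Fin (k + 1)]→ₗ[ℂ] (PI N (k + 1) ⊕ PI N k → ℂ) :=
  AlternatingMap.pi (Wdv_comp N k)

private lemma Wdv_alt_apply (N k : ℕ) (X : Fin (k + 1) → Fin N ⊕ Unit → ℂ) :
    Wdv_alt N k X = wdv N k X := by
  funext p
  rfl

private lemma Wdv_sm (N j : ℕ) (S : PI N j) : StrictMono S.1 := fun a b hab => S.2 a b hab

private lemma Wdv_inj (N k : ℕ) (p : PI N (k + 1) ⊕ PI N k) :
    Function.Injective (ix N k p) := by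
  rcases p with S | S
  · intro a b hab
    have h1 : (Sum.inl (S.1 a) : Fin N ⊕ Unit) = Sum.inl (S.1 b) := hab
    exact (Wdv_sm N (k + 1) S).injective (Sum.inl.inj h1)
  · intro a b hab
    have key : ∀ a : Fin (k + 1), ix N k (Sum.inr S) a =
        Fin.snoc (α := fun _ => Fin N ⊕ Unit) (fun i => Sum.inl (S.1 i)) (Sum.inr ()) a :=
      fun a => rfl
    rw [key, key] at hab
    induction a using Fin.lastCases with
    | last =>
      induction b using Fin.lastCases with
      | last => rfl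
      | cast b => rw [Fin.snoc_last, Fin.snoc_castSucc] at hab; exact absurd hab (by simp)
    | cast a =>
      induction b using Fin.lastCases with
      | last => rw [Fin.snoc_last, Fin.snoc_castSucc] at hab; exact absurd hab (by simp)
      | cast b =>
        rw [Fin.snoc_castSucc, Fin.snoc_castSucc] at hab
        rw [(Wdv_sm N k S).injective (Sum.inl.inj hab)]

private lemma Wdv_range (N k : ℕ) (p q : PI N (k + 1) ⊕ PI N k)
    (h : Set.range (ix N k p) = Set.range (ix N k q)) : p = q := by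
  have hr : ∀ (S : PI N k) (x : Fin N), Sum.inl x ∈ Set.range (ix N k (Sum.inr S)) ↔
      x ∈ Set.range S.1 := by
    intro S x
    have key : ∀ a : Fin (k + 1), ix N k (Sum.inr S) a =
        Fin.snoc (α := fun _ => Fin N ⊕ Unit) (fun i => Sum.inl (S.1 i)) (Sum.inr ()) a :=
      fun a => rfl
    constructor
    · rintro ⟨a, ha⟩
      rw [key] at ha
      induction a using Fin.lastCases with
      | last => rw [Fin.snoc_last] at ha; exact absurd ha (by simp)
      | cast a => rw [Fin.snoc_castSucc] at ha; exact ⟨a, Sum.inl.inj ha⟩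
    · rintro ⟨a, ha⟩
      refine ⟨Fin.castSucc a, ?_⟩
      rw [key, Fin.snoc_castSucc, ha]
  have hl : ∀ (S : PI N (k + 1)) (x : Fin N), Sum.inl x ∈ Set.range (ix N k (Sum.inl S)) ↔
      x ∈ Set.range S.1 := by
    intro S x
    constructor
    · rintro ⟨a, ha⟩
      exact ⟨a, Sum.inl.inj (show (Sum.inl (S.1 a) : Fin N ⊕ Unit) = Sum.inl x from ha)⟩
    · rintro ⟨a, ha⟩
      exact ⟨a, show (Sum.inl (S.1 a) : Fin N ⊕ Unit) = Sum.inl x from by rw [ha]⟩
  have hu : ∀ S : PI N k, (Sum.inr () : Fin N ⊕ Unit) ∈ Set.range (ix N k (Sum.inr S)) := by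
    intro S
    refine ⟨Fin.last k, ?_⟩
    show Fin.snoc (α := fun _ => Fin N ⊕ Unit) (fun i => Sum.inl (S.1 i)) (Sum.inr ())
      (Fin.last k) = _
    rw [Fin.snoc_last]
  have hn : ∀ S : PI N (k + 1), (Sum.inr () : Fin N ⊕ Unit) ∉
      Set.range (ix N k (Sum.inl S)) := by
    rintro S ⟨a, ha⟩
    have ha' : (Sum.inl (S.1 a) : Fin N ⊕ Unit) = Sum.inr () := ha
    exact absurd ha' (by simp)
  rcases p with S | S <;> rcases q with S' | S'
  · have h1 : Set.range S.1 = Set.range S'.1 := by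
      ext x
      rw [← hl S x, ← hl S' x, h]
    have h2 := (StrictMono.range_inj (Wdv_sm N (k + 1) S) (Wdv_sm N (k + 1) S')).1 h1
    rw [Subtype.ext h2]
  · exact absurd (h ▸ hu S') (hn S)
  · exact absurd (h.symm ▸ hu S) (hn S')
  · have h1 : Set.range S.1 = Set.range S'.1 := by
      ext x
      rw [← hr S x, ← hr S' x, h]
    have h2 := (StrictMono.range_inj (Wdv_sm N k S) (Wdv_sm N k S')).1 h1
    rw [Subtype.ext h2]

private lemma Wdv_basis (N k : ℕ) (p : PI N (k + 1) ⊕ PI N k) :
    wdv N k (fun i => Pi.single (ix N k p i) 1) = Pi.single p 1 := by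
  funext q
  by_cases hpq : q = p
  · subst hpq
    rw [Pi.single_eq_same, wdv]
    have h1 : (Matrix.of fun i j : Fin (k + 1) =>
        (Pi.single (ix N k q i) (1 : ℂ) : Fin N ⊕ Unit → ℂ) (ix N k q j)) = 1 := by
      ext i j
      rw [Matrix.of_apply]
      by_cases hij : i = j
      · subst hij
        rw [Pi.single_eq_same, Matrix.one_apply_eq]
      · rw [Pi.single_eq_of_ne (fun hh => hij (Wdv_inj N k q hh).symm), Matrix.one_apply_ne hij]
    rw [h1, Matrix.det_one]
  · rw [Pi.single_eq_of_ne hpq, wdv]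
    have h1 : ∃ i, ix N k p i ∉ Set.range (ix N k q) := by
      by_contra hcon
      push Not at hcon
      apply hpq
      symm
      apply Wdv_range
      have hsub : Set.range (ix N k p) ⊆ Set.range (ix N k q) := by
        rintro _ ⟨i, rfl⟩
        exact hcon i
      apply Set.eq_of_subset_of_ncard_le hsub _ (Set.finite_range _)
      rw [← Set.image_univ, ← Set.image_univ, Set.ncard_image_of_injective _ (Wdv_inj N k p),
        Set.ncard_image_of_injective _ (Wdv_inj N k q)]
    obtain ⟨i, hi⟩ := h1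
    apply Matrix.det_eq_zero_of_row_eq_zero i
    intro j
    rw [Matrix.of_apply, Pi.single_eq_of_ne]
    intro hh
    exact hi ⟨j, hh⟩

private lemma Wdv_single (N k : ℕ) (g : Matrix (Fin N ⊕ Unit) (Fin N ⊕ Unit) ℂ)
    (p q : PI N (k + 1) ⊕ PI N k) :
    wdv N k (fun i => g.mulVec (Pi.single (ix N k q i) 1)) p = ek N k g p q := by
  rw [wdv, ek, Matrix.of_apply, ← Matrix.det_transpose]
  apply congrArg
  ext i j
  rw [Matrix.transpose_apply, Matrix.of_apply, Matrix.mulVec_single_one, Matrix.submatrix_apply]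
  rfl

private lemma Wdv_act (h1 : St_Lap) (N k : ℕ) (g : Matrix (Fin N ⊕ Unit) (Fin N ⊕ Unit) ℂ)
    (X : Fin (k + 1) → Fin N ⊕ Unit → ℂ) :
    wdv N k (fun i => g.mulVec (X i)) = (ek N k g).mulVec (wdv N k X) := by
  have h2 := h1 N k _ ((Wdv_alt N k).compLinearMap (Matrix.mulVecLin g)) X
  rw [AlternatingMap.compLinearMap_apply] at h2
  have h3 : wdv N k (fun i => g.mulVec (X i)) =
      Wdv_alt N k (fun i => (Matrix.mulVecLin g) (X i)) := (Wdv_alt_apply N k _).symm
  rw [h3]
  refine Eq.trans h2 ?_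
  funext p
  rw [Finset.sum_apply, Matrix.mulVec, dotProduct]
  refine Finset.sum_congr rfl fun q _ => ?_
  rw [Pi.smul_apply, AlternatingMap.compLinearMap_apply, smul_eq_mul, mul_comm]
  congr 1
  exact (congrFun (Wdv_alt_apply N k _) p).trans (Wdv_single N k g p q)

theorem thm_Wdv (h1 : St_Lap) : St_Wdv := by
  intro N k
  refine ⟨⟨Wdv_alt N k, Wdv_alt_apply N k⟩, Wdv_basis N k, Wdv_act h1 N k, ?_, ?_⟩
  · intro X
    funext p
    rw [wdv, wdv]
    have h2 := RingHom.map_det (starRingEnd ℂ) (Matrix.of fun i j => X i (ix N k p j))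
    rw [h2]
    rfl
  · intro g h
    ext p q
    have h2 : (ek N k (g * h)).mulVec (Pi.single q 1) =
        (ek N k g * ek N k h).mulVec (Pi.single q 1) := by
      rw [← Wdv_basis N k q, ← Wdv_act h1, ← Matrix.mulVec_mulVec, ← Wdv_act h1, ← Wdv_act h1]
      simp only [Matrix.mulVec_mulVec]
    have h3 := congrFun h2 p
    rw [Matrix.mulVec_single_one, Matrix.mulVec_single_one] at h3
    exact h3

end DWZ
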