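import Pool.Agent.DWY.All
import Pool.Agent.DWZ.Abar
import Pool.Agent.DWZ.Abet
import Pool.Agent.DWZ.Acl
import Pool.Agent.DWZ.Act
import Pool.Agent.DWZ.AdR
import Pool.Agent.DWZ.Blk
import Pool.Agent.DWZ.Cmp
import Pool.Agent.DWZ.CmsG
import Pool.Agent.DWZ.CmsK
import Pool.Agent.DWZ.CocZ
import Pool.Agent.DWZ.CoreZ
import Pool.Agent.DWZ.DCt
import Pool.Agent.DWZ.DelZ
import Pool.Agent.DWZ.DetZ
import Pool.Agent.DWZ.ExiZ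
import Pool.Agent.DWZ.FEnd
import Pool.Agent.DWZ.HatZ
import Pool.Agent.DWZ.HodZ
import Pool.Agent.DWZ.IndZ
import Pool.Agent.DWZ.Lap
import Pool.Agent.DWZ.LinZ
import Pool.Agent.DWZ.NFN
import Pool.Agent.DWZ.OpZ
import Pool.Agent.DWZ.RelZ
import Pool.Agent.DWZ.RhoZ
import Pool.Agent.DWZ.Rmv
import Pool.Agent.DWZ.SieZ
import Pool.Agent.DWZ.UEz
import Pool.Agent.DWZ.UnR
import Pool.Agent.DWZ.Wdv

/-!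
# DWZ: assembly
-/

set_option autoImplicit false

namespace DWZ

namespace All

theorem Lap_ : St_Lap := thm_Lap
theorem Wdv_ : St_Wdv := thm_Wdv Lap_
theorem Blk_ : St_Blk := thm_Blk
theorem Cmp_ : St_Cmp := thm_Cmp Wdv_ Blk_
theorem Act_ : St_Act := thm_Act Wdv_
theorem Rmv_ : St_Rmv := thm_Rmv Wdv_ Blk_ Cmp_
theorem DCt_ : St_DCt := thm_DCt Cmp_ Blk_
theorem UEz_ : St_UEz := thm_UEz Wdv_ Blk_
theorem DetZ_ : St_DetZ := thm_DetZ Wdv_ Blk_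
theorem UnR_ : St_UnR := thm_UnR Rmv_
theorem RhoZ_ : St_RhoZ := thm_RhoZ Wdv_ Blk_ Rmv_ UEz_
theorem DelZ_ : St_DelZ := thm_DelZ DWY.All.DelF_ DWY.All.DelL_ RhoZ_
theorem CmsG_ : St_CmsG := thm_CmsG Act_ Wdv_ Blk_
theorem CmsK_ : St_CmsK := thm_CmsK Wdv_
theorem CocZ_ : St_CocZ := thm_CocZ Act_ Wdv_ Blk_
theorem SieZ_ : St_SieZ := thm_SieZ DWY.All.TorQ_ RhoZ_ UEz_
theorem RelZ_ : St_RelZ := thm_RelZ SieZ_ RhoZ_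
theorem CoreZ_ : St_CoreZ := thm_CoreZ RelZ_ DelZ_ DWY.All.DelQ_ RhoZ_ UEz_
theorem IndZ_ : St_IndZ := thm_IndZ CoreZ_ RhoZ_
theorem LinZ_ : St_LinZ := thm_LinZ Rmv_ UnR_
theorem HatZ_ : St_HatZ := thm_HatZ Cmp_ Rmv_ DCt_
theorem OpZ_ : St_OpZ := thm_OpZ DWY.All.HatX_ DWY.All.HatU_ CocZ_ CmsG_ CmsK_ IndZ_ LinZ_ HatZ_
  DWC.All.CoreH_ DWC.All.CocK_ DWC.All.LatK_ UEz_ DetZ_ DWY.All.HopG_ DCt_
theorem NFN_ : St_NFN := thm_NFN DWC.All.NFK_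
theorem ExiZ_ : St_ExiZ := thm_ExiZ NFN_ DWC.All.LatK_ CmsK_ CmsG_ UEz_ DWY.All.NSX_ DWY.All.ExM_
  OpZ_ HatZ_ DWY.All.NSY_ DWY.All.XXJ_
theorem Acl_ : St_Acl := thm_Acl Lap_ Wdv_ DWY.All.CxA_
theorem Abar_ : St_Abar := thm_Abar Wdv_ DWY.All.CxA_
theorem Abet_ : St_Abet := thm_Abet Wdv_ Act_ DWY.All.CxA_
theorem AdR_ : St_AdR := thm_AdR Wdv_ Blk_ Cmp_ DWY.All.CxA_
theorem FEnd_ : St_FEnd := thm_FEnd Cmp_ DWY.All.CxA_ DCt_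
theorem HodZ_ : St_HodZ := thm_HodZ ExiZ_ Acl_ Abar_ Abet_ AdR_ FEnd_ DWY.All.CxA_ Wdv_

end All

end DWZ
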