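import Pool.Agent.DWY.StC

/-!
# DWZ: exterior powers of Weil structures of signature (N, 1) (definitions)

`N + 1` is the dimension of the abelian variety, `N` the dimension of the ball, `k + 1` the degree
of the exterior power. The coordinates of the exterior power are indexed by the increasing maps
`Fin (k + 1) → Fin N` and `Fin k → Fin N` (the last vector is the one with index `Unit`).
-/

set_option autoImplicit false

namespace DWZ

open scoped ComplexConjugate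
open GAM (H E F pd pdl PLat IsTh OddTor IsDel Gro IsLat)
open PST DWC DWY
open Pool.Agent.GPC (AbVar hermForm bilForm)

section ext

/-- Increasing maps. -/
abbrev PI (N j : ℕ) : Type := {f : Fin j → Fin N // ∀ a b, a < b → f a < f b}

/-- Coordinates of the abelian variety. -/
abbrev IX (N : ℕ) : Type := Ix (Fin N) Unit Unit

/-- Coordinates of the exterior power. -/
abbrev IY (N k : ℕ) : Type := Ix (PI N (k + 1)) (PI N k) Unit

/-- Coordinates of the ball. -/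
abbrev WX (N : ℕ) : Type := Fin N × Unit

/-- Coordinates of the domain of the exterior power. -/
abbrev WY (N k : ℕ) : Type := PI N (k + 1) × PI N k

/-- The indices of the basis vectors of the exterior power. -/
def ix (N k : ℕ) : PI N (k + 1) ⊕ PI N k → Fin (k + 1) → Fin N ⊕ Unit :=
  Sum.elim (fun S i => Sum.inl (S.1 i))
    (fun S => Fin.snoc (α := fun _ => Fin N ⊕ Unit) (fun i => Sum.inl (S.1 i)) (Sum.inr ()))

/-- The exterior product of `k + 1` vectors. -/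
def wdv (N k : ℕ) (X : Fin (k + 1) → Fin N ⊕ Unit → ℂ) (p : PI N (k + 1) ⊕ PI N k) : ℂ :=
  (Matrix.of fun i j => X i (ix N k p j)).det

/-- The exterior product in the coordinates `X`. -/
def wd (N k : ℕ) (X : Fin (k + 1) → IX N → ℂ) : IY N k → ℂ :=
  fun p => wdv N k (fun i s => X i (s, ())) p.1

/-- The exterior product in the coordinates `x`. -/
def we (N k : ℕ) (x : Fin (k + 1) → IX N → ℂ) : IY N k → ℂ := sw (wd N k fun i => sw (x i))

/-- The action of a matrix on the exterior power. -/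
def ek (N k : ℕ) (g : Matrix (Fin N ⊕ Unit) (Fin N ⊕ Unit) ℂ) :
    Matrix (PI N (k + 1) ⊕ PI N k) (PI N (k + 1) ⊕ PI N k) ℂ :=
  Matrix.of fun p q => (g.submatrix (ix N k p) (ix N k q)).det

/-- Compound matrices. -/
def cmp (N j : ℕ) (g : Matrix (Fin N) (Fin N) ℂ) : Matrix (PI N j) (PI N j) ℂ :=
  Matrix.of fun S S' => (g.submatrix S.1 S'.1).det

/-- The derivation of the exterior power defined by a matrix. -/
def dC (N j : ℕ) (P : Matrix (Fin N) (Fin N) ℂ) : Matrix (PI N j) (PI N j) ℂ :=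
  Matrix.of fun S S' => ∑ i, (((1 : Matrix (Fin N) (Fin N) ℂ).submatrix S.1 S'.1).updateCol i
    fun a => P (S.1 a) (S'.1 i)).det

/-- The matrix of `y ↦ y ∧ v`. -/
def rm (N k : ℕ) (v : Fin N → ℂ) : Matrix (PI N (k + 1)) (PI N k) ℂ :=
  Matrix.of fun S S' => (Matrix.of fun i j : Fin (k + 1) =>
    Fin.snoc (α := fun _ => ℂ) (fun i' : Fin k => if S'.1 i' = S.1 j then (1 : ℂ) else 0)
      (v (S.1 j)) i).det

/-- The embedding of the ball in the domain of the exterior power. -/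
def rho (N k : ℕ) (w : WX N → ℂ) : WY N k → ℂ := fun p => rm N k (fun i => w (i, ())) p.1 p.2

/-- The functions to which Siegel's lemma is applied. -/
noncomputable def YF (N k : ℕ) (θ : (IX N → ℂ) → ℂ) (θY : (IY N k → ℂ) → ℂ)
    (y : Option (WX N) → IX N → ℂ) (y' : Bool → IY N k → ℂ) (w : WX N → ℂ) :
    Option (Option (WX N)) → ℂ
  | some i => psi θ w (y i) * psi θY (rho N k w) (y' false)
  | none => psi θ w (y none) * psi θY (rho N k w) (y' true)

/-- The exterior product maps `L ^ (k + 1)` to `s⁻¹ LY`, and generates a sublattice of finite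
index. -/
structure Cms (N k : ℕ) (s : ℝ) (M : ℕ) (L : Submodule ℤ (IX N → ℂ))
    (LY : Submodule ℤ (IY N k → ℂ)) : Prop where
  s0 : s ≠ 0
  m0 : M ≠ 0
  into : ∀ l : Fin (k + 1) → IX N → ℂ, (∀ i, l i ∈ L) → (s : ℂ) • we N k l ∈ LY
  onto : ∀ y ∈ LY, (M : ℤ) • y ∈ Submodule.span ℤ
    {v : IY N k → ℂ | ∃ l : Fin (k + 1) → IX N → ℂ, (∀ i, l i ∈ L) ∧ v = (s : ℂ) • we N k l}

/-- Cocompactness up to half planes, for the pair of lattices. -/
def CocP (N k : ℕ) (e : ℕ) (L : Submodule ℤ (IX N → ℂ)) (LY : Submodule ℤ (IY N k → ℂ)) : Prop :=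
  ∀ n : ℕ, n ≠ 0 → ∃ (K : Set (WX N → ℂ)) (C : ℝ), IsCompact K ∧ K.Nonempty ∧
    K ⊆ Om (Fin N) Unit ∧
    ∀ p ∈ K, ∃ U ∈ nhds p, ∀ w ∈ U, ∃ z : ℂ → WX N → ℂ, z Complex.I = w ∧
      DifferentiableOn ℂ z {t | 0 < t.im} ∧ ContinuousOn z {t | 0 ≤ t.im} ∧
      (∀ t : ℂ, 0 ≤ t.im → ∃ ρ : ℝ, 0 ≤ ρ ∧ ρ < 1 ∧ z t ∈ OmC (Fin N) Unit ρ ∧
        1 ≤ C * (1 - ρ) * (1 + ‖t‖) ^ 2) ∧
      ∀ t : ℝ, ∃ g : Matrix (Fin N ⊕ Unit) (Fin N ⊕ Unit) ℂ, Gam e n L g ∧
        (∀ x : IY N k → ℂ, x ∈ LY ↔ act (ek N k g) x ∈ LY) ∧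
        (∀ l ∈ LY, ∃ m ∈ LY, act (ek N k g) l = l + (n : ℤ) • m) ∧ mob g (z t) ∈ K

/-- The numbers `r` of the exterior power. -/
noncomputable def rY (N k : ℕ) (d : ℚ) (r : Fin N ⊕ Unit → ℝ) : PI N (k + 1) ⊕ PI N k → ℝ :=
  fun p => d4 d ^ k * ∏ i, r (ix N k p i)

/-- The numbers `q` of the exterior power. -/
def qY (N k : ℕ) (d : ℚ) (q : Fin N ⊕ Unit → ℚ) : PI N (k + 1) ⊕ PI N k → ℚ :=
  fun p => (∏ i, q (ix N k p i)) / d ^ k

/-- The difference of the vector fields on the domain of the exterior power, along the ball. -/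
noncomputable def vY (N k : ℕ) (Bp : Matrix (Fin N) (Fin N) ℂ) (Bm : Matrix Unit Unit ℂ)
    (c b : Matrix (Fin N) Unit ℂ) (BpY : Matrix (PI N (k + 1)) (PI N (k + 1)) ℂ)
    (BmY : Matrix (PI N k) (PI N k) ℂ) (cY bY : Matrix (PI N (k + 1)) (PI N k) ℂ) (w : WX N → ℂ)
    (p : WY N k) : ℂ :=
  xi BpY BmY cY (rho N k w) p + bY p.1 p.2 -
    rho N k (fun q => xi Bp Bm c w q + b q.1 q.2) p

/-- The matrix `T^+` of the exterior power. -/
noncomputable def TpY (N k : ℕ) (μ : ℂ) (Tp : Matrix (Fin N) (Fin N) ℂ) :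
    Matrix (PI N (k + 1)) (PI N (k + 1)) ℂ := (μ ^ k) • cmp N (k + 1) Tp

/-- The matrix `T^-` of the exterior power. -/
noncomputable def TmY (N k : ℕ) (μ : ℂ) (Tp : Matrix (Fin N) (Fin N) ℂ)
    (Tm : Matrix Unit Unit ℂ) : Matrix (PI N k) (PI N k) ℂ :=
  ((μ⁻¹) ^ k * Tm () ()) • ((cmp N k Tp)⁻¹).transpose

/-- The bilinear form with the matrix `diag (1, -1)`. -/
def blv (N k : ℕ) (P Q : PI N (k + 1) ⊕ PI N k → ℂ) : ℂ :=
  (∑ S, P (Sum.inl S) * Q (Sum.inl S)) - ∑ S, P (Sum.inr S) * Q (Sum.inr S)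

end ext

end DWZ
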