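import Pool.Agent.DWZ.StC
import Pool.Agent.PST.UGr
import Pool.Agent.PST.MapE
import Pool.Agent.GAM.ThEx

/-!
# DWZ [ExiZ]: existence of the abelian variety of the exterior power
-/

set_option autoImplicit false

namespace DWZ

open scoped ComplexConjugate
open GAM (H E F pd pdl PLat IsTh OddTor IsDel Gro IsLat)
open PST DWC DWY
open Pool.Agent.GPC (AbVar hermForm bilForm)

/-- transport of a lattice, with its stability -/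
private theorem ExiZ_tr {α β : Type} [Fintype α] [Fintype β] [DecidableEq α] [DecidableEq β]
    (d : ℚ) (N : ℕ) (g : Matrix (α ⊕ β) (α ⊕ β) ℂ) (L₁ : Submodule ℤ (Ix α β Unit → ℂ))
    (χ₁ : (Ix α β Unit → ℂ) → ℂ) (hg : IsU g) (hP₁ : PLat L₁ χ₁) (hK₁ : KL d N L₁) :
    ∃ (L₀ : Submodule ℤ (Ix α β Unit → ℂ)) (χ₀ : (Ix α β Unit → ℂ) → ℂ), PLat L₀ χ₀ ∧
      Maps g L₁ L₀ χ₁ χ₀ ∧ KL d N L₀ := by
  obtain ⟨-, u2, u3, -, -, u6, -⟩ := thm_UGr α β Unit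
  obtain ⟨hiU, hig, hgi, -, -⟩ := u6 g hg
  obtain ⟨gi, hgie⟩ : ∃ gi, gi = Jm α β * g.conjTranspose * Jm α β := ⟨_, rfl⟩
  rw [← hgie] at hiU hig hgi
  have e1 : ∀ x : Ix α β Unit → ℂ, act gi (act g x) = x := fun x => by rw [← u2, hig, u3]
  obtain ⟨L₀, χ₀, hP₀, hM'⟩ := thm_MapE thm_UGr α β Unit gi L₁ χ₁ hiU hP₁
  refine ⟨L₀, χ₀, hP₀, ⟨hg, fun x => ?_, fun l hl => ?_⟩, ?_⟩
  · rw [hM'.lat (act g x), e1]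
  · have h11 : act g l ∈ L₀ := by rw [hM'.lat, e1]; exact hl
    have h12 := hM'.chi (act g l) h11
    rw [e1] at h12
    exact h12.symm
  · intro l hl
    rw [hM'.lat] at hl ⊢
    have h11 : act gi (act (kap α β d N) l) = act (kap α β d N) (act gi l) := by
      rw [← u2, ← u2, kap, Matrix.mul_smul, Matrix.smul_mul, Matrix.mul_one, Matrix.one_mul]
    rw [h11]
    exact hK₁ _ hl

theorem thm_ExiZ (h1 : St_NFN) (h2 : DWC.St_LatK) (h3 : St_CmsK) (h4 : St_CmsG) (h5 : St_UEz)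
    (h6 : DWY.St_NSX) (h7 : DWY.St_ExM) (h8 : St_OpZ) (h9 : St_HatZ) (h10 : DWY.St_NSY)
    (h11 : DWY.St_XXJ) : St_ExiZ := by
  intro X d J N k hk hX hJ hz
  have hd := hJ.pos
  obtain ⟨T, S, Tp, Tm, Ta, g, r, q, hN⟩ := h1 X d J N hX hJ hz
  obtain ⟨hR', hC₁⟩ := h3 N k d r q hN.isR
  obtain ⟨L₁, χ₁, N₁, hP₁, hL₁, hN₁, hK₁⟩ := h2 (Fin N) Unit d r q hN.isR
  obtain ⟨LY₁, χY₁, N₂, hPY₁, hLY₁, hN₂, hKY₁⟩ := h2 (PI N (k + 1)) (PI N k) d (rY N k d r)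
    (qY N k d q) hR'
  obtain ⟨n, M, hCms₁⟩ := hC₁ L₁ LY₁ hL₁ hLY₁
  obtain ⟨L₀, χ₀, hP₀, hM₀, hK₀⟩ := ExiZ_tr d N₁ g L₁ χ₁ hN.uni hP₁ hK₁
  obtain ⟨LY₀, χY₀, hPY₀, hMY₀, hKY₀⟩ := ExiZ_tr d N₂ (ek N k g) LY₁ χY₁ (h5 N k g hN.uni)
    hPY₁ hKY₁
  have hCms : Cms N k ((n : ℝ) * d4 d ^ k) M L₀ LY₀ :=
    h4 N k _ M g L₁ L₀ LY₁ LY₀ hN.uni hM₀.lat hMY₀.lat hCms₁
  obtain ⟨κ, hNX⟩ := h6 X d J (Fin N) Unit T S Tp Tm Ta g r q L₀ L₁ N₁ hJ hN hL₁ hM₀.lat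
    hN₁ hK₀
  obtain ⟨A, m, hm, hAm, hOp⟩ := h7 d hd
  obtain ⟨θY₀, hTY₀, hzY₀⟩ := GAM.thm_ThEx (IY N k) LY₀ χY₀ hPY₀
  have hop := h8 N k hk X d T S Tp Tm Ta (S * blk Unit Tp Tm) κ g r q L₀ L₁ χ₀ χ₁ LY₀ LY₁ χY₀
    χY₁ θY₀ A m hNX hN.isR hP₀ hP₁ hPY₀ hPY₁ hL₁ hLY₁ hM₀ hMY₀ hN.det hTY₀ hzY₀ hm hAm hOp
  obtain ⟨hdp, hdm, -, -, -⟩ := h9 N k 0 Tp Tm κ m 0 hN.dp hN.dm hm (by
    rw [Derivation.coe_zero, Pi.zero_apply, zero_mul])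
  obtain ⟨Y, T', S', Ta', Tb', hNY, hgY⟩ := h10 d (PI N (k + 1)) (PI N k) (TpY N k m Tp)
    (TmY N k m Tp Tm) (rm N k fun i => κ i ()) N₂ LY₀ χY₀ θY₀ hd hN₂ hKY₀ hPY₀ hTY₀ hzY₀ hdp
    hdm hop
  obtain ⟨hX3, hX4⟩ := h11 X d (Fin N) Unit T S Tp Tm Ta _ κ L₀ J hNX
    hP₀.basis hJ.endo hN.jj
  exact ⟨m, n, M, Y, T, S, Tp, Tm, Ta, _, κ, L₀, T', S', Ta', Tb', LY₀,
    { kN := hk
      m0 := hm
      nx := hNX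
      ny := hNY
      cms := hCms
      pl := ⟨χ₀, hP₀⟩
      plY := ⟨χY₀, hPY₀⟩
      jx := hX3
      jt := hX4 }⟩

end DWZ
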