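import Pool.Agent.DWZ.Defs

/-!
# DWZ: frozen statements, exterior algebra and lattices
-/

set_option autoImplicit false

namespace DWZ

open scoped ComplexConjugate
open GAM (H E F pd pdl PLat IsTh OddTor IsDel Gro IsLat Pre)
open PST DWC DWY
open Pool.Agent.GPC (AbVar hermForm bilForm)

/-! ## Part X. Exterior algebra -/

/-- [Lap] the vectors with index `p` form a basis of the exterior power: an alternating map is
determined by its values on them -/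
def St_Lap : Prop := ∀ (N k : ℕ) (W : Type) [AddCommGroup W] [Module ℂ W]
  (f : (Fin N ⊕ Unit → ℂ) [⋀^Fin (k + 1)]→ₗ[ℂ] W) (X : Fin (k + 1) → Fin N ⊕ Unit → ℂ),
  f X = ∑ p, wdv N k X p • f (fun i => Pi.single (ix N k p i) 1)

/-- [Wdv] `wdv` is alternating, its values on basis vectors, and the action of matrices -/
def St_Wdv : Prop := ∀ N k : ℕ,
  (∃ f : (Fin N ⊕ Unit → ℂ) [⋀^Fin (k + 1)]→ₗ[ℂ] (PI N (k + 1) ⊕ PI N k → ℂ),
    ∀ X, f X = wdv N k X) ∧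
  (∀ p, wdv N k (fun i => Pi.single (ix N k p i) 1) = Pi.single p 1) ∧
  (∀ (g : Matrix (Fin N ⊕ Unit) (Fin N ⊕ Unit) ℂ) (X : Fin (k + 1) → Fin N ⊕ Unit → ℂ),
    wdv N k (fun i => g.mulVec (X i)) = (ek N k g).mulVec (wdv N k X)) ∧
  (∀ X : Fin (k + 1) → Fin N ⊕ Unit → ℂ,
    wdv N k (fun i s => conj (X i s)) = fun p => conj (wdv N k X p)) ∧
  ∀ g h : Matrix (Fin N ⊕ Unit) (Fin N ⊕ Unit) ℂ, ek N k (g * h) = ek N k g * ek N k h

/-- [Cmp] compound matrices are multiplicative -/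
def St_Cmp : Prop := ∀ N j : ℕ,
  (∀ g h : Matrix (Fin N) (Fin N) ℂ, cmp N j (g * h) = cmp N j g * cmp N j h) ∧
  cmp N j 1 = 1 ∧ ∀ g : Matrix (Fin N) (Fin N) ℂ, cmp N j g.transpose = (cmp N j g).transpose

/-- [Blk] the exterior power of block matrices -/
def St_Blk : Prop := ∀ N k : ℕ,
  ek N k (1 : Matrix (Fin N ⊕ Unit) (Fin N ⊕ Unit) ℂ) = 1 ∧
  (∀ (g : Matrix (Fin N) (Fin N) ℂ) (c : Matrix Unit Unit ℂ),
    ek N k (Matrix.fromBlocks g 0 0 c) =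
      Matrix.fromBlocks (cmp N (k + 1) g) 0 0 (c () () • cmp N k g)) ∧
  (∀ κ : Matrix (Fin N) Unit ℂ, ek N k (Matrix.fromBlocks 1 κ 0 1) =
    Matrix.fromBlocks 1 (rm N k fun i => κ i ()) 0 1) ∧
  (∀ κ : Matrix (Fin N) Unit ℂ, ek N k (Matrix.fromBlocks 1 0 κ.transpose 1) =
    Matrix.fromBlocks 1 0 (rm N k fun i => κ i ()).transpose 1) ∧
  (∀ g : Matrix (Fin N ⊕ Unit) (Fin N ⊕ Unit) ℂ,
    ek N k g.transpose = (ek N k g).transpose ∧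
    ek N k (g.map conj) = (ek N k g).map conj) ∧
  ek N k (Jm (Fin N) Unit) = Jm (PI N (k + 1)) (PI N k)

/-- [Act] the exterior power in the coordinates `x` -/
def St_Act : Prop := ∀ N k : ℕ,
  (∀ (g : Matrix (Fin N ⊕ Unit) (Fin N ⊕ Unit) ℂ) (X : Fin (k + 1) → IX N → ℂ),
    mu (ek N k g) (wd N k X) = wd N k fun i => mu g (X i)) ∧
  (∀ (g : Matrix (Fin N ⊕ Unit) (Fin N ⊕ Unit) ℂ) (x : Fin (k + 1) → IX N → ℂ),
    act (ek N k g) (we N k x) = we N k fun i => act g (x i)) ∧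
  (∀ (x : Fin (k + 1) → IX N → ℂ) (i : Fin (k + 1)) (y y' : IX N → ℂ),
    we N k (Function.update x i (y + y')) =
      we N k (Function.update x i y) + we N k (Function.update x i y')) ∧
  (∀ (x : Fin (k + 1) → IX N → ℂ) (i : Fin (k + 1)) (r : ℝ) (y : IX N → ℂ),
    we N k (Function.update x i ((r : ℂ) • y)) = (r : ℂ) • we N k (Function.update x i y)) ∧
  ∀ x : Fin (k + 1) → IX N → ℂ, sw (we N k x) = wd N k fun i => sw (x i)

/-- [Rmv] the maps `y ↦ y ∧ v` -/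
def St_Rmv : Prop := ∀ N k : ℕ,
  (∀ v v' : Fin N → ℂ, rm N k (v + v') = rm N k v + rm N k v') ∧
  (∀ (c : ℂ) (v : Fin N → ℂ), rm N k (c • v) = c • rm N k v) ∧
  (∀ (g : Matrix (Fin N) (Fin N) ℂ) (v : Fin N → ℂ),
    cmp N (k + 1) g * rm N k v = rm N k (g.mulVec v) * cmp N k g) ∧
  (∀ (P : Matrix (Fin N) (Fin N) ℂ) (v : Fin N → ℂ),
    dC N (k + 1) P * rm N k v = rm N k (P.mulVec v) + rm N k v * dC N k P) ∧
  (∀ v c : Fin N → ℂ, rm N k v * (rm N k c).transpose * rm N k v =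
    (∑ i, c i * v i) • rm N k v) ∧
  (∀ v c : Fin N → ℂ, (rm N k c).transpose * rm N k v =
    (∑ i, c i * v i) • (1 : Matrix (PI N k) (PI N k) ℂ) - dC N k (Matrix.vecMulVec v c)) ∧
  (∀ v c : Fin N → ℂ, dC N (k + 1) (Matrix.vecMulVec v c) =
    rm N k v * (rm N k c).transpose) ∧
  (∀ v : Fin N → ℂ, rm N (k + 1) v * rm N k v = 0) ∧
  ∀ (δ : Derivation ℚ ℂ ℂ) (v : Fin N → ℂ), (rm N k v).map δ = rm N k fun i => δ (v i)

/-- [DCt] the derivation of the exterior power: traces, and the derivative of compound matrices -/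
def St_DCt : Prop := ∀ N k : ℕ,
  (∀ P : Matrix (Fin N) (Fin N) ℂ, (dC N (k + 1) P).trace + (dC N k P).trace =
    Fintype.card (PI N k) * P.trace) ∧
  (((k + 1 : ℕ) : ℂ) * Fintype.card (PI N (k + 1)) + (k : ℂ) * Fintype.card (PI N k) =
    (N : ℂ) * Fintype.card (PI N k)) ∧
  ∀ (δ : Derivation ℚ ℂ ℂ) (g : Matrix (Fin N) (Fin N) ℂ), g.det ≠ 0 →
    (cmp N k g).det ≠ 0 ∧ (cmp N k g)⁻¹ = cmp N k g⁻¹ ∧
    cmp N k g * (cmp N k g)⁻¹.map δ = dC N k (g * g⁻¹.map δ)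

/-- [UEz] the exterior power of the unitary group -/
def St_UEz : Prop := ∀ (N k : ℕ) (g : Matrix (Fin N ⊕ Unit) (Fin N ⊕ Unit) ℂ), IsU g →
  IsU (ek N k g)

/-- [DetZ] the determinant of the exterior power -/
def St_DetZ : Prop := ∀ (N k : ℕ) (g : Matrix (Fin N ⊕ Unit) (Fin N ⊕ Unit) ℂ), g.det = 1 →
  (ek N k g).det = 1

/-- [UnR] uniqueness in the linear equations of the exterior power -/
def St_UnR : Prop := ∀ N k : ℕ, k < N →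
  (∀ (A : Matrix (PI N (k + 1)) (PI N (k + 1)) ℂ) (B : Matrix (PI N k) (PI N k) ℂ),
    (∀ v : Fin N → ℂ, A * rm N k v + rm N k v * B = 0) →
      ∃ a : ℂ, A = a • (1 : Matrix (PI N (k + 1)) (PI N (k + 1)) ℂ) ∧
        B = (-a) • (1 : Matrix (PI N k) (PI N k) ℂ)) ∧
  ∀ M : Matrix (PI N k) (PI N (k + 1)) ℂ,
    (∀ v : Fin N → ℂ, rm N k v * M * rm N k v = 0) → M = 0

/-- [RhoZ] the embedding of the ball -/
def St_RhoZ : Prop := ∀ N k : ℕ,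
  (∀ ρ : ℝ, 0 ≤ ρ → ∀ w ∈ OmC (Fin N) Unit ρ, rho N k w ∈ OmC (PI N (k + 1)) (PI N k) ρ) ∧
  (∀ w ∈ Om (Fin N) Unit, rho N k w ∈ Om (PI N (k + 1)) (PI N k)) ∧
  (∀ g : Matrix (Fin N ⊕ Unit) (Fin N ⊕ Unit) ℂ, IsU g → ∀ w ∈ Om (Fin N) Unit,
    mob (ek N k g) (rho N k w) = rho N k (mob g w)) ∧ rho N k 0 = 0 ∧
  ∃ M : Matrix (WY N k) (WX N) ℂ, (∀ i j, IsAlgebraic ℚ (M i j)) ∧
    ∀ w, rho N k w = M.mulVec w

/-- [DelZ] the action of `δ` on the functions `YF` -/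
def St_DelZ : Prop := ∀ (N k : ℕ) (δ : Derivation ℚ ℂ ℂ) (L : Submodule ℤ (IX N → ℂ))
  (χ θ : (IX N → ℂ) → ℂ) (LY : Submodule ℤ (IY N k → ℂ)) (χY θY : (IY N k → ℂ) → ℂ) (k₀ : ℂ)
  (Bp : Matrix (Fin N) (Fin N) ℂ) (Bm : Matrix Unit Unit ℂ) (c b : Matrix (Fin N) Unit ℂ)
  (k' : ℂ) (BpY : Matrix (PI N (k + 1)) (PI N (k + 1)) ℂ) (BmY : Matrix (PI N k) (PI N k) ℂ)
  (cY bY : Matrix (PI N (k + 1)) (PI N k) ℂ), PLat L χ → IsTh L χ θ → PLat LY χY →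
  IsTh LY χY θY → HasHat2 δ L θ k₀ Bp Bm c b → HasHat2 δ LY θY k' BpY BmY cY bY →
  ∃ (K : (WX N → ℂ) → ℂ) (Ξ : WX N → (WX N → ℂ) → ℂ),
    ∀ (y : Option (WX N) → IX N → ℂ) (y' : Bool → IY N k → ℂ), (∀ i, OddTor L (y i)) →
    (∀ i, OddTor LY (y' i)) → ∀ o, IsDelG δ (fun w => YF N k θ θY y y' w o) (fun w =>
      K w * YF N k θ θY y y' w o + ∑ p, Ξ p w * pd p (fun w => YF N k θ θY y y' w o) w +
        psi θ w (y (o.getD none)) * ∑ p, vY N k Bp Bm c b BpY BmY cY bY w p *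
          pd p (fun u => psi θY u (y' o.isNone)) (rho N k w))

/-! ## Part C. Lattices -/

/-- [CmsG] transport of the pair of lattices -/
def St_CmsG : Prop := ∀ (N k : ℕ) (s : ℝ) (M : ℕ)
  (g : Matrix (Fin N ⊕ Unit) (Fin N ⊕ Unit) ℂ) (L₁ L₀ : Submodule ℤ (IX N → ℂ))
  (LY₁ LY₀ : Submodule ℤ (IY N k → ℂ)), IsU g →
  (∀ x, x ∈ L₁ ↔ act g x ∈ L₀) → (∀ x, x ∈ LY₁ ↔ act (ek N k g) x ∈ LY₀) →
  Cms N k s M L₁ LY₁ → Cms N k s M L₀ LY₀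

/-- [CmsK] the lattices of the CM point -/
def St_CmsK : Prop := ∀ (N k : ℕ) (d : ℚ) (r : Fin N ⊕ Unit → ℝ) (q : Fin N ⊕ Unit → ℚ),
  IsR d r q → IsR d (rY N k d r) (qY N k d q) ∧
  ∀ (L : Submodule ℤ (IX N → ℂ)) (LY : Submodule ℤ (IY N k → ℂ)), IsLK d r q L →
    IsLK d (rY N k d r) (qY N k d q) LY → ∃ n M : ℕ, Cms N k ((n : ℝ) * d4 d ^ k) M L LY

/-- [CocZ] cocompactness up to half planes for the pair -/
def St_CocZ : Prop := ∀ (N k : ℕ) (e : ℕ) (s : ℝ) (M : ℕ) (L : Submodule ℤ (IX N → ℂ))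
  (LY : Submodule ℤ (IY N k → ℂ)), Cms N k s M L LY → CocH e L → CocP N k e L LY

end DWZ
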