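import Pool.Agent.DWZ.StA

/-!
# DWZ: frozen statements, the algebraic relation and the operator of the exterior power
-/

set_option autoImplicit false

namespace DWZ

open scoped ComplexConjugate
open GAM (H E F pd pdl PLat IsTh OddTor IsDel Gro IsLat Pre)
open PST DWC DWY
open Pool.Agent.GPC (AbVar hermForm bilForm)

/-! ## Part D. The algebraic relation -/

/-- [SieZ] existence of an algebraic relation -/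
def St_SieZ : Prop := ∀ (N k : ℕ) (L : Submodule ℤ (IX N → ℂ)) (χ θ : (IX N → ℂ) → ℂ)
  (LY : Submodule ℤ (IY N k → ℂ)) (χY θY : (IY N k → ℂ) → ℂ) (e : ℕ)
  (y : Option (WX N) → IX N → ℂ) (y' : Bool → IY N k → ℂ), PLat L χ → IsTh L χ θ →
  (∃ v, θ v ≠ 0) → PLat LY χY → IsTh LY χY θY → (∃ v, θY v ≠ 0) → CocP N k e L LY →
  (∀ i, OddTor L (y i)) → (∀ i, OddTor LY (y' i)) →
  ∃ (m : ℕ) (P : MvPolynomial (Option (Option (WX N))) ℂ), P ≠ 0 ∧ P.IsHomogeneous m ∧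
    ∀ w ∈ Om (Fin N) Unit, MvPolynomial.eval (fun i => YF N k θ θY y y' w i) P = 0

/-- [RelZ] the algebraic relation -/
def St_RelZ : Prop := ∀ (N k : ℕ) (L : Submodule ℤ (IX N → ℂ)) (χ θ : (IX N → ℂ) → ℂ)
  (LY : Submodule ℤ (IY N k → ℂ)) (χY θY : (IY N k → ℂ) → ℂ) (e : ℕ)
  (y : Option (WX N) → IX N → ℂ) (y' : Bool → IY N k → ℂ), PLat L χ → IsTh L χ θ →
  (∃ v, θ v ≠ 0) → PLat LY χY → IsTh LY χY θY → (∃ v, θY v ≠ 0) → CocP N k e L LY →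
  (∀ i, OddTor L (y i)) → (∀ i, OddTor LY (y' i)) → psi θY 0 (y' false) ≠ 0 →
  (Matrix.of fun i j : Option (WX N) =>
    Option.elim j (F θ (y i) 0) fun p => Dij p (F θ (y i)) 0).det ≠ 0 →
  ∃ (m : ℕ) (P : MvPolynomial (Option (Option (WX N))) ℂ), P.IsHomogeneous m ∧
    (∀ w ∈ Om (Fin N) Unit, MvPolynomial.eval (fun i => YF N k θ θY y y' w i) P = 0) ∧
    ∃ w ∈ Om (Fin N) Unit, MvPolynomial.eval (fun i => YF N k θ θY y y' w i)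
      (MvPolynomial.pderiv none P) ≠ 0

/-- The data of the comparison: the lattice `L₀`, the lattice `L₁` of a point with complex
multiplication, their exterior powers, and operators. -/
structure CoD (N k : ℕ) (δ : Derivation ℚ ℂ ℂ) (g : Matrix (Fin N ⊕ Unit) (Fin N ⊕ Unit) ℂ)
    (L₀ L₁ : Submodule ℤ (IX N → ℂ)) (χ₀ θ₀ χ₁ θ₁ : (IX N → ℂ) → ℂ)
    (LY₀ LY₁ : Submodule ℤ (IY N k → ℂ)) (χY₀ θY₀ χY₁ θY₁ : (IY N k → ℂ) → ℂ) (e : ℕ)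
    (A k₀ kY₀ k₁ kY₁ : ℂ) (Bp : Matrix (Fin N) (Fin N) ℂ) (Bm : Matrix Unit Unit ℂ)
    (c b : Matrix (Fin N) Unit ℂ) (BpY : Matrix (PI N (k + 1)) (PI N (k + 1)) ℂ)
    (BmY : Matrix (PI N k) (PI N k) ℂ) (cY bY : Matrix (PI N (k + 1)) (PI N k) ℂ) : Prop where
  pl₀ : PLat L₀ χ₀
  pl₁ : PLat L₁ χ₁
  plY₀ : PLat LY₀ χY₀
  plY₁ : PLat LY₁ χY₁
  th₀ : IsTh L₀ χ₀ θ₀
  th₁ : IsTh L₁ χ₁ θ₁
  thY₀ : IsTh LY₀ χY₀ θY₀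
  thY₁ : IsTh LY₁ χY₁ θY₁
  nz₀ : ∃ v, θ₀ v ≠ 0
  nz₁ : ∃ v, θ₁ v ≠ 0
  nzY₀ : ∃ v, θY₀ v ≠ 0
  nzY₁ : ∃ v, θY₁ v ≠ 0
  maps : Maps g L₁ L₀ χ₁ χ₀
  mapsY : Maps (ek N k g) LY₁ LY₀ χY₁ χY₀
  coc : CocP N k e L₀ LY₀
  op₀ : HasHat2 δ L₀ θ₀ k₀ Bp Bm c b
  opY₀ : HasHat2 δ LY₀ θY₀ kY₀ BpY BmY cY bY
  op₁ : HasHat δ L₁ θ₁ k₁ (A • (1 : Matrix (Fin N) (Fin N) ℂ)) (A • (1 : Matrix Unit Unit ℂ)) 0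
  opY₁ : HasHat δ LY₁ θY₁ kY₁ (A • (1 : Matrix (PI N (k + 1)) (PI N (k + 1)) ℂ))
    (A • (1 : Matrix (PI N k) (PI N k) ℂ)) 0

/-- [CoreZ] the core theorem for the exterior power -/
def St_CoreZ : Prop := ∀ (N k : ℕ) (δ : Derivation ℚ ℂ ℂ)
  (g : Matrix (Fin N ⊕ Unit) (Fin N ⊕ Unit) ℂ) (L₀ L₁ : Submodule ℤ (IX N → ℂ))
  (χ₀ θ₀ χ₁ θ₁ : (IX N → ℂ) → ℂ) (LY₀ LY₁ : Submodule ℤ (IY N k → ℂ))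
  (χY₀ θY₀ χY₁ θY₁ : (IY N k → ℂ) → ℂ) (e : ℕ) (A k₀ kY₀ k₁ kY₁ : ℂ)
  (Bp : Matrix (Fin N) (Fin N) ℂ) (Bm : Matrix Unit Unit ℂ) (c b : Matrix (Fin N) Unit ℂ)
  (BpY : Matrix (PI N (k + 1)) (PI N (k + 1)) ℂ) (BmY : Matrix (PI N k) (PI N k) ℂ)
  (cY bY : Matrix (PI N (k + 1)) (PI N k) ℂ) (y' : Bool → IY N k → ℂ),
  CoD N k δ g L₀ L₁ χ₀ θ₀ χ₁ θ₁ LY₀ LY₁ χY₀ θY₀ χY₁ θY₁ e A k₀ kY₀ k₁ kY₁ Bp Bm c b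
    BpY BmY cY bY →
  (∀ i, OddTor LY₀ (y' i)) → psi θY₀ 0 (y' false) ≠ 0 → ∀ᶠ w in nhds (0 : WX N → ℂ),
    psi θY₀ (rho N k w) (y' false) * ∑ p, vY N k Bp Bm c b BpY BmY cY bY w p *
        pd p (fun u => psi θY₀ u (y' true)) (rho N k w) =
      psi θY₀ (rho N k w) (y' true) * ∑ p, vY N k Bp Bm c b BpY BmY cY bY w p *
        pd p (fun u => psi θY₀ u (y' false)) (rho N k w)

/-- [IndZ] the vector fields agree -/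
def St_IndZ : Prop := ∀ (N k : ℕ) (δ : Derivation ℚ ℂ ℂ)
  (g : Matrix (Fin N ⊕ Unit) (Fin N ⊕ Unit) ℂ) (L₀ L₁ : Submodule ℤ (IX N → ℂ))
  (χ₀ θ₀ χ₁ θ₁ : (IX N → ℂ) → ℂ) (LY₀ LY₁ : Submodule ℤ (IY N k → ℂ))
  (χY₀ θY₀ χY₁ θY₁ : (IY N k → ℂ) → ℂ) (e : ℕ) (A k₀ kY₀ k₁ kY₁ : ℂ)
  (Bp : Matrix (Fin N) (Fin N) ℂ) (Bm : Matrix Unit Unit ℂ) (c b : Matrix (Fin N) Unit ℂ)
  (BpY : Matrix (PI N (k + 1)) (PI N (k + 1)) ℂ) (BmY : Matrix (PI N k) (PI N k) ℂ)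
  (cY bY : Matrix (PI N (k + 1)) (PI N k) ℂ),
  CoD N k δ g L₀ L₁ χ₀ θ₀ χ₁ θ₁ LY₀ LY₁ χY₀ θY₀ χY₁ θY₁ e A k₀ kY₀ k₁ kY₁ Bp Bm c b
    BpY BmY cY bY →
  ∀ᶠ w in nhds (0 : WX N → ℂ), ∀ p, vY N k Bp Bm c b BpY BmY cY bY w p = 0

/-! ## Part E. The operator of the exterior power -/

/-- [LinZ] the equality of the vector fields determines the operator, up to a scalar -/
def St_LinZ : Prop := ∀ (N k : ℕ), k < N → ∀ (Bp : Matrix (Fin N) (Fin N) ℂ)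
  (Bm : Matrix Unit Unit ℂ) (c : Matrix (Fin N) Unit ℂ)
  (BpY : Matrix (PI N (k + 1)) (PI N (k + 1)) ℂ) (BmY : Matrix (PI N k) (PI N k) ℂ)
  (cY bY : Matrix (PI N (k + 1)) (PI N k) ℂ),
  (∀ᶠ w in nhds (0 : WX N → ℂ), ∀ p, vY N k Bp Bm c 0 BpY BmY cY bY w p = 0) →
  bY = 0 ∧ cY = rm N k (fun i => c i ()) ∧ ∃ r : ℂ,
    BpY = dC N (k + 1) Bp - r • (1 : Matrix (PI N (k + 1)) (PI N (k + 1)) ℂ) ∧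
    BmY = (Bm () () + r) • (1 : Matrix (PI N k) (PI N k) ℂ) - (dC N k Bp).transpose

/-- [HatZ] algebra of the operator -/
def St_HatZ : Prop := ∀ (N k : ℕ) (δ : Derivation ℚ ℂ ℂ) (Tp : Matrix (Fin N) (Fin N) ℂ)
  (Tm : Matrix Unit Unit ℂ) (κ : Matrix (Fin N) Unit ℂ) (m A : ℂ), Tp.det ≠ 0 → Tm.det ≠ 0 →
  m ≠ 0 → δ m = A * m →
  (TpY N k m Tp).det ≠ 0 ∧ (TmY N k m Tp Tm).det ≠ 0 ∧
  TpY N k m Tp * (TpY N k m Tp)⁻¹.map δ =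
    dC N (k + 1) (Tp * Tp⁻¹.map δ) -
      ((k : ℂ) * A) • (1 : Matrix (PI N (k + 1)) (PI N (k + 1)) ℂ) ∧
  TmY N k m Tp Tm * (TmY N k m Tp Tm)⁻¹.map δ =
    ((Tm * Tm⁻¹.map δ) () () + (k : ℂ) * A) • (1 : Matrix (PI N k) (PI N k) ℂ) -
      (dC N k (Tp * Tp⁻¹.map δ)).transpose ∧
  -(((TpY N k m Tp)⁻¹).transpose * (rm N k fun i => κ i ()).map δ * (TmY N k m Tp Tm)⁻¹) =
    rm N k fun i => (-((Tp⁻¹).transpose * κ.map δ * Tm⁻¹)) i ()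

/-- [OpZ] the operator of the exterior power -/
def St_OpZ : Prop := ∀ (N k : ℕ), k < N → ∀ (X : AbVar) (d : ℚ) (T : Matrix (IX N) (Fin X.g) ℂ)
  (S : Matrix (Fin X.g) (IX N) ℂ) (Tp : Matrix (Fin N) (Fin N) ℂ) (Tm : Matrix Unit Unit ℂ)
  (Ta : Matrix (IX N) (Fin X.g) ℂ) (Tb : Matrix (Fin X.g) (IX N) ℂ)
  (κ : Matrix (Fin N) Unit ℂ) (g : Matrix (Fin N ⊕ Unit) (Fin N ⊕ Unit) ℂ)
  (r : Fin N ⊕ Unit → ℝ) (q : Fin N ⊕ Unit → ℚ)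
  (L₀ L₁ : Submodule ℤ (IX N → ℂ)) (χ₀ χ₁ : (IX N → ℂ) → ℂ)
  (LY₀ LY₁ : Submodule ℤ (IY N k → ℂ)) (χY₀ χY₁ θY₀ : (IY N k → ℂ) → ℂ)
  (A : Derivation ℚ ℂ ℂ → ℂ) (m : ℂ), NS X d (Fin N) Unit T S Tp Tm Ta Tb κ L₀ →
  IsR d r q → PLat L₀ χ₀ → PLat L₁ χ₁ → PLat LY₀ χY₀ → PLat LY₁ χY₁ → IsLK d r q L₁ →
  IsLK d (rY N k d r) (qY N k d q) LY₁ → Maps g L₁ L₀ χ₁ χ₀ →
  Maps (ek N k g) LY₁ LY₀ χY₁ χY₀ → g.det = 1 → IsTh LY₀ χY₀ θY₀ → (∃ v, θY₀ v ≠ 0) → m ≠ 0 →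
  (∀ δ : Derivation ℚ ℂ ℂ, δ m = A δ * m) →
  (∀ (α β : Type) [Fintype α] [Fintype β] [DecidableEq α] [DecidableEq β] (r : α ⊕ β → ℝ)
    (q : α ⊕ β → ℚ) (L : Submodule ℤ (Ix α β Unit → ℂ)) (χ θ : (Ix α β Unit → ℂ) → ℂ),
    IsR d r q → Nonempty (α ⊕ β) → PLat L χ → IsLK d r q L → IsTh L χ θ → (∃ v, θ v ≠ 0) →
    ∀ δ, ∃ k : ℂ, HasHat δ L θ k (A δ • (1 : Matrix α α ℂ)) (A δ • (1 : Matrix β β ℂ)) 0) →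
  ∀ δ : Derivation ℚ ℂ ℂ, ∃ k' : ℂ, HasHat δ LY₀ θY₀ k'
    (TpY N k m Tp * (TpY N k m Tp)⁻¹.map δ) (TmY N k m Tp Tm * (TmY N k m Tp Tm)⁻¹.map δ)
    (-(((TpY N k m Tp)⁻¹).transpose * (rm N k fun i => κ i ()).map δ *
      (TmY N k m Tp Tm)⁻¹))

end DWZ
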