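import Pool.Agent.DWZ.StB

/-!
# DWZ: frozen statements, the abelian variety of the exterior power and Grothendieck classes
-/

set_option autoImplicit false

namespace DWZ

open scoped ComplexConjugate
open GAM (H E F pd pdl PLat IsTh OddTor IsDel Gro IsLat)
open PST DWC DWY
open Pool.Agent.GPC (AbVar hermForm bilForm)

/-! ## Part G. Existence -/

/-- [NFN] the normal form in signature `(N, 1)` -/
def St_NFN : Prop := ∀ (X : AbVar) (d : ℚ) (J : Module.End ℂ X.H1) (N : ℕ), X.g = N + 1 →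
  IsKs X d J → Module.finrank ℂ (X.filEigen J (zd d)) = 1 →
  ∃ (T : Matrix (IX N) (Fin X.g) ℂ) (S : Matrix (Fin X.g) (IX N) ℂ)
    (Tp : Matrix (Fin N) (Fin N) ℂ) (Tm : Matrix Unit Unit ℂ) (Ta : Matrix (IX N) (Fin X.g) ℂ)
    (g : Matrix (Fin N ⊕ Unit) (Fin N ⊕ Unit) ℂ) (r : Fin N ⊕ Unit → ℝ)
    (q : Fin N ⊕ Unit → ℚ), NFK X d J (Fin N) Unit T S Tp Tm Ta g r q

/-- The abelian variety `X` of signature `(N, 1)` and the abelian variety `Y` of its exterior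
power of degree `k + 1`. -/
structure XD (N k : ℕ) (d : ℚ) (m : ℂ) (n M : ℕ) (X Y : AbVar) (J : Module.End ℂ X.H1)
    (T : Matrix (IX N) (Fin X.g) ℂ) (S : Matrix (Fin X.g) (IX N) ℂ)
    (Tp : Matrix (Fin N) (Fin N) ℂ) (Tm : Matrix Unit Unit ℂ) (Ta : Matrix (IX N) (Fin X.g) ℂ)
    (Tb : Matrix (Fin X.g) (IX N) ℂ) (κ : Matrix (Fin N) Unit ℂ) (L : Submodule ℤ (IX N → ℂ))
    (T' : Matrix (IY N k) (Fin Y.g) ℂ) (S' : Matrix (Fin Y.g) (IY N k) ℂ)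
    (Ta' : Matrix (IY N k) (Fin Y.g) ℂ) (Tb' : Matrix (Fin Y.g) (IY N k) ℂ)
    (LY : Submodule ℤ (IY N k → ℂ)) : Prop where
  kN : k < N
  m0 : m ≠ 0
  nx : NS X d (Fin N) Unit T S Tp Tm Ta Tb κ L
  ny : NS Y d (PI N (k + 1)) (PI N k) T' S' (TpY N k m Tp) (TmY N k m Tp Tm) Ta' Tb'
    (rm N k fun i => κ i ()) LY
  cms : Cms N k ((n : ℝ) * d4 d ^ k) M L LY
  pl : ∃ χ, PLat L χ
  plY : ∃ χ, PLat LY χ
  jx : ∀ v p, XX X T S (J v) p = zd d * XX X T S v p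
  jt : ∀ v p, XT X T S (J v) p = -(zd d * XT X T S v p)

/-- [ExiZ] existence of the abelian variety of the exterior power -/
def St_ExiZ : Prop := ∀ (X : AbVar) (d : ℚ) (J : Module.End ℂ X.H1) (N k : ℕ), k < N →
  X.g = N + 1 → IsKs X d J → Module.finrank ℂ (X.filEigen J (zd d)) = 1 →
  ∃ (m : ℂ) (n M : ℕ) (Y : AbVar) (T : Matrix (IX N) (Fin X.g) ℂ)
    (S : Matrix (Fin X.g) (IX N) ℂ) (Tp : Matrix (Fin N) (Fin N) ℂ) (Tm : Matrix Unit Unit ℂ)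
    (Ta : Matrix (IX N) (Fin X.g) ℂ) (Tb : Matrix (Fin X.g) (IX N) ℂ)
    (κ : Matrix (Fin N) Unit ℂ) (L : Submodule ℤ (IX N → ℂ))
    (T' : Matrix (IY N k) (Fin Y.g) ℂ) (S' : Matrix (Fin Y.g) (IY N k) ℂ)
    (Ta' : Matrix (IY N k) (Fin Y.g) ℂ) (Tb' : Matrix (Fin Y.g) (IY N k) ℂ)
    (LY : Submodule ℤ (IY N k → ℂ)),
    XD N k d m n M X Y J T S Tp Tm Ta Tb κ L T' S' Ta' Tb' LY

/-! ## Part H. Grothendieck classes -/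

/-- Two families of `k + 1` vectors, joined. -/
def jn {V : Type} (k : ℕ) (u v : Fin (k + 1) → V) : Fin (2 * (k + 1)) → V := fun i =>
  if h : (i : ℕ) < k + 1 then u ⟨i, h⟩ else v ⟨(i : ℕ) - (k + 1), by omega⟩

/-- The exterior product of the coordinates `XX`. -/
noncomputable def wX (N k : ℕ) (X : AbVar) (T : Matrix (IX N) (Fin X.g) ℂ)
    (S : Matrix (Fin X.g) (IX N) ℂ) (u : Fin (k + 1) → X.H1) : PI N (k + 1) ⊕ PI N k → ℂ :=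
  wdv N k fun i s => XX X T S (u i) (s, ())

/-- The exterior product of the coordinates `XT`. -/
noncomputable def wT (N k : ℕ) (X : AbVar) (T : Matrix (IX N) (Fin X.g) ℂ)
    (S : Matrix (Fin X.g) (IX N) ℂ) (u : Fin (k + 1) → X.H1) : PI N (k + 1) ⊕ PI N k → ℂ :=
  wdv N k fun i s => XT X T S (u i) (s, ())

/-- `A` is the matrix of the part of type `(k + 1, k + 1)` of the class `α`. -/
def MatA (N k : ℕ) (d : ℚ) (X : AbVar) (J : Module.End ℂ X.H1)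
    (T : Matrix (IX N) (Fin X.g) ℂ) (S : Matrix (Fin X.g) (IX N) ℂ)
    (α : X.Class (2 * (k + 1)))
    (A : Matrix (PI N (k + 1) ⊕ PI N k) (PI N (k + 1) ⊕ PI N k) ℂ) : Prop :=
  ∀ u v : Fin (k + 1) → X.H1, (∀ i, J (u i) = zd d • u i) → (∀ i, J (v i) = (-zd d) • v i) →
    α (jn k u v) = (Real.pi : ℂ) ^ (k + 1) *
      blv N k (A.mulVec (wX N k X T S u)) (wT N k X T S v)

/-- The matrix of the de Rham coordinates of the exterior power. -/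
noncomputable def dRm (N k : ℕ) (Tp : Matrix (Fin N) (Fin N) ℂ) (Tm : Matrix Unit Unit ℂ)
    (κ : Matrix (Fin N) Unit ℂ) :
    Matrix (PI N (k + 1) ⊕ PI N k) (PI N (k + 1) ⊕ PI N k) ℂ :=
  Matrix.fromBlocks (cmp N (k + 1) Tp) 0 0 (((Real.pi : ℂ) * Tm () ())⁻¹ • cmp N k Tp) *
    Matrix.fromBlocks 1 0 (-(rm N k fun i => κ i ()).transpose) 1

/-- [Acl] the matrix exists -/
def St_Acl : Prop := ∀ (N k : ℕ) (d : ℚ) (m : ℂ) (n M : ℕ) (X Y : AbVar)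
  (J : Module.End ℂ X.H1) (T : Matrix (IX N) (Fin X.g) ℂ) (S : Matrix (Fin X.g) (IX N) ℂ)
  (Tp : Matrix (Fin N) (Fin N) ℂ) (Tm : Matrix Unit Unit ℂ) (Ta : Matrix (IX N) (Fin X.g) ℂ)
  (Tb : Matrix (Fin X.g) (IX N) ℂ) (κ : Matrix (Fin N) Unit ℂ) (L : Submodule ℤ (IX N → ℂ))
  (T' : Matrix (IY N k) (Fin Y.g) ℂ) (S' : Matrix (Fin Y.g) (IY N k) ℂ)
  (Ta' : Matrix (IY N k) (Fin Y.g) ℂ) (Tb' : Matrix (Fin Y.g) (IY N k) ℂ)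
  (LY : Submodule ℤ (IY N k → ℂ)), XD N k d m n M X Y J T S Tp Tm Ta Tb κ L T' S' Ta' Tb' LY →
  ∀ α : X.Class (2 * (k + 1)), ∃ A, MatA N k d X J T S α A

/-- [Abar] the matrix is self adjoint for the Hermitian form of signature `(p, q)` -/
def St_Abar : Prop := ∀ (N k : ℕ) (d : ℚ) (m : ℂ) (n M : ℕ) (X Y : AbVar)
  (J : Module.End ℂ X.H1) (T : Matrix (IX N) (Fin X.g) ℂ) (S : Matrix (Fin X.g) (IX N) ℂ)
  (Tp : Matrix (Fin N) (Fin N) ℂ) (Tm : Matrix Unit Unit ℂ) (Ta : Matrix (IX N) (Fin X.g) ℂ)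
  (Tb : Matrix (Fin X.g) (IX N) ℂ) (κ : Matrix (Fin N) Unit ℂ) (L : Submodule ℤ (IX N → ℂ))
  (T' : Matrix (IY N k) (Fin Y.g) ℂ) (S' : Matrix (Fin Y.g) (IY N k) ℂ)
  (Ta' : Matrix (IY N k) (Fin Y.g) ℂ) (Tb' : Matrix (Fin Y.g) (IY N k) ℂ)
  (LY : Submodule ℤ (IY N k → ℂ)), XD N k d m n M X Y J T S Tp Tm Ta Tb κ L T' S' Ta' Tb' LY →
  ∀ (α : X.Class (2 * (k + 1)))
    (A : Matrix (PI N (k + 1) ⊕ PI N k) (PI N (k + 1) ⊕ PI N k) ℂ),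
    X.IsRational (k + 1) α → MatA N k d X J T S α A →
    A.map conj = Jm (PI N (k + 1)) (PI N k) * A.transpose * Jm (PI N (k + 1)) (PI N k)

/-- [Abet] the matrix preserves the lattice, up to isogeny -/
def St_Abet : Prop := ∀ (N k : ℕ) (d : ℚ) (m : ℂ) (n M : ℕ) (X Y : AbVar)
  (J : Module.End ℂ X.H1) (T : Matrix (IX N) (Fin X.g) ℂ) (S : Matrix (Fin X.g) (IX N) ℂ)
  (Tp : Matrix (Fin N) (Fin N) ℂ) (Tm : Matrix Unit Unit ℂ) (Ta : Matrix (IX N) (Fin X.g) ℂ)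
  (Tb : Matrix (Fin X.g) (IX N) ℂ) (κ : Matrix (Fin N) Unit ℂ) (L : Submodule ℤ (IX N → ℂ))
  (T' : Matrix (IY N k) (Fin Y.g) ℂ) (S' : Matrix (Fin Y.g) (IY N k) ℂ)
  (Ta' : Matrix (IY N k) (Fin Y.g) ℂ) (Tb' : Matrix (Fin Y.g) (IY N k) ℂ)
  (LY : Submodule ℤ (IY N k → ℂ)), XD N k d m n M X Y J T S Tp Tm Ta Tb κ L T' S' Ta' Tb' LY →
  ∀ (α : X.Class (2 * (k + 1)))
    (A : Matrix (PI N (k + 1) ⊕ PI N k) (PI N (k + 1) ⊕ PI N k) ℂ),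
    X.IsRational (k + 1) α → MatA N k d X J T S α A →
    ∀ y ∈ LY, ∃ a : ℕ, a ≠ 0 ∧ (a : ℤ) • act A y ∈ LY

/-- [AdR] the matrix in de Rham coordinates -/
def St_AdR : Prop := ∀ (N k : ℕ) (d : ℚ) (m : ℂ) (n M : ℕ) (X Y : AbVar)
  (J : Module.End ℂ X.H1) (T : Matrix (IX N) (Fin X.g) ℂ) (S : Matrix (Fin X.g) (IX N) ℂ)
  (Tp : Matrix (Fin N) (Fin N) ℂ) (Tm : Matrix Unit Unit ℂ) (Ta : Matrix (IX N) (Fin X.g) ℂ)
  (Tb : Matrix (Fin X.g) (IX N) ℂ) (κ : Matrix (Fin N) Unit ℂ) (L : Submodule ℤ (IX N → ℂ))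
  (T' : Matrix (IY N k) (Fin Y.g) ℂ) (S' : Matrix (Fin Y.g) (IY N k) ℂ)
  (Ta' : Matrix (IY N k) (Fin Y.g) ℂ) (Tb' : Matrix (Fin Y.g) (IY N k) ℂ)
  (LY : Submodule ℤ (IY N k → ℂ)), XD N k d m n M X Y J T S Tp Tm Ta Tb κ L T' S' Ta' Tb' LY →
  ∀ (α : X.Class (2 * (k + 1)))
    (A : Matrix (PI N (k + 1) ⊕ PI N k) (PI N (k + 1) ⊕ PI N k) ℂ),
    (∀ v : Fin (2 * (k + 1)) → X.H1, (∀ r, X.IsDeRham (v r)) → IsAlgebraic ℚ (α v)) →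
    MatA N k d X J T S α A →
    ∃ A' : Matrix (PI N (k + 1) ⊕ PI N k) (PI N (k + 1) ⊕ PI N k) ℂ,
      (∀ p q, IsAlgebraic ℚ (A' p q)) ∧ A * dRm N k Tp Tm κ = dRm N k Tp Tm κ * A'

/-- [FEnd] such a matrix is an endomorphism of `Y`, hence it preserves the Hodge filtration -/
def St_FEnd : Prop := ∀ (N k : ℕ) (d : ℚ) (m : ℂ) (n M : ℕ) (X Y : AbVar)
  (J : Module.End ℂ X.H1) (T : Matrix (IX N) (Fin X.g) ℂ) (S : Matrix (Fin X.g) (IX N) ℂ)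
  (Tp : Matrix (Fin N) (Fin N) ℂ) (Tm : Matrix Unit Unit ℂ) (Ta : Matrix (IX N) (Fin X.g) ℂ)
  (Tb : Matrix (Fin X.g) (IX N) ℂ) (κ : Matrix (Fin N) Unit ℂ) (L : Submodule ℤ (IX N → ℂ))
  (T' : Matrix (IY N k) (Fin Y.g) ℂ) (S' : Matrix (Fin Y.g) (IY N k) ℂ)
  (Ta' : Matrix (IY N k) (Fin Y.g) ℂ) (Tb' : Matrix (Fin Y.g) (IY N k) ℂ)
  (LY : Submodule ℤ (IY N k → ℂ)), XD N k d m n M X Y J T S Tp Tm Ta Tb κ L T' S' Ta' Tb' LY →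
  ∀ A A' : Matrix (PI N (k + 1) ⊕ PI N k) (PI N (k + 1) ⊕ PI N k) ℂ,
    A.map conj = Jm (PI N (k + 1)) (PI N k) * A.transpose * Jm (PI N (k + 1)) (PI N k) →
    (∀ y ∈ LY, ∃ a : ℕ, a ≠ 0 ∧ (a : ℤ) • act A y ∈ LY) →
    (∀ p q, IsAlgebraic ℚ (A' p q)) → A * dRm N k Tp Tm κ = dRm N k Tp Tm κ * A' →
    ∀ P Q, A (Sum.inl P) (Sum.inr Q) = 0 ∧ A (Sum.inr Q) (Sum.inl P) = 0

/-- [HodZ] the part of type `(k + 1, k + 1)` of a Grothendieck class is a Hodge class -/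
def St_HodZ : Prop := ∀ (X : AbVar) (d : ℚ) (J : Module.End ℂ X.H1) (N k : ℕ) (z : ℂ), k < N →
  X.g = N + 1 → IsKs X d J → z ^ 2 = -(d : ℂ) → Module.finrank ℂ (X.filEigen J z) = 1 →
  ∀ α : X.Class (2 * (k + 1)), X.IsGrothendieckClass (k + 1) α →
  ∀ v : Fin (2 * (k + 1)) → X.H1,
    (∀ i : Fin (2 * (k + 1)), (i : ℕ) < k + 1 → J (v i) = z • v i) →
    (∀ i : Fin (2 * (k + 1)), k + 1 ≤ (i : ℕ) → J (v i) = (-z) • v i ∧ X.IsFil (v i)) →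
    (∃ i : Fin (2 * (k + 1)), (i : ℕ) < k + 1 ∧ X.IsFil (v i)) → α v = 0

end DWZ
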